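import Mathlib

/-!
# Newton identities for `∏ (1 - q X) ^ (M q)` and the power sum bookkeeping

## Proofs

* `newton`: with `b = bpoly M`, product rule: `b' = - ∑_q M_q q b / (1 - q X)`.  Avoid division by
  working in power series: `(1 - qX)⁻¹ = ∑ q^m X^m`.  Or by induction on the finite set: if
  `b = (1 - qX) c` and `X c' = - S c`, `S = ∑_{m ≥ 1} p_m X^m` (power series), then
  `X b' = - q X c + (1 - qX) X c' = - (q X / (1 - qX) + S) b` and
  `q X / (1 - qX) = ∑_{m ≥ 1} q^m X^m`.
* `sum_pow_units`: `FiniteField.sum_pow_lt_card_sub_one` / `sum_pow_units`.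
-/

namespace AER

open Polynomial

/-- `∏_{q ≠ 0} (1 - q X) ^ (M q)` -/
noncomputable def bpoly {F : Type*} [Field F] [Fintype F] [DecidableEq F] (M : F → ℕ) :
    Polynomial F :=
  ∏ q ∈ Finset.univ.erase (0 : F), (1 - C q * X) ^ (M q)

variable {F : Type*} [Field F] [Fintype F] [DecidableEq F]

theorem bpoly_coeff_zero (M : F → ℕ) : (bpoly M).coeff 0 = 1 := by
  unfold bpoly
  rw [coeff_zero_eq_eval_zero, eval_prod]
  refine Finset.prod_eq_one fun q _ => ?_
  simp

theorem bpoly_natDegree (M : F → ℕ) :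
    (bpoly M).natDegree ≤ ∑ q ∈ Finset.univ.erase (0 : F), M q := by
  unfold bpoly
  refine (natDegree_prod_le _ _).trans (Finset.sum_le_sum fun q _ => ?_)
  refine natDegree_pow_le.trans ?_
  have h : (1 - C q * X : F[X]).natDegree ≤ 1 := by
    refine (natDegree_sub_le _ _).trans (max_le ?_ ?_)
    · rw [natDegree_one]
      exact Nat.zero_le _
    · exact (natDegree_C_mul_le _ _).trans natDegree_X_le
  calc M q * (1 - C q * X : F[X]).natDegree ≤ M q * 1 := Nat.mul_le_mul_left _ h
    _ = M q := Nat.mul_one _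

/-- the series `∑_{m ≥ 1} p_m X^m` -/
private noncomputable def nwS (p : ℕ → F) : PowerSeries F := PowerSeries.mk fun m => if m = 0 then 0 else p m

/-- `X b' = - S b` -/
private def nwP (p : ℕ → F) (b : PowerSeries F) : Prop :=
  PowerSeries.X * PowerSeries.derivative F b = -(nwS p * b)

omit [Fintype F] [DecidableEq F] in
private theorem nwS_add (p r : ℕ → F) : nwS (fun m => p m + r m) = nwS p + nwS r := by
  ext n
  unfold nwS
  rw [map_add, PowerSeries.coeff_mk, PowerSeries.coeff_mk, PowerSeries.coeff_mk]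
  split_ifs
  · simp
  · rfl

omit [Fintype F] [DecidableEq F] in
private theorem nwP_mul {p r : ℕ → F} {b c : PowerSeries F} (hb : nwP p b) (hc : nwP r c) :
    nwP (fun m => p m + r m) (b * c) := by
  unfold nwP at hb hc ⊢
  rw [nwS_add, Derivation.leibniz, smul_eq_mul, smul_eq_mul]
  linear_combination b * hc + c * hb

omit [Fintype F] [DecidableEq F] in
private theorem nwP_one : nwP (fun _ => (0 : F)) (1 : PowerSeries F) := by
  unfold nwP nwS
  have h : (PowerSeries.mk fun m => if m = 0 then (0 : F) else 0) = 0 := by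
    ext n
    rw [PowerSeries.coeff_mk]
    simp
  rw [h, Derivation.map_one_eq_zero]
  simp

omit [Fintype F] [DecidableEq F] in
private theorem nwP_pow {p : ℕ → F} {b : PowerSeries F} (hb : nwP p b) (n : ℕ) :
    nwP (fun m => (n : F) * p m) (b ^ n) := by
  induction n with
  | zero =>
    have h := nwP_one (F := F)
    have e : (fun m => ((0 : ℕ) : F) * p m) = fun _ => (0 : F) := by
      funext m
      simp
    rw [e, pow_zero]
    exact h
  | succ n ih =>
    have h := nwP_mul ih hb
    have e : (fun m => ((n + 1 : ℕ) : F) * p m) = fun m => (n : F) * p m + p m := by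
      funext m
      push_cast
      ring
    rw [e, pow_succ]
    exact h

omit [Fintype F] [DecidableEq F] in
private theorem nwP_base (q : F) : nwP (fun m => q ^ m) (1 - PowerSeries.C q * PowerSeries.X) := by
  unfold nwP
  have e1 : PowerSeries.derivative F (1 - PowerSeries.C q * PowerSeries.X) = -PowerSeries.C q := by
    ext n
    rw [PowerSeries.coeff_derivative]
    rcases n with _ | n
    · simp [PowerSeries.coeff_one]
    · simp [PowerSeries.coeff_one, PowerSeries.coeff_C]
  have e2 : nwS (fun m => q ^ m) * (1 - PowerSeries.C q * PowerSeries.X) = PowerSeries.C q * PowerSeries.X := by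
    ext n
    rw [mul_sub, mul_one, ← mul_assoc, map_sub]
    rcases n with _ | n
    · simp [nwS]
    · rw [PowerSeries.coeff_succ_mul_X, PowerSeries.coeff_succ_mul_X, mul_comm (nwS _), PowerSeries.coeff_C_mul]
      unfold nwS
      rw [PowerSeries.coeff_mk, PowerSeries.coeff_mk, PowerSeries.coeff_C]
      rcases n with _ | n
      · simp
      · simp [pow_succ]
        ring
  rw [e1, e2]
  ring

omit [Fintype F] in
private theorem nwP_prod (M : F → ℕ) (s : Finset F) :
    nwP (fun m => ∑ q ∈ s, (M q : F) * q ^ m) (∏ q ∈ s, (1 - PowerSeries.C q * PowerSeries.X) ^ (M q)) := by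
  induction s using Finset.induction_on with
  | empty =>
    simp only [Finset.sum_empty, Finset.prod_empty]
    exact nwP_one
  | insert a s ha ih =>
    rw [Finset.prod_insert ha]
    have e : (fun m => ∑ q ∈ insert a s, (M q : F) * q ^ m) =
        fun m => (M a : F) * a ^ m + ∑ q ∈ s, (M q : F) * q ^ m := by
      funext m
      rw [Finset.sum_insert ha]
    rw [e]
    exact nwP_mul (nwP_pow (nwP_base a) (M a)) ih

/-- Newton's identities: `n b_n = - ∑_{m=1}^{n} p_m b_{n-m}`, `p_m = ∑_{q ≠ 0} M_q q^m` -/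
theorem newton (M : F → ℕ) (n : ℕ) :
    (n : F) * (bpoly M).coeff n =
      - ∑ m ∈ Finset.Icc 1 n, (∑ q ∈ Finset.univ.erase (0 : F), (M q : F) * q ^ m) *
        (bpoly M).coeff (n - m) := by
  have h := nwP_prod M (Finset.univ.erase (0 : F))
  have e : (∏ q ∈ Finset.univ.erase (0 : F), (1 - PowerSeries.C q * PowerSeries.X) ^ (M q)) =
      ((bpoly M : F[X]) : PowerSeries F) := by
    unfold bpoly
    rw [← Polynomial.coeToPowerSeries.ringHom_apply, map_prod]
    refine Finset.prod_congr rfl fun q _ => ?_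
    rw [map_pow, map_sub, map_one, map_mul, Polynomial.coeToPowerSeries.ringHom_apply,
      Polynomial.coeToPowerSeries.ringHom_apply, Polynomial.coe_C, Polynomial.coe_X]
  rw [e] at h
  unfold nwP at h
  have h1 := congrArg (PowerSeries.coeff n) h
  have h3 := PowerSeries.coeff_mul n (nwS fun m => ∑ q ∈ Finset.univ.erase (0 : F), (M q : F) * q ^ m)
    ((bpoly M : F[X]) : PowerSeries F)
  rw [Finset.Nat.sum_antidiagonal_eq_sum_range_succ
    (f := fun i j => (PowerSeries.coeff i) (nwS fun m => ∑ q ∈ Finset.univ.erase (0 : F), (M q : F) * q ^ m) *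
      (PowerSeries.coeff j) ((bpoly M : F[X]) : PowerSeries F)) n] at h3
  rw [map_neg, h3] at h1
  have h2 : (PowerSeries.coeff n) (PowerSeries.X * PowerSeries.derivative F ((bpoly M : F[X]) : PowerSeries F)) =
      (n : F) * (bpoly M).coeff n := by
    rcases n with _ | n
    · simp
    · rw [PowerSeries.coeff_succ_X_mul, PowerSeries.coeff_derivative,
        Polynomial.coeff_coe]
      push_cast
      ring
  rw [h2] at h1
  rw [h1]
  congr 1
  symm
  refine Finset.sum_subset_zero_on_sdiff ?_ ?_ ?_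
  · intro m hm
    rw [Finset.mem_Icc] at hm
    rw [Finset.mem_range]
    omega
  · intro m hm
    rw [Finset.mem_sdiff, Finset.mem_range, Finset.mem_Icc] at hm
    have : m = 0 := by omega
    subst this
    simp [nwS]
  · intro m hm
    rw [Finset.mem_Icc] at hm
    rw [Polynomial.coeff_coe]
    unfold nwS
    rw [PowerSeries.coeff_mk, if_neg (by omega)]

/-- power sums over the nonzero elements of `ZMod l` -/
theorem sum_pow_nonzero (l : ℕ) [Fact l.Prime] (n : ℕ) :
    ∑ q ∈ Finset.univ.erase (0 : ZMod l), q ^ n = if (l - 1) ∣ n then -1 else 0 := by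
  have h := FiniteField.sum_pow_units (ZMod l) n
  rw [ZMod.card] at h
  rw [← h]
  symm
  refine Finset.sum_bij (fun (u : (ZMod l)ˣ) _ => (u : ZMod l)) ?_ ?_ ?_ ?_
  · intro u _
    exact Finset.mem_erase.2 ⟨u.ne_zero, Finset.mem_univ _⟩
  · intro u _ v _ huv
    exact Units.ext huv
  · intro q hq
    exact ⟨Units.mk0 q (Finset.mem_erase.1 hq).1, Finset.mem_univ _, rfl⟩
  · intro u _
    rfl

/-- the equation for `M` on the nonzero classes determines the power sums of index
`1 ≤ m ≤ l - 2`: if `κ M_q = e - ∑_{i < l} c_i q^i` for all `q ≠ 0`, then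
`κ ∑_{q ≠ 0} M_q q^m = c_{l-1-m}` -/
theorem power_sum_eq (l : ℕ) [Fact l.Prime] (κ e : ZMod l) (M : ZMod l → ℕ) (c : ℕ → ZMod l)
    (h : ∀ q : ZMod l, q ≠ 0 → κ * (M q : ZMod l) = e - ∑ i ∈ Finset.range l, c i * q ^ i)
    {m : ℕ} (hm1 : 1 ≤ m) (hm : m + 2 ≤ l) :
    κ * ∑ q ∈ Finset.univ.erase (0 : ZMod l), (M q : ZMod l) * q ^ m = c (l - 1 - m) := by
  have h1 : κ * ∑ q ∈ Finset.univ.erase (0 : ZMod l), (M q : ZMod l) * q ^ m =
      e * ∑ q ∈ Finset.univ.erase (0 : ZMod l), q ^ m -
        ∑ i ∈ Finset.range l, c i * ∑ q ∈ Finset.univ.erase (0 : ZMod l), q ^ (i + m) := by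
    rw [Finset.mul_sum, Finset.mul_sum]
    have e1 : ∑ i ∈ Finset.range l, c i * ∑ q ∈ Finset.univ.erase (0 : ZMod l), q ^ (i + m) =
        ∑ q ∈ Finset.univ.erase (0 : ZMod l), ∑ i ∈ Finset.range l, c i * q ^ (i + m) := by
      rw [Finset.sum_comm]
      refine Finset.sum_congr rfl fun i _ => ?_
      rw [Finset.mul_sum]
    rw [e1, ← Finset.sum_sub_distrib]
    refine Finset.sum_congr rfl fun q hq => ?_
    rw [← mul_assoc, h q (Finset.mem_erase.1 hq).1, sub_mul, Finset.sum_mul]
    congr 1
    refine Finset.sum_congr rfl fun i _ => ?_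
    rw [pow_add]
    ring
  rw [h1, sum_pow_nonzero, if_neg (fun hd => by
    have := Nat.le_of_dvd (by omega) hd
    omega), mul_zero, zero_sub]
  rw [Finset.sum_eq_single (l - 1 - m)]
  · rw [sum_pow_nonzero, if_pos (by
      have : l - 1 - m + m = l - 1 := by omega
      rw [this])]
    ring
  · intro i hi hne
    rw [Finset.mem_range] at hi
    rw [sum_pow_nonzero, if_neg, mul_zero]
    intro hd
    obtain ⟨t, ht⟩ := hd
    have h2 : 2 ≤ l := by omega
    rcases t with _ | t
    · rw [Nat.mul_zero] at ht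
      omega
    · rcases t with _ | t
      · rw [Nat.zero_add, Nat.mul_one] at ht
        omega
      · have : (l - 1) * (t + 1 + 1) ≥ (l - 1) * 2 := Nat.mul_le_mul_left _ (by omega)
        omega
  · intro hn
    exfalso
    apply hn
    rw [Finset.mem_range]
    omega

end AER
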