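import Pool.Agent.Lib_MP_aeefb1_reg.Cyc

/-!
MP_aeefb1_nt: further elementary facts on the ring of integers.
-/

open Finset

namespace AER

variable {l : ℕ} [hlp : Fact l.Prime] {R : Type} [CommRing R] [IsDedekindDomain R]
  [CharZero R] [Module.Free ℤ R] [Module.Finite ℤ R]

namespace Cyc

variable (Q : Cyc l R)

private theorem Elem_sum_pow {l : ℕ} (hl : l.Prime) {R : Type} [CommRing R] {ι : Type*} [DecidableEq ι]
    (s : Finset ι) (f : ι → R) : (l : R) ∣ (∑ i ∈ s, f i) ^ l - ∑ i ∈ s, f i ^ l := by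
  induction s using Finset.induction_on with
  | empty => simp [zero_pow hl.ne_zero]
  | insert a s ha ih =>
    obtain ⟨r, hr⟩ := exists_add_pow_prime_eq hl (f a) (∑ i ∈ s, f i)
    rw [sum_insert ha, sum_insert ha, hr]
    have e : f a ^ l + (∑ i ∈ s, f i) ^ l + (l * f a * ∑ i ∈ s, f i) * r -
        (f a ^ l + ∑ i ∈ s, f i ^ l) =
        ((∑ i ∈ s, f i) ^ l - ∑ i ∈ s, f i ^ l) + l * (f a * (∑ i ∈ s, f i) * r) := by ring
    rw [e]
    exact dvd_add ih (dvd_mul_right _ _)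

include hlp in
private theorem Elem_fermat (m : ℤ) : (l : ℤ) ∣ m ^ l - m := by
  rw [← ZMod.intCast_zmod_eq_zero_iff_dvd]
  push_cast
  rw [ZMod.pow_card, sub_self]

/-- `l`-th powers are congruent to integers modulo `l` -/
theorem pow_l_int (x : R) : ∃ m : ℤ, (l : R) ∣ x ^ l - m ∧ Q.lam ∣ x - m := by
  obtain ⟨v, hx⟩ := Q.span' x
  refine ⟨∑ i, v i ^ l, ?_, ?_⟩
  · have h := Elem_sum_pow hlp.out (univ : Finset (ZMod l)) (fun i => (v i : R) * Q.e i)
    rw [← hx] at h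
    have e : ∑ i, ((v i : R) * Q.e i) ^ l = ((∑ i, v i ^ l : ℤ) : R) := by
      push_cast
      refine sum_congr rfl fun i _ => ?_
      rw [mul_pow, e_pow, CharP.cast_eq_zero, zero_mul, e_zero, mul_one]
    rwa [e] at h
  · have e : x - ((∑ i, v i ^ l : ℤ) : R) =
        ∑ i, ((v i : R) * (Q.e i - 1) - ((v i ^ l - v i : ℤ) : R)) := by
      rw [hx]; push_cast; rw [← sum_sub_distrib]
      exact sum_congr rfl (fun i _ => by ring)
    rw [e]
    exact dvd_sum fun i _ => dvd_sub ((Q.lam_dvd_e_sub_one i).mul_left _)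
      (Q.lam_dvd_of_l_dvd (Elem_fermat (v i)))

/-- congruent modulo `λ ^ l` implies norms congruent modulo `l ^ 2` -/
theorem norm_congr {x y : R} (h : Q.lam ^ l ∣ x - y) :
    ((Algebra.norm ℤ x : ℤ) : ZMod (l ^ 2)) = ((Algebra.norm ℤ y : ℤ) : ZMod (l ^ 2)) := by
  have key : ∀ s : Finset (ZMod l), (∀ a ∈ s, a ≠ 0) →
      Q.lam ^ l ∣ ∏ a ∈ s, Q.σ a x - ∏ a ∈ s, Q.σ a y := by
    intro s
    induction s using Finset.induction_on with
    | empty => intro _; simp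
    | insert a s ha ih =>
      intro hs
      have ih' := ih (fun b hb => hs b (mem_insert_of_mem hb))
      have ha0 := hs a (mem_insert_self a s)
      rw [prod_insert ha, prod_insert ha]
      have e : Q.σ a x * ∏ b ∈ s, Q.σ b x - Q.σ a y * ∏ b ∈ s, Q.σ b y
        = Q.σ a (x - y) * ∏ b ∈ s, Q.σ b x
          + Q.σ a y * (∏ b ∈ s, Q.σ b x - ∏ b ∈ s, Q.σ b y) := by
        rw [map_sub]
        ring
      rw [e]
      exact dvd_add ((Q.σ_dvd ha0 h).mul_right _) (ih'.mul_left _)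
  have h1 : Q.lam ^ l ∣ ((Algebra.norm ℤ x - Algebra.norm ℤ y : ℤ) : R) := by
    push_cast
    rw [Q.norm_eq, Q.norm_eq]
    exact key _ (fun a ha => (mem_erase.mp ha).1)
  have h2 := Q.lam_pow_l_int h1
  rw [← sub_eq_zero, ← Int.cast_sub, ZMod.intCast_zmod_eq_zero_iff_dvd]
  push_cast
  exact h2

/-- a unit which is real modulo `l` is real -/
theorem conj_unit {u : Rˣ} (h : (l : R) ∣ (u : R) - Q.conj u) : Q.conj (u : R) = u := by
  obtain ⟨i, hi⟩ := Q.unit_real u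
  have hi' : Q.conj (Q.z ^ i * u) = Q.z ^ i * u := hi
  rw [map_mul, Q.z_pow, Q.conj_e] at hi'
  have h1 : Q.conj (u : R) = Q.e ((i : ZMod l) + i) * u := by
    have h2 := Q.e_neg_mul (i : ZMod l)
    rw [Q.e_add]
    calc Q.conj (u : R) = Q.e (i : ZMod l) * (Q.e (-(i : ZMod l)) * Q.conj (u : R)) := by
          linear_combination (-Q.conj (u : R)) * h2
      _ = _ := by rw [hi']; ring
  by_cases ha : ((i : ZMod l) + i) = 0
  · rw [h1, ha, Q.e_zero, one_mul]
  · exfalso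
    have h3 : (u : R) - Q.conj u = (1 - Q.e ((i : ZMod l) + i)) * u := by rw [h1]; ring
    rw [h3] at h
    have h4 : (l : R) ∣ 1 - Q.e ((i : ZMod l) + i) := u.isUnit.dvd_mul_right.mp h
    have h5 := (Q.l_dvd_iff.mp h4).trans (Q.assoc_one_sub ha).symm.dvd
    have hl := Q.five_le
    have h6 : Q.lam ^ 2 ∣ Q.lam := (pow_dvd_pow _ (by omega)).trans h5
    have h7 : Q.lam * Q.lam ∣ Q.lam * 1 := by rw [mul_one, ← sq]; exact h6
    exact Q.not_isUnit_lam (isUnit_of_dvd_one ((mul_dvd_mul_iff_left Q.lam_ne_zero).mp h7))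

/-- a suitable `z ^ a x` is real modulo `λ ^ 2` -/
theorem exists_normal {x : R} (hx : ¬ Q.lam ∣ x) :
    ∃ a : ZMod l, Q.lam ^ 2 ∣ Q.e a * x - Q.conj (Q.e a * x) := by
  obtain ⟨m, s, hs⟩ := Q.exists_int x
  obtain ⟨n, t, ht⟩ := Q.exists_int s
  have hm : (m : ZMod l) ≠ 0 := by
    intro h
    rw [ZMod.intCast_zmod_eq_zero_iff_dvd] at h
    exact hx (by
      have : x = Q.lam * s + m := by rw [← hs]; ring
      rw [this]
      exact dvd_add (dvd_mul_right _ _) (Q.lam_dvd_of_l_dvd h))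
  set a : ZMod l := (n : ZMod l) / (m : ZMod l) with ha
  have hval : (l : ℤ) ∣ n - a.val * m := by
    rw [← ZMod.intCast_zmod_eq_zero_iff_dvd]
    push_cast
    rw [ZMod.natCast_zmod_val, ha, div_mul_cancel₀ _ hm, sub_self]
  obtain ⟨r, hr⟩ := Q.lam_sq_dvd_zpow a.val
  obtain ⟨w, hw⟩ := Q.lam_dvd_of_l_dvd hval
  push_cast at hw
  have hy : Q.lam ^ 2 ∣ Q.e a * x - m := by
    have e1 : Q.e a = (1 - a.val * Q.lam) + Q.lam ^ 2 * r := by
      have : Q.e a = Q.z ^ a.val := rfl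
      rw [this, ← hr]; ring
    have e2 : x = m + Q.lam * n + Q.lam ^ 2 * t := by
      linear_combination hs + Q.lam * ht
    refine ⟨w + t - a.val * n - a.val * Q.lam * t + r * x, ?_⟩
    rw [e1]
    have e3 : (1 - (a.val : R) * Q.lam + Q.lam ^ 2 * r) * x - m =
        (1 - (a.val : R) * Q.lam) * x - m + Q.lam ^ 2 * (r * x) := by ring
    rw [e3]
    have e4 : (1 - (a.val : R) * Q.lam) * x - m =
        Q.lam * ((n : R) - a.val * m) + Q.lam ^ 2 * (t - a.val * n - a.val * Q.lam * t) := by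
      rw [e2]; ring
    rw [e4, hw]
    ring
  refine ⟨a, ?_⟩
  have h2 := Q.σ_dvd neg_one_ne_zero' hy
  have h3 : Q.lam ^ 2 ∣ Q.conj (Q.e a * x) - m := by
    have : Q.conj (Q.e a * x) - m = Q.σ (-1) (Q.e a * x - m) := by
      rw [map_sub, map_intCast]; rfl
    rw [this]
    exact h2
  have e : Q.e a * x - Q.conj (Q.e a * x) = (Q.e a * x - m) - (Q.conj (Q.e a * x) - m) := by ring
  rw [e]
  exact dvd_sub hy h3

end Cyc

end AER
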