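import Mathlib

/-!
MP_aeefb1_nt: product of `1 + y_i` from the power sums, modulo `l ^ 2`.
-/

open Finset

namespace AER

private noncomputable def NewtonL_e {A : Type} [CommRing A] {ι : Type} [Fintype ι] (y : ι → A) (k : ℕ) : A :=
  ∑ s ∈ powersetCard k univ, ∏ i ∈ s, y i

private theorem NewtonL_e_eq {A : Type} [CommRing A] {ι : Type} [Fintype ι] [DecidableEq ι] (y : ι → A) (k : ℕ) :
    MvPolynomial.aeval y (MvPolynomial.esymm ι ℤ k) = NewtonL_e y k := by
  unfold MvPolynomial.esymm NewtonL_e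
  rw [map_sum]
  refine sum_congr rfl fun s _ => ?_
  rw [map_prod]
  exact prod_congr rfl fun i _ => MvPolynomial.aeval_X y i

private theorem NewtonL_newton {A : Type} [CommRing A] {ι : Type} [Fintype ι] [DecidableEq ι] (y : ι → A) (k : ℕ) :
    (k : A) * NewtonL_e y k = (-1) ^ (k + 1) *
      ∑ a ∈ antidiagonal k with a.1 < k, (-1) ^ a.1 * NewtonL_e y a.1 * ∑ i, y i ^ a.2 := by
  have h := congrArg (MvPolynomial.aeval y) (MvPolynomial.mul_esymm_eq_sum ι ℤ k)
  rw [map_mul, map_mul, map_natCast, NewtonL_e_eq, map_pow, map_neg, map_one, map_sum] at h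
  rw [h]
  congr 1
  refine sum_congr rfl fun a _ => ?_
  rw [map_mul, map_mul, map_pow, map_neg, map_one, NewtonL_e_eq]
  congr 1
  unfold MvPolynomial.psum
  rw [map_sum]
  refine sum_congr rfl fun i _ => ?_
  rw [map_pow, MvPolynomial.aeval_X]

private theorem NewtonL_zero {A : Type} [CommRing A] {ι : Type} [Fintype ι] (y : ι → A) : NewtonL_e y 0 = 1 := by
  unfold NewtonL_e
  rw [powersetCard_zero, sum_singleton, prod_empty]

private theorem NewtonL_prod {A : Type} [CommRing A] {l : ℕ} {ι : Type} [Fintype ι]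
    [DecidableEq ι] (hι : Fintype.card ι < l) (y : ι → A) :
    ∏ i, (1 + y i) - 1 = ∑ k ∈ Ico 1 l, NewtonL_e y k := by
  have h1 : ∏ i, (1 + y i) = ∑ k ∈ range l, NewtonL_e y k := by
    rw [prod_one_add, sum_powerset, card_univ]
    have h2 : range (Fintype.card ι + 1) ⊆ range l := range_subset_range.2 hι
    refine sum_subset h2 fun k _ hk => ?_
    rw [mem_range, not_lt] at hk
    rw [powersetCard_eq_empty.2, sum_empty]
    rw [card_univ]
    exact hk
  have h3 : 0 < l := lt_of_le_of_lt (Nat.zero_le _) hι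
  rw [h1, range_eq_Ico, sum_eq_sum_Ico_succ_bot h3, NewtonL_zero]
  ring

private theorem NewtonL_main {A : Type} [CommRing A] {l : ℕ} {ι : Type} [Fintype ι]
    [DecidableEq ι] (y : ι → A) (t : ℕ → A)
    (ht : ∀ k, 1 ≤ k → k < l → ∑ i, y i ^ k = l * t k) (inv : ℕ → ℤ)
    (hinv : ∀ k, 1 ≤ k → k < l → (l : ℤ) ∣ k * inv k - 1) (k : ℕ) (hk1 : 1 ≤ k) (hkl : k < l) :
    (l : A) ∣ NewtonL_e y k ∧
      (l : A) ^ 2 ∣ NewtonL_e y k - l * ((-1) ^ (k - 1) * (inv k : A) * t k) := by
  induction k using Nat.strong_induction_on with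
  | _ k ih =>
    have h0 := NewtonL_newton y k
    have hfil : (antidiagonal k).filter (fun a => a.1 < k) =
        insert (0, k) (((antidiagonal k).filter (fun a => a.1 < k)).erase (0, k)) := by
      rw [insert_erase]
      rw [mem_filter, HasAntidiagonal.mem_antidiagonal]
      exact ⟨zero_add k, hk1⟩
    have hrest : (l : A) ^ 2 ∣ ∑ a ∈ ((antidiagonal k).filter (fun a => a.1 < k)).erase (0, k),
        (-1) ^ a.1 * NewtonL_e y a.1 * ∑ i, y i ^ a.2 := by
      refine dvd_sum fun a ha => ?_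
      rw [mem_erase, mem_filter, HasAntidiagonal.mem_antidiagonal] at ha
      obtain ⟨ha0, ha1, ha2⟩ := ha
      have ha3 : 1 ≤ a.1 := by
        rcases Nat.eq_zero_or_pos a.1 with h | h
        · exfalso
          apply ha0
          rw [h, zero_add] at ha1
          exact Prod.ext h ha1
        · exact h
      have h1 := (ih a.1 ha2 ha3 (by omega)).1
      have h2 : (l : A) ∣ ∑ i, y i ^ a.2 := by
        rw [ht a.2 (by omega) (by omega)]
        exact dvd_mul_right _ _
      rw [pow_two]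
      exact mul_dvd_mul (h1.mul_left _) h2
    rw [hfil, sum_insert (notMem_erase _ _)] at h0
    obtain ⟨r, hr⟩ := hrest
    rw [hr, pow_zero, one_mul, NewtonL_zero, one_mul, ht k hk1 hkl] at h0
    obtain ⟨u, hu⟩ := hinv k hk1 hkl
    have hu' : (k : A) * (inv k : A) - 1 = l * (u : A) := by
      have := congrArg (fun z : ℤ => (z : A)) hu
      push_cast at this
      exact this
    have hpow : ((-1 : A)) ^ (k + 1) = (-1) ^ (k - 1) := by
      obtain ⟨j, rfl⟩ : ∃ j, k = j + 1 := ⟨k - 1, by omega⟩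
      rw [Nat.add_sub_cancel, pow_add, pow_add]
      ring
    rw [hpow] at h0
    have h1 : NewtonL_e y k = (l : A) * ((inv k : A) * (-1) ^ (k - 1) * (t k + l * r) - u * NewtonL_e y k) := by
      have h2 : (inv k : A) * ((k : A) * NewtonL_e y k) =
          (inv k : A) * ((-1) ^ (k - 1) * (l * t k + l ^ 2 * r)) := by rw [h0]
      have h3 : NewtonL_e y k = (inv k : A) * ((k : A) * NewtonL_e y k) - (l * (u : A)) * NewtonL_e y k := by
        rw [← hu']
        ring
      rw [h2] at h3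
      calc NewtonL_e y k = (inv k : A) * ((-1) ^ (k - 1) * (l * t k + l ^ 2 * r)) - (l * (u : A)) * NewtonL_e y k := h3
        _ = _ := by ring
    have hdvd : (l : A) ∣ NewtonL_e y k := by
      rw [h1]
      exact dvd_mul_right _ _
    refine ⟨hdvd, ?_⟩
    obtain ⟨w, hw⟩ := hdvd
    refine ⟨(inv k : A) * (-1) ^ (k - 1) * r - u * w, ?_⟩
    calc NewtonL_e y k - l * ((-1) ^ (k - 1) * (inv k : A) * t k)
        = (l : A) * ((inv k : A) * (-1) ^ (k - 1) * (t k + l * r) - u * NewtonL_e y k) -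
          l * ((-1) ^ (k - 1) * (inv k : A) * t k) := by rw [← h1]
      _ = (l : A) * ((inv k : A) * (-1) ^ (k - 1) * (t k + l * r) - u * (l * w)) -
          l * ((-1) ^ (k - 1) * (inv k : A) * t k) := by rw [hw]
      _ = _ := by ring

/-- If the power sums `∑ y_i ^ k = l t_k` are divisible by the prime `l` then
`∏ (1 + y_i) = 1 + l ∑_k (-1)^(k-1) t_k / k` modulo `l ^ 2` (fewer than `l` variables).
Proof.  Newton's identities (`MvPolynomial.mul_esymm_eq_sum`, evaluated at `y`):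
`k e_k = (-1)^(k+1) ∑_{i<k} (-1)^i e_i p_(k-i)`.  By strong induction `l ∣ e_k` for
`1 ≤ k ≤ l - 1` (`k` is invertible modulo `l`: `l ∣ k inv k - 1`), so modulo `l ^ 2` only the term
`i = 0` remains: `k e_k = (-1)^(k-1) l t_k`, `e_k = (-1)^(k-1) inv k l t_k`.  And
`∏ (1 + y_i) = ∑_k e_k` (`Finset.prod_one_add`, `MvPolynomial.esymm`,
`Multiset.prod_X_add_C_eq_sum_esymm`). -/
theorem newton_mod {A : Type} [CommRing A] {l : ℕ} (hl : l.Prime) {ι : Type} [Fintype ι]
    [DecidableEq ι] (hι : Fintype.card ι < l) (y : ι → A) (t : ℕ → A)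
    (ht : ∀ k, 1 ≤ k → k < l → ∑ i, y i ^ k = l * t k) (inv : ℕ → ℤ)
    (hinv : ∀ k, 1 ≤ k → k < l → (l : ℤ) ∣ k * inv k - 1) :
    (l : A) ^ 2 ∣ ∏ i, (1 + y i) - 1 -
      l * ∑ k ∈ Ico 1 l, (-1) ^ (k - 1) * (inv k : A) * t k := by
  rw [NewtonL_prod hι y, mul_sum, ← sum_sub_distrib]
  refine dvd_sum fun k hk => ?_
  rw [mem_Ico] at hk
  exact (NewtonL_main y t ht inv hinv k hk.1 hk.2).2

end AER
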