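import Pool.Agent.Lib_MP_aeefb1_reg.Cyc

/-!
MP_aeefb1_nt: the elements `T_q = (z^q - 1)/(z^q + 1)` and inverses modulo powers of `λ`.
-/

open Finset

namespace AER

variable {l : ℕ} [hlp : Fact l.Prime] {R : Type} [CommRing R] [IsDedekindDomain R]
  [CharZero R] [Module.Free ℤ R] [Module.Finite ℤ R]

namespace Cyc

variable (Q : Cyc l R)

open Classical in
/-- `T_q = (z^q - 1)/(z^q + 1)` -/
noncomputable def T (q : ZMod l) : R :=
  if hq : q ≠ 0 then (Q.e q - 1) * ((Q.isUnit_one_add hq).unit⁻¹ : Rˣ) else 0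

theorem T_spec {q : ZMod l} (hq : q ≠ 0) : (1 + Q.e q) * Q.T q = Q.e q - 1 := by
  unfold T
  rw [dif_pos hq]
  have h : (1 + Q.e q) * ((Q.isUnit_one_add hq).unit⁻¹ : Rˣ) = 1 :=
    (Q.isUnit_one_add hq).mul_val_inv
  linear_combination (Q.e q - 1) * h

theorem lam_dvd_T (q : ZMod l) : Q.lam ∣ Q.T q := by
  unfold T
  split_ifs with hq
  · exact (Q.lam_dvd_e_sub_one q).mul_right _
  · exact dvd_zero _

/-- elements prime to `λ` are coprime to `λ` -/
theorem coprime_lam {x : R} (h : ¬ Q.lam ∣ x) : IsCoprime x Q.lam := by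
  obtain ⟨t, ht⟩ := Q.norm_mod h
  obtain ⟨r, hr⟩ := Q.dvd_norm x
  obtain ⟨r', hr'⟩ := Q.lam_dvd_l
  refine ⟨r, -(r' * t), ?_⟩
  have h1 : ((Algebra.norm ℤ x : ℤ) : R) = 1 + l * t := by
    have : Algebra.norm ℤ x = 1 + l * t := by linarith
    rw [this]; push_cast; ring
  rw [hr, hr'] at h1
  linear_combination h1

theorem exists_inv {x : R} (h : ¬ Q.lam ∣ x) (n : ℕ) : ∃ y, Q.lam ^ n ∣ x * y - 1 := by
  obtain ⟨a, b, hab⟩ := (Q.coprime_lam h).pow_right (n := n)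
  exact ⟨a, -b, by linear_combination hab⟩

end Cyc

end AER
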