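import Pool.Agent.Lib_MP_aeefb1_reg.Rep
import Pool.Agent.Lib_MP_aeefb1_reg.NewtonL
import Pool.Agent.Lib_MP_aeefb1_reg.Tser
import Pool.Agent.Lib_MP_aeefb1_reg.Elem

/-!
MP_aeefb1_nt: the norm formula `N(1 + y) = 1 + Tr log (1 + y)` modulo `l ^ 2`, and the power
series of `T_q`.
-/

open Finset

namespace AER

variable {l : ℕ} [hlp : Fact l.Prime] {R : Type} [CommRing R] [IsDedekindDomain R]
  [CharZero R] [Module.Free ℤ R] [Module.Finite ℤ R]

namespace Cyc

variable (Q : Cyc l R)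

/-- The norm formula.
Proof.  `y_a = σ_a (y)`, `y = P(z)`, `a ≠ 0`: `l - 1 < l` elements with power sums
`∑ y_a ^ k = Tr (P^k (z)) = l t_k`, `t_k = coeff (l-1) (rho P ^ k)` modulo `l` (`Q.rep_trace` for
`P ^ k`, `k ≥ 1`).  `newton_mod` (index type `{a : ZMod l // a ≠ 0}` or `univ.erase 0`) and
`Q.norm_eq` give `N(1 + y) - 1 - l ∑ ± inv k t_k ∈ l ^ 2 R`, and an integer in `l ^ 2 R` is
divisible by `l ^ 2` (`Q.lam_pow_l_int`, `l ≤ 2 (l - 1)`). -/
theorem norm_log {P : Polynomial ℤ} (h1 : P.eval 1 = 0) : ∃ t : ℤ,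
    Algebra.norm ℤ (1 + Polynomial.aeval Q.z P) = 1 + l * t ∧
      (t : ZMod l) = ∑ k ∈ Ico 1 l, (-1) ^ (k - 1) * (k : ZMod l)⁻¹ *
        PowerSeries.coeff (l - 1) ((rho l P) ^ k) := by
  classical
  have h5 := Q.five_le
  have H : ∀ k : ℕ, ∃ t : ℤ, 1 ≤ k → (∑ a ∈ univ.erase (0 : ZMod l), Q.σ a (Polynomial.aeval Q.z P) ^ k = (l : R) * t ∧
      (t : ZMod l) = PowerSeries.coeff (l - 1) ((rho l P) ^ k)) := by
    intro k
    by_cases hk : 1 ≤ k
    · have hk1 : (P ^ k).eval 1 = 0 := by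
        rw [Polynomial.eval_pow, h1, zero_pow (by omega)]
      obtain ⟨t, ht, ht'⟩ := Q.rep_trace hk1
      refine ⟨t, fun _ => ⟨?_, ?_⟩⟩
      · rw [← ht]
        refine sum_congr rfl fun a _ => ?_
        rw [map_pow, map_pow]
      · rw [ht', map_pow]
    · exact ⟨0, fun h => absurd h hk⟩
  choose t ht using H
  set inv : ℕ → ℤ := fun k => (((k : ZMod l)⁻¹).val : ℤ) with hinv
  have hinv' : ∀ k : ℕ, ((inv k : ℤ) : ZMod l) = (k : ZMod l)⁻¹ := by
    intro k
    rw [hinv]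
    push_cast
    rw [ZMod.natCast_zmod_val]
  have hi : ∀ k, 1 ≤ k → k < l → (l : ℤ) ∣ k * inv k - 1 := by
    intro k hk hkl
    rw [← ZMod.intCast_zmod_eq_zero_iff_dvd]
    push_cast
    rw [hinv', mul_inv_cancel₀ (natCast_ne_zero' l (by omega) hkl), sub_self]
  have hN := newton_mod (A := R) hlp.out (ι := {a : ZMod l // a ∈ univ.erase (0 : ZMod l)})
    (by
      rw [Fintype.card_coe, card_erase_of_mem (mem_univ _), card_univ, ZMod.card]
      omega)
    (fun a => Q.σ a.1 (Polynomial.aeval Q.z P)) (fun k => ((t k : ℤ) : R))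
    (fun k hk _ => by
      rw [Finset.sum_coe_sort (univ.erase (0 : ZMod l)) (fun a => Q.σ a (Polynomial.aeval Q.z P) ^ k)]
      exact (ht k hk).1)
    inv hi
  rw [Finset.prod_coe_sort (univ.erase (0 : ZMod l)) (fun a => 1 + Q.σ a (Polynomial.aeval Q.z P))] at hN
  have e1 : ∏ a ∈ univ.erase (0 : ZMod l), (1 + Q.σ a (Polynomial.aeval Q.z P)) =
      ((Algebra.norm ℤ (1 + Polynomial.aeval Q.z P) : ℤ) : R) := by
    rw [Q.norm_eq]
    refine prod_congr rfl fun a _ => ?_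
    rw [map_add, map_one]
  rw [e1] at hN
  set T : ℤ := ∑ k ∈ Ico 1 l, (-1) ^ (k - 1) * inv k * t k with hT
  have e2 : ((Algebra.norm ℤ (1 + Polynomial.aeval Q.z P) : ℤ) : R) - 1 -
      l * ∑ k ∈ Ico 1 l, (-1) ^ (k - 1) * (inv k : R) * ((t k : ℤ) : R) =
      ((Algebra.norm ℤ (1 + Polynomial.aeval Q.z P) - 1 - l * T : ℤ) : R) := by
    rw [hT]
    push_cast
    rfl
  rw [e2] at hN
  have h3 : Q.lam ^ l ∣ ((Algebra.norm ℤ (1 + Polynomial.aeval Q.z P) - 1 - l * T : ℤ) : R) := by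
    refine Dvd.dvd.trans ?_ hN
    have h4 : Q.lam ^ (l - 1 + (l - 1)) ∣ (l : R) ^ 2 := by
      rw [pow_add, pow_two]
      exact mul_dvd_mul Q.lam_pow_dvd_l Q.lam_pow_dvd_l
    exact (pow_dvd_pow _ (by omega)).trans h4
  obtain ⟨r, hr⟩ := Q.lam_pow_l_int h3
  refine ⟨T + l * r, ?_, ?_⟩
  · linear_combination hr
  · rw [hT]
    push_cast
    rw [CharP.cast_eq_zero, zero_mul, add_zero]
    refine sum_congr rfl fun k hk => ?_
    rw [mem_Ico] at hk
    rw [hinv', (ht k hk.1).2]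

/-- A polynomial for `T_q`; its series is `tanh (q X / 2)`.
Proof.  `λ ∣ T_q` so `Q.rep_exists` with `n = 0`.  The polynomial
`(1 + T^q) P - (T^q - 1)` (`q` read as `q.val`) vanishes at `z` (`Q.T_spec`) and at `1`, so by
`Q.rep_dvd_iff'` with `m = l`, `(1 + Ex^q) rho P ≡ Ex^q - 1` modulo `X^l`; `Ex^q ≡ rescale q Ex`
(`Ex_pow`), and `(Ex + 1) Th = Ex - 1` rescaled; cancel `1 + rescale q Ex`, whose constant
coefficient is `2` (`cg_cancel`). -/
theorem rep_T {q : ZMod l} (hq : q ≠ 0) : ∃ P : Polynomial ℤ,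
    Polynomial.aeval Q.z P = Q.T q ∧ P.eval 1 = 0 ∧
      (PowerSeries.X : PowerSeries (ZMod l)) ^ l ∣
        rho l P - PowerSeries.rescale q (Th l) := by
  obtain ⟨P, hP, hP1⟩ := Q.rep_exists (x := Q.T q) (n := 0) (by
    rw [Int.cast_zero, sub_zero]
    exact Q.lam_dvd_T q)
  refine ⟨P, hP, hP1, ?_⟩
  have h5 := Q.five_le
  have hW1 : ((1 + Polynomial.X ^ q.val) * P - (Polynomial.X ^ q.val - 1) : Polynomial ℤ).eval 1 = 0 := by
    simp [hP1]
  have hW0 : Polynomial.aeval Q.z ((1 + Polynomial.X ^ q.val) * P - (Polynomial.X ^ q.val - 1) : Polynomial ℤ) = 0 := by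
    rw [map_sub, map_mul, map_add, map_sub, map_one, map_pow, Polynomial.aeval_X, hP]
    have h := Q.T_spec hq
    have he : Q.z ^ q.val = Q.e q := rfl
    rw [he, h, sub_self]
  have h1 := (Q.rep_dvd_iff' hW1 (le_refl l)).1 (by rw [hW0]; exact dvd_zero _)
  rw [map_sub, map_mul, map_add, map_sub, map_one, map_pow, rho_X] at h1
  have h2 := Ex_pow l q.val
  rw [ZMod.natCast_zmod_val] at h2
  have h3 : (PowerSeries.X : PowerSeries (ZMod l)) ^ l ∣
      (1 + PowerSeries.rescale q (Ex l)) * rho l P - (PowerSeries.rescale q (Ex l) - 1) := by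
    have e : (1 + PowerSeries.rescale q (Ex l)) * rho l P - (PowerSeries.rescale q (Ex l) - 1) =
        ((1 + Ex l ^ q.val) * rho l P - (Ex l ^ q.val - 1)) -
          (Ex l ^ q.val - PowerSeries.rescale q (Ex l)) * (rho l P - 1) := by ring
    rw [e]
    exact dvd_sub h1 (h2.mul_right _)
  have hcE : PowerSeries.constantCoeff (Ex l + 1) ≠ 0 := by
    rw [map_add, map_one, constantCoeff_Ex]
    have := natCast_ne_zero' l (n := 2) (by norm_num) (by omega)
    intro h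
    apply this
    push_cast
    rw [← h]
    ring
  have hTh : (Ex l + 1) * Th l = Ex l - 1 := by
    unfold Th
    rw [mul_left_comm, PowerSeries.mul_inv_cancel _ hcE, mul_one]
  have h4 := congrArg (PowerSeries.rescale q) hTh
  rw [map_mul, map_add, map_sub, map_one] at h4
  refine cg_cancel (k := 1 + PowerSeries.rescale q (Ex l)) ?_ ?_
  · rw [map_add, map_one, constantCoeff_rescale', constantCoeff_Ex]
    have := natCast_ne_zero' l (n := 2) (by norm_num) (by omega)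
    intro h
    apply this
    push_cast
    rw [← h]
    ring
  · have e : (1 + PowerSeries.rescale q (Ex l)) * PowerSeries.rescale q (Th l) =
        PowerSeries.rescale q (Ex l) - 1 := by
      rw [← h4]
      ring
    rw [e]
    exact h3

/-- The norm relation for `C + z^q C̄`.
Proof.  With `S = C + C̄`, `D = C - C̄`: `2 (C + z^q C̄) = (1 + z^q)(S - T_q D)` and
`S - T_q D ≡ S (1 - T_q G)` modulo `λ^l`.  So modulo `l^2` (`Q.norm_congr`, `Q.norm_isUnit`,
`Q.norm_int`) `2^(l-1) N(C + z^q C̄) = N(S) N(1 - T_q G)`; apply `Q.norm_log` to the polynomial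
`- P_T P_G` (`rep_T`), `cg_pow`, `coeff_eq_of_cg`.  `(- f)^k (-1)^(k-1) = - f^k`. -/
theorem norm_rel {C G : R} {P : Polynomial ℤ} (hP : Polynomial.aeval Q.z P = G)
    (hP1 : P.eval 1 = 0) (hG : Q.lam ^ l ∣ (C + Q.conj C) * G - (C - Q.conj C))
    {q : ZMod l} (hq : q ≠ 0) : ∃ t : ℤ,
    (((2 : ℤ) ^ (l - 1) * Algebra.norm ℤ (C + Q.e q * Q.conj C) : ℤ) : ZMod (l ^ 2))
      = ((Algebra.norm ℤ (C + Q.conj C) * (1 + l * t) : ℤ) : ZMod (l ^ 2)) ∧
      (t : ZMod l) = - ∑ k ∈ Ico 1 l, (k : ZMod l)⁻¹ *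
        PowerSeries.coeff (l - 1) ((PowerSeries.rescale q (Th l) * rho l P) ^ k) := by
  obtain ⟨PT, hPT, hPT1, hPT2⟩ := Q.rep_T hq
  have h5 := Q.five_le
  have hE1 : (-(PT * P)).eval 1 = 0 := by
    rw [Polynomial.eval_neg, Polynomial.eval_mul, hPT1, zero_mul, neg_zero]
  obtain ⟨t, ht1, ht2⟩ := Q.norm_log hE1
  refine ⟨t, ?_, ?_⟩
  · have e1 : (2 : R) * (C + Q.e q * Q.conj C) =
        (1 + Q.e q) * ((C + Q.conj C) - Q.T q * (C - Q.conj C)) := by
      linear_combination (C - Q.conj C) * Q.T_spec hq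
    have e2 : Algebra.norm ℤ ((2 : R) * (C + Q.e q * Q.conj C)) =
        2 ^ (l - 1) * Algebra.norm ℤ (C + Q.e q * Q.conj C) := by
      rw [map_mul]
      have h := Q.norm_int 2
      push_cast at h
      rw [h]
    have e3 : Algebra.norm ℤ ((1 + Q.e q) * ((C + Q.conj C) - Q.T q * (C - Q.conj C))) =
        Algebra.norm ℤ ((C + Q.conj C) - Q.T q * (C - Q.conj C)) := by
      rw [map_mul, Q.norm_isUnit (Q.isUnit_one_add hq), one_mul]
    have e4 : Q.lam ^ l ∣ ((C + Q.conj C) - Q.T q * (C - Q.conj C)) -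
        (C + Q.conj C) * (1 + Polynomial.aeval Q.z (-(PT * P))) := by
      rw [map_neg, map_mul, hPT, hP]
      have e : ((C + Q.conj C) - Q.T q * (C - Q.conj C)) - (C + Q.conj C) * (1 + -(Q.T q * G)) =
          Q.T q * ((C + Q.conj C) * G - (C - Q.conj C)) := by ring
      rw [e]
      exact hG.mul_left _
    have e5 := Q.norm_congr e4
    rw [map_mul, ht1] at e5
    rw [← e2, e1, e3, e5]
  · rw [ht2, ← sum_neg_distrib]
    refine sum_congr rfl fun k hk => ?_
    rw [mem_Ico] at hk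
    rw [map_neg, map_mul]
    have h6 : (PowerSeries.X : PowerSeries (ZMod l)) ^ l ∣
        (rho l PT * rho l P) ^ k - (PowerSeries.rescale q (Th l) * rho l P) ^ k :=
      cg_pow (cg_mul hPT2 (cg_refl _)) k
    have h7 := coeff_eq_of_cg (m := l - 1) (by omega) h6
    rw [← h7]
    obtain ⟨j, rfl⟩ : ∃ j, k = j + 1 := ⟨k - 1, by omega⟩
    rw [Nat.add_sub_cancel]
    have h8 : (-(rho l PT * rho l P)) ^ (j + 1) = PowerSeries.C ((-1) ^ (j + 1) : ZMod l) * (rho l PT * rho l P) ^ (j + 1) := by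
      rw [neg_pow]
      congr 1
      simp
    rw [h8, PowerSeries.coeff_C_mul]
    have h9 : ((-1 : ZMod l)) ^ j * (-1) ^ (j + 1) = -1 := by
      rw [pow_succ, ← mul_assoc, ← pow_add, ← two_mul, pow_mul]
      norm_num
    linear_combination (((j + 1 : ℕ) : ZMod l)⁻¹ * PowerSeries.coeff (l - 1) ((rho l PT * rho l P) ^ (j + 1))) * h9

end Cyc

end AER
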