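import Pool.Agent.Lib_MP_aeefb1_reg.Ps

/-!
# Bernoulli numbers modulo `l` and the coefficients of `tanh (X/2)`

Everything takes place in `(ZMod l)⟦X⟧`.  `Bs l` is the series `X / (exp X - 1)`.

## Proofs

* `E1_mul`: `Ex l - 1 = X * E1 l` coefficientwise.
* `Bs_mul`: `Bs l * E1 l = 1` (constant coefficient of `E1 l` is `1`).
* `coeff_Bs`: both `b n := n! * coeff n (Bs l)` and the Bernoulli numbers satisfy
  `sum over k < n of (n choose k) b k = (if n = 1 then 1 else 0)` for `n < l`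
  (Mathlib: `sum_bernoulli`; for `Bs`: coefficient `n - 1` of `Bs * E1 = 1`, multiplied by `n!`).
  Solve for `b (n - 1)`: `n b (n-1) = ...`, `n` invertible modulo `l` as `n < l`, so by strong
  induction for `n ≤ l - 2`: the denominator of `bernoulli n` is prime to `l` and
  `b n = (bernoulli n : ZMod l)`.  For the transfer use `Rat.cast_add_of_ne_zero`,
  `Rat.cast_mul_of_ne_zero`, or work with `padicValRat` or with the subring of rationals with
  denominator prime to `l`.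
* `Th`: `(Ex + 1) * Th = Ex - 1`.  `Th = 1 - 2 / (Ex + 1)`.  `Ex(2X) = Ex ^ 2` modulo `X ^ l`
  (`Ex_pow l 2`), `Bs(2X) * (Ex(2X) - 1) = 2 X`, hence `Bs(2X) * E1 * (Ex + 1) = 2` modulo
  `X ^ (l-1)`, `Bs(2X) = 2 Bs / (Ex + 1)`, and
  `Bs - Bs(2X) = Bs (Ex - 1)/(Ex + 1) = X / (Ex + 1)` modulo `X ^ (l-1)`.
  So `coeff (n-1) ((Ex + 1)⁻¹) = (1 - 2 ^ n) * coeff n Bs` for `1 ≤ n ≤ l - 2` and
  `coeff (n-1) Th = 2 (2 ^ n - 1) * coeff n Bs` for `2 ≤ n ≤ l - 2`.
* oddness: `Ex(-X) * Ex = 1` modulo `X ^ l` (`Ex_mul`), so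
  `Th(-X) = (Ex(-X) - 1)/(Ex(-X) + 1) = (1 - Ex)/(1 + Ex)` modulo `X ^ l`.
-/

namespace AER

open PowerSeries

variable (l : ℕ) [hl : Fact l.Prime]

/-- `(exp X - 1) / X` -/
noncomputable def E1 : PowerSeries (ZMod l) :=
  PowerSeries.mk fun n => (((n + 1).factorial : ℕ) : ZMod l)⁻¹

/-- `X / (exp X - 1)` -/
noncomputable def Bs : PowerSeries (ZMod l) := (E1 l)⁻¹

theorem X_mul_E1 : X * E1 l = Ex l - 1 := by
  ext n
  cases n with
  | zero => simp [constantCoeff_Ex]
  | succ n =>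
    rw [coeff_succ_X_mul, map_sub, coeff_Ex, coeff_one, if_neg (Nat.succ_ne_zero n), sub_zero]
    simp [E1]

private theorem BerMod_cc_E1 : constantCoeff (E1 l) = 1 := by
  rw [← coeff_zero_eq_constantCoeff_apply]
  simp [E1]

theorem Bs_mul_E1 : Bs l * E1 l = 1 := by
  unfold Bs
  apply PowerSeries.inv_mul_cancel
  rw [BerMod_cc_E1]
  exact one_ne_zero

/-- `q` is `l`-integral with reduction `z` -/
private def BerMod_R (q : ℚ) (z : ZMod l) : Prop :=
  ∃ a : ℤ, ∃ b : ℕ, ¬ l ∣ b ∧ q * b = a ∧ z * (b : ZMod l) = (a : ZMod l)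

private theorem BerMod_R_int (m : ℤ) : BerMod_R l (m : ℚ) (m : ZMod l) :=
  ⟨m, 1, by simpa using hl.out.one_lt.ne', by simp, by simp⟩

private theorem BerMod_R_add {q q' : ℚ} {z z' : ZMod l} (h : BerMod_R l q z)
    (h' : BerMod_R l q' z') : BerMod_R l (q + q') (z + z') := by
  obtain ⟨a, b, hb, h1, h2⟩ := h
  obtain ⟨a', b', hb', h1', h2'⟩ := h'
  refine ⟨a * b' + a' * b, b * b', ?_, ?_, ?_⟩
  · rw [hl.out.dvd_mul]
    tauto
  · push_cast
    rw [← h1, ← h1']
    ring
  · push_cast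
    rw [← h2, ← h2']
    ring

private theorem BerMod_R_neg {q : ℚ} {z : ZMod l} (h : BerMod_R l q z) :
    BerMod_R l (-q) (-z) := by
  obtain ⟨a, b, hb, h1, h2⟩ := h
  refine ⟨-a, b, hb, ?_, ?_⟩
  · push_cast
    rw [← h1]
    ring
  · push_cast
    rw [← h2]
    ring

private theorem BerMod_R_nsmul (m : ℕ) {q : ℚ} {z : ZMod l} (h : BerMod_R l q z) :
    BerMod_R l (m * q) (m * z) := by
  obtain ⟨a, b, hb, h1, h2⟩ := h
  refine ⟨m * a, b, hb, ?_, ?_⟩
  · push_cast
    rw [← h1]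
    ring
  · push_cast
    rw [← h2]
    ring

private theorem BerMod_R_sum {ι : Type*} (s : Finset ι) {q : ι → ℚ} {z : ι → ZMod l}
    (h : ∀ i ∈ s, BerMod_R l (q i) (z i)) : BerMod_R l (∑ i ∈ s, q i) (∑ i ∈ s, z i) := by
  classical
  induction s using Finset.induction_on with
  | empty =>
    simp only [Finset.sum_empty]
    have := BerMod_R_int l 0
    simpa using this
  | insert i s hi ih =>
    rw [Finset.sum_insert hi, Finset.sum_insert hi]
    exact BerMod_R_add l (h i (Finset.mem_insert_self i s))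
      (ih fun j hj => h j (Finset.mem_insert_of_mem hj))

private theorem BerMod_R_div {m : ℕ} (hm : ¬ l ∣ m) {q : ℚ} {z : ZMod l}
    (h : BerMod_R l (q * m) (z * m)) : BerMod_R l q z := by
  obtain ⟨a, b, hb, h1, h2⟩ := h
  refine ⟨a, m * b, ?_, ?_, ?_⟩
  · rw [hl.out.dvd_mul]
    tauto
  · push_cast
    rw [← h1]
    ring
  · push_cast
    rw [← h2]
    ring

private theorem BerMod_R_final {q : ℚ} {z : ZMod l} (h : BerMod_R l q z) :
    ¬ l ∣ q.den ∧ z = (q : ZMod l) := by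
  obtain ⟨a, b, hb, h1, h2⟩ := h
  have hb0 : b ≠ 0 := fun h0 => hb (h0 ▸ dvd_zero l)
  have hbq : (b : ℚ) ≠ 0 := by exact_mod_cast hb0
  have hq : q = ((a : ℚ) / ((b : ℤ) : ℚ)) := by
    rw [Int.cast_natCast, eq_div_iff hbq, h1]
  have hd : (q.den : ℤ) ∣ (b : ℤ) := by
    have := Rat.den_dvd a (b : ℤ)
    rw [Rat.divInt_eq_div, ← hq] at this
    exact this
  have hd' : q.den ∣ b := by exact_mod_cast hd
  have hden : ¬ l ∣ q.den := fun h => hb (h.trans hd')
  refine ⟨hden, ?_⟩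
  have hden0 : (q.den : ZMod l) ≠ 0 := by
    rw [Ne, ZMod.natCast_eq_zero_iff]
    exact hden
  have hb0' : (b : ZMod l) ≠ 0 := by
    rw [Ne, ZMod.natCast_eq_zero_iff]
    exact hb
  have h3 : q.num * (b : ℤ) = a * (q.den : ℤ) := by
    have h4 : (q.num : ℚ) * (b : ℚ) = a * (q.den : ℚ) := by
      have h5 : q * (q.den : ℚ) = q.num := Rat.mul_den_eq_num q
      rw [← h5, ← h1]
      ring
    exact_mod_cast h4
  have h4 : (q.num : ZMod l) * (b : ZMod l) = (a : ZMod l) * (q.den : ZMod l) := by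
    exact_mod_cast congrArg (Int.cast (R := ZMod l)) h3
  rw [Rat.cast_def, eq_div_iff hden0]
  apply mul_right_cancel₀ hb0'
  rw [h4, ← h2]
  ring

/-- the recursion of the coefficients -/
private theorem BerMod_rec {n : ℕ} (hn : n + 2 ≤ l) :
    ∑ k ∈ Finset.range (n + 1), ((n + 1).choose k : ZMod l) *
      (((k.factorial : ℕ) : ZMod l) * coeff k (Bs l)) = if n = 0 then 1 else 0 := by
  have h1 := congrArg (coeff n) (Bs_mul_E1 l)
  rw [coeff_mul, Finset.Nat.sum_antidiagonal_eq_sum_range_succ_mk, coeff_one] at h1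
  have h2 : ((((n + 1).factorial : ℕ)) : ZMod l) ≠ 0 := factorial_ne_zero l (by omega)
  have h3 : ∑ k ∈ Finset.range (n + 1), ((n + 1).choose k : ZMod l) *
      (((k.factorial : ℕ) : ZMod l) * coeff k (Bs l))
      = (((n + 1).factorial : ℕ) : ZMod l) *
        ∑ k ∈ Finset.range (n + 1), coeff k (Bs l) * coeff (n - k) (E1 l) := by
    rw [Finset.mul_sum]
    apply Finset.sum_congr rfl
    intro k hk
    have hk' : k ≤ n := by
      rw [Finset.mem_range] at hk
      omega
    have h4 : ((((n - k + 1).factorial : ℕ)) : ZMod l) ≠ 0 := factorial_ne_zero l (by omega)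
    have h5 : (n + 1).choose k * k.factorial * (n - k + 1).factorial = (n + 1).factorial := by
      have h6 := Nat.choose_mul_factorial_mul_factorial (show k ≤ n + 1 by omega)
      rwa [show n + 1 - k = n - k + 1 by omega] at h6
    have h6 : ((n + 1).choose k : ZMod l) * ((k.factorial : ℕ) : ZMod l)
        * (((n - k + 1).factorial : ℕ) : ZMod l) = (((n + 1).factorial : ℕ) : ZMod l) := by
      exact_mod_cast congrArg (Nat.cast (R := ZMod l)) h5
    have h7 : coeff (n - k) (E1 l) = (((n - k + 1).factorial : ℕ) : ZMod l)⁻¹ := by simp [E1]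
    rw [h7, ← h6]
    field_simp
  rw [h3]
  simp only [] at h1
  rw [h1]
  split_ifs with h0
  · subst h0
    simp
  · rw [mul_zero]

private theorem BerMod_main : ∀ n : ℕ, n + 2 ≤ l →
    BerMod_R l (bernoulli n) (((n.factorial : ℕ) : ZMod l) * coeff n (Bs l)) := by
  intro n
  induction n using Nat.strong_induction_on with
  | _ n ih =>
    intro hn
    have hm : ¬ l ∣ (n + 1) := fun h => by
      have := Nat.le_of_dvd (Nat.succ_pos n) h
      omega
    apply BerMod_R_div l hm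
    have e1 : bernoulli n * ((n + 1 : ℕ) : ℚ)
        = (((if n = 0 then 1 else 0 : ℤ)) : ℚ)
          + -∑ k ∈ Finset.range n, ((n + 1).choose k : ℚ) * bernoulli k := by
      have h1 := sum_bernoulli (n + 1)
      rw [Finset.sum_range_succ] at h1
      have h2 : ((n + 1).choose n : ℚ) = ((n + 1 : ℕ) : ℚ) := by
        rw [Nat.choose_succ_self_right]
      rw [h2] at h1
      have h3 : (if n + 1 = 1 then (1 : ℚ) else 0) = (((if n = 0 then 1 else 0 : ℤ)) : ℚ) := by
        by_cases h0 : n = 0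
        · simp [h0]
        · simp [h0]
      rw [h3] at h1
      rw [← h1]
      ring
    have e2 : ((n.factorial : ℕ) : ZMod l) * coeff n (Bs l) * ((n + 1 : ℕ) : ZMod l)
        = (((if n = 0 then 1 else 0 : ℤ)) : ZMod l)
          + -∑ k ∈ Finset.range n, ((n + 1).choose k : ZMod l) *
            (((k.factorial : ℕ) : ZMod l) * coeff k (Bs l)) := by
      have h1 := BerMod_rec l hn
      rw [Finset.sum_range_succ] at h1
      have h2 : ((n + 1).choose n : ZMod l) = ((n + 1 : ℕ) : ZMod l) := by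
        rw [Nat.choose_succ_self_right]
      rw [h2] at h1
      have h3 : (if n = 0 then (1 : ZMod l) else 0) = (((if n = 0 then 1 else 0 : ℤ)) : ZMod l) := by
        by_cases h0 : n = 0
        · simp [h0]
        · simp [h0]
      rw [h3] at h1
      rw [← h1]
      ring
    rw [e1, e2]
    apply BerMod_R_add
    · exact BerMod_R_int l _
    · apply BerMod_R_neg
      apply BerMod_R_sum
      intro k hk
      rw [Finset.mem_range] at hk
      exact BerMod_R_nsmul l _ (ih k hk (by omega))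

/-- the Bernoulli numbers of index `≤ l - 2` are `l`-integral, and `n! [X^n] X/(exp X - 1)` is
their reduction -/
theorem coeff_Bs {n : ℕ} (hn : n + 2 ≤ l) :
    ¬ l ∣ (bernoulli n).den ∧
      ((n.factorial : ℕ) : ZMod l) * coeff n (Bs l) = ((bernoulli n : ℚ) : ZMod l) :=
  BerMod_R_final l (BerMod_main l n hn)

theorem coeff_Bs_ne_zero {n : ℕ} (hn : n + 2 ≤ l) (hB : ¬ (l : ℤ) ∣ (bernoulli n).num) :
    coeff n (Bs l) ≠ 0 := by
  intro h0
  obtain ⟨h1, h2⟩ := coeff_Bs l hn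
  rw [h0, mul_zero, Rat.cast_def] at h2
  have hden0 : ((bernoulli n).den : ZMod l) ≠ 0 := by
    rw [Ne, ZMod.natCast_eq_zero_iff]
    exact h1
  have h3 : (((bernoulli n).num : ℤ) : ZMod l) = 0 := by
    rcases div_eq_zero_iff.1 h2.symm with h | h
    · exact h
    · exact absurd h hden0
  exact hB ((ZMod.intCast_zmod_eq_zero_iff_dvd _ _).1 h3)

private theorem BerMod_two {l : ℕ} [Fact l.Prime] (h3 : 3 ≤ l) : (2 : ZMod l) ≠ 0 := by
  have := natCast_ne_zero' l (n := 2) (by norm_num) (by omega)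
  exact_mod_cast this

private theorem BerMod_cc : constantCoeff (Ex l + 1) = 2 := by
  rw [map_add, constantCoeff_Ex, map_one]
  norm_num

theorem Th_mul (h3 : 3 ≤ l) : (Ex l + 1) * Th l = Ex l - 1 := by
  have h1 : constantCoeff (Ex l + 1) ≠ 0 := by
    rw [BerMod_cc]
    exact BerMod_two h3
  have h2 := PowerSeries.mul_inv_cancel (Ex l + 1) h1
  unfold Th
  calc (Ex l + 1) * ((Ex l - 1) * (Ex l + 1)⁻¹)
      = (Ex l - 1) * ((Ex l + 1) * (Ex l + 1)⁻¹) := by ring
    _ = Ex l - 1 := by rw [h2, mul_one]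

/-- `tanh (X/2)` is odd modulo `X ^ l` -/
theorem Th_neg : (X : PowerSeries (ZMod l)) ^ l ∣ rescale (-1 : ZMod l) (Th l) - (- Th l) := by
  by_cases h3 : 3 ≤ l
  · have h1 := Th_mul l h3
    have h2 := congrArg (rescale (-1 : ZMod l)) h1
    rw [map_mul, map_add, map_sub, map_one] at h2
    have h4 := Ex_mul l (-1) 1
    rw [rescale_one_Ex, neg_add_cancel, rescale_zero_Ex] at h4
    have hc : constantCoeff (Ex l + 1) ≠ 0 := by
      rw [BerMod_cc]
      exact BerMod_two h3
    apply cg_cancel (k := Ex l + 1) hc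
    have e : (Ex l + 1) * rescale (-1 : ZMod l) (Th l) - (Ex l + 1) * (- Th l)
        = (rescale (-1 : ZMod l) (Ex l) * Ex l - 1) * (1 - rescale (-1 : ZMod l) (Th l)) := by
      have e1 : (Ex l + 1) * (- Th l) = 1 - Ex l := by
        rw [mul_neg, h1]
        ring
      rw [e1]
      linear_combination Ex l * h2
    rw [e]
    exact Dvd.dvd.mul_right h4 _
  · have h2 : l = 2 := by
      have := hl.out.two_le
      omega
    have h4 : constantCoeff (Ex l + 1) = 0 := by
      rw [BerMod_cc]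
      have : ((2 : ℕ) : ZMod l) = 0 := by
        rw [ZMod.natCast_eq_zero_iff, h2]
      exact_mod_cast this
    have h5 : Th l = 0 := by
      unfold Th
      rw [PowerSeries.inv_eq_zero.2 h4, mul_zero]
    rw [h5]
    simp

theorem coeff_Th_even (h3 : 3 ≤ l) {n : ℕ} (hn : n < l) (he : Even n) :
    coeff n (Th l) = 0 := by
  have h1 := coeff_eq_of_cg hn (Th_neg l)
  rw [coeff_rescale, he.neg_one_pow, one_mul, map_neg] at h1
  have h2 : (2 : ZMod l) * coeff n (Th l) = 0 := by linear_combination h1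
  exact (mul_eq_zero.1 h2).resolve_left (BerMod_two h3)

private theorem BerMod_inv2 (h3 : 3 ≤ l) : (2 : ZMod l) * (2 : ZMod l)⁻¹ = 1 :=
  mul_inv_cancel₀ (BerMod_two h3)

theorem coeff_one_Th (h3 : 3 ≤ l) : coeff 1 (Th l) = (2 : ZMod l)⁻¹ := by
  have h1 := congrArg (coeff 1) (Th_mul l h3)
  have h0 := coeff_Th_even l h3 (n := 0) (by omega) Even.zero
  rw [coeff_mul, Finset.Nat.sum_antidiagonal_eq_sum_range_succ_mk] at h1
  simp only [Finset.sum_range_succ, Finset.sum_range_zero, zero_add, map_add, map_sub, coeff_Ex,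
    coeff_one, Nat.sub_zero, Nat.sub_self, h0] at h1
  norm_num at h1
  rw [eq_comm, inv_eq_one_div, div_eq_iff (BerMod_two h3)]
  linear_combination -h1

theorem coeff_three_Th (h5 : 5 ≤ l) : coeff 3 (Th l) = - (24 : ZMod l)⁻¹ := by
  have h3 : 3 ≤ l := by omega
  have h1 := congrArg (coeff 3) (Th_mul l h3)
  have h0 := coeff_Th_even l h3 (n := 0) (by omega) Even.zero
  have h2 := coeff_Th_even l h3 (n := 2) (by omega) (by decide)
  have h11 := coeff_one_Th l h3
  rw [coeff_mul, Finset.Nat.sum_antidiagonal_eq_sum_range_succ_mk] at h1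
  simp only [Finset.sum_range_succ, Finset.sum_range_zero, zero_add, map_add, map_sub, coeff_Ex,
    coeff_one, Nat.sub_zero, Nat.sub_self, h0, h11, Nat.factorial] at h1
  have n2 := BerMod_two h3
  have n3 : (3 : ZMod l) ≠ 0 := by
    have := natCast_ne_zero' l (n := 3) (by norm_num) (by omega)
    exact_mod_cast this
  have n6 : (6 : ZMod l) ≠ 0 := by
    have : (6 : ZMod l) = 2 * 3 := by norm_num
    rw [this]
    exact mul_ne_zero n2 n3
  have n24 : (24 : ZMod l) ≠ 0 := by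
    have : (24 : ZMod l) = 2 * 2 * 6 := by norm_num
    rw [this]
    exact mul_ne_zero (mul_ne_zero n2 n2) n6
  norm_num at h1
  have h2' : coeff 2 (Th l) = 0 := h2
  rw [h2'] at h1
  field_simp at h1
  have h7 : (2 : ZMod l) * (coeff 3 (Th l) * 24 + 1) = 0 := by linear_combination h1
  have h8 := (mul_eq_zero.1 h7).resolve_left n2
  rw [eq_neg_iff_add_eq_zero, inv_eq_one_div]
  field_simp
  rw [h8, mul_zero]

/-- `[X^(n-1)] tanh (X/2) = 2 (2^n - 1) [X^n] (X / (exp X - 1))` -/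
theorem coeff_Th_eq {n : ℕ} (h2 : 2 ≤ n) (hn : n + 2 ≤ l) :
    coeff (n - 1) (Th l) = 2 * ((2 : ZMod l) ^ n - 1) * coeff n (Bs l) := by
  have h3 : 3 ≤ l := by omega
  set B := Bs l with hB
  set B2 := rescale (2 : ZMod l) (Bs l) with hB2
  have e1 : B * (Ex l - 1) = X := by
    rw [← X_mul_E1, hB]
    linear_combination X * Bs_mul_E1 l
  have e2 : B2 * (rescale (2 : ZMod l) (Ex l) - 1) = C (2 : ZMod l) * X := by
    have h := congrArg (rescale (2 : ZMod l)) e1
    rw [map_mul, map_sub, map_one, rescale_X] at h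
    exact h
  have e3 := Ex_pow l 2
  push_cast at e3
  -- `B2 (Ex + 1) ≡ 2 B` modulo `X ^ (l - 1)`
  have hC2 : (C (2 : ZMod l) : PowerSeries (ZMod l)) = 2 := by
    rw [map_ofNat]
  rw [hC2] at e2
  have e4 : X * (X : PowerSeries (ZMod l)) ^ (l - 1) ∣ X * (B2 * (Ex l + 1) - 2 * B) := by
    have h5 : X * (B2 * (Ex l + 1) - 2 * B)
        = B2 * B * (Ex l ^ 2 - rescale (2 : ZMod l) (Ex l)) := by
      linear_combination B * e2 - (B2 * (Ex l + 1)) * e1
    rw [h5, ← pow_succ', show l - 1 + 1 = l by omega]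
    exact Dvd.dvd.mul_left e3 _
  have e5 : (X : PowerSeries (ZMod l)) ^ (l - 1) ∣ B2 * (Ex l + 1) - 2 * B :=
    (mul_dvd_mul_iff_left X_ne_zero).1 e4
  have e6 := Th_mul l h3
  have e7 : (X : PowerSeries (ZMod l)) ^ (l - 1) ∣ 2 * (B - B2) - X * (1 - Th l) := by
    have h5 : 2 * (B - B2) - X * (1 - Th l) = - ((B2 * (Ex l + 1) - 2 * B) * (1 - Th l)) := by
      linear_combination (-(B2 - B)) * e6 + (1 - Th l) * e1
    rw [h5]
    exact (Dvd.dvd.mul_right e5 _).neg_right
  obtain ⟨m, rfl⟩ : ∃ m, n = m + 2 := ⟨n - 2, by omega⟩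
  have e8 := coeff_eq_of_cg (show m + 2 < l - 1 by omega) e7
  have e9 : coeff (m + 2) (2 * (B - B2)) = 2 * (1 - (2 : ZMod l) ^ (m + 2)) * coeff (m + 2) B := by
    rw [← hC2, coeff_C_mul, map_sub, hB2, coeff_rescale]
    ring
  rw [e9, coeff_succ_X_mul, map_sub, coeff_one, if_neg (Nat.succ_ne_zero m)] at e8
  show coeff (m + 1) (Th l) = _
  linear_combination e8

theorem coeff_Th_ne_zero {k : ℕ} (hk1 : 1 ≤ k) (hk : 2 * k + 2 ≤ l)
    (h2 : (2 : ZMod l) ^ (2 * k) ≠ 1) (hB : ¬ (l : ℤ) ∣ (bernoulli (2 * k)).num) :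
    coeff (2 * k - 1) (Th l) ≠ 0 := by
  rw [coeff_Th_eq l (by omega) hk]
  exact mul_ne_zero (mul_ne_zero (BerMod_two (by omega)) (sub_ne_zero.2 h2))
    (coeff_Bs_ne_zero l hk hB)

end AER
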