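import Pool.Agent.Lib_MP_aeefb1_reg.Ps

/-!
# The bridge between `R = ℤ[z]` and `(ZMod l)⟦X⟧`

An element `x` of `R` is represented by an integer polynomial `P` with `aeval z P = x`; its image
in `(ZMod l)⟦X⟧` is `rho l P` (`T ↦ Ex l`).  The image is well defined modulo `X ^ (l-1)`, and
modulo `X ^ l` if `P.eval 1` is also prescribed.

## Proofs

* `Ex - 1 = X * (unit)` : constant coefficient `0`, coefficient of `X` equal to `1`.
* `rho_cyclotomic`: the cyclotomic polynomial is `∑_{i<l} T^i`, and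
  `(T - 1) * ∑ T^i = T^l - 1`, so `(Ex - 1) * rho Φ = Ex ^ l - 1`, which is `(Ex - 1) ^ l` in
  characteristic `l` (`sub_pow_char`); cancel `Ex - 1` (power series over a field are a domain):
  `rho Φ = (Ex - 1) ^ (l-1)`.
* `rho_of_aeval_zero`: the minimal polynomial of `z` over `ℤ` is the cyclotomic polynomial
  (`Polynomial.cyclotomic_eq_minpoly` in the fraction field of `R`, `minpoly.isIntegrallyClosed_dvd`)
  so `P = Φ * Q`.  If moreover `P.eval 1 = 0` then `l * Q.eval 1 = 0`, `T - 1 ∣ Q`.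
* `rho_of_dvd`: `aeval z P = l * aeval z Q`, apply the former to `P - l Q`.
* `rho_of_dvd'`: `aeval z P = l (1 - z) aeval z Q`, apply `rho_of_aeval_zero'` to
  `P - l (1 - T) Q`.
* `l_dvd_of_rho`: divide with remainder by the monic `(T - 1)^(l-1)`, or Taylor expand:
  `P = ∑_{i<l-1} a_i (T-1)^i + (T-1)^(l-1) Q`.  Modulo `X ^ (l-1)`: `∑ a_i (Ex - 1)^i = 0`; by
  induction all `a_i = 0` in `ZMod l` (compare the coefficient of `X^i`).  And
  `l ∣ (z - 1)^(l-1)`: `l = ∏ (1 - z^a)` over `0 < a < l`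
  (`IsPrimitiveRoot.prod_one_sub_pow_eq_order`), each factor is associated to `z - 1`
  (`IsPrimitiveRoot.associated_sub_one_pow_sub_one_of_coprime`).
* `trace_rho`: both sides are additive in `P`; write `P = ∑ c_i T^i`, then
  `∑_{a ≠ 0} z^(a i) = l - 1` if `l ∣ i` and `-1` otherwise, so the left side is
  `l * ∑_{l ∣ i} c_i - P.eval 1`; use `coeff_top_rho`.
* `rho_comp`: both sides are ring homs in `P` modulo `X ^ l`; on `T` it is `Ex_pow`.
-/

namespace AER

open PowerSeries

variable (l : ℕ) [hl : Fact l.Prime]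

private theorem KumRep_char : CharP (PowerSeries (ZMod l)) l :=
  charP_of_injective_ringHom (PowerSeries.C_injective (R := ZMod l)) l

private theorem KumRep_l : (((l : ℤ)) : PowerSeries (ZMod l)) = 0 := by
  have := KumRep_char l
  rw [Int.cast_natCast]
  exact CharP.cast_eq_zero _ _

private theorem KumRep_Ex_coeff_one : coeff 1 (Ex l - 1) = 1 := by
  rw [map_sub, coeff_Ex, PowerSeries.coeff_one]
  simp

private theorem KumRep_X_dvd : (X : PowerSeries (ZMod l)) ∣ Ex l - 1 := by
  rw [X_dvd_iff, map_sub, constantCoeff_Ex, map_one, sub_self]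

theorem rho_comp (a : ℕ) (P : Polynomial ℤ) :
    (X : PowerSeries (ZMod l)) ^ l ∣
      rho l (P.comp (Polynomial.X ^ a)) - rescale (a : ZMod l) (rho l P) := by
  induction P using Polynomial.induction_on' with
  | add p q hp hq =>
    rw [Polynomial.add_comp, map_add, map_add, map_add]
    exact cg_add hp hq
  | monomial n c =>
    rw [Polynomial.monomial_comp, ← Polynomial.C_mul_X_pow_eq_monomial, map_mul, map_mul, map_mul,
      map_pow, map_pow, map_pow, map_pow, rho_X, rho_C, map_intCast]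
    exact cg_mul (cg_refl _) (cg_pow (Ex_pow l a) n)

theorem rho_cyclotomic :
    rho l (Polynomial.cyclotomic l ℤ) = (Ex l - 1) ^ (l - 1) := by
  have := KumRep_char l
  have h1 := congrArg (rho l) (Polynomial.cyclotomic_prime_mul_X_sub_one ℤ l)
  rw [map_mul, map_sub, map_sub, map_pow, map_one, rho_X] at h1
  have h2 : Ex l ^ l - 1 = (Ex l - 1) ^ l := by
    rw [sub_pow_char, one_pow]
  have h3 : Ex l - 1 ≠ 0 := by
    intro h
    have h4 := KumRep_Ex_coeff_one l
    rw [h, map_zero] at h4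
    exact zero_ne_one h4
  have h5 : (Ex l - 1) ^ l = (Ex l - 1) ^ (l - 1) * (Ex l - 1) := by
    rw [← pow_succ, Nat.sub_add_cancel hl.out.one_le]
  rw [h2, h5] at h1
  exact mul_right_cancel₀ h3 h1

variable {l} {R : Type*} [CommRing R] [IsDomain R] [CharZero R] {z : R}

private theorem KumRep_dvd_aux {K : Type*} [Field K] [CharZero K] (f : R →+* K) (hf : Function.Injective f)
    (hz : IsPrimitiveRoot z l) {P : Polynomial ℤ} (h : Polynomial.aeval z P = 0) :
    Polynomial.cyclotomic l ℤ ∣ P := by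
  have hw : IsPrimitiveRoot (f z) l := hz.map_of_injective hf
  rw [Polynomial.cyclotomic_eq_minpoly hw hl.out.pos]
  refine minpoly.isIntegrallyClosed_dvd (hw.isIntegral hl.out.pos) ?_
  have e1 : f.comp (algebraMap ℤ R) = algebraMap ℤ K := RingHom.ext_int _ _
  have h1 := congrArg f h
  rw [Polynomial.aeval_def, Polynomial.hom_eval₂, map_zero, e1] at h1
  rw [Polynomial.aeval_def]
  exact h1

private theorem KumRep_dvd (hz : IsPrimitiveRoot z l) {P : Polynomial ℤ}
    (h : Polynomial.aeval z P = 0) : Polynomial.cyclotomic l ℤ ∣ P := by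
  have hinj : Function.Injective (algebraMap R (FractionRing R)) :=
    IsFractionRing.injective R (FractionRing R)
  have : CharZero (FractionRing R) := charZero_of_injective_algebraMap hinj
  exact KumRep_dvd_aux (algebraMap R (FractionRing R)) hinj hz h

private theorem KumRep_div {m : ℕ} (hm : m ≤ l - 1) {P : Polynomial ℤ}
    (h : (X : PowerSeries (ZMod l)) ^ m ∣ rho l P) :
    ∃ Q S : Polynomial ℤ, P = (Polynomial.X - 1) ^ m * Q + Polynomial.C (l : ℤ) * S := by
  induction m with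
  | zero => exact ⟨P, 0, by simp⟩
  | succ m ih =>
    obtain ⟨Q, S, hP⟩ := ih (by omega) ((pow_dvd_pow _ (Nat.le_succ m)).trans h)
    obtain ⟨u, hu⟩ := KumRep_X_dvd l
    have hu1 : constantCoeff u = 1 := by
      have h1 := KumRep_Ex_coeff_one l
      rw [hu, ← zero_add 1, coeff_succ_X_mul, coeff_zero_eq_constantCoeff_apply] at h1
      exact h1
    have h2 : rho l P = X ^ m * (u ^ m * rho l Q) := by
      rw [hP, map_add, map_mul, map_mul, map_pow, map_sub, map_one, rho_X, rho_C, KumRep_l, zero_mul,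
        add_zero, hu, mul_pow, mul_assoc]
    rw [h2, pow_succ] at h
    have h3 : (X : PowerSeries (ZMod l)) ∣ u ^ m * rho l Q :=
      (mul_dvd_mul_iff_left (pow_ne_zero m PowerSeries.X_ne_zero)).1 h
    rw [X_dvd_iff, map_mul, map_pow, hu1, one_pow, one_mul, constantCoeff_rho,
      ZMod.intCast_zmod_eq_zero_iff_dvd] at h3
    obtain ⟨s, hs⟩ := h3
    obtain ⟨Q', hQ'⟩ : (Polynomial.X - Polynomial.C (1 : ℤ)) ∣ Q - Polynomial.C (Q.eval 1) := by
      rw [Polynomial.dvd_iff_isRoot]
      simp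
    refine ⟨Q', Polynomial.C s * (Polynomial.X - 1) ^ m + S, ?_⟩
    have h4 : Q = (Polynomial.X - 1) * Q' + Polynomial.C (l : ℤ) * Polynomial.C s := by
      rw [← Polynomial.C_mul, ← hs]
      rw [Polynomial.C_1] at hQ'
      linear_combination hQ'
    rw [hP]
    linear_combination (Polynomial.X - 1) ^ m * h4

private theorem KumRep_l_dvd (hz : IsPrimitiveRoot z l) : (l : R) ∣ (z - 1) ^ (l - 1) := by
  obtain ⟨n, hn⟩ : ∃ n, l = n + 1 := ⟨l - 1, by have := hl.out.pos; omega⟩
  have hp : IsPrimitiveRoot z (n + 1) := hn ▸ hz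
  have h := hp.prod_one_sub_pow_eq_order
  have e1 : ((n : R) + 1) = (l : R) := by rw [hn]; push_cast; ring
  rw [e1] at h
  rw [← h]
  have e2 : (z - 1) ^ (l - 1) = ∏ _k ∈ Finset.range n, (z - 1) := by
    rw [Finset.prod_const, Finset.card_range, hn, Nat.add_sub_cancel]
  rw [e2]
  refine Finset.prod_dvd_prod_of_dvd _ _ fun k hk => ?_
  rw [Finset.mem_range] at hk
  have hc : (k + 1).Coprime l := by
    rw [Nat.coprime_comm, hl.out.coprime_iff_not_dvd]
    intro hd
    have := Nat.le_of_dvd (by omega) hd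
    omega
  have h3 := (hz.associated_sub_one_pow_sub_one_of_coprime hc).symm.dvd
  rw [← neg_sub (z ^ (k + 1)) 1, neg_dvd]
  exact h3

private theorem KumRep_sum (hz : IsPrimitiveRoot z l) (i : ℕ) :
    ∑ a ∈ Finset.univ.erase (0 : ZMod l), (z ^ i) ^ a.val = if (i : ZMod l) = 0 then (l : R) - 1 else -1 := by
  have h1 : ∑ a : ZMod l, (z ^ i) ^ a.val = ∑ k ∈ Finset.range l, (z ^ i) ^ k := by
    refine Finset.sum_nbij' (fun a : ZMod l => a.val) (fun k : ℕ => (k : ZMod l)) ?_ ?_ ?_ ?_ ?_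
    · intro a _
      exact Finset.mem_range.2 (ZMod.val_lt a)
    · intro k _
      exact Finset.mem_univ _
    · intro a _
      exact ZMod.natCast_zmod_val a
    · intro k hk
      exact ZMod.val_cast_of_lt (Finset.mem_range.1 hk)
    · intro a _
      rfl
  have h2 : ∑ a ∈ Finset.univ.erase (0 : ZMod l), (z ^ i) ^ a.val = ∑ k ∈ Finset.range l, (z ^ i) ^ k - 1 := by
    rw [← h1, ← Finset.sum_erase_add Finset.univ _ (Finset.mem_univ (0 : ZMod l)), ZMod.val_zero, pow_zero]
    ring
  rw [h2]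
  split_ifs with h
  · rw [ZMod.natCast_eq_zero_iff] at h
    rw [(hz.pow_eq_one_iff_dvd i).2 h]
    simp
  · have h3 : z ^ i ≠ 1 := by
      intro h4
      rw [hz.pow_eq_one_iff_dvd] at h4
      exact h ((ZMod.natCast_eq_zero_iff i l).2 h4)
    have h4 : (z ^ i - 1) * ∑ k ∈ Finset.range l, (z ^ i) ^ k = 0 := by
      rw [mul_geom_sum, ← pow_mul, mul_comm i l, pow_mul, hz.pow_eq_one, one_pow, sub_self]
    rcases mul_eq_zero.1 h4 with h5 | h5
    · exact absurd (sub_eq_zero.1 h5) h3
    · rw [h5]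
      ring

theorem rho_of_aeval_zero (hz : IsPrimitiveRoot z l) {P : Polynomial ℤ}
    (h : Polynomial.aeval z P = 0) : (X : PowerSeries (ZMod l)) ^ (l - 1) ∣ rho l P := by
  obtain ⟨Q, rfl⟩ := KumRep_dvd hz h
  rw [map_mul, rho_cyclotomic]
  exact (pow_dvd_pow_of_dvd (KumRep_X_dvd l) _).mul_right _

theorem rho_of_aeval_zero' (hz : IsPrimitiveRoot z l) {P : Polynomial ℤ}
    (h : Polynomial.aeval z P = 0) (h1 : P.eval 1 = 0) :
    (X : PowerSeries (ZMod l)) ^ l ∣ rho l P := by
  obtain ⟨Q, rfl⟩ := KumRep_dvd hz h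
  rw [Polynomial.eval_mul, Polynomial.eval_one_cyclotomic_prime] at h1
  have h2 : Q.eval 1 = 0 := by
    rcases mul_eq_zero.1 h1 with h3 | h3
    · exact absurd h3 (by exact_mod_cast hl.out.ne_zero)
    · exact h3
  have h4 : (X : PowerSeries (ZMod l)) ∣ rho l Q := by
    rw [X_dvd_iff, constantCoeff_rho, h2, Int.cast_zero]
  have h5 : (X : PowerSeries (ZMod l)) ^ l = X ^ (l - 1) * X := by
    rw [← pow_succ, Nat.sub_add_cancel hl.out.one_le]
  rw [map_mul, rho_cyclotomic, h5]
  exact mul_dvd_mul (pow_dvd_pow_of_dvd (KumRep_X_dvd l) _) h4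

theorem rho_of_dvd (hz : IsPrimitiveRoot z l)
    (hsurj : ∀ x : R, ∃ P : Polynomial ℤ, Polynomial.aeval z P = x) {P : Polynomial ℤ}
    (h : (l : R) ∣ Polynomial.aeval z P) : (X : PowerSeries (ZMod l)) ^ (l - 1) ∣ rho l P := by
  obtain ⟨x, hx⟩ := h
  obtain ⟨Q, rfl⟩ := hsurj x
  have h1 : Polynomial.aeval z (P - Polynomial.C (l : ℤ) * Q) = 0 := by
    rw [map_sub, map_mul, Polynomial.aeval_C, hx]
    simp
  have h2 := rho_of_aeval_zero hz h1
  rw [map_sub, map_mul, rho_C, KumRep_l, zero_mul, sub_zero] at h2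
  exact h2

theorem rho_of_dvd' (hz : IsPrimitiveRoot z l)
    (hsurj : ∀ x : R, ∃ P : Polynomial ℤ, Polynomial.aeval z P = x) {P : Polynomial ℤ}
    (h : (l : R) * (1 - z) ∣ Polynomial.aeval z P) (h1 : P.eval 1 = 0) :
    (X : PowerSeries (ZMod l)) ^ l ∣ rho l P := by
  obtain ⟨x, hx⟩ := h
  obtain ⟨Q, rfl⟩ := hsurj x
  have h2 : Polynomial.aeval z (P - Polynomial.C (l : ℤ) * ((1 - Polynomial.X) * Q)) = 0 := by
    rw [map_sub, map_mul, map_mul, map_sub, map_one, Polynomial.aeval_X, Polynomial.aeval_C, hx]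
    simp only [algebraMap_int_eq, eq_intCast, Int.cast_natCast]
    ring
  have h3 : (P - Polynomial.C (l : ℤ) * ((1 - Polynomial.X) * Q)).eval 1 = 0 := by
    simp [h1]
  have h4 := rho_of_aeval_zero' hz h2 h3
  rw [map_sub, map_mul, rho_C, KumRep_l, zero_mul, sub_zero] at h4
  exact h4

theorem l_dvd_of_rho (hz : IsPrimitiveRoot z l) {P : Polynomial ℤ}
    (h : (X : PowerSeries (ZMod l)) ^ (l - 1) ∣ rho l P) :
    (l : R) ∣ Polynomial.aeval z P := by
  obtain ⟨Q, S, hP⟩ := KumRep_div (l := l) (le_refl (l - 1)) h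
  rw [hP, map_add, map_mul, map_mul, map_pow, map_sub, map_one, Polynomial.aeval_X, Polynomial.aeval_C]
  refine dvd_add ((KumRep_l_dvd hz).mul_right _) ?_
  simp

/-- lift of an element congruent to `n` modulo `1 - z` -/
theorem exists_lift (hsurj : ∀ x : R, ∃ P : Polynomial ℤ, Polynomial.aeval z P = x) {x : R}
    {n : ℤ} (h : (1 - z) ∣ x - n) :
    ∃ P : Polynomial ℤ, Polynomial.aeval z P = x ∧ P.eval 1 = n := by
  obtain ⟨y, hy⟩ := h
  obtain ⟨Q, rfl⟩ := hsurj y
  refine ⟨Polynomial.C n + (1 - Polynomial.X) * Q, ?_, ?_⟩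
  · rw [map_add, map_mul, map_sub, map_one, Polynomial.aeval_X, Polynomial.aeval_C]
    simp only [algebraMap_int_eq, eq_intCast]
    linear_combination -hy
  · simp

/-- the trace of an element of `λ R`, divided by `l`, is the top coefficient -/
theorem trace_rho (hz : IsPrimitiveRoot z l) {P : Polynomial ℤ} (h1 : P.eval 1 = 0) :
    ∃ t : ℤ, ∑ a ∈ Finset.univ.erase (0 : ZMod l), Polynomial.aeval (z ^ a.val) P
        = (l : R) * (t : R) ∧ (t : ZMod l) = coeff (l - 1) (rho l P) := by
  refine ⟨P.sum (fun i c => if (i : ZMod l) = 0 then c else 0), ?_, ?_⟩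
  · have e1 : ∀ a : ZMod l, Polynomial.aeval (z ^ a.val) P =
        ∑ i ∈ P.support, (P.coeff i : R) * (z ^ i) ^ a.val := by
      intro a
      rw [Polynomial.aeval_eq_sum_range' (Nat.lt_succ_self _)]
      rw [← Finset.sum_subset (Polynomial.supp_subset_range_natDegree_succ)]
      · refine Finset.sum_congr rfl fun i _ => ?_
        rw [← pow_mul, ← pow_mul, mul_comm a.val i, zsmul_eq_mul]
      · intro i _ hi
        rw [Polynomial.notMem_support_iff] at hi
        rw [hi, zero_smul]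
    rw [Finset.sum_congr rfl fun a _ => e1 a, Finset.sum_comm]
    have e2 : ∀ i ∈ P.support, ∑ a ∈ Finset.univ.erase (0 : ZMod l), (P.coeff i : R) * (z ^ i) ^ a.val =
        (l : R) * ((if (i : ZMod l) = 0 then P.coeff i else 0 : ℤ) : R) - (P.coeff i : R) := by
      intro i _
      rw [← Finset.mul_sum, KumRep_sum hz i]
      split_ifs with h
      · ring
      · push_cast
        ring
    rw [Finset.sum_congr rfl e2, Finset.sum_sub_distrib, ← Finset.mul_sum]
    have e3 : ∑ i ∈ P.support, (P.coeff i : R) = 0 := by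
      have h2 : ((P.eval 1 : ℤ) : R) = ∑ i ∈ P.support, (P.coeff i : R) := by
        rw [Polynomial.eval_eq_sum, Polynomial.sum_def]
        push_cast
        refine Finset.sum_congr rfl fun i _ => ?_
        rw [one_pow, mul_one]
      rw [← h2, h1, Int.cast_zero]
    rw [e3, sub_zero, Polynomial.sum_def]
    push_cast
    rfl
  · rw [coeff_top_rho, h1, Int.cast_zero, sub_zero, Polynomial.sum_def, Polynomial.sum_def]
    push_cast
    refine Finset.sum_congr rfl fun i _ => ?_
    split_ifs <;> simp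

end AER
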