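import Mathlib

/-!
# Truncated exponential calculus over `ZMod l` (pure algebra, no number field)

`Ex l` is the truncated exponential, `Th l = tanh (X/2)`, `rho l : ℤ[T] →+* (ZMod l)⟦X⟧` sends
`T` to `Ex l`.  All congruences are written `X ^ n ∣ f - g`.
-/

namespace AER

open PowerSeries

/-! ### General congruences of power series modulo `X ^ n` -/

section general

variable {F : Type*} [Field F]

theorem cg_iff {n : ℕ} {f g : PowerSeries F} :
    (X : PowerSeries F) ^ n ∣ f - g ↔ ∀ m < n, coeff m f = coeff m g := by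
  rw [X_pow_dvd_iff]
  simp only [map_sub, sub_eq_zero]

theorem cg_mul {n : ℕ} {f g f' g' : PowerSeries F} (h : (X : PowerSeries F) ^ n ∣ f - g)
    (h' : (X : PowerSeries F) ^ n ∣ f' - g') : (X : PowerSeries F) ^ n ∣ f * f' - g * g' := by
  have e : f * f' - g * g' = (f - g) * f' + g * (f' - g') := by ring
  rw [e]
  exact dvd_add (Dvd.dvd.mul_right h _) (Dvd.dvd.mul_left h' _)

theorem cg_add {n : ℕ} {f g f' g' : PowerSeries F} (h : (X : PowerSeries F) ^ n ∣ f - g)
    (h' : (X : PowerSeries F) ^ n ∣ f' - g') :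
    (X : PowerSeries F) ^ n ∣ (f + f') - (g + g') := by
  have e : (f + f') - (g + g') = (f - g) + (f' - g') := by ring
  rw [e]
  exact dvd_add h h'

theorem cg_sub {n : ℕ} {f g f' g' : PowerSeries F} (h : (X : PowerSeries F) ^ n ∣ f - g)
    (h' : (X : PowerSeries F) ^ n ∣ f' - g') :
    (X : PowerSeries F) ^ n ∣ (f - f') - (g - g') := by
  have e : (f - f') - (g - g') = (f - g) - (f' - g') := by ring
  rw [e]
  exact dvd_sub h h'

theorem cg_trans {n : ℕ} {f g k : PowerSeries F} (h : (X : PowerSeries F) ^ n ∣ f - g)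
    (h' : (X : PowerSeries F) ^ n ∣ g - k) : (X : PowerSeries F) ^ n ∣ f - k := by
  have e : f - k = (f - g) + (g - k) := by ring
  rw [e]
  exact dvd_add h h'

theorem cg_symm {n : ℕ} {f g : PowerSeries F} (h : (X : PowerSeries F) ^ n ∣ f - g) :
    (X : PowerSeries F) ^ n ∣ g - f := by
  rw [← dvd_neg, neg_sub]
  exact h

theorem cg_refl {n : ℕ} (f : PowerSeries F) : (X : PowerSeries F) ^ n ∣ f - f := by
  simp

theorem cg_pow {n : ℕ} {f g : PowerSeries F} (h : (X : PowerSeries F) ^ n ∣ f - g) (k : ℕ) :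
    (X : PowerSeries F) ^ n ∣ f ^ k - g ^ k :=
  h.trans (sub_dvd_pow_sub_pow f g k)

theorem cg_sum {ι : Type*} (s : Finset ι) {n : ℕ} {f g : ι → PowerSeries F}
    (h : ∀ i ∈ s, (X : PowerSeries F) ^ n ∣ f i - g i) :
    (X : PowerSeries F) ^ n ∣ (∑ i ∈ s, f i) - ∑ i ∈ s, g i := by
  rw [← Finset.sum_sub_distrib]
  exact Finset.dvd_sum h

theorem cg_of_le {m n : ℕ} (hmn : m ≤ n) {f g : PowerSeries F}
    (h : (X : PowerSeries F) ^ n ∣ f - g) : (X : PowerSeries F) ^ m ∣ f - g :=
  (pow_dvd_pow _ hmn).trans h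

theorem cg_inv {n : ℕ} {f g : PowerSeries F} (hf : constantCoeff f ≠ 0)
    (hg : constantCoeff g ≠ 0)
    (h : (X : PowerSeries F) ^ n ∣ f - g) : (X : PowerSeries F) ^ n ∣ f⁻¹ - g⁻¹ := by
  have e : f⁻¹ - g⁻¹ = (g - f) * (f⁻¹ * g⁻¹) := by
    have h1 : f * f⁻¹ = 1 := PowerSeries.mul_inv_cancel f hf
    have h2 : g * g⁻¹ = 1 := PowerSeries.mul_inv_cancel g hg
    calc f⁻¹ - g⁻¹ = f⁻¹ * (g * g⁻¹) - g⁻¹ * (f * f⁻¹) := by rw [h1, h2]; ring
      _ = _ := by ring
  rw [e]
  exact Dvd.dvd.mul_right (cg_symm h) _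

theorem cg_rescale {n : ℕ} (a : F) {f g : PowerSeries F}
    (h : (X : PowerSeries F) ^ n ∣ f - g) :
    (X : PowerSeries F) ^ n ∣ rescale a f - rescale a g := by
  rw [cg_iff] at h ⊢
  intro m hm
  rw [coeff_rescale, coeff_rescale, h m hm]

/-- cancel a factor with invertible constant coefficient -/
theorem cg_cancel {n : ℕ} {f g k : PowerSeries F} (hk : constantCoeff k ≠ 0)
    (h : (X : PowerSeries F) ^ n ∣ k * f - k * g) : (X : PowerSeries F) ^ n ∣ f - g := by
  have e : f - g = k⁻¹ * (k * f - k * g) := by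
    have h1 : k⁻¹ * k = 1 := PowerSeries.inv_mul_cancel k hk
    calc f - g = (k⁻¹ * k) * (f - g) := by rw [h1]; ring
      _ = _ := by ring
  rw [e]
  exact Dvd.dvd.mul_left h _

theorem coeff_eq_of_cg {n m : ℕ} (hm : m < n) {f g : PowerSeries F}
    (h : (X : PowerSeries F) ^ n ∣ f - g) : coeff m f = coeff m g :=
  (cg_iff.mp h) m hm

end general

/-! ### The truncated exponential -/

variable (l : ℕ) [hl : Fact l.Prime]

/-- truncated exponential over `ZMod l` (the coefficients of index `≥ l` vanish since `l ∣ n!`) -/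
noncomputable def Ex : PowerSeries (ZMod l) :=
  PowerSeries.mk fun n => ((n.factorial : ℕ) : ZMod l)⁻¹

/-- `tanh (X / 2) = (Ex - 1) / (Ex + 1)` -/
noncomputable def Th : PowerSeries (ZMod l) := (Ex l - 1) * (Ex l + 1)⁻¹

/-- evaluation of integer polynomials at the truncated exponential -/
noncomputable def rho : Polynomial ℤ →+* PowerSeries (ZMod l) :=
  Polynomial.eval₂RingHom (Int.castRingHom _) (Ex l)

/-- `2 * artanh` truncated below degree `l` -/
noncomputable def art2 (G : PowerSeries (ZMod l)) : PowerSeries (ZMod l) :=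
  ∑ i ∈ Finset.Ico 1 l, if Odd i then C (2 * ((i : ZMod l))⁻¹) * G ^ i else 0

theorem coeff_Ex (n : ℕ) : coeff n (Ex l) = ((n.factorial : ℕ) : ZMod l)⁻¹ := by
  simp [Ex]

theorem constantCoeff_Ex : constantCoeff (Ex l) = 1 := by
  rw [← coeff_zero_eq_constantCoeff_apply, coeff_Ex]
  simp

theorem factorial_ne_zero {n : ℕ} (hn : n < l) : ((n.factorial : ℕ) : ZMod l) ≠ 0 := by
  rw [Ne, ZMod.natCast_eq_zero_iff]
  intro h
  have := (Nat.Prime.dvd_factorial hl.out).mp h
  omega

theorem natCast_ne_zero' {n : ℕ} (h0 : n ≠ 0) (hn : n < l) : ((n : ℕ) : ZMod l) ≠ 0 := by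
  rw [Ne, ZMod.natCast_eq_zero_iff]
  intro h
  have := Nat.le_of_dvd (Nat.pos_of_ne_zero h0) h
  omega

/-- `exp (aX) exp (bX) = exp ((a+b)X)` modulo `X ^ l` -/
theorem Ex_mul (a b : ZMod l) :
    (X : PowerSeries (ZMod l)) ^ l ∣
      rescale a (Ex l) * rescale b (Ex l) - rescale (a + b) (Ex l) := by
  rw [cg_iff]
  intro n hn
  rw [coeff_mul, coeff_rescale, coeff_Ex]
  have hn0 := factorial_ne_zero l hn
  rw [eq_mul_inv_iff_mul_eq₀ hn0, Finset.sum_mul, (Commute.all a b).add_pow',]
  apply Finset.sum_congr rfl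
  rintro ⟨i, k⟩ hik
  have hik' : i + k = n := by simpa using hik
  simp only [coeff_rescale, coeff_Ex]
  have hi := factorial_ne_zero l (show i < l by omega)
  have hk := factorial_ne_zero l (show k < l by omega)
  have hch : ((n.choose i : ℕ) : ZMod l) * ((i.factorial : ℕ) : ZMod l)
      * ((k.factorial : ℕ) : ZMod l) = ((n.factorial : ℕ) : ZMod l) := by
    rw [← hik', Nat.choose_symm_add]
    exact_mod_cast congrArg (Nat.cast (R := ZMod l)) (Nat.add_choose_mul_factorial_mul_factorial i k)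
  rw [← hch, nsmul_eq_mul]
  field_simp

theorem rescale_zero_Ex : rescale (0 : ZMod l) (Ex l) = 1 := by
  rw [rescale_zero_apply, constantCoeff_Ex, map_one]

theorem rescale_one_Ex : rescale (1 : ZMod l) (Ex l) = Ex l := by
  rw [rescale_one]; rfl

theorem constantCoeff_rescale' (a : ZMod l) (f : PowerSeries (ZMod l)) :
    constantCoeff (rescale a f) = constantCoeff f := by
  rw [← coeff_zero_eq_constantCoeff_apply, ← coeff_zero_eq_constantCoeff_apply, coeff_rescale]
  simp

theorem rescale_rescale' (a b : ZMod l) (f : PowerSeries (ZMod l)) :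
    rescale a (rescale b f) = rescale (a * b) f := by
  ext n
  simp only [coeff_rescale]
  ring

/-- `exp (aX) ^ n = exp (n a X)` modulo `X ^ l` -/
theorem Ex_rescale_pow (a : ZMod l) (n : ℕ) :
    (X : PowerSeries (ZMod l)) ^ l ∣ (rescale a (Ex l)) ^ n - rescale (n * a) (Ex l) := by
  induction n with
  | zero => simp [constantCoeff_Ex]
  | succ n ih =>
    rw [pow_succ]
    refine cg_trans (cg_mul ih (cg_refl _)) ?_
    have h := Ex_mul l (n * a) a
    have e : ((n + 1 : ℕ) : ZMod l) * a = n * a + a := by push_cast; ring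
    rw [e]
    exact h

/-- `exp (X) ^ n = exp (n X)` modulo `X ^ l` -/
theorem Ex_pow (n : ℕ) :
    (X : PowerSeries (ZMod l)) ^ l ∣ (Ex l) ^ n - rescale (n : ZMod l) (Ex l) := by
  have h := Ex_rescale_pow l 1 n
  rw [rescale_one_Ex, mul_one] at h
  exact h

/-! ### The evaluation map `rho` -/

theorem rho_X : rho l Polynomial.X = Ex l := by
  simp [rho]

theorem rho_C (n : ℤ) : rho l (Polynomial.C n) = (n : PowerSeries (ZMod l)) := by
  simp [rho]

theorem constantCoeff_rho (P : Polynomial ℤ) :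
    constantCoeff (rho l P) = ((P.eval 1 : ℤ) : ZMod l) := by
  have h : (constantCoeff (R := ZMod l)).comp (rho l)
      = (Int.castRingHom (ZMod l)).comp (Polynomial.evalRingHom (1 : ℤ)) := by
    apply Polynomial.ringHom_ext
    · intro a
      simp [rho]
    · simp [rho, constantCoeff_Ex]
  have := congrArg (fun f => f P) h
  simpa using this

/-- coefficients of `rho P` below `l` -/
theorem coeff_rho {m : ℕ} (hm : m < l) (P : Polynomial ℤ) :
    coeff m (rho l P) = ((m.factorial : ℕ) : ZMod l)⁻¹ *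
      P.sum (fun i c => (c : ZMod l) * (i : ZMod l) ^ m) := by
  have h1 : rho l P = P.sum (fun i c => (c : PowerSeries (ZMod l)) * (Ex l) ^ i) := by
    simp [rho, Polynomial.eval₂_eq_sum]
  rw [h1, Polynomial.sum_def, Polynomial.sum_def, map_sum, Finset.mul_sum]
  apply Finset.sum_congr rfl
  intro i _
  have h2 : coeff m ((P.coeff i : PowerSeries (ZMod l)) * (Ex l) ^ i)
      = (P.coeff i : ZMod l) * coeff m ((Ex l) ^ i) := by
    have : (P.coeff i : PowerSeries (ZMod l)) = C ((P.coeff i : ZMod l)) := by simp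
    rw [this, coeff_C_mul]
  rw [h2, coeff_eq_of_cg hm (Ex_pow l i), coeff_rescale, coeff_Ex]
  ring

theorem fermat_pow (i : ZMod l) : i ^ (l - 1) = if i = 0 then 0 else 1 := by
  have h2 : 2 ≤ l := hl.out.two_le
  split_ifs with h
  · rw [h, zero_pow]; omega
  · exact ZMod.pow_card_sub_one_eq_one h

/-- the top coefficient of `rho P` : minus the sum of the coefficients of index prime to `l` -/
theorem coeff_top_rho (P : Polynomial ℤ) :
    coeff (l - 1) (rho l P) =
      P.sum (fun i c => if (i : ZMod l) = 0 then (c : ZMod l) else 0) - ((P.eval 1 : ℤ) : ZMod l) := by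
  have h2 : 2 ≤ l := hl.out.two_le
  rw [coeff_rho l (by omega), ZMod.wilsons_lemma, Polynomial.eval_eq_sum, Polynomial.sum_def,
    Polynomial.sum_def, Polynomial.sum_def]
  push_cast
  rw [Finset.mul_sum, ← Finset.sum_sub_distrib]
  apply Finset.sum_congr rfl
  intro i _
  rw [fermat_pow]
  split_ifs <;> simp

end AER
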