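import Pool.Agent.Lib_MP_aeefb1_reg.Cyc
import Pool.Agent.Lib_MP_aeefb1_reg.Ps
import Pool.Agent.Lib_MP_aeefb1_reg.KumRep

open Finset

namespace AER

section Rep

variable (l : ℕ) [hlp : Fact l.Prime]

private theorem Rep_unit : ∃ u : PowerSeries (ZMod l), Ex l - 1 = PowerSeries.X * u ∧
    PowerSeries.constantCoeff u = 1 := by
  have h1 : (PowerSeries.X : PowerSeries (ZMod l)) ∣ Ex l - 1 := by
    rw [PowerSeries.X_dvd_iff, map_sub, constantCoeff_Ex, map_one, sub_self]
  obtain ⟨u, hu⟩ := h1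
  refine ⟨u, hu, ?_⟩
  have h2 : PowerSeries.coeff 1 (Ex l - 1) = 1 := by
    rw [map_sub, coeff_Ex, PowerSeries.coeff_one]
    simp
  rw [hu, ← zero_add 1, PowerSeries.coeff_succ_X_mul,
    PowerSeries.coeff_zero_eq_constantCoeff_apply] at h2
  exact h2

private theorem Rep_cancel {m : ℕ} {f : PowerSeries (ZMod l)}
    (h : (PowerSeries.X : PowerSeries (ZMod l)) ^ (m + 1) ∣ (Ex l - 1) ^ m * f) :
    PowerSeries.constantCoeff f = 0 := by
  obtain ⟨u, hu, hu1⟩ := Rep_unit l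
  rw [hu, mul_pow, mul_assoc, pow_succ,
    mul_dvd_mul_iff_left (pow_ne_zero _ PowerSeries.X_ne_zero), PowerSeries.X_dvd_iff, map_mul,
    map_pow, hu1, one_pow, one_mul] at h
  exact h

private theorem Rep_pow (m : ℕ) (f : PowerSeries (ZMod l)) :
    (PowerSeries.X : PowerSeries (ZMod l)) ^ m ∣ (Ex l - 1) ^ m * f := by
  obtain ⟨u, hu, -⟩ := Rep_unit l
  rw [hu, mul_pow, mul_assoc]
  exact dvd_mul_right _ _

private theorem Rep_rho (m : ℕ) (S : Polynomial ℤ) :
    rho l ((Polynomial.X - 1) ^ m * S) = (Ex l - 1) ^ m * rho l S := by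
  rw [map_mul, map_pow, map_sub, map_one, rho_X]

private theorem Rep_char0 : ((l : ℕ) : PowerSeries (ZMod l)) = 0 := by
  have : ((l : ℕ) : PowerSeries (ZMod l)) = PowerSeries.C ((l : ℕ) : ZMod l) := by
    rw [map_natCast]
  rw [this, ZMod.natCast_self, map_zero]

end Rep

variable {l : ℕ} [hlp : Fact l.Prime] {R : Type} [CommRing R] [IsDedekindDomain R]
  [CharZero R] [Module.Free ℤ R] [Module.Finite ℤ R]

namespace Cyc

variable (Q : Cyc l R)

private theorem Rep_surj (x : R) : ∃ P : Polynomial ℤ, Polynomial.aeval Q.z P = x := by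
  obtain ⟨v, hx⟩ := Q.span x
  refine ⟨∑ i, Polynomial.C (v i) * Polynomial.X ^ i.val, ?_⟩
  rw [hx, map_sum]
  refine Finset.sum_congr rfl fun i _ => ?_
  rw [map_mul, map_pow, Polynomial.aeval_X, Polynomial.aeval_C]
  simp

private theorem Rep_aeval (m : ℕ) (S : Polynomial ℤ) :
    Polynomial.aeval Q.z ((Polynomial.X - 1) ^ m * S) =
      (-Q.lam) ^ m * Polynomial.aeval Q.z S := by
  rw [map_mul, map_pow, map_sub, map_one, Polynomial.aeval_X, lam_def, neg_sub]

private theorem Rep_lam_dvd {P : Polynomial ℤ} (h : (l : ℤ) ∣ P.eval 1) :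
    Q.lam ∣ Polynomial.aeval Q.z P := by
  obtain ⟨S, hS⟩ := Polynomial.X_sub_C_dvd_sub_C_eval (p := P) (a := (1 : ℤ))
  have h1 : Polynomial.aeval Q.z P = (P.eval 1 : ℤ) + (-Q.lam) * Polynomial.aeval Q.z S := by
    have h2 := congrArg (Polynomial.aeval Q.z) hS
    rw [map_sub, map_mul, map_sub, Polynomial.aeval_X, Polynomial.aeval_C, Polynomial.aeval_C,
      map_one, eq_intCast] at h2
    rw [lam_def]
    linear_combination h2
  rw [h1]
  refine dvd_add (Q.lam_dvd_of_l_dvd h) ?_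
  exact (dvd_neg.mpr (dvd_refl _)).mul_right _

/-- the comparison of two representations -/
private theorem Rep_cmp {P : Polynomial ℤ} {m : ℕ} {S : Polynomial ℤ}
    (h : Polynomial.aeval Q.z P = (-Q.lam) ^ m * Polynomial.aeval Q.z S) :
    (PowerSeries.X : PowerSeries (ZMod l)) ^ (l - 1) ∣ rho l P - (Ex l - 1) ^ m * rho l S := by
  have h1 := rho_of_aeval_zero Q.prim (P := P - (Polynomial.X - 1) ^ m * S) (by
    rw [map_sub, Rep_aeval, h, sub_self])
  rw [map_sub, Rep_rho] at h1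
  exact h1

theorem rep_dvd_iff {P : Polynomial ℤ} {m : ℕ} (hm : m ≤ l - 1) :
    Q.lam ^ m ∣ Polynomial.aeval Q.z P ↔ (PowerSeries.X : PowerSeries (ZMod l)) ^ m ∣ rho l P := by
  constructor
  · rintro ⟨x, hx⟩
    obtain ⟨S, hS⟩ := Q.Rep_surj ((-1) ^ m * x)
    have h1 := Q.Rep_cmp (P := P) (m := m) (S := S) (by
      rw [hx, hS, neg_pow, mul_comm ((-1 : R) ^ m), mul_assoc, ← mul_assoc ((-1 : R) ^ m),
        ← mul_pow, neg_mul_neg, one_mul, one_pow, one_mul])
    have h2 := (pow_dvd_pow _ hm).trans h1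
    have h3 := dvd_add h2 (Rep_pow l m (rho l S))
    rwa [sub_add_cancel] at h3
  · intro h
    induction m with
    | zero => simp
    | succ m ih =>
      obtain ⟨x, hx⟩ := ih (by omega) ((pow_dvd_pow _ (Nat.le_succ m)).trans h)
      obtain ⟨S, hS⟩ := Q.Rep_surj ((-1) ^ m * x)
      have h0 : Polynomial.aeval Q.z P = (-Q.lam) ^ m * Polynomial.aeval Q.z S := by
        rw [hx, hS, neg_pow, mul_comm ((-1 : R) ^ m), mul_assoc, ← mul_assoc ((-1 : R) ^ m),
          ← mul_pow, neg_mul_neg, one_mul, one_pow, one_mul]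
      have h1 := (pow_dvd_pow _ hm).trans (Q.Rep_cmp h0)
      have h2 : (PowerSeries.X : PowerSeries (ZMod l)) ^ (m + 1) ∣ (Ex l - 1) ^ m * rho l S := by
        have h3 := dvd_sub h h1
        rwa [sub_sub_cancel] at h3
      have h4 := Rep_cancel l h2
      rw [constantCoeff_rho, ZMod.intCast_zmod_eq_zero_iff_dvd] at h4
      rw [h0, pow_succ]
      refine mul_dvd_mul ?_ (Q.Rep_lam_dvd h4)
      exact pow_dvd_pow_of_dvd (dvd_neg.mpr (dvd_refl _)) m

theorem rep_dvd_iff' {P : Polynomial ℤ} (h1 : P.eval 1 = 0) {m : ℕ} (hm : m ≤ l) :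
    Q.lam ^ m ∣ Polynomial.aeval Q.z P ↔ (PowerSeries.X : PowerSeries (ZMod l)) ^ m ∣ rho l P := by
  have h5 := Q.five_le
  rcases Nat.lt_or_ge (l - 1) m with hlt | hle
  swap
  · exact Q.rep_dvd_iff hle
  obtain rfl : m = l := by omega
  have el : Q.lam ^ m = Q.lam ^ (m - 1) * Q.lam := by
    rw [← pow_succ]
    congr 1
    omega
  constructor
  · intro h
    refine rho_of_dvd' Q.prim Q.Rep_surj ?_ h1
    refine Dvd.dvd.trans ?_ h
    rw [el]
    exact mul_dvd_mul Q.l_dvd_lam_pow (dvd_refl _)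
  · intro h
    obtain ⟨x, hx⟩ := l_dvd_of_rho Q.prim ((pow_dvd_pow _ (Nat.sub_le m 1)).trans h)
    obtain ⟨S, rfl⟩ := Q.Rep_surj x
    have hcyc : Polynomial.aeval Q.z (Polynomial.cyclotomic m ℤ) = 0 := by
      have h2 := Q.prim.isRoot_cyclotomic (by omega)
      rw [Polynomial.IsRoot.def, ← Polynomial.map_cyclotomic_int m R, Polynomial.eval_map] at h2
      rw [Polynomial.aeval_def]
      exact h2
    have h3 := rho_of_aeval_zero' Q.prim
      (P := P - Polynomial.C (m : ℤ) * S + Polynomial.C (S.eval 1) * Polynomial.cyclotomic m ℤ)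
      (by
        rw [map_add, map_sub, map_mul, map_mul, hcyc, mul_zero, add_zero, hx,
          Polynomial.aeval_C, eq_intCast, Int.cast_natCast, sub_self])
      (by
        rw [Polynomial.eval_add, Polynomial.eval_sub, Polynomial.eval_mul, Polynomial.eval_mul,
          Polynomial.eval_C, Polynomial.eval_C, Polynomial.eval_one_cyclotomic_prime, h1]
        ring)
    rw [map_add, map_sub, map_mul, map_mul, rho_C, rho_C, rho_cyclotomic, Int.cast_natCast,
      Rep_char0, zero_mul, sub_zero] at h3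
    have h4 : (PowerSeries.X : PowerSeries (ZMod m)) ^ (m - 1 + 1) ∣
        (Ex m - 1) ^ (m - 1) * ((S.eval 1 : ℤ) : PowerSeries (ZMod m)) := by
      rw [show m - 1 + 1 = m by omega, mul_comm]
      have h6 := dvd_sub h3 h
      rwa [add_sub_cancel_left] at h6
    have h6 := Rep_cancel m h4
    have h7 : ((S.eval 1 : ℤ) : PowerSeries (ZMod m)) =
        PowerSeries.C ((S.eval 1 : ℤ) : ZMod m) := by
      rw [map_intCast]
    rw [h7, PowerSeries.constantCoeff_C, ZMod.intCast_zmod_eq_zero_iff_dvd] at h6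
    rw [hx, el]
    exact mul_dvd_mul Q.lam_pow_dvd_l (Q.Rep_lam_dvd h6)

private theorem Rep_map (f : R →+* R) (x : R) (P : Polynomial ℤ) :
    f (Polynomial.aeval x P) = Polynomial.aeval (f x) P := by
  rw [Polynomial.aeval_def, Polynomial.aeval_def, Polynomial.hom_eval₂]
  congr 1
  exact Subsingleton.elim _ _

theorem rep_exists {x : R} {n : ℤ} (h : Q.lam ∣ x - n) :
    ∃ P : Polynomial ℤ, Polynomial.aeval Q.z P = x ∧ P.eval 1 = n :=
  exists_lift Q.Rep_surj h

theorem rep_trace {P : Polynomial ℤ} (h1 : P.eval 1 = 0) : ∃ t : ℤ,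
    ∑ a ∈ univ.erase (0 : ZMod l), Q.σ a (Polynomial.aeval Q.z P) = l * t ∧
      (t : ZMod l) = PowerSeries.coeff (l - 1) (rho l P) := by
  obtain ⟨t, ht, ht'⟩ := trace_rho Q.prim h1
  refine ⟨t, ?_, ht'⟩
  rw [← ht]
  refine Finset.sum_congr rfl fun a ha => ?_
  rw [Rep_map, Q.σz a (Finset.mem_erase.mp ha).1]

theorem rep_conj (P : Polynomial ℤ) : ∃ P' : Polynomial ℤ,
    Polynomial.aeval Q.z P' = Q.conj (Polynomial.aeval Q.z P) ∧
      (PowerSeries.X : PowerSeries (ZMod l)) ^ l ∣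
        rho l P' - PowerSeries.rescale (-1) (rho l P) := by
  refine ⟨P.comp (Polynomial.X ^ (-1 : ZMod l).val), ?_, ?_⟩
  · rw [Polynomial.aeval_comp, map_pow, Polynomial.aeval_X, conj, Rep_map,
      Q.σz _ neg_one_ne_zero']
  · have h := rho_comp l (-1 : ZMod l).val P
    rw [ZMod.natCast_zmod_val] at h
    exact h

end Cyc

end AER
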