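import Pool.Agent.Lib_MP_aeefb1_reg.Elem

/-!
MP_aeefb1_nt: the factors `C + z ^ q E` of `C ^ l + E ^ l`.
-/

open Finset

namespace AER

/-- integral linear relations between the powers of a primitive `l`-th root of unity -/
private theorem rel_field_Elem2 {l : ℕ} [hlp : Fact l.Prime] {K : Type} [Field K] [CharZero K]
    {z' : K} (hprim : IsPrimitiveRoot z' l) {u : ZMod l → ℤ}
    (h : ∑ i, (u i : K) * z' ^ i.val = 0) : ∃ c : ℤ, ∀ i, u i = c := by
  have hpos : 0 < l := hlp.out.pos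
  set p : Polynomial ℤ := ∑ i : ZMod l, Polynomial.C (u i) * Polynomial.X ^ i.val with hp
  have hroot : Polynomial.aeval z' p = 0 := by
    rw [hp, map_sum, ← h]
    refine sum_congr rfl (fun i _ => ?_)
    simp
  have hdvd : Polynomial.cyclotomic l ℤ ∣ p := by
    rw [Polynomial.cyclotomic_eq_minpoly hprim hpos]
    exact minpoly.isIntegrallyClosed_dvd (hprim.isIntegral hpos) hroot
  have hcoeff : ∀ i : ZMod l, p.coeff i.val = u i := by
    intro i
    rw [hp, Polynomial.finsetSum_coeff, Finset.sum_eq_single i]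
    · simp
    · intro j _ hj
      rw [Polynomial.coeff_C_mul, Polynomial.coeff_X_pow, if_neg, mul_zero]
      intro h'
      exact hj (ZMod.val_injective l h').symm
    · intro h'
      exact absurd (mem_univ i) h'
  have hdeg : p.natDegree ≤ l - 1 := by
    rw [hp]
    refine Polynomial.natDegree_sum_le_of_forall_le _ _ (fun i _ => ?_)
    refine (Polynomial.natDegree_C_mul_X_pow_le _ _).trans ?_
    have := ZMod.val_lt i
    omega
  obtain ⟨g, hg⟩ := hdvd
  by_cases hg0 : g = 0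
  · refine ⟨0, fun i => ?_⟩
    rw [← hcoeff i, hg, hg0, mul_zero, Polynomial.coeff_zero]
  · have hΦ : Polynomial.cyclotomic l ℤ ≠ 0 := Polynomial.cyclotomic_ne_zero l ℤ
    have hdeg2 : g.natDegree = 0 := by
      have h1 := Polynomial.natDegree_mul hΦ hg0
      rw [← hg, Polynomial.natDegree_cyclotomic, Nat.totient_prime hlp.out] at h1
      omega
    obtain ⟨c, hc⟩ : ∃ c, g = Polynomial.C c :=
      ⟨g.coeff 0, Polynomial.eq_C_of_natDegree_eq_zero hdeg2⟩
    refine ⟨c, fun i => ?_⟩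
    rw [← hcoeff i, hg, hc, Polynomial.coeff_mul_C, Polynomial.cyclotomic_prime,
      Polynomial.finsetSum_coeff, Finset.sum_eq_single i.val]
    · simp
    · intro j _ hj
      rw [Polynomial.coeff_X_pow, if_neg (Ne.symm hj)]
    · intro h'
      exact absurd (mem_range.mpr (ZMod.val_lt i)) h'

variable {l : ℕ} [hlp : Fact l.Prime] {R : Type} [CommRing R] [IsDedekindDomain R]
  [CharZero R] [Module.Free ℤ R] [Module.Finite ℤ R]

namespace Cyc

variable (Q : Cyc l R)

/-- (`IsPrimitiveRoot.pow_add_pow_eq_prod_add_mul`, or `X_pow_sub_C_eq_prod`.) -/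
theorem prod_add (C E : R) : ∏ q : ZMod l, (C + Q.e q * E) = C ^ l + E ^ l := by
  have hl := Q.five_le
  have hodd : Odd l := hlp.out.odd_of_ne_two (by omega)
  rw [Q.prim.pow_add_pow_eq_prod_add_mul C E hodd]
  refine Finset.prod_bij (fun q _ => Q.e q) ?_ ?_ ?_ ?_
  · intro q _
    rw [Polynomial.mem_nthRootsFinset hlp.out.pos, Q.e_pow, CharP.cast_eq_zero, zero_mul, Q.e_zero]
  · intro a _ b _ h
    exact Q.e_injective h
  · intro x hx
    rw [Polynomial.mem_nthRootsFinset hlp.out.pos] at hx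
    have : NeZero l := ⟨hlp.out.ne_zero⟩
    obtain ⟨i, _, hi⟩ := Q.prim.eq_pow_of_pow_eq_one hx
    exact ⟨(i : ZMod l), mem_univ _, by rw [← Q.z_pow, hi]⟩
  · intro q _
    rfl

/-- (A maximal ideal which contains both contains `(z^q - z^r) C` and `(z^q - z^r) E`, hence
`λ`, and the integer `m` with `C + E ≡ m` modulo `λ`, and `l`.) -/
theorem coprime_pair {C E : R} (h : IsCoprime C E) (hlam : ¬ Q.lam ∣ C + E) {q r : ZMod l}
    (hqr : q ≠ r) : IsCoprime (C + Q.e q * E) (C + Q.e r * E) := by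
  obtain ⟨a, b, hab⟩ := h
  -- `λ` and `C + E` are coprime
  have h1 : IsCoprime Q.lam (C + E) := by
    obtain ⟨m, hm⟩ := Q.exists_int (C + E)
    have hml : ¬ (l : ℤ) ∣ m := fun h' => hlam (by
      have : C + E = (C + E - m) + m := by ring
      rw [this]
      exact dvd_add hm (Q.lam_dvd_of_l_dvd h'))
    have hc : IsCoprime (l : ℤ) m :=
      (Nat.prime_iff_prime_int.mp hlp.out).coprime_iff_not_dvd.mpr hml
    obtain ⟨x, y, hxy⟩ := hc
    obtain ⟨t, ht⟩ := hm
    obtain ⟨r', hr'⟩ := Q.lam_dvd_l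
    refine ⟨x * r' - y * t, y, ?_⟩
    have e1 : (x : R) * (l : R) + y * m = 1 := by exact_mod_cast congrArg (Int.cast : ℤ → R) hxy
    have e2 : (m : R) = C + E - Q.lam * t := by rw [← ht]; ring
    rw [hr', e2] at e1
    linear_combination e1
  have h2 : IsCoprime Q.lam (C + Q.e q * E) := by
    obtain ⟨x, y, hxy⟩ := h1
    obtain ⟨t, ht⟩ := Q.lam_dvd_e_sub_one q
    refine ⟨x - y * t * E, y, ?_⟩
    have e2 : Q.e q = 1 + Q.lam * t := by rw [← ht]; ring
    rw [e2]
    linear_combination hxy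
  have h3 : IsCoprime (Q.e q - Q.e r) (C + Q.e q * E) := by
    obtain ⟨x, y, hxy⟩ := h2
    obtain ⟨w, hw⟩ := (Q.assoc_sub hqr).symm.dvd
    refine ⟨x * w, y, ?_⟩
    rw [hw] at hxy
    linear_combination hxy
  obtain ⟨c, d, hcd⟩ := h3
  refine ⟨c * (b - a * Q.e r) + d, c * (a * Q.e q - b), ?_⟩
  linear_combination hcd - c * (Q.e r - Q.e q) * hab

/-- `λ ∣ C ^ l + E ^ l` iff `λ ∣ C + E` -/
theorem lam_dvd_pow_add {C E : R} : Q.lam ∣ C ^ l + E ^ l ↔ Q.lam ∣ C + E := by
  have key : ∀ x : R, Q.lam ∣ x ^ l - x := by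
    intro x
    obtain ⟨m, hm⟩ := Q.exists_int x
    have h1 : Q.lam ∣ x ^ l - (m : R) ^ l := hm.trans (sub_dvd_pow_sub_pow x (m : R) l)
    have h2 : (l : ℤ) ∣ m ^ l - m := by
      rw [← ZMod.intCast_zmod_eq_zero_iff_dvd]
      push_cast
      rw [ZMod.pow_card, sub_self]
    have h3 := Q.lam_dvd_of_l_dvd h2
    push_cast at h3
    have e : x ^ l - x = (x ^ l - (m : R) ^ l) + ((m : R) ^ l - m) - (x - m) := by ring
    rw [e]
    exact dvd_sub (dvd_add h1 h3) hm
  have h1 := dvd_add (key C) (key E)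
  have e : C ^ l + E ^ l = (C ^ l - C + (E ^ l - E)) + (C + E) := by ring
  rw [e]
  exact dvd_add_right h1

/-- if `w ^ l` is real then `z ^ a w` is real for some `a` (use `prod_add` with `-w`) -/
theorem exists_real {w : R} (h : Q.conj w ^ l = w ^ l) :
    ∃ a : ZMod l, Q.conj (Q.e a * w) = Q.e a * w := by
  have hl := Q.five_le
  have hodd : Odd l := hlp.out.odd_of_ne_two (by omega)
  have h1 : ∏ q : ZMod l, (Q.conj w + Q.e q * (-w)) = 0 := by
    rw [Q.prod_add, hodd.neg_pow, h]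
    ring
  rw [Finset.prod_eq_zero_iff] at h1
  obtain ⟨q, _, hq⟩ := h1
  have h2 : Q.conj w = Q.e q * w := by linear_combination hq
  have h20 : (2 : ZMod l) ≠ 0 := by
    intro h'
    have h'' : ((2 : ℕ) : ZMod l) = 0 := by exact_mod_cast h'
    rw [ZMod.natCast_eq_zero_iff] at h''
    have := Nat.le_of_dvd (by norm_num) h''
    omega
  refine ⟨q / 2, ?_⟩
  rw [map_mul, Q.conj_e, h2, ← mul_assoc, ← Q.e_add]
  congr 2
  field_simp
  ring

/-- If `C ≡ E` modulo `l` the norms of `C + z ^ q E`, `q ≠ 0`, agree modulo `l ^ 2`.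
(`2 (C + z^q E) = (1 + z^q) (C + E) + (1 - z^q) (C - E)`, `1 + z^q` is a unit and the last term
is divisible by `λ ^ l`; `norm_congr`.) -/
theorem norm_add_e {C E : R} (h : (l : R) ∣ C - E) {q : ZMod l} (hq : q ≠ 0) :
    (((2 : ℤ) ^ (l - 1) * Algebra.norm ℤ (C + Q.e q * E) : ℤ) : ZMod (l ^ 2))
      = ((Algebra.norm ℤ (C + E) : ℤ) : ZMod (l ^ 2)) := by
  have hl := Q.five_le
  have hdvd : Q.lam ^ l ∣ 2 * (C + Q.e q * E) - (1 + Q.e q) * (C + E) := by
    have e : 2 * (C + Q.e q * E) - (1 + Q.e q) * (C + E) = (1 - Q.e q) * (C - E) := by ring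
    rw [e]
    have h1 : Q.lam ^ (l - 1) ∣ C - E := Q.l_dvd_iff.mp h
    have h2 := mul_dvd_mul (Q.lam_dvd_one_sub_e q) h1
    rw [← pow_succ', show l - 1 + 1 = l by omega] at h2
    exact h2
  have h3 := Q.norm_congr hdvd
  have h4 : Algebra.norm ℤ (2 * (C + Q.e q * E)) = 2 ^ (l - 1) * Algebra.norm ℤ (C + Q.e q * E) := by
    rw [map_mul]
    congr 1
    have := Q.norm_int 2
    push_cast at this
    exact this
  have h5 : Algebra.norm ℤ ((1 + Q.e q) * (C + E)) = Algebra.norm ℤ (C + E) := by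
    rw [map_mul, Q.norm_isUnit (Q.isUnit_one_add hq), one_mul]
  rw [h4, h5] at h3
  exact h3

/-- integral linear relations between the `z ^ i` have constant coefficients -/
private theorem rel_const_Elem2 {u : ZMod l → ℤ} (h : ∑ i, (u i : R) * Q.e i = 0) :
    ∃ c : ℤ, ∀ i, u i = c := by
  have hinj : Function.Injective (algebraMap R (FractionRing R)) := IsFractionRing.injective R _
  have hch : CharZero (FractionRing R) := charZero_of_injective_algebraMap hinj
  refine rel_field_Elem2 (K := FractionRing R) (Q.prim.map_of_injective hinj) ?_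
  have h1 := congrArg (algebraMap R (FractionRing R)) h
  rw [map_sum, map_zero] at h1
  rw [← h1]
  refine sum_congr rfl (fun i _ => ?_)
  rw [map_mul, map_intCast, e, map_pow]

/-- linear relations modulo `l` between the `z ^ i` are multiples of `∑ z ^ i = 0` -/
theorem indep_mod {v : ZMod l → ℤ} (h : (l : R) ∣ ∑ i, (v i : R) * Q.e i) (i j : ZMod l) :
    (l : ℤ) ∣ v i - v j := by
  obtain ⟨x, hx⟩ := h
  obtain ⟨w, hw⟩ := Q.span' x
  have h1 : ∑ i, ((v i - l * w i : ℤ) : R) * Q.e i = 0 := by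
    have e : ∑ i, ((v i - l * w i : ℤ) : R) * Q.e i =
        ∑ i, (v i : R) * Q.e i - (l : R) * ∑ i, (w i : R) * Q.e i := by
      rw [mul_sum, ← sum_sub_distrib]
      refine sum_congr rfl (fun i _ => ?_)
      push_cast
      ring
    rw [e, hx, ← hw, sub_self]
  obtain ⟨c, hc⟩ := Q.rel_const_Elem2 h1
  have hi := hc i
  have hj := hc j
  refine ⟨w i - w j, ?_⟩
  linear_combination hi - hj

end Cyc

end AER
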