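import Pool.Agent.Lib_MP_aeefb1_reg.Cyc

/-!
MP_aeefb1_nt: norms of ideals prime to `λ` are `1` modulo `l`.
-/

open Finset

namespace AER

variable {l : ℕ} [hlp : Fact l.Prime] {R : Type} [CommRing R] [IsDedekindDomain R]
  [CharZero R] [Module.Free ℤ R] [Module.Finite ℤ R]

namespace Cyc

variable (Q : Cyc l R)

/-- The norm of an ideal prime to `λ` is `1` modulo `l`.  (The cyclic group of order `l` acts on
the finite set `R ⧸ b` by multiplication with `z`; the only fixed point is `0`, because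
`(1 - z) x = 0` and `1 - z` is invertible modulo `b`.  Then
`IsPGroup.card_modEq_card_fixedPoints`, or `Equiv.Perm` with `σ ^ l = 1`:
`Equiv.Perm.card_fixedPoints_modEq`.) -/
theorem absNorm_mod {b : Ideal R} (hb : IsCoprime b (Ideal.span {Q.lam})) :
    ((Ideal.absNorm b : ℕ) : ZMod l) = 1 := by
  classical
  obtain ⟨i, hi, j, hj, hij⟩ := Ideal.isCoprime_iff_exists.1 hb
  obtain ⟨c, rfl⟩ := Ideal.mem_span_singleton'.1 hj
  have hb0 : b ≠ ⊥ := by
    rintro rfl
    rw [Ideal.mem_bot] at hi
    rw [hi, zero_add] at hij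
    exact Q.not_isUnit_lam (IsUnit.of_mul_eq_one c (by rw [mul_comm]; exact hij))
  have hfin : Finite (R ⧸ b) := Ideal.finiteQuotientOfFreeOfNeBot b hb0
  have : Fintype (R ⧸ b) := Fintype.ofFinite _
  -- multiplication with `z`
  set f : Function.End (R ⧸ b) := fun x => Ideal.Quotient.mk b Q.z * x with hf
  have hpow : ∀ (n : ℕ) (x : R ⧸ b), (f ^ n) x = Ideal.Quotient.mk b (Q.z ^ n) * x := by
    intro n
    induction n with
    | zero => intro x; simp [Function.End.one_def]
    | succ n ih =>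
      intro x
      rw [pow_succ, Function.End.mul_def, Function.comp_apply, ih, pow_succ, map_mul, mul_assoc]
  have hfl : f ^ l ^ 1 = 1 := by
    funext x
    rw [hpow, pow_one, Q.zl, map_one, one_mul]
    rfl
  have h1 := Equiv.Perm.card_fixedPoints_modEq hfl
  have hfix : Function.fixedPoints f = {0} := by
    ext x
    rw [Set.mem_singleton_iff, Function.mem_fixedPoints]
    constructor
    · intro hx
      have hx' : Ideal.Quotient.mk b Q.z * x = x := hx
      have h2 : Ideal.Quotient.mk b (c * Q.lam) = 1 := by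
        have h3 : Ideal.Quotient.mk b (i + c * Q.lam) = 1 := by rw [hij, map_one]
        rwa [map_add, Ideal.Quotient.eq_zero_iff_mem.2 hi, zero_add] at h3
      have h4 : Ideal.Quotient.mk b Q.lam * x = 0 := by
        rw [Q.lam_def, map_sub, map_one, sub_mul, one_mul, hx', sub_self]
      calc x = Ideal.Quotient.mk b (c * Q.lam) * x := by rw [h2, one_mul]
        _ = Ideal.Quotient.mk b c * (Ideal.Quotient.mk b Q.lam * x) := by rw [map_mul, mul_assoc]
        _ = 0 := by rw [h4, mul_zero]
    · rintro rfl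
      show Ideal.Quotient.mk b Q.z * 0 = 0
      rw [mul_zero]
  have h5 : Fintype.card (Function.fixedPoints f) = 1 := by
    rw [← Nat.card_eq_fintype_card, hfix]
    simp
  rw [h5] at h1
  have h6 : Ideal.absNorm b = Fintype.card (R ⧸ b) := by
    rw [Ideal.absNorm_apply, Submodule.cardQuot_apply, Nat.card_eq_fintype_card]
  rw [h6]
  have h7 := (ZMod.natCast_eq_natCast_iff _ _ _).2 h1
  rw [h7, Nat.cast_one]

/-- the same modulo `l ^ 2` for `l`-th powers -/
theorem absNorm_pow_mod {b : Ideal R} (hb : IsCoprime b (Ideal.span {Q.lam})) :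
    ((Ideal.absNorm b ^ l : ℕ) : ZMod (l ^ 2)) = 1 := by
  have h1 := Q.absNorm_mod hb
  have h2 : (l : ℤ) ∣ (Ideal.absNorm b : ℤ) - 1 := by
    rw [← ZMod.intCast_zmod_eq_zero_iff_dvd]
    push_cast
    rw [h1, sub_self]
  have h3 := dvd_sub_pow_of_dvd_sub (p := l) h2 1
  rw [pow_one, one_pow] at h3
  have h4 : (((Ideal.absNorm b : ℤ) ^ l - 1 : ℤ) : ZMod (l ^ 2)) = 0 := by
    rw [ZMod.intCast_zmod_eq_zero_iff_dvd]
    push_cast
    exact h3
  push_cast at h4 ⊢
  exact sub_eq_zero.1 h4

end Cyc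

end AER
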