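import Pool.Agent.Lib_MP_aeefb1_reg.CoreW

/-!
# The core of the descent: pure algebra over `ZMod l`

For `j ≠ 0` the numbers `M j q` (`q ≠ 0`) have power sums `p_m(j) = ∑_q M j q q^m` which are
polynomials in `j` of degree `≤ m - d`, `d` the order of `v`.  By Newton's identities the
coefficients `b_i(j)` of `∏ (1 - q X)^(M j q)` are polynomials in `j` of degree `≤ i - d` and the
coefficient of `j^(i-d)` is `-1/i` times the one of `p_i`.  But `b_i(j) = 0` for `i > (l-1)/2`.
-/

open Finset PowerSeries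

namespace AER

/-! ### The Newton recursion over `F[J]` -/

/-- `b_0 = 1`, `b_n = - (1/n) ∑_{m=1}^n P_m b_{n-m}` -/
noncomputable def Bseq {F : Type*} [Field F] (P : ℕ → Polynomial F) : ℕ → Polynomial F
  | 0 => 1
  | (n + 1) => - Polynomial.C (((n + 1 : ℕ) : F)⁻¹) *
      ∑ m : Fin (n + 1), P (m + 1) * Bseq P (n - m)
  termination_by n => n
  decreasing_by omega

section bseq

variable {F : Type*} [Field F]

private theorem Bseq_zero (P : ℕ → Polynomial F) : Bseq P 0 = 1 := by
  rw [Bseq]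

private theorem Bseq_succ (P : ℕ → Polynomial F) (n : ℕ) :
    Bseq P (n + 1) = - Polynomial.C (((n + 1 : ℕ) : F)⁻¹) *
      ∑ m ∈ range (n + 1), P (m + 1) * Bseq P (n - m) := by
  rw [Bseq, Finset.sum_range]

private theorem Ws_mul {w w' n n' : ℕ} {p q : Polynomial F}
    (hp : ∀ d, n < d + w → p.coeff d = 0) (hq : ∀ d, n' < d + w' → q.coeff d = 0) :
    ∀ d, n + n' < d + (w + w') → (p * q).coeff d = 0 := by
  intro d hd
  rw [Polynomial.coeff_mul]
  apply Finset.sum_eq_zero
  rintro ⟨d1, d2⟩ hdd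
  have hd' : d1 + d2 = d := by simpa using hdd
  simp only
  by_cases h : n < d1 + w
  · rw [hp d1 h, zero_mul]
  · rw [hq d2 (by omega), mul_zero]

private theorem Bseq_weight {P : ℕ → Polynomial F} {w N : ℕ}
    (hP : ∀ m, 1 ≤ m → m ≤ N → ∀ d, m < d + w → (P m).coeff d = 0) (n : ℕ) (h1 : 1 ≤ n)
    (hn : n ≤ N) : ∀ d, n < d + w → (Bseq P n).coeff d = 0 := by
  induction n using Nat.strong_induction_on with
  | _ n ih =>
    obtain ⟨k, rfl⟩ : ∃ k, n = k + 1 := ⟨n - 1, by omega⟩
    intro d hd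
    rw [Bseq_succ, neg_mul, Polynomial.coeff_neg, Polynomial.coeff_C_mul,
      Polynomial.finsetSum_coeff, Finset.sum_eq_zero, mul_zero, neg_zero]
    intro m hm
    rw [mem_range] at hm
    rcases Nat.lt_or_ge m k with h | h
    · have h1 := Ws_mul (hP (m + 1) (by omega) (by omega))
        (ih (k - m) (by omega) (by omega) (by omega))
      exact h1 d (by omega)
    · have hmk : m = k := by omega
      rw [hmk, Nat.sub_self, Bseq_zero, mul_one]
      exact hP (k + 1) (by omega) hn d hd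

private theorem Bseq_top {P : ℕ → Polynomial F} {w N : ℕ} (hw : 1 ≤ w)
    (hP : ∀ m, 1 ≤ m → m ≤ N → ∀ d, m < d + w → (P m).coeff d = 0) (n : ℕ) (h1 : 1 ≤ n)
    (hn : n ≤ N) (hwn : w ≤ n) :
    (Bseq P n).coeff (n - w) = - ((n : F)⁻¹ * (P n).coeff (n - w)) := by
  obtain ⟨k, rfl⟩ : ∃ k, n = k + 1 := ⟨n - 1, by omega⟩
  rw [Bseq_succ, neg_mul, Polynomial.coeff_neg, Polynomial.coeff_C_mul,
    Polynomial.finsetSum_coeff, Finset.sum_range_succ, Finset.sum_eq_zero, zero_add,
    Nat.sub_self, Bseq_zero, mul_one]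
  intro m hm
  rw [mem_range] at hm
  have h1 := Ws_mul (hP (m + 1) (by omega) (by omega))
    (Bseq_weight hP (k - m) (by omega) (by omega))
  exact h1 (k + 1 - w) (by omega)

/-- the recursion computes the coefficients of `∏ (1 - q X)^(M q)` -/
private theorem Bseq_eval {F : Type*} [Field F] [Fintype F] [DecidableEq F]
    (P : ℕ → Polynomial F) (j : F) (M : F → ℕ) (N : ℕ)
    (hinv : ∀ n : ℕ, 1 ≤ n → n ≤ N → (n : F) ≠ 0)
    (hP : ∀ m, 1 ≤ m → m ≤ N →
      (P m).eval j = ∑ q ∈ univ.erase (0 : F), (M q : F) * q ^ m) (n : ℕ) (hn : n ≤ N) :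
    (Bseq P n).eval j = (bpoly M).coeff n := by
  induction n using Nat.strong_induction_on with
  | _ n ih =>
    rcases Nat.eq_zero_or_pos n with h0 | h0
    · subst h0
      rw [Bseq_zero, Polynomial.eval_one, bpoly_coeff_zero]
    · obtain ⟨k, rfl⟩ : ∃ k, n = k + 1 := ⟨n - 1, by omega⟩
      have hk := hinv (k + 1) (by omega) hn
      have hnew := newton M (k + 1)
      have e1 : (bpoly M).coeff (k + 1) = ((k + 1 : ℕ) : F)⁻¹ *
          (((k + 1 : ℕ) : F) * (bpoly M).coeff (k + 1)) := by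
        field_simp
      rw [e1, hnew, Bseq_succ, Polynomial.eval_mul, Polynomial.eval_neg, Polynomial.eval_C,
        Polynomial.eval_finsetSum, neg_mul, mul_neg]
      congr 2
      symm
      refine Finset.sum_bij (fun m _ => m - 1) ?_ ?_ ?_ ?_
      · intro m hm
        rw [mem_Icc] at hm
        rw [mem_range]; omega
      · intro a ha b hb hab
        rw [mem_Icc] at ha hb
        omega
      · intro b hb
        rw [mem_range] at hb
        exact ⟨b + 1, by rw [mem_Icc]; omega, by omega⟩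
      · intro m hm
        rw [mem_Icc] at hm
        rw [Polynomial.eval_mul, show m - 1 + 1 = m by omega, hP m (by omega) (by omega),
          ih (k - (m - 1)) (by omega) (by omega), show k - (m - 1) = k + 1 - m by omega]

end bseq

/-! ### Reversion of `art2` -/

section rev

variable {l : ℕ} [hl : Fact l.Prime]

private noncomputable def A2 (l : ℕ) [Fact l.Prime] : Polynomial (ZMod l) :=
  ∑ i ∈ Finset.Ico 1 l, if Odd i then Polynomial.C (2 * (i : ZMod l)⁻¹) * Polynomial.X ^ i else 0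

private noncomputable def B2 (l : ℕ) [Fact l.Prime] : Polynomial (ZMod l) :=
  ∑ i ∈ Finset.Ico 1 l,
    if Odd i then Polynomial.C (2 * (i : ZMod l)⁻¹) * Polynomial.X ^ (i - 1) else 0

private theorem A2_eq : A2 l = Polynomial.X * B2 l := by
  unfold A2 B2
  rw [Finset.mul_sum]
  refine Finset.sum_congr rfl fun i hi => ?_
  rw [mem_Ico] at hi
  split_ifs with h
  · conv_lhs => rw [show i = (i - 1) + 1 by omega]
    rw [pow_succ, show i - 1 + 1 = i by omega]
    ring
  · simp

private theorem B2_coeff : (B2 l).coeff 0 = 2 := by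
  have h2 := hl.out.two_le
  unfold B2
  rw [Polynomial.finsetSum_coeff, Finset.sum_eq_single 1]
  · simp
  · intro i hi hi1
    rw [mem_Ico] at hi
    split_ifs
    · rw [Polynomial.coeff_C_mul, Polynomial.coeff_X_pow, if_neg (by omega), mul_zero]
    · simp
  · intro h
    exact absurd (mem_Ico.mpr ⟨le_refl 1, by omega⟩) h

private theorem art2_eq (G : PowerSeries (ZMod l)) : art2 l G = Polynomial.aeval G (A2 l) := by
  unfold art2 A2
  rw [map_sum]
  refine Finset.sum_congr rfl fun i _ => ?_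
  split_ifs
  · simp
  · simp

private theorem two_ne (h3 : 3 ≤ l) : (2 : ZMod l) ≠ 0 := by
  have := natCast_ne_zero' l (n := 2) (by omega) (by omega)
  exact_mod_cast this

private theorem exists_rev (h3 : 3 ≤ l) : ∃ g : Polynomial (ZMod l),
    g.coeff 0 = 0 ∧ g.coeff 1 = 2⁻¹ ∧ ∀ G a : PowerSeries (ZMod l), X ∣ G →
      X ^ l ∣ art2 l G - a → X ^ l ∣ G - Polynomial.aeval a g := by
  obtain ⟨g, h0, h1, h, hh⟩ := exists_reversion (two_ne h3) (A2 l) (B2 l) A2_eq B2_coeff l
    (by omega)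
  refine ⟨g, h0, h1 (by omega), fun G a hG ha => ?_⟩
  have e1 : Polynomial.aeval (art2 l G) g - G = G ^ l * Polynomial.aeval G h := by
    have := congrArg (Polynomial.aeval G) hh
    rw [map_sub, map_mul, map_pow, Polynomial.aeval_X, Polynomial.aeval_comp, ← art2_eq] at this
    exact this
  have h2 : X ^ l ∣ Polynomial.aeval (art2 l G) g - G := by
    rw [e1]
    exact (pow_dvd_pow_of_dvd hG l).mul_right _
  have h3 : X ^ l ∣ Polynomial.aeval (art2 l G) g - Polynomial.aeval a g := by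
    refine ha.trans ?_
    rw [Polynomial.aeval_def, Polynomial.aeval_def, ← Polynomial.eval_map, ← Polynomial.eval_map]
    exact Polynomial.sub_dvd_eval_sub _ _ _
  have e2 : G - Polynomial.aeval a g = (Polynomial.aeval (art2 l G) g - Polynomial.aeval a g)
      - (Polynomial.aeval (art2 l G) g - G) := by ring
  rw [e2]
  exact dvd_sub h3 h2

end rev

/-! ### The series over `F[J]` -/

section ser

variable {l : ℕ} [hl : Fact l.Prime]

/-- `v(X) tanh(J X / 2)` as a series over `F[J]` -/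
private noncomputable def AA (v : PowerSeries (ZMod l)) : PowerSeries (Polynomial (ZMod l)) :=
  PowerSeries.map Polynomial.C v *
    PowerSeries.mk fun n => Polynomial.C (coeff n (Th l)) * Polynomial.X ^ n

/-- evaluation `J ↦ j` -/
private noncomputable def ev (j : ZMod l) :
    PowerSeries (Polynomial (ZMod l)) →+* PowerSeries (ZMod l) :=
  PowerSeries.map (Polynomial.evalRingHom j)

private theorem ev_coeff (j : ZMod l) (f : PowerSeries (Polynomial (ZMod l))) (n : ℕ) :
    coeff n (ev j f) = (coeff n f).eval j := by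
  simp [ev]

private theorem ev_AA (v : PowerSeries (ZMod l)) (j : ZMod l) :
    ev j (AA v) = v * rescale j (Th l) := by
  unfold AA
  rw [map_mul]
  congr 1
  · ext n
    rw [ev_coeff]
    simp
  · ext n
    rw [ev_coeff, coeff_rescale, PowerSeries.coeff_mk, Polynomial.eval_mul, Polynomial.eval_C,
      Polynomial.eval_pow, Polynomial.eval_X, mul_comm]

private theorem AA_coeff (v : PowerSeries (ZMod l)) (n d : ℕ) (hd : d ≤ n) :
    (coeff n (AA v)).coeff d = coeff (n - d) v * coeff d (Th l) := by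
  unfold AA
  rw [PowerSeries.coeff_mul, Polynomial.finsetSum_coeff, Finset.sum_eq_single (n - d, d)]
  · simp
  · rintro ⟨a, b⟩ hab hne
    have hab' : a + b = n := by simpa using hab
    have hbd : d ≠ b := by
      rintro rfl
      exact hne (by ext <;> simp; omega)
    simp only [PowerSeries.coeff_map, PowerSeries.coeff_mk, Polynomial.coeff_C_mul,
      Polynomial.coeff_X_pow, if_neg hbd, mul_zero]
  · intro h
    exact absurd (by simpa using (by omega : n - d + d = n)) h

private theorem AA_weight {v : PowerSeries (ZMod l)} {w : ℕ}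
    (hv : ∀ n, n < w → coeff n v = 0) : Wt w (AA v) := by
  intro n d hn
  by_cases hd : d ≤ n
  · rw [AA_coeff v n d hd, hv _ (by omega), zero_mul]
  · unfold AA
    rw [PowerSeries.coeff_mul, Polynomial.finsetSum_coeff]
    apply Finset.sum_eq_zero
    rintro ⟨a, b⟩ hab
    have hab' : a + b = n := by simpa using hab
    simp only [PowerSeries.coeff_map, PowerSeries.coeff_mk, Polynomial.coeff_C_mul,
      Polynomial.coeff_X_pow, if_neg (show ¬ d = b by omega), mul_zero]

/-- `∑ g_r A^r` -/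
private noncomputable def GG (g : Polynomial (ZMod l)) (v : PowerSeries (ZMod l)) :
    PowerSeries (Polynomial (ZMod l)) :=
  ∑ r ∈ range (g.natDegree + 1), C (Polynomial.C (g.coeff r)) * AA v ^ r

private theorem ev_GG (g : Polynomial (ZMod l)) (v : PowerSeries (ZMod l)) (j : ZMod l) :
    ev j (GG g v) = Polynomial.aeval (v * rescale j (Th l)) g := by
  unfold GG
  rw [Polynomial.aeval_eq_sum_range, map_sum]
  refine Finset.sum_congr rfl fun r _ => ?_
  rw [map_mul, map_pow, ev_AA, PowerSeries.smul_eq_C_mul]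
  congr 1
  ext n
  rw [ev_coeff, PowerSeries.coeff_C, PowerSeries.coeff_C]
  split_ifs <;> simp

private theorem GG_weight {g : Polynomial (ZMod l)} (hg : g.coeff 0 = 0)
    {v : PowerSeries (ZMod l)} {w : ℕ} (hv : ∀ n, n < w → coeff n v = 0) : Wt w (GG g v) := by
  unfold GG
  refine Wt_sum _ fun r _ => ?_
  rcases Nat.eq_zero_or_pos r with h | h
  · rw [h, hg]
    simpa using Wt_zero' w
  · exact Wt_C_mul _ (Wt_mono (Nat.le_mul_of_pos_left w h) (Wt_pow (AA_weight hv) r))

private theorem GG_top {g : Polynomial (ZMod l)} (hg : g.coeff 0 = 0)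
    {v : PowerSeries (ZMod l)} {w : ℕ} (hw : 1 ≤ w) (hv : ∀ n, n < w → coeff n v = 0) {n : ℕ}
    (hn : w ≤ n) : (coeff n (GG g v)).coeff (n - w)
      = g.coeff 1 * (coeff w v * coeff (n - w) (Th l)) := by
  have key : ∀ r : ℕ, r ≠ 1 →
      (coeff n (C (Polynomial.C (g.coeff r)) * AA v ^ r)).coeff (n - w) = 0 := by
    intro r hr
    rcases Nat.eq_zero_or_pos r with h | h
    · rw [h, hg]; simp
    · refine Wt_C_mul (g.coeff r) (Wt_pow (AA_weight hv) r) n (n - w) ?_
      have : 2 * w ≤ r * w := Nat.mul_le_mul_right w (by omega)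
      omega
  have one : (coeff n (C (Polynomial.C (g.coeff 1)) * AA v ^ 1)).coeff (n - w)
      = g.coeff 1 * (coeff w v * coeff (n - w) (Th l)) := by
    rw [pow_one, PowerSeries.coeff_C_mul, Polynomial.coeff_C_mul, AA_coeff v n (n - w) (by omega),
      show n - (n - w) = w by omega]
  unfold GG
  rw [map_sum, Polynomial.finsetSum_coeff]
  by_cases h1 : 1 ∈ range (g.natDegree + 1)
  · rw [Finset.sum_eq_single_of_mem 1 h1 (fun r _ hr => key r hr), one]
  · have h2 : g.coeff 1 = 0 := by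
      apply Polynomial.coeff_eq_zero_of_natDegree_lt
      rw [mem_range] at h1
      omega
    rw [h2, zero_mul]
    apply Finset.sum_eq_zero
    intro r hr
    exact key r (fun h => h1 (h ▸ hr))

/-- the power sums as polynomials in `J` -/
private noncomputable def PP (κ : ZMod l) (g : Polynomial (ZMod l)) (v : PowerSeries (ZMod l))
    (m : ℕ) : Polynomial (ZMod l) :=
  ∑ k ∈ Ico 1 l, Polynomial.C (κ⁻¹ * ((k : ZMod l)⁻¹ * coeff (l - 1 - m) (Th l ^ k))) *
    coeff m (GG g v ^ k)

private theorem PP_weight {κ : ZMod l} {g : Polynomial (ZMod l)} (hg : g.coeff 0 = 0)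
    {v : PowerSeries (ZMod l)} {w : ℕ} (hv : ∀ n, n < w → coeff n v = 0) (m : ℕ) :
    ∀ d, m < d + w → (PP κ g v m).coeff d = 0 := by
  intro d hd
  unfold PP
  rw [Polynomial.finsetSum_coeff]
  apply Finset.sum_eq_zero
  intro k hk
  rw [mem_Ico] at hk
  rw [Polynomial.coeff_C_mul,
    Wt_mono (Nat.le_mul_of_pos_left w (by omega)) (Wt_pow (GG_weight hg hv) k) m d hd, mul_zero]

private theorem PP_top {κ : ZMod l} {g : Polynomial (ZMod l)} (hg : g.coeff 0 = 0)
    {v : PowerSeries (ZMod l)} {w : ℕ} (hw : 1 ≤ w) (hv : ∀ n, n < w → coeff n v = 0) {m : ℕ}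
    (hm : w ≤ m) : (PP κ g v m).coeff (m - w)
      = κ⁻¹ * coeff (l - 1 - m) (Th l) * (g.coeff 1 * (coeff w v * coeff (m - w) (Th l))) := by
  have h2 := hl.out.two_le
  unfold PP
  rw [Polynomial.finsetSum_coeff, Finset.sum_eq_single_of_mem 1 (mem_Ico.mpr ⟨le_refl 1, by omega⟩)]
  · rw [Polynomial.coeff_C_mul, pow_one, pow_one, GG_top hg hw hv hm]
    simp
  · intro k hk hk1
    rw [mem_Ico] at hk
    rw [Polynomial.coeff_C_mul, Wt_pow (GG_weight hg hv) k m (m - w), mul_zero]
    have : 2 * w ≤ k * w := Nat.mul_le_mul_right w (by omega)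
    omega

private theorem PP_eval {κ : ZMod l} (hκ : κ ≠ 0) {g : Polynomial (ZMod l)}
    {v G : PowerSeries (ZMod l)} {j : ZMod l} {M : ZMod l → ℕ} {e : ZMod l}
    (hG : X ^ l ∣ G - Polynomial.aeval (v * rescale j (Th l)) g)
    (hrel : ∀ q, q ≠ 0 → κ * M q =
      e - ∑ k ∈ Finset.Ico 1 l, (k : ZMod l)⁻¹ * coeff (l - 1) ((rescale q (Th l) * G) ^ k))
    {m : ℕ} (hm1 : 1 ≤ m) (hm : m + 2 ≤ l) :
    (PP κ g v m).eval j = ∑ q ∈ univ.erase (0 : ZMod l), (M q : ZMod l) * q ^ m := by
  have h := power_sum_eq l κ e M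
    (fun a => ∑ k ∈ Ico 1 l, (k : ZMod l)⁻¹ * (coeff a (Th l ^ k) * coeff (l - 1 - a) (G ^ k)))
    (by
      intro q hq
      rw [hrel q hq]
      congr 1
      simp only [Finset.sum_mul]
      rw [Finset.sum_comm]
      refine Finset.sum_congr rfl fun k _ => ?_
      rw [mul_pow, ← map_pow, PowerSeries.coeff_mul,
        Finset.Nat.sum_antidiagonal_eq_sum_range_succ
          (fun a b => coeff a (rescale q (Th l ^ k)) * coeff b (G ^ k)), Finset.mul_sum,
        show (l - 1).succ = l by have := hl.out.two_le; omega]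
      refine Finset.sum_congr rfl fun a _ => ?_
      rw [coeff_rescale]
      ring) hm1 hm
  have e1 : l - 1 - (l - 1 - m) = m := by omega
  simp only [e1] at h
  have e2 : ∑ q ∈ univ.erase (0 : ZMod l), (M q : ZMod l) * q ^ m
      = κ⁻¹ * (κ * ∑ q ∈ univ.erase (0 : ZMod l), (M q : ZMod l) * q ^ m) := by
    field_simp
  rw [e2, h]
  unfold PP
  rw [Polynomial.eval_finsetSum, Finset.mul_sum]
  refine Finset.sum_congr rfl fun k _ => ?_
  rw [Polynomial.eval_mul, Polynomial.eval_C, ← ev_coeff, map_pow (ev j), ev_GG,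
    ← coeff_eq_of_cg (show m < l by omega) (cg_pow hG k)]
  ring

end ser

/-- the key relation: `τ_{l-1-i} τ_{i-w} v_w = 0` for odd `i`, `(l-1)/2 < i ≤ l-2`, `w < i` -/
private theorem core_key {l : ℕ} [hl : Fact l.Prime] (h5 : 5 ≤ l)
    {v : PowerSeries (ZMod l)} {G : ZMod l → PowerSeries (ZMod l)}
    (hG2 : ∀ j, j ≠ 0 → X ^ 2 ∣ G j)
    (hG : ∀ j, j ≠ 0 → X ^ l ∣ art2 l (G j) - v * rescale j (Th l))
    {M : ZMod l → ZMod l → ℕ} (hM : ∀ j, j ≠ 0 → 2 * ∑ q ∈ univ.erase 0, M j q ≤ l - 1)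
    {κ : ZMod l} (hκ : κ ≠ 0) {e : ZMod l → ZMod l}
    (hrel : ∀ j, j ≠ 0 → ∀ q, q ≠ 0 → κ * M j q =
      e j - ∑ k ∈ Finset.Ico 1 l, (k : ZMod l)⁻¹ * coeff (l - 1) ((rescale q (Th l) * G j) ^ k))
    {w : ℕ} (hw : 1 ≤ w) (hv : ∀ n, n < w → coeff n v = 0) {i : ℕ} (hi1 : l - 1 < 2 * i)
    (hi2 : i + 2 ≤ l) (hwi : w ≤ i) :
    coeff (l - 1 - i) (Th l) * (coeff w v * coeff (i - w) (Th l)) = 0 := by
  obtain ⟨g, hg0, hg1, hg⟩ := exists_rev (l := l) (by omega)
  have hgG : ∀ j, j ≠ 0 → X ^ l ∣ G j - Polynomial.aeval (v * rescale j (Th l)) g :=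
    fun j hj => hg _ _ ((dvd_pow_self X (two_ne_zero)).trans (hG2 j hj)) (hG j hj)
  have hev : ∀ j, j ≠ 0 → (Bseq (PP κ g v) i).eval j = (bpoly (M j)).coeff i := by
    intro j hj
    refine Bseq_eval (PP κ g v) j (M j) (l - 2) ?_ ?_ i (by omega)
    · intro n hn1 hn
      exact natCast_ne_zero' l (by omega) (by omega)
    · intro m hm1 hm
      exact PP_eval hκ (hgG j hj) (hrel j hj) hm1 (by omega)
  have hzero : ∀ j, j ≠ 0 → (Bseq (PP κ g v) i).eval j = 0 := by
    intro j hj
    rw [hev j hj]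
    apply Polynomial.coeff_eq_zero_of_natDegree_lt
    have h1 := bpoly_natDegree (M j)
    have h2 := hM j hj
    omega
  have hwt := Bseq_weight (P := PP κ g v) (w := w) (N := l - 2)
    (fun m _ _ => PP_weight hg0 hv m) i (by omega) (by omega)
  have hB0 : Bseq (PP κ g v) i = 0 := by
    by_contra hne
    have hdeg : (Bseq (PP κ g v) i).natDegree ≤ i - w := by
      rw [Polynomial.natDegree_le_iff_coeff_eq_zero]
      intro d hd
      exact hwt d (by omega)
    have hcard : (univ.erase (0 : ZMod l)).card ≤ (Bseq (PP κ g v) i).natDegree := by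
      apply Polynomial.card_le_degree_of_subset_roots
      intro j hj
      have hj' : j ≠ 0 := (mem_erase.mp (Finset.mem_val.mp hj)).1
      rw [Polynomial.mem_roots hne]
      exact hzero j hj'
    rw [card_erase_of_mem (mem_univ _), card_univ, ZMod.card] at hcard
    omega
  have htop := Bseq_top (P := PP κ g v) (w := w) (N := l - 2) hw
    (fun m _ _ => PP_weight hg0 hv m) i (by omega) (by omega) hwi
  rw [hB0, PP_top hg0 hw hv hwi, hg1] at htop
  have hi0 : (i : ZMod l) ≠ 0 := natCast_ne_zero' l (by omega) (by omega)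
  have h20 : (2 : ZMod l) ≠ 0 := two_ne (by omega)
  rw [Polynomial.coeff_zero, eq_comm, neg_eq_zero] at htop
  have h3 : (i : ZMod l)⁻¹ * (κ⁻¹ * coeff (l - 1 - i) (Th l) *
      (2⁻¹ * (coeff w v * coeff (i - w) (Th l))))
      = ((i : ZMod l)⁻¹ * κ⁻¹ * 2⁻¹) *
        (coeff (l - 1 - i) (Th l) * (coeff w v * coeff (i - w) (Th l))) := by ring
  rw [h3] at htop
  exact (mul_eq_zero.mp htop).resolve_left
    (mul_ne_zero (mul_ne_zero (inv_ne_zero hi0) (inv_ne_zero hκ)) (inv_ne_zero h20))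

theorem core {l : ℕ} [Fact l.Prime] (h5 : 5 ≤ l)
    (hB : ∀ k : ℕ, 1 ≤ k → 2 * k ≤ l - 3 → ¬ (l : ℤ) ∣ (bernoulli (2 * k)).num)
    (v : PowerSeries (ZMod l)) (hv : ∀ n, n < l - 1 → Odd n → coeff n v = 0)
    (G : ZMod l → PowerSeries (ZMod l)) (hG2 : ∀ j, j ≠ 0 → X ^ 2 ∣ G j)
    (hG : ∀ j, j ≠ 0 → X ^ l ∣ art2 l (G j) - v * rescale j (Th l))
    (M : ZMod l → ZMod l → ℕ) (hM : ∀ j, j ≠ 0 → 2 * ∑ q ∈ univ.erase 0, M j q ≤ l - 1)
    (κ : ZMod l) (hκ : κ ≠ 0) (e : ZMod l → ZMod l)
    (hrel : ∀ j, j ≠ 0 → ∀ q, q ≠ 0 → κ * M j q =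
      e j - ∑ k ∈ Finset.Ico 1 l, (k : ZMod l)⁻¹ * coeff (l - 1) ((rescale q (Th l) * G j) ^ k)) :
    X ^ (l - 1) ∣ v := by
  have hlp : l.Prime := Fact.out
  have h2 := hlp.two_le
  -- the constant coefficient of `v`
  have hv0 : coeff 0 v = 0 := by
    have h1 := coeff_eq_of_cg (show 1 < l by omega) (hG 1 one_ne_zero)
    have h3 : coeff 1 (art2 l (G 1)) = 0 := by
      have h4 : X ^ 2 ∣ art2 l (G 1) := by
        unfold art2
        refine Finset.dvd_sum fun i hi => ?_
        rw [mem_Ico] at hi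
        split_ifs
        · exact Dvd.dvd.mul_left ((hG2 1 one_ne_zero).trans (dvd_pow_self _ (by omega))) _
        · exact dvd_zero _
      exact (X_pow_dvd_iff.mp h4) 1 (by norm_num)
    rw [h3, rescale_one, RingHom.id_apply, PowerSeries.coeff_mul,
      Finset.Nat.sum_antidiagonal_eq_sum_range_succ
        (fun a b => coeff a v * coeff b (Th l)), Finset.sum_range_succ, Finset.sum_range_one] at h1
    rw [Nat.sub_zero, Nat.sub_self, coeff_one_Th l (by omega),
      coeff_Th_even l (by omega) (by omega) (by decide : Even 0), mul_zero, add_zero] at h1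
    have h20 : (2 : ZMod l) ≠ 0 := two_ne (by omega)
    exact (mul_eq_zero.mp h1.symm).resolve_right (inv_ne_zero h20)
  by_contra hcon
  rw [X_pow_dvd_iff] at hcon
  push Not at hcon
  classical
  obtain ⟨w, ⟨hw1, hw2⟩, hmin⟩ : ∃ w, (w < l - 1 ∧ coeff w v ≠ 0) ∧
      ∀ n, n < w → coeff n v = 0 := by
    refine ⟨Nat.find hcon, Nat.find_spec hcon, fun n hn => ?_⟩
    have h3 := Nat.find_min hcon hn
    by_contra h4
    exact h3 ⟨by have := (Nat.find_spec hcon).1; omega, h4⟩
  have hweven : Even w := by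
    rw [← Nat.not_odd_iff_even]
    intro h
    exact hw2 (hv w hw1 h)
  have hw0 : w ≠ 0 := by
    rintro rfl
    exact hw2 hv0
  have hlodd : Odd l := hlp.odd_of_ne_two (by omega)
  obtain ⟨a, ha⟩ := hweven
  obtain ⟨b, hb⟩ := hlodd
  have hw3 : w ≤ l - 3 := by omega
  have hkey := fun {i : ℕ} => core_key (i := i) h5 hG2 hG hM hκ hrel (by omega) hmin
  have h2ne : (2 : ZMod l) ≠ 0 := two_ne (by omega)
  have hfer : (2 : ZMod l) ^ (l - 1) = 1 := ZMod.pow_card_sub_one_eq_one h2ne
  have h3ne : (3 : ZMod l) ≠ 0 := by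
    have := natCast_ne_zero' l (n := 3) (by omega) (by omega)
    exact_mod_cast this
  have h4 : (4 : ZMod l) ≠ 1 := by
    intro h
    apply h3ne
    linear_combination h
  by_cases h2w : (2 : ZMod l) ^ w = 1
  · -- the second choice `i = l - 4`
    have hw4 : w ≠ 2 := by
      rintro rfl
      apply h4
      rw [← h2w]; norm_num
    have hw5 : w ≠ l - 3 := by
      intro h
      have h5' : (2 : ZMod l) ^ (l - 1) = 2 ^ w * 4 := by
        rw [show l - 1 = w + 2 by omega, pow_add]; norm_num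
      rw [hfer, h2w, one_mul] at h5'
      exact h4 h5'.symm
    have h7 : 9 ≤ l := by omega
    have hk := hkey (i := l - 4) (by omega) (by omega) (by omega)
    rw [show l - 1 - (l - 4) = 3 by omega, coeff_three_Th l h5] at hk
    have h24 : (24 : ZMod l) ≠ 0 := by
      have e : (24 : ZMod l) = 2 * (2 * 2) * 3 := by norm_num
      rw [e]
      exact mul_ne_zero (mul_ne_zero h2ne (mul_ne_zero h2ne h2ne)) h3ne
    have hτ : coeff (l - 4 - w) (Th l) ≠ 0 := by
      obtain ⟨c, hc⟩ : ∃ c, l - 3 - w = 2 * c := ⟨b - 1 - a, by omega⟩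
      rw [show l - 4 - w = 2 * c - 1 by omega]
      refine coeff_Th_ne_zero l (by omega) (by omega) ?_ (hB c (by omega) (by omega))
      intro h
      have h6 : (2 : ZMod l) ^ (l - 1) = 2 ^ (2 * c) * (2 ^ w * 4) := by
        rw [show l - 1 = 2 * c + (w + 2) by omega, pow_add, pow_add]; norm_num
      rw [hfer, h, h2w, one_mul, one_mul] at h6
      exact h4 h6.symm
    exact (mul_ne_zero (neg_ne_zero.mpr (inv_ne_zero h24)) (mul_ne_zero hw2 hτ)) hk
  · -- the first choice `i = l - 2`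
    have hk := hkey (i := l - 2) (by omega) (by omega) (by omega)
    rw [show l - 1 - (l - 2) = 1 by omega, coeff_one_Th l (by omega)] at hk
    have hτ : coeff (l - 2 - w) (Th l) ≠ 0 := by
      obtain ⟨c, hc⟩ : ∃ c, l - 1 - w = 2 * c := ⟨b - a, by omega⟩
      rw [show l - 2 - w = 2 * c - 1 by omega]
      refine coeff_Th_ne_zero l (by omega) (by omega) ?_ (hB c (by omega) (by omega))
      intro h
      have h6 : (2 : ZMod l) ^ (l - 1) = 2 ^ (2 * c) * 2 ^ w := by
        rw [show l - 1 = 2 * c + w by omega, pow_add]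
      rw [hfer, h, one_mul] at h6
      exact h2w h6.symm
    exact (mul_ne_zero (inv_ne_zero h2ne) (mul_ne_zero hw2 hτ)) hk

end AER
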