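import Pool.Agent.Lib_MP_aeefb1_reg.Splitting

/-!
MP_aeefb1_nt: the numbers `M_q = F_q / f`, `f` the order of `p` modulo `l`.
-/

open Finset

namespace AER

variable {l : ℕ} [hlp : Fact l.Prime] {R : Type} [CommRing R] [IsDedekindDomain R]
  [CharZero R] [Module.Free ℤ R] [Module.Finite ℤ R]

private theorem one_add_sq_zero_pow {A : Type} [CommRing A] {x : A} (hx : x * x = 0) (n : ℕ) :
    (1 + x) ^ n = 1 + n * x := by
  induction n with
  | zero => simp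
  | succ n ih =>
    rw [pow_succ, ih]
    push_cast
    linear_combination (n : A) * hx

/-- Proof.  `f = orderOf (p : ZMod l) ≥ 2`, `F_q = f M_q` (`S.ord_F`), `f ∑ M_q = l - 1`.
`p ^ f = 1 + l c` with an integer `c`, prime to `l`: otherwise `p ^ f = 1` modulo `l ^ 2` and,
as `f ∣ l - 1`, `hp2` fails.  `p ^ (s F_q) = (1 + l c) ^ (s M_q) = 1 + l c s M_q` modulo `l ^ 2`.
`κ = c s`, the same for all splittings. -/
theorem exists_kappa (h5 : 5 ≤ l) {p s : ℕ} (hp : p.Prime) (hpl : p ≠ l)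
    (hp1 : (p : ZMod l) ≠ 1) (hp2 : (p : ZMod (l ^ 2)) ^ (l - 1) ≠ 1) (hs : ¬ l ∣ s) :
    ∃ κ : ℤ, (κ : ZMod l) ≠ 0 ∧ ∀ (Q : Cyc l R) (C E : R) (J : Ideal R)
      (S : Splitting Q p s C E J), ∃ M : ZMod l → ℕ,
        2 * ∑ q ∈ univ.erase 0, M q ≤ l - 1 ∧
        ∀ q, ((Algebra.norm ℤ (C + Q.e q * E) : ℤ) : ZMod (l ^ 2))
          = ((1 + l * (κ * M q) : ℤ) : ZMod (l ^ 2)) := by
  have hlP : l.Prime := hlp.out
  have hp0 : (p : ZMod l) ≠ 0 := by
    intro h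
    rw [ZMod.natCast_eq_zero_iff] at h
    exact hpl ((Nat.prime_dvd_prime_iff_eq hlP hp).1 h).symm
  have hpow : (p : ZMod l) ^ (l - 1) = 1 := ZMod.pow_card_sub_one_eq_one hp0
  have hfd : orderOf (p : ZMod l) ∣ l - 1 := orderOf_dvd_of_pow_eq_one hpow
  have hf1 : orderOf (p : ZMod l) ≠ 1 := by
    intro h
    exact hp1 (orderOf_eq_one_iff.1 h)
  have hf0 : orderOf (p : ZMod l) ≠ 0 := by
    intro h
    rw [h, zero_dvd_iff] at hfd
    omega
  set f := orderOf (p : ZMod l) with hf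
  have hf2 : 2 ≤ f := by omega
  have hpf : (p : ZMod l) ^ f = 1 := pow_orderOf_eq_one _
  obtain ⟨c, hc⟩ : ∃ c : ℤ, (p : ℤ) ^ f = 1 + l * c := by
    have h1 : (((p : ℤ) ^ f - 1 : ℤ) : ZMod l) = 0 := by
      push_cast
      rw [hpf, sub_self]
    rw [ZMod.intCast_zmod_eq_zero_iff_dvd] at h1
    obtain ⟨c, hc⟩ := h1
    exact ⟨c, by linarith⟩
  have hll : ((l : ℕ) : ZMod (l ^ 2)) * ((l : ℕ) : ZMod (l ^ 2)) = 0 := by
    rw [← Nat.cast_mul, ← pow_two, ZMod.natCast_self]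
  have hcl : (c : ZMod l) ≠ 0 := by
    intro h
    rw [ZMod.intCast_zmod_eq_zero_iff_dvd] at h
    obtain ⟨d, hd⟩ := h
    have h2 : (p : ZMod (l ^ 2)) ^ f = 1 := by
      have h3 : (((p : ℤ) ^ f : ℤ) : ZMod (l ^ 2)) = ((1 + l * c : ℤ) : ZMod (l ^ 2)) := by
        rw [hc]
      rw [hd] at h3
      push_cast at h3
      rw [h3]
      linear_combination (d : ZMod (l ^ 2)) * hll
    obtain ⟨g, hg⟩ := hfd
    apply hp2
    rw [hg, pow_mul, h2, one_pow]
  have hsl : (s : ZMod l) ≠ 0 := by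
    intro h
    rw [ZMod.natCast_eq_zero_iff] at h
    exact hs h
  refine ⟨c * s, ?_, ?_⟩
  · push_cast
    exact mul_ne_zero hcl hsl
  intro Q C E J S
  have hM : ∀ q, ∃ m, S.F q = f * m := fun q => S.ord_F q
  choose M hM using hM
  refine ⟨M, ?_, ?_⟩
  · have h1 : f * ∑ q, M q = l - 1 := by
      rw [mul_sum, ← S.sum_F]
      exact sum_congr rfl (fun q _ => (hM q).symm)
    have h2 : ∑ q ∈ univ.erase (0 : ZMod l), M q ≤ ∑ q, M q :=
      sum_le_sum_of_subset (erase_subset _ _)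
    calc 2 * ∑ q ∈ univ.erase (0 : ZMod l), M q ≤ f * ∑ q, M q := Nat.mul_le_mul hf2 h2
      _ = l - 1 := h1
  · intro q
    rw [S.norm q, hM q]
    have h3 : (p : ZMod (l ^ 2)) ^ f = 1 + (l : ZMod (l ^ 2)) * (c : ZMod (l ^ 2)) := by
      have h4 : (((p : ℤ) ^ f : ℤ) : ZMod (l ^ 2)) = ((1 + l * c : ℤ) : ZMod (l ^ 2)) := by
        rw [hc]
      push_cast at h4
      exact h4
    have h5 : s * (f * M q) = f * (s * M q) := by ring
    rw [h5, pow_mul, h3, one_add_sq_zero_pow]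
    · push_cast
      ring
    · linear_combination (c : ZMod (l ^ 2)) * (c : ZMod (l ^ 2)) * hll

end AER
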