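import Pool.Agent.Lib_MP_aeefb1_reg.Tser
import Pool.Agent.Lib_MP_aeefb1_reg.Elem

/-!
MP_aeefb1_nt: the relation `v T_j = 2 artanh (G)` modulo `λ ^ l`, `G = (C - C̄)/(C + C̄)`.
-/

open Finset

namespace AER

variable {l : ℕ} [hlp : Fact l.Prime] {R : Type} [CommRing R] [IsDedekindDomain R]
  [CharZero R] [Module.Free ℤ R] [Module.Finite ℤ R]

private theorem Rel_lam_l (Q : Cyc l R) {x y : R} (hx : (l : R) ∣ x) (hy : Q.lam ∣ y) :
    Q.lam ^ l ∣ x * y := by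
  have h5 := Q.five_le
  have h1 : Q.lam ^ l = Q.lam ^ (l - 1) * Q.lam := by
    rw [← pow_succ]
    congr 1
    omega
  rw [h1]
  exact mul_dvd_mul (Q.lam_pow_dvd_l.trans hx) hy

private theorem Rel_cancel (Q : Cyc l R) {a x : R} (ha : ¬ Q.lam ∣ a) {n : ℕ}
    (h : Q.lam ^ n ∣ a * x) : Q.lam ^ n ∣ x :=
  ((Q.coprime_lam ha).symm.pow_left (m := n)).dvd_of_dvd_mul_left h

private theorem Rel_pow (Q : Cyc l R) {a b : R} (h : Q.lam ∣ a - b) : (l : R) ∣ a ^ l - b ^ l := by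
  obtain ⟨t, ht⟩ := h
  have ha : a = b + Q.lam * t := by rw [← ht]; ring
  obtain ⟨r, hr⟩ := exists_add_pow_prime_eq hlp.out b (Q.lam * t)
  rw [ha, hr]
  have h5 := Q.five_le
  have e1 : (l : R) ∣ (Q.lam * t) ^ l := by
    rw [mul_pow]
    refine Dvd.dvd.mul_right ?_ _
    exact Q.l_dvd_lam_pow.trans (pow_dvd_pow _ (by omega))
  have e : b ^ l + (Q.lam * t) ^ l + l * b * (Q.lam * t) * r - b ^ l =
      (Q.lam * t) ^ l + l * (b * (Q.lam * t) * r) := by ring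
  rw [e]
  exact dvd_add e1 (dvd_mul_right _ _)

private theorem Rel_sub_pow (Q : Cyc l R) {a b : R} {n m : ℕ} (h : Q.lam ^ n ∣ a - b) :
    Q.lam ^ n ∣ a ^ m - b ^ m := h.trans (sub_dvd_pow_sub_pow a b m)

/-- `(S + D) ^ l - (S - D) ^ l` for `l` odd, separated: the terms below `l` are divisible by
`l`. -/
theorem odd_binomial (hl2 : l ≠ 2) (G : R) :
    (1 + G) ^ l - (1 - G) ^ l = l * (∑ i ∈ Ico 1 l, if Odd i then
      2 * ((l.choose i / l : ℕ) : R) * G ^ i else 0) + 2 * G ^ l := by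
  have hl : l.Prime := hlp.out
  have hodd : Odd l := hl.odd_of_ne_two hl2
  have h1 : (1 + G) ^ l = ∑ m ∈ range (l + 1), G ^ m * (l.choose m : R) := by
    rw [add_comm, add_pow]
    exact sum_congr rfl fun m _ => by rw [one_pow, mul_one]
  have h2 : (1 - G) ^ l = ∑ m ∈ range (l + 1), (-G) ^ m * (l.choose m : R) := by
    rw [sub_eq_add_neg, add_comm, add_pow]
    exact sum_congr rfl fun m _ => by rw [one_pow, mul_one]
  rw [h1, h2, ← sum_sub_distrib, sum_range_succ, range_eq_Ico, sum_eq_sum_Ico_succ_bot hl.pos,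
    mul_sum]
  have h3 : G ^ l * (l.choose l : R) - (-G) ^ l * (l.choose l : R) = 2 * G ^ l := by
    rw [hodd.neg_pow, Nat.choose_self]
    push_cast
    ring
  have h4 : G ^ 0 * (l.choose 0 : R) - (-G) ^ 0 * (l.choose 0 : R) = 0 := by
    rw [pow_zero, pow_zero, sub_self]
  rw [h3, h4, zero_add, zero_add]
  congr 1
  refine sum_congr rfl fun i hi => ?_
  rw [mem_Ico] at hi
  have h5 : l ∣ l.choose i := hl.dvd_choose_self (by omega) hi.2
  have h6 : (l.choose i : R) = l * ((l.choose i / l : ℕ) : R) := by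
    rw [← Nat.cast_mul, Nat.mul_div_cancel' h5]
  split_ifs with hi2
  · rw [hi2.neg_pow, h6]
    ring
  · rw [(Nat.not_odd_iff_even.1 hi2).neg_pow]
    ring

/-- Proof.  With `T = T_j`, `S = C + C̄`, `D = C - C̄`:
`(1 + z^j) η (C^l - C̄^l) = (X - Y) (1 - z^j)` (conjugate `hC`), so `C^l - C̄^l = l δ T`
(`Q.T_spec`, `hδ`).  `2^l (C^l - C̄^l) = (S + D)^l - (S - D)^l ≡ S^l ((1+G)^l - (1-G)^l)` modulo
`λ^(2l)`, and `G^l ∈ λ^(2l)`, so by `odd_binomial` and `Q.dvd_of_dvd_l_mul`,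
`2^l δ T ≡ S^l Σ` modulo `λ^l`.  `S ≡ 2 C` modulo `λ`, so `S^l ≡ 2^l C^l` modulo `l`, and
`η C^l ≡ X` modulo `l` (`hXY`); `Σ ∈ λ`; so `2^l η δ T ≡ 2^l X Σ` modulo `λ^l`, `2` is prime to
`λ`.  With `hv`, `X v ≡ η δ` modulo `l` and `T ∈ λ`: `X (v T - Σ) ∈ λ^l`, and `X` is prime to
`λ`. -/
theorem rel_main (Q : Cyc l R) {X Y C G v δ : R} {η : Rˣ} (hX : Q.conj X = X)
    (hY : Q.conj Y = Y) (hη : Q.conj (η : R) = η) (hlam : ¬ Q.lam ∣ X) {j : ZMod l}
    (hj : j ≠ 0) (hC : X + Q.e j * Y = (1 + Q.e j) * η * C ^ l)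
    (hδ : (η : R) * (l * δ) = Y - X) (hv : (l : R) ∣ X * v - η * δ)
    (hG2 : Q.lam ^ 2 ∣ G)
    (hG : Q.lam ^ (2 * l) ∣ (C + Q.conj C) * G - (C - Q.conj C)) :
    Q.lam ^ l ∣ v * Q.T j - ∑ i ∈ Ico 1 l, if Odd i then
      2 * ((l.choose i / l : ℕ) : R) * G ^ i else 0 := by
  have h5 := Q.five_le
  have hl : l.Prime := hlp.out
  have hl2 : l ≠ 2 := by omega
  set Sg : R := ∑ i ∈ Ico 1 l, if Odd i then
      2 * ((l.choose i / l : ℕ) : R) * G ^ i else 0 with hSg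
  set T : R := Q.T j with hTd
  have hT : (1 + Q.e j) * T = Q.e j - 1 := Q.T_spec hj
  have hTl : Q.lam ∣ T := Q.lam_dvd_T j
  have hu : IsUnit (1 + Q.e j) := Q.isUnit_one_add hj
  have hne : (1 + Q.e j) ≠ 0 := hu.ne_zero
  -- conjugate
  have hC' : X + Q.e (-j) * Y = (1 + Q.e (-j)) * η * (Q.conj C) ^ l := by
    have h := congrArg Q.conj hC
    rw [map_add, map_mul, map_mul, map_mul, map_add, map_one, map_pow, hX, hY, hη, Q.conj_e] at h
    exact h
  have he : Q.e j * Q.e (-j) = 1 := by rw [mul_comm]; exact Q.e_neg_mul j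
  have hC'' : Q.e j * X + Y = (1 + Q.e j) * η * (Q.conj C) ^ l := by
    have h : Q.e j * (X + Q.e (-j) * Y) = Q.e j * ((1 + Q.e (-j)) * η * (Q.conj C) ^ l) := by rw [hC']
    linear_combination h - Y * he + η * (Q.conj C) ^ l * he
  have hdiff : C ^ l - (Q.conj C) ^ l = l * δ * T := by
    have h : ((1 + Q.e j) * η) * (C ^ l - (Q.conj C) ^ l) = ((1 + Q.e j) * η) * (l * δ * T) := by
      linear_combination hC'' - hC + (1 - Q.e j) * hδ - (η : R) * l * δ * hT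
    exact mul_left_cancel₀ (mul_ne_zero hne η.ne_zero) h
  -- the binomial
  have hb := odd_binomial (R := R) hl2 G
  rw [← hSg] at hb
  have hD : Q.lam ^ (2 * l) ∣ (C + Q.conj C) * G - (C - Q.conj C) := hG
  have h1 : Q.lam ^ (2 * l) ∣ ((C + Q.conj C) * (1 + G)) ^ l - (2 * C) ^ l := by
    refine Rel_sub_pow Q ?_
    have e : (C + Q.conj C) * (1 + G) - 2 * C = (C + Q.conj C) * G - (C - Q.conj C) := by ring
    rw [e]
    exact hD
  have h2 : Q.lam ^ (2 * l) ∣ ((C + Q.conj C) * (1 - G)) ^ l - (2 * Q.conj C) ^ l := by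
    refine Rel_sub_pow Q ?_
    have e : (C + Q.conj C) * (1 - G) - 2 * Q.conj C =
        -((C + Q.conj C) * G - (C - Q.conj C)) := by ring
    rw [e, dvd_neg]
    exact hD
  have h3 : Q.lam ^ (2 * l) ∣ G ^ l := by
    rw [pow_mul]
    exact pow_dvd_pow_of_dvd hG2 l
  have h4 : Q.lam ^ (2 * l) ∣ l * (2 ^ l * δ * T - (C + Q.conj C) ^ l * Sg) := by
    have e : (l : R) * (2 ^ l * δ * T - (C + Q.conj C) ^ l * Sg) =
        2 * (C + Q.conj C) ^ l * G ^ l - ((((C + Q.conj C) * (1 + G)) ^ l - (2 * C) ^ l) -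
          (((C + Q.conj C) * (1 - G)) ^ l - (2 * Q.conj C) ^ l)) := by
      rw [mul_pow, mul_pow, mul_pow, mul_pow]
      linear_combination (C + Q.conj C) ^ l * hb - 2 ^ l * hdiff
    rw [e]
    exact dvd_sub (h3.mul_left _) (dvd_sub h1 h2)
  have h6 : Q.lam ^ l ∣ 2 ^ l * δ * T - (C + Q.conj C) ^ l * Sg := by
    refine Q.dvd_of_dvd_l_mul ((pow_dvd_pow _ (by omega)).trans h4)
  have h7 : Q.lam ∣ Sg := by
    rw [hSg]
    refine dvd_sum fun i hi => ?_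
    rw [mem_Ico] at hi
    split_ifs
    · refine Dvd.dvd.mul_left ?_ _
      exact ((dvd_pow_self Q.lam two_ne_zero).trans hG2).trans (dvd_pow_self G (by omega))
    · exact dvd_zero _
  have h8 : (l : R) ∣ (C + Q.conj C) ^ l - (2 * C) ^ l := by
    refine Rel_pow Q ?_
    have e : C + Q.conj C - 2 * C = Q.conj C - C := by ring
    rw [e]
    exact Q.conj_sub C
  have h9 : (l : R) ∣ η * C ^ l - X := by
    have e : (1 + Q.e j) * (η * C ^ l - X) = l * (Q.e j * (η * δ)) := by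
      linear_combination -hC - Q.e j * hδ
    have h : (l : R) ∣ (1 + Q.e j) * (η * C ^ l - X) := e ▸ dvd_mul_right _ _
    exact hu.dvd_mul_left.mp h
  have h10 : Q.lam ^ l ∣ 2 ^ l * (η * δ * T - X * Sg) := by
    have e : 2 ^ l * (η * δ * T - X * Sg) = η * (2 ^ l * δ * T - (C + Q.conj C) ^ l * Sg) +
        η * (((C + Q.conj C) ^ l - (2 * C) ^ l) * Sg) + 2 ^ l * ((η * C ^ l - X) * Sg) := by
      rw [mul_pow 2 C l]
      ring
    rw [e]
    exact dvd_add (dvd_add (h6.mul_left _) ((Rel_lam_l Q h8 h7).mul_left _))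
      ((Rel_lam_l Q h9 h7).mul_left _)
  have h11 : ¬ Q.lam ∣ (2 : R) ^ l := fun h => Q.not_lam_dvd_two (Q.prime_lam.dvd_of_dvd_pow h)
  have h12 : Q.lam ^ l ∣ η * δ * T - X * Sg := Rel_cancel Q h11 h10
  refine Rel_cancel Q hlam ?_
  have e : X * (v * T - Sg) = (X * v - η * δ) * T + (η * δ * T - X * Sg) := by ring
  rw [e]
  exact dvd_add (Rel_lam_l Q hv hTl) h12

end AER
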