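import Pool.Agent.Lib_MP_aeefb1_reg.NormLog
import Pool.Agent.Lib_MP_aeefb1_reg.Kap
import Pool.Agent.Lib_MP_aeefb1_reg.Rel
import Pool.Agent.Lib_MP_aeefb1_reg.Core

/-!
MP_aeefb1_nt: the core, in the ring of integers: for a real pair `X ≡ Y` modulo `l` with
`X + z^j Y = (1 + z^j) η C_j ^ l` the `C_j` are real modulo `l`.
-/

open Finset

namespace AER

variable {l : ℕ} [hlp : Fact l.Prime] {R : Type} [CommRing R] [IsDedekindDomain R]
  [CharZero R] [Module.Free ℤ R] [Module.Finite ℤ R]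

include hlp in
private theorem CoreNT_two (h5 : 5 ≤ l) : (2 : ZMod l) ≠ 0 := by
  intro h
  have h' : ((2 : ℕ) : ZMod l) = 0 := by exact_mod_cast h
  rw [ZMod.natCast_eq_zero_iff] at h'
  have := Nat.le_of_dvd (by norm_num) h'
  omega

/-- `artanh` is injective modulo `X ^ l` on series of positive order
(`art2 G = 2 G (1 + G H)`, `2 (1 + G H)` has constant coefficient `2`). -/
theorem art2_dvd (h5 : 5 ≤ l) {G : PowerSeries (ZMod l)}
    (hG : (PowerSeries.X : PowerSeries (ZMod l)) ∣ G)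
    (h : (PowerSeries.X : PowerSeries (ZMod l)) ^ l ∣ art2 l G) :
    (PowerSeries.X : PowerSeries (ZMod l)) ^ l ∣ G := by
  have h1 : G ^ 2 ∣ ∑ i ∈ Ico 2 l, (if Odd i then PowerSeries.C (2 * ((i : ZMod l))⁻¹) * G ^ i
      else 0) := by
    refine dvd_sum fun i hi => ?_
    rw [mem_Ico] at hi
    split_ifs
    · exact (pow_dvd_pow G hi.1).mul_left _
    · exact dvd_zero _
  obtain ⟨H, hH⟩ := h1
  have h2 : art2 l G = (PowerSeries.C 2 + G * H) * G := by
    unfold art2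
    rw [sum_eq_sum_Ico_succ_bot (by omega), hH, if_pos odd_one]
    simp
    ring
  have h3 : PowerSeries.constantCoeff (PowerSeries.C 2 + G * H) ≠ (0 : ZMod l) := by
    have h4 : PowerSeries.constantCoeff G = (0 : ZMod l) := PowerSeries.X_dvd_iff.1 hG
    rw [map_add, map_mul, h4, zero_mul, add_zero, PowerSeries.constantCoeff_C]
    exact CoreNT_two h5
  have h4 := cg_cancel (n := l) (f := G) (g := 0) h3 (by
    rw [mul_zero, sub_zero, ← h2]
    exact h)
  rwa [sub_zero] at h4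

/-- The real `v` with `X v ≡ η δ` modulo `l`, and its power series, which has no odd coefficients
below `l - 1`.
Proof.  `N(X) = X X''` with `X''` real (`Q.dvd_norm`, cancel `X`), `N(X) ≡ 1` modulo `l`
(`Q.norm_mod`); `v = X'' η δ` is real, `X v = N(X) η δ`.  `P` from `Q.exists_int`,
`Q.rep_exists`.  By `Q.rep_conj` and `Q.rep_dvd_iff` (for `P' - P`, which vanishes at `z`)
`rescale (-1) (rho P) ≡ rho P` modulo `X ^ (l - 1)`. -/
theorem exists_v (Q : Cyc l R) {X δ : R} {η : Rˣ} (hX : Q.conj X = X) (hη : Q.conj (η : R) = η)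
    (hδ : Q.conj δ = δ) (hlam : ¬ Q.lam ∣ X) :
    ∃ (v : R) (P : Polynomial ℤ), (l : R) ∣ X * v - η * δ ∧ Polynomial.aeval Q.z P = v ∧
      ∀ n, n < l - 1 → Odd n → PowerSeries.coeff n (rho l P) = 0 := by
  have hX0 : X ≠ 0 := fun h => hlam (by rw [h]; exact dvd_zero _)
  obtain ⟨X'', hX''⟩ := Q.dvd_norm X
  have hre : Q.conj X'' = X'' := by
    have h1 := congrArg Q.conj hX''
    rw [map_intCast, map_mul, hX, hX''] at h1
    exact (mul_left_cancel₀ hX0 h1).symm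
  obtain ⟨t, ht⟩ := Q.norm_mod hlam
  set v : R := X'' * (η * δ) with hv
  have hvre : Q.conj v = v := by rw [hv, map_mul, map_mul, hre, hη, hδ]
  obtain ⟨n, hn⟩ := Q.exists_int v
  obtain ⟨P, hP, -⟩ := Q.rep_exists hn
  refine ⟨v, P, ?_, hP, ?_⟩
  · refine ⟨t * (η * δ), ?_⟩
    have h1 : ((Algebra.norm ℤ X : ℤ) : R) = 1 + l * t := by
      have : Algebra.norm ℤ X = 1 + l * t := by linarith
      rw [this]; push_cast; ring
    rw [hX''] at h1
    rw [hv]
    linear_combination (η * δ : R) * h1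
  · obtain ⟨P', hP', hP'2⟩ := Q.rep_conj P
    rw [hP, hvre] at hP'
    have h1 : (PowerSeries.X : PowerSeries (ZMod l)) ^ (l - 1) ∣ rho l (P' - P) := by
      rw [← Q.rep_dvd_iff le_rfl, map_sub, hP', hP, sub_self]
      exact dvd_zero _
    rw [map_sub] at h1
    have h2 := cg_trans (cg_symm (cg_of_le (Nat.sub_le l 1) hP'2)) h1
    intro m hm hodd
    have h3 := coeff_eq_of_cg hm h2
    rw [PowerSeries.coeff_rescale, hodd.neg_one_pow] at h3
    have h4 : (2 : ZMod l) * PowerSeries.coeff m (rho l P) = 0 := by linear_combination -h3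
    exact (mul_eq_zero.1 h4).resolve_left (CoreNT_two Q.five_le)

/-- The element `G` with `(C + C̄) G ≡ C - C̄`, and its polynomial.
(`Q.exists_inv` for `C + C̄` and `2 l`; `Q.rep_exists` with `n = 0`.) -/
theorem exists_G (Q : Cyc l R) {C : R} (h2 : Q.lam ^ 2 ∣ C - Q.conj C) (hlam : ¬ Q.lam ∣ C) :
    ∃ (G : R) (P : Polynomial ℤ), Q.lam ^ 2 ∣ G ∧
      Q.lam ^ (2 * l) ∣ (C + Q.conj C) * G - (C - Q.conj C) ∧ Polynomial.aeval Q.z P = G ∧
      P.eval 1 = 0 ∧ (PowerSeries.X : PowerSeries (ZMod l)) ^ 2 ∣ rho l P := by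
  have h5 := Q.five_le
  have h1 : Q.lam ∣ C - Q.conj C := (dvd_pow_self _ two_ne_zero).trans h2
  have h3 : ¬ Q.lam ∣ C + Q.conj C := by
    intro h
    have e : (2 : R) * C = (C + Q.conj C) + (C - Q.conj C) := by ring
    have h4 : Q.lam ∣ 2 * C := by rw [e]; exact dvd_add h h1
    rcases Q.prime_lam.dvd_or_dvd h4 with h5 | h5
    · exact Q.not_lam_dvd_two h5
    · exact hlam h5
  obtain ⟨y, hy⟩ := Q.exists_inv h3 (2 * l)
  have hG2 : Q.lam ^ 2 ∣ y * (C - Q.conj C) := h2.mul_left _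
  have hG1 : Q.lam ∣ y * (C - Q.conj C) - ((0 : ℤ) : R) := by
    rw [Int.cast_zero, sub_zero]
    exact h1.mul_left _
  obtain ⟨P, hP, hP1⟩ := Q.rep_exists hG1
  refine ⟨y * (C - Q.conj C), P, hG2, ?_, hP, hP1, ?_⟩
  · have e : (C + Q.conj C) * (y * (C - Q.conj C)) - (C - Q.conj C)
        = ((C + Q.conj C) * y - 1) * (C - Q.conj C) := by ring
    rw [e]
    exact hy.mul_right _
  · rw [← Q.rep_dvd_iff' hP1 (by omega), hP]
    exact hG2

include hlp in
/-- `binom(l-1, k) = (-1)^k` modulo `l` -/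
private theorem CoreNT_choose_pred (k : ℕ) (hk : k < l) :
    (((l - 1).choose k : ℕ) : ZMod l) = (-1) ^ k := by
  induction k with
  | zero => simp
  | succ k ih =>
    have h1 := ih (by omega)
    have h2 : (l - 1).choose k + (l - 1).choose (k + 1) = l.choose (k + 1) := by
      obtain ⟨n, hn⟩ : ∃ n, l = n + 1 := ⟨l - 1, by omega⟩
      rw [hn, Nat.add_sub_cancel, Nat.choose_succ_succ]
    have h3 : ((l.choose (k + 1) : ℕ) : ZMod l) = 0 := by
      rw [ZMod.natCast_eq_zero_iff]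
      exact hlp.out.dvd_choose_self (by omega) hk
    have h4 := congrArg (Nat.cast (R := ZMod l)) h2
    rw [Nat.cast_add, h3, h1] at h4
    rw [pow_succ]
    linear_combination h4

include hlp in
/-- `binom(l, i) / l = 1 / i` modulo `l` for odd `i` -/
private theorem CoreNT_choose_div {i : ℕ} (h1 : 1 ≤ i) (hi : i < l) (hodd : Odd i) :
    ((l.choose i / l : ℕ) : ZMod l) = (i : ZMod l)⁻¹ := by
  obtain ⟨c, hc⟩ := hlp.out.dvd_choose_self (by omega) hi
  have hl0 : 0 < l := hlp.out.pos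
  rw [hc, Nat.mul_div_cancel_left _ hl0]
  obtain ⟨n, hn⟩ : ∃ n, l = n + 1 := ⟨l - 1, by omega⟩
  obtain ⟨k, rfl⟩ : ∃ k, i = k + 1 := ⟨i - 1, by omega⟩
  have h2 : l * (l - 1).choose k = l.choose (k + 1) * (k + 1) := by
    rw [hn, Nat.add_sub_cancel]
    exact Nat.add_one_mul_choose_eq n k
  rw [hc, mul_assoc] at h2
  have h3 := Nat.eq_of_mul_eq_mul_left hl0 h2
  have h4 := congrArg (Nat.cast (R := ZMod l)) h3
  rw [CoreNT_choose_pred k (by omega)] at h4
  have hev : Even k := by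
    obtain ⟨m, hm⟩ := hodd
    exact ⟨m, by omega⟩
  rw [hev.neg_one_pow, Nat.cast_mul] at h4
  exact eq_inv_of_mul_eq_one_left h4.symm

/-- `rel_main` for power series.
(`v T_j - ∑ 2 (binom(l,i)/l) G^i` is the value at `z` of `P_v P_T - ∑ …`, which vanishes at `1`;
`Q.rep_dvd_iff'` with `m = l`; `binom(l,i)/l = 1/i` in `ZMod l` for odd `i`; `Q.rep_T`.) -/
theorem rel_series (Q : Cyc l R) {j : ZMod l} (hj : j ≠ 0) {v G : R} {Pv PG : Polynomial ℤ}
    (hPv : Polynomial.aeval Q.z Pv = v) (hPG : Polynomial.aeval Q.z PG = G)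
    (hPG1 : PG.eval 1 = 0)
    (h : Q.lam ^ l ∣ v * Q.T j - ∑ i ∈ Ico 1 l, if Odd i then
      2 * ((l.choose i / l : ℕ) : R) * G ^ i else 0) :
    (PowerSeries.X : PowerSeries (ZMod l)) ^ l ∣
      art2 l (rho l PG) - rho l Pv * PowerSeries.rescale j (Th l) := by
  obtain ⟨PT, hPT, hPT1, hPT2⟩ := Q.rep_T hj
  set W : Polynomial ℤ := Pv * PT - ∑ i ∈ Ico 1 l, (if Odd i then
      2 * ((l.choose i / l : ℕ) : Polynomial ℤ) * PG ^ i else 0) with hW
  have hW1 : W.eval 1 = 0 := by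
    rw [hW, Polynomial.eval_sub, Polynomial.eval_mul, hPT1, mul_zero, zero_sub, neg_eq_zero,
      Polynomial.eval_finsetSum]
    refine sum_eq_zero fun i hi => ?_
    rw [mem_Ico] at hi
    split_ifs
    · rw [Polynomial.eval_mul, Polynomial.eval_pow, hPG1, zero_pow (by omega), mul_zero]
    · exact Polynomial.eval_zero
  have hWz : Polynomial.aeval Q.z W = v * Q.T j - ∑ i ∈ Ico 1 l, if Odd i then
      2 * ((l.choose i / l : ℕ) : R) * G ^ i else 0 := by
    rw [hW, map_sub, map_mul, hPv, hPT, map_sum]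
    congr 1
    refine sum_congr rfl fun i _ => ?_
    split_ifs
    · rw [map_mul, map_mul, map_pow, hPG, map_ofNat, map_natCast]
    · exact map_zero _
  rw [← hWz, Q.rep_dvd_iff' hW1 le_rfl] at h
  have hrho : rho l W = rho l Pv * rho l PT - art2 l (rho l PG) := by
    rw [hW, map_sub, map_mul, map_sum]
    congr 1
    unfold art2
    refine sum_congr rfl fun i hi => ?_
    rw [mem_Ico] at hi
    split_ifs with hodd
    · rw [map_mul, map_mul, map_pow, map_ofNat, map_natCast, ← CoreNT_choose_div hi.1 hi.2 hodd,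
        map_mul, map_natCast, map_ofNat]
    · exact map_zero _
  rw [hrho] at h
  exact cg_trans (cg_symm h) (cg_mul (cg_refl _) hPT2)

/-- The relation of the core for one `j`.
(`Kap`: `N(C + z^q C̄) = 1 + l κ M_q`; `Q.norm_rel`; `N(C + C̄) = 1 + l n`
(`Q.norm_mod`), `2^(l-1) = 1 + l m`; compare the coefficients of `l` modulo `l^2`;
`e = n - m`.) -/
theorem rel_M (Q : Cyc l R) {C G : R} {P : Polynomial ℤ} (hP : Polynomial.aeval Q.z P = G)
    (hP1 : P.eval 1 = 0) (hG : Q.lam ^ l ∣ (C + Q.conj C) * G - (C - Q.conj C))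
    (hlam : ¬ Q.lam ∣ C + Q.conj C) {κ : ℤ} {M : ZMod l → ℕ}
    (hM : ∀ q, ((Algebra.norm ℤ (C + Q.e q * Q.conj C) : ℤ) : ZMod (l ^ 2))
          = ((1 + l * (κ * M q) : ℤ) : ZMod (l ^ 2))) :
    ∃ e : ZMod l, ∀ q, q ≠ 0 → (κ : ZMod l) * M q = e - ∑ k ∈ Finset.Ico 1 l,
      (k : ZMod l)⁻¹ * PowerSeries.coeff (l - 1)
        ((PowerSeries.rescale q (Th l) * rho l P) ^ k) := by
  have h5 := Q.five_le
  obtain ⟨n, hn⟩ := Q.norm_mod hlam
  have hN : Algebra.norm ℤ (C + Q.conj C) = 1 + l * n := by linarith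
  obtain ⟨m, hm⟩ : (l : ℤ) ∣ (2 : ℤ) ^ (l - 1) - 1 := by
    have hc : IsCoprime (2 : ℤ) (l : ℤ) := by
      rw [isCoprime_comm]
      refine (Nat.prime_iff_prime_int.mp hlp.out).coprime_iff_not_dvd.mpr fun h => ?_
      have := Int.le_of_dvd (by norm_num) h
      omega
    exact (Int.ModEq.pow_card_sub_one_eq_one hlp.out hc).symm.dvd
  have hm' : (2 : ℤ) ^ (l - 1) = 1 + l * m := by linarith
  refine ⟨(n : ZMod l) - m, fun q hq => ?_⟩
  obtain ⟨t, ht, ht2⟩ := Q.norm_rel hP hP1 hG hq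
  have h1 : (((1 + l * m) * (1 + l * (κ * M q)) : ℤ) : ZMod (l ^ 2)) =
      (((1 + l * n) * (1 + l * t) : ℤ) : ZMod (l ^ 2)) := by
    rw [← hm', ← hN, ← ht, Int.cast_mul, Int.cast_mul, hM q]
  rw [← sub_eq_zero, ← Int.cast_sub, ZMod.intCast_zmod_eq_zero_iff_dvd] at h1
  have h2 : (l : ℤ) * l ∣ l * (m + κ * M q - n - t) := by
    have e : (l : ℤ) * (m + κ * M q - n - t) = ((1 + l * m) * (1 + l * (κ * M q)) -
        (1 + l * n) * (1 + l * t)) - l * l * (m * (κ * M q) - n * t) := by ring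
    rw [e]
    refine dvd_sub ?_ (Dvd.intro _ rfl)
    rw [← pow_two]
    exact_mod_cast h1
  have hl0 : (l : ℤ) ≠ 0 := by
    have := Q.l_pos
    omega
  have h3 := (mul_dvd_mul_iff_left hl0).1 h2
  rw [← ZMod.intCast_zmod_eq_zero_iff_dvd] at h3
  push_cast at h3
  rw [ht2] at h3
  linear_combination h3

/-- The core.
Proof.  `l δ' = Y - X`, `δ = η⁻¹ δ'` is real; `exists_v`; for each `j ≠ 0` `exists_G`,
`rel_main`, `rel_series`, `exists_kappa` for `S j`, `rel_M`.  `core` gives `X^(l-1) ∣ rho P_v`,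
so `X^l ∣ rho P_v * rescale j Th` (`Th` has constant coefficient `0`), `X^l ∣ art2 (rho P_G)`,
`X^l ∣ rho P_G` (`art2_dvd`), `λ^l ∣ G` (`Q.rep_dvd_iff'`), `λ^l ∣ C - C̄`, `l ∣ C - C̄`
(`Q.l_dvd_iff`). -/
theorem core_nt (Q : Cyc l R)
    (hB : ∀ k : ℕ, 1 ≤ k → 2 * k ≤ l - 3 → ¬ (l : ℤ) ∣ (bernoulli (2 * k)).num)
    {p s : ℕ} (hp : p.Prime) (hpl : p ≠ l) (hp1 : (p : ZMod l) ≠ 1)
    (hp2 : (p : ZMod (l ^ 2)) ^ (l - 1) ≠ 1) (hs : ¬ l ∣ s) {X Y : R} {η : Rˣ}
    (hX : Q.conj X = X) (hY : Q.conj Y = Y) (hη : Q.conj (η : R) = η) (hlam : ¬ Q.lam ∣ X)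
    (hXY : (l : R) ∣ X - Y) (C : ZMod l → R) (J : Ideal R)
    (hC : ∀ j, j ≠ 0 → X + Q.e j * Y = (1 + Q.e j) * η * C j ^ l)
    (hN : ∀ j, j ≠ 0 → Q.lam ^ 2 ∣ C j - Q.conj (C j))
    (S : ∀ j : ZMod l, j ≠ 0 → Splitting Q p s (C j) (Q.conj (C j)) J) :
    ∀ j, j ≠ 0 → (l : R) ∣ C j - Q.conj (C j) := by
  have h5 := Q.five_le
  have hXYl : Q.lam ∣ X - Y := Q.lam_dvd_l.trans hXY
  -- the quotient `δ`
  obtain ⟨δ'', hδ''⟩ := hXY
  set δ : R := ((η⁻¹ : Rˣ) : R) * (-δ'') with hδdef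
  have hδ : (η : R) * (l * δ) = Y - X := by
    have h1 : (η : R) * ((η⁻¹ : Rˣ) : R) = 1 := η.mul_inv
    rw [hδdef]
    linear_combination hδ'' - (l : R) * δ'' * h1
  have hδre : Q.conj δ = δ := by
    have h1 := congrArg Q.conj hδ
    rw [map_mul, map_mul, map_natCast, map_sub, hX, hY, hη, ← hδ] at h1
    exact mul_left_cancel₀ Q.l_ne_zero (mul_left_cancel₀ η.ne_zero h1)
  obtain ⟨v, Pv, hv, hPv, hodd⟩ := exists_v Q hX hη hδre hlam
  obtain ⟨κ, hκ, hkap⟩ := exists_kappa (R := R) h5 hp hpl hp1 hp2 hs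
  -- `C j` is prime to `λ`
  have hCl : ∀ j, j ≠ 0 → ¬ Q.lam ∣ C j := by
    intro j hj h
    have h1 : Q.lam ∣ X + Q.e j * Y := by
      rw [hC j hj]
      exact (dvd_pow h (by omega)).mul_left _
    have h2 : Q.lam ∣ 2 * X := by
      have e : 2 * X = (X + Q.e j * Y) - (Q.e j - 1) * Y + (X - Y) := by ring
      rw [e]
      exact dvd_add (dvd_sub h1 ((Q.lam_dvd_e_sub_one j).mul_right _)) hXYl
    rcases Q.prime_lam.dvd_or_dvd h2 with h3 | h3
    · exact Q.not_lam_dvd_two h3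
    · exact hlam h3
  have hSl : ∀ j, j ≠ 0 → ¬ Q.lam ∣ C j + Q.conj (C j) := by
    intro j hj h
    have h1 : Q.lam ∣ C j - Q.conj (C j) := (dvd_pow_self _ two_ne_zero).trans (hN j hj)
    have h2 : Q.lam ∣ 2 * C j := by
      have e : 2 * C j = (C j + Q.conj (C j)) + (C j - Q.conj (C j)) := by ring
      rw [e]
      exact dvd_add h h1
    rcases Q.prime_lam.dvd_or_dvd h2 with h3 | h3
    · exact Q.not_lam_dvd_two h3
    · exact hCl j hj h3
  have key : ∀ j : ZMod l, ∃ (G : R) (P : Polynomial ℤ) (M : ZMod l → ℕ) (e : ZMod l), j ≠ 0 →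
      (Q.lam ^ (2 * l) ∣ (C j + Q.conj (C j)) * G - (C j - Q.conj (C j)) ∧
        Polynomial.aeval Q.z P = G ∧ P.eval 1 = 0 ∧
        (PowerSeries.X : PowerSeries (ZMod l)) ^ 2 ∣ rho l P ∧
        (PowerSeries.X : PowerSeries (ZMod l)) ^ l ∣
          art2 l (rho l P) - rho l Pv * PowerSeries.rescale j (Th l) ∧
        2 * ∑ q ∈ univ.erase 0, M q ≤ l - 1 ∧
        ∀ q, q ≠ 0 → (κ : ZMod l) * M q = e - ∑ k ∈ Finset.Ico 1 l,
          (k : ZMod l)⁻¹ * PowerSeries.coeff (l - 1)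
            ((PowerSeries.rescale q (Th l) * rho l P) ^ k)) := by
    intro j
    by_cases hj : j = 0
    · exact ⟨0, 0, 0, 0, fun h => absurd hj h⟩
    obtain ⟨G, P, hG2, hG, hPG, hP1, hP2⟩ := exists_G Q (hN j hj) (hCl j hj)
    have hrel := rel_main Q hX hY hη hlam hj (hC j hj) hδ hv hG2 hG
    have hser := rel_series Q hj hPv hPG hP1 hrel
    obtain ⟨M, hM, hM2⟩ := hkap Q (C j) (Q.conj (C j)) J (S j hj)
    obtain ⟨e, he⟩ := rel_M Q hPG hP1 ((pow_dvd_pow _ (by omega)).trans hG) (hSl j hj) hM2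
    exact ⟨G, P, M, e, fun _ => ⟨hG, hPG, hP1, hP2, hser, hM, he⟩⟩
  choose G P M e hkey using key
  have hcore := core h5 hB (rho l Pv) hodd (fun j => rho l (P j)) (fun j hj => (hkey j hj).2.2.2.1)
    (fun j hj => (hkey j hj).2.2.2.2.1) M (fun j hj => (hkey j hj).2.2.2.2.2.1) (κ : ZMod l) hκ e
    (fun j hj q hq => (hkey j hj).2.2.2.2.2.2 q hq)
  intro j hj
  obtain ⟨k1, k2, k3, k4, k5, -, -⟩ := hkey j hj
  have hTh : (PowerSeries.X : PowerSeries (ZMod l)) ∣ PowerSeries.rescale j (Th l) := by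
    rw [PowerSeries.X_dvd_iff, constantCoeff_rescale']
    unfold Th
    rw [map_mul, map_sub, constantCoeff_Ex, map_one, sub_self, zero_mul]
  have h1 : (PowerSeries.X : PowerSeries (ZMod l)) ^ l ∣
      rho l Pv * PowerSeries.rescale j (Th l) := by
    have e : (PowerSeries.X : PowerSeries (ZMod l)) ^ l =
        PowerSeries.X ^ (l - 1) * PowerSeries.X := by
      rw [← pow_succ]
      congr 1
      omega
    rw [e]
    exact mul_dvd_mul hcore hTh
  have h2 : (PowerSeries.X : PowerSeries (ZMod l)) ^ l ∣ art2 l (rho l (P j)) := by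
    have e : art2 l (rho l (P j)) = (art2 l (rho l (P j)) - rho l Pv *
        PowerSeries.rescale j (Th l)) + rho l Pv * PowerSeries.rescale j (Th l) := by ring
    rw [e]
    exact dvd_add k5 h1
  have h3 := art2_dvd h5 ((dvd_pow_self _ two_ne_zero).trans k4) h2
  rw [← Q.rep_dvd_iff' k3 le_rfl, k2] at h3
  have h4 : Q.lam ^ l ∣ C j - Q.conj (C j) := by
    have e : C j - Q.conj (C j) = (C j + Q.conj (C j)) * G j -
        ((C j + Q.conj (C j)) * G j - (C j - Q.conj (C j))) := by ring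
    rw [e]
    exact dvd_sub (h3.mul_left _) ((pow_dvd_pow _ (by omega)).trans k1)
  exact Q.l_dvd_iff.2 ((pow_dvd_pow _ (by omega)).trans h4)

end AER
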