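import Pool.Agent.Lib_MP_aeefb1_reg.Ps
import Pool.Agent.Lib_MP_aeefb1_reg.BerMod
import Pool.Agent.Lib_MP_aeefb1_reg.Newton

/-!
# Tools for the core: reversion of `2 artanh` and the weight filtration of `F[J]⟦X⟧`
-/

namespace AER

section weight

open PowerSeries

variable {F : Type*} [Field F]

/-- weight filtration: the coefficient of `X^n J^d` vanishes if `n < d + w` -/
def Wt (w : ℕ) (f : PowerSeries (Polynomial F)) : Prop :=
  ∀ n d : ℕ, n < d + w → (coeff n f).coeff d = 0

theorem Wt_mono {w w' : ℕ} (h : w ≤ w') {f : PowerSeries (Polynomial F)} (hf : Wt w' f) :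
    Wt w f := fun n d hn => hf n d (by omega)

theorem Wt_add {w : ℕ} {f g : PowerSeries (Polynomial F)} (hf : Wt w f) (hg : Wt w g) :
    Wt w (f + g) := by
  intro n d hn
  rw [map_add, Polynomial.coeff_add, hf n d hn, hg n d hn, add_zero]

theorem Wt_zero' (w : ℕ) : Wt w (0 : PowerSeries (Polynomial F)) := by
  intro n d _
  simp

theorem Wt_sum {ι : Type*} (s : Finset ι) {w : ℕ} {f : ι → PowerSeries (Polynomial F)}
    (hf : ∀ i ∈ s, Wt w (f i)) : Wt w (∑ i ∈ s, f i) := by
  classical
  induction s using Finset.induction_on with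
  | empty => simpa using Wt_zero' w
  | insert a s ha ih =>
    rw [Finset.sum_insert ha]
    exact Wt_add (hf a (Finset.mem_insert_self a s))
      (ih fun i hi => hf i (Finset.mem_insert_of_mem hi))

theorem Wt_one : Wt 0 (1 : PowerSeries (Polynomial F)) := by
  intro n d hn
  rw [PowerSeries.coeff_one]
  split_ifs with h
  · rw [Polynomial.coeff_one, if_neg (by omega)]
  · simp

theorem Wt_mul {w w' : ℕ} {f g : PowerSeries (Polynomial F)} (hf : Wt w f) (hg : Wt w' g) :
    Wt (w + w') (f * g) := by
  intro n d hn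
  rw [PowerSeries.coeff_mul, Polynomial.finsetSum_coeff]
  apply Finset.sum_eq_zero
  rintro ⟨a, b⟩ hab
  have hab' : a + b = n := by simpa using hab
  rw [Polynomial.coeff_mul]
  apply Finset.sum_eq_zero
  rintro ⟨d1, d2⟩ hd
  have hd' : d1 + d2 = d := by simpa using hd
  simp only
  by_cases h : a < d1 + w
  · rw [hf a d1 h, zero_mul]
  · rw [hg b d2 (by omega), mul_zero]

theorem Wt_pow {w : ℕ} {f : PowerSeries (Polynomial F)} (hf : Wt w f) (k : ℕ) :
    Wt (k * w) (f ^ k) := by
  induction k with
  | zero => simpa using Wt_one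
  | succ k ih =>
    rw [pow_succ, Nat.succ_mul]
    exact Wt_mul ih hf

theorem Wt_C_mul (c : F) {w : ℕ} {f : PowerSeries (Polynomial F)} (hf : Wt w f) :
    Wt w (C (Polynomial.C c) * f) := by
  intro n d hn
  rw [PowerSeries.coeff_C_mul, Polynomial.coeff_C_mul, hf n d hn, mul_zero]

end weight

section reversion

variable {F : Type*} [Field F]

open Polynomial in
/-- reversion of a polynomial `2 X + ...` modulo `X ^ n` -/
theorem exists_reversion (h2 : (2 : F) ≠ 0) (A B : Polynomial F) (hA : A = X * B)
    (hB : B.coeff 0 = 2) (n : ℕ) (hn : 1 ≤ n) :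
    ∃ g : Polynomial F, g.coeff 0 = 0 ∧ (2 ≤ n → g.coeff 1 = 2⁻¹) ∧ X ^ n ∣ g.comp A - X := by
  induction n, hn using Nat.le_induction with
  | base => exact ⟨0, by simp, fun h => by omega, by simp⟩
  | succ n hn ih =>
    obtain ⟨g, h0, h1, h, hh⟩ := ih
    refine ⟨g - C (h.coeff 0 * (2 ^ n)⁻¹) * X ^ n, ?_, ?_, ?_⟩
    · simp [h0, show (0 : ℕ) ≠ n by omega, Polynomial.coeff_X_pow]
    · intro _
      rcases Nat.lt_or_ge 1 n with h' | h'
      · rw [Polynomial.coeff_sub, Polynomial.coeff_C_mul, Polynomial.coeff_X_pow,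
          if_neg (show ¬ (1 = n) by omega), mul_zero, sub_zero, h1 h']
      · have hn1 : n = 1 := by omega
        subst hn1
        -- here `g.comp A - X = X * h`; compare coefficients of `X`
        have e1 : (g.comp A - X).coeff 1 = h.coeff 0 := by
          rw [hh, pow_one, Polynomial.coeff_X_mul]
        have e2 : (g.comp A).coeff 1 = g.coeff 1 * 2 := by
          obtain ⟨k, hk⟩ : X ∣ g := Polynomial.X_dvd_iff.mpr h0
          rw [hk, Polynomial.mul_comp, Polynomial.X_comp, hA, mul_assoc,
            Polynomial.coeff_X_mul, Polynomial.coeff_X_mul, Polynomial.mul_coeff_zero, hB]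
          have : (k.comp (X * B)).coeff 0 = k.coeff 0 := by
            rw [Polynomial.coeff_zero_eq_eval_zero, Polynomial.coeff_zero_eq_eval_zero,
              Polynomial.eval_comp]
            simp
          rw [this]; ring
        rw [Polynomial.coeff_sub, e2] at e1
        simp only [Polynomial.coeff_X_one] at e1
        rw [Polynomial.coeff_sub, Polynomial.coeff_C_mul, Polynomial.coeff_X_pow, if_pos rfl]
        rw [← e1]
        field_simp
        ring
    · rw [Polynomial.sub_comp, Polynomial.mul_comp, Polynomial.C_comp, Polynomial.X_pow_comp]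
      have e : g.comp A - C (h.coeff 0 * (2 ^ n)⁻¹) * A ^ n - X
          = X ^ n * (h - C (h.coeff 0 * (2 ^ n)⁻¹) * B ^ n) := by
        have : g.comp A = X ^ n * h + X := by rw [← hh]; ring
        rw [this, hA, mul_pow]; ring
      rw [e, pow_succ]
      apply mul_dvd_mul_left
      rw [Polynomial.X_dvd_iff, Polynomial.coeff_sub, Polynomial.coeff_C_mul,
        Polynomial.coeff_zero_eq_eval_zero (B ^ n), Polynomial.eval_pow,
        ← Polynomial.coeff_zero_eq_eval_zero, hB]
      have : (2 : F) ^ n ≠ 0 := pow_ne_zero _ h2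
      field_simp
      ring

end reversion

end AER
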