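import Mathlib

/-!
MP_aeefb1_nt, regular prime exponents.  The facts about the ring of integers of the `l`-th
cyclotomic field which the proof uses, collected in a structure `Cyc l R`, and their elementary
consequences.
-/

open Finset

namespace AER

/-- The facts on `ℤ[ζ_l]`, `l ≥ 5` a regular prime, used in the proof. -/
structure Cyc (l : ℕ) [Fact l.Prime] (R : Type) [CommRing R] [IsDedekindDomain R]
    [CharZero R] [Module.Free ℤ R] [Module.Finite ℤ R] where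
  five_le : 5 ≤ l
  /-- a primitive `l`-th root of unity -/
  z : R
  prim : IsPrimitiveRoot z l
  /-- the automorphism `z ↦ z ^ a`, used for `a ≠ 0` -/
  σ : ZMod l → R →+* R
  σz : ∀ a, a ≠ 0 → σ a z = z ^ a.val
  span : ∀ x : R, ∃ v : ZMod l → ℤ, x = ∑ i, (v i : R) * z ^ i.val
  norm_eq : ∀ x, ((Algebra.norm ℤ x : ℤ) : R) = ∏ a ∈ univ.erase (0 : ZMod l), σ a x
  norm_pos : ∀ x : R, x ≠ 0 → 0 < Algebra.norm ℤ x
  /-- a unit is a power of `z` times a real unit -/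
  unit_real : ∀ u : Rˣ, ∃ i : ℕ, σ (-1) (z ^ i * u) = z ^ i * u
  /-- Kummer's lemma -/
  kummer : ∀ (u : Rˣ) (m : ℤ), (l : R) ∣ u - m → ∃ v : Rˣ, u = v ^ l
  /-- the class number is prime to `l` -/
  princ : ∀ I : Ideal R, (I ^ l).IsPrincipal → I.IsPrincipal

variable {l : ℕ} [hlp : Fact l.Prime] {R : Type} [CommRing R] [IsDedekindDomain R]
  [CharZero R] [Module.Free ℤ R] [Module.Finite ℤ R]

namespace Cyc

variable (Q : Cyc l R)

include Q in
theorem l_pos : 0 < l := by have := Q.five_le; omega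

theorem zl : Q.z ^ l = 1 := Q.prim.pow_eq_one

/-- `e a = z ^ a` for `a` modulo `l` -/
def e (a : ZMod l) : R := Q.z ^ a.val

theorem z_pow (n : ℕ) : Q.z ^ n = Q.e (n : ZMod l) := by
  unfold e
  rw [ZMod.val_natCast]
  conv_lhs => rw [← Nat.div_add_mod n l, pow_add, pow_mul, Q.zl, one_pow, one_mul]

theorem e_zero : Q.e 0 = 1 := by
  have := Q.z_pow 0
  rw [pow_zero, Nat.cast_zero] at this
  exact this.symm

theorem e_one : Q.e 1 = Q.z := by
  have := Q.z_pow 1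
  rw [pow_one, Nat.cast_one] at this
  exact this.symm

theorem e_add (a b : ZMod l) : Q.e (a + b) = Q.e a * Q.e b := by
  conv_lhs => rw [← ZMod.natCast_zmod_val a, ← ZMod.natCast_zmod_val b, ← Nat.cast_add, ← z_pow]
  rw [pow_add]
  rfl

theorem e_pow (a : ZMod l) (n : ℕ) : Q.e a ^ n = Q.e (n * a) := by
  induction n with
  | zero => simp [e_zero]
  | succ n ih => rw [pow_succ, ih, ← e_add]; congr 1; push_cast; ring

theorem e_neg_mul (a : ZMod l) : Q.e (-a) * Q.e a = 1 := by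
  rw [← e_add, neg_add_cancel, e_zero]

theorem isUnit_e (a : ZMod l) : IsUnit (Q.e a) :=
  IsUnit.of_mul_eq_one _ (by rw [mul_comm]; exact Q.e_neg_mul a)

/-- `e a` as a unit -/
noncomputable def eu (a : ZMod l) : Rˣ := (Q.isUnit_e a).unit

@[simp] theorem eu_coe (a : ZMod l) : (Q.eu a : R) = Q.e a := rfl

theorem e_ne_zero (a : ZMod l) : Q.e a ≠ 0 := (Q.isUnit_e a).ne_zero

theorem σ_e {a : ZMod l} (ha : a ≠ 0) (b : ZMod l) : Q.σ a (Q.e b) = Q.e (a * b) := by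
  conv_lhs => rw [e, map_pow, Q.σz a ha, ← pow_mul, z_pow]
  congr 1
  push_cast
  rw [ZMod.natCast_zmod_val, ZMod.natCast_zmod_val]

theorem e_injective : Function.Injective Q.e := by
  intro a b h
  unfold e at h
  exact ZMod.val_injective l (Q.prim.pow_inj (ZMod.val_lt a) (ZMod.val_lt b) h)

theorem span' (x : R) : ∃ v : ZMod l → ℤ, x = ∑ i, (v i : R) * Q.e i := Q.span x

theorem sum_e : ∑ a, Q.e a = 0 := by
  have h : Q.z * ∑ a, Q.e a = ∑ a, Q.e a := by
    rw [mul_sum, ← Q.e_one]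
    simp_rw [← e_add]
    exact Fintype.sum_equiv (Equiv.addLeft 1) _ _ (fun _ => rfl)
  have h2 : (Q.z - 1) * ∑ a, Q.e a = 0 := by linear_combination h
  rcases mul_eq_zero.mp h2 with h3 | h3
  · exfalso
    have := Q.prim.ne_one (by have := Q.five_le; omega)
    exact this (sub_eq_zero.mp h3)
  · exact h3

/-- two ring endomorphisms which agree on `z` agree -/
theorem hom_ext {f g : R →+* R} (h : f Q.z = g Q.z) : f = g := by
  ext x
  obtain ⟨v, hx⟩ := Q.span x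
  rw [hx]
  simp only [map_sum, map_mul, map_intCast, map_pow, h]

theorem σ_one : Q.σ 1 = RingHom.id R := by
  apply Q.hom_ext
  rw [RingHom.id_apply, ← Q.e_one, Q.σ_e one_ne_zero, one_mul]

theorem σ_mul {a b : ZMod l} (ha : a ≠ 0) (hb : b ≠ 0) (x : R) :
    Q.σ a (Q.σ b x) = Q.σ (a * b) x := by
  have : (Q.σ a).comp (Q.σ b) = Q.σ (a * b) := by
    apply Q.hom_ext
    rw [RingHom.comp_apply, ← Q.e_one, Q.σ_e hb, Q.σ_e ha, Q.σ_e (mul_ne_zero ha hb)]
    congr 1; ring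
  rw [← this]; rfl

/-- complex conjugation -/
def conj : R →+* R := Q.σ (-1)

include hlp in
theorem neg_one_ne_zero' : (-1 : ZMod l) ≠ 0 := by simp

theorem conj_e (a : ZMod l) : Q.conj (Q.e a) = Q.e (-a) := by
  unfold conj
  rw [Q.σ_e neg_one_ne_zero']
  congr 1; ring

theorem conj_conj (x : R) : Q.conj (Q.conj x) = x := by
  unfold conj
  rw [Q.σ_mul neg_one_ne_zero' neg_one_ne_zero', neg_mul_neg, one_mul, Q.σ_one]
  rfl

theorem σ_conj {a : ZMod l} (ha : a ≠ 0) (x : R) : Q.σ a (Q.conj x) = Q.conj (Q.σ a x) := by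
  unfold conj
  rw [Q.σ_mul ha neg_one_ne_zero', Q.σ_mul neg_one_ne_zero' ha, mul_comm]

/-! ### The prime `λ` -/

/-- `λ = 1 - z` -/
def lam : R := 1 - Q.z

theorem lam_def : Q.lam = 1 - Q.z := rfl

theorem lam_ne_zero : Q.lam ≠ 0 := by
  intro h
  exact Q.prim.ne_one (by have := Q.five_le; omega) (sub_eq_zero.mp h).symm

theorem val_coprime {a : ZMod l} (ha : a ≠ 0) : a.val.Coprime l := by
  have h := (ZMod.isUnit_iff_coprime a.val l).mp (by
    rw [ZMod.natCast_zmod_val]; exact isUnit_iff_ne_zero.mpr ha)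
  exact h

/-- `1 - z ^ a` is associated to `λ` -/
theorem assoc_one_sub {a : ZMod l} (ha : a ≠ 0) : Associated Q.lam (1 - Q.e a) := by
  have h := Q.prim.associated_sub_one_pow_sub_one_of_coprime (val_coprime ha)
  have h2 : Associated (-(Q.z - 1)) (-(Q.z ^ a.val - 1)) := h.neg_neg
  rw [neg_sub, neg_sub] at h2
  exact h2

theorem assoc_sub {a b : ZMod l} (h : a ≠ b) : Associated Q.lam (Q.e a - Q.e b) := by
  have h1 := Q.assoc_one_sub (sub_ne_zero.mpr h.symm)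
  have h2 : Q.e a - Q.e b = (1 - Q.e (b - a)) * Q.e a := by
    rw [sub_mul, one_mul, ← e_add, sub_add_cancel]
  rw [h2]
  exact h1.trans (associated_mul_unit_right _ _ (Q.isUnit_e a))

/-- `1 + z ^ a` is a unit -/
theorem isUnit_one_add {a : ZMod l} (ha : a ≠ 0) : IsUnit (1 + Q.e a) := by
  have h2a : (2 : ZMod l) * a ≠ 0 := by
    refine mul_ne_zero ?_ ha
    intro h
    have h' : ((2 : ℕ) : ZMod l) = 0 := by exact_mod_cast h
    rw [ZMod.natCast_eq_zero_iff] at h'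
    have := Nat.le_of_dvd (by norm_num) h'
    have := Q.five_le
    omega
  obtain ⟨u, hu⟩ := (Q.assoc_one_sub ha).symm.trans (Q.assoc_one_sub h2a)
  have e2 : 1 - Q.e (2 * a) = (1 - Q.e a) * (1 + Q.e a) := by
    have : Q.e (2 * a) = Q.e a * Q.e a := by rw [← e_add]; congr 1; ring
    rw [this]; ring
  rw [e2] at hu
  have hne : (1 - Q.e a) ≠ 0 := fun h => by
    have := (Q.assoc_one_sub ha)
    rw [h, associated_zero_iff_eq_zero] at this
    exact Q.lam_ne_zero this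
  rw [← mul_left_cancel₀ hne hu]
  exact u.isUnit

theorem prod_one_sub : ∏ a ∈ univ.erase (0 : ZMod l), (1 - Q.e a) = (l : R) := by
  have hl := Q.five_le
  obtain ⟨n, hn⟩ : ∃ n, l = n + 1 := ⟨l - 1, by omega⟩
  have hp : IsPrimitiveRoot Q.z (n + 1) := hn ▸ Q.prim
  have h := hp.prod_one_sub_pow_eq_order
  have e1 : ((n : R) + 1) = (l : R) := by rw [hn]; push_cast; ring
  rw [e1] at h
  rw [← h]
  symm
  refine Finset.prod_bij (fun k _ => ((k + 1 : ℕ) : ZMod l)) ?_ ?_ ?_ ?_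
  · intro k hk
    rw [mem_range] at hk
    rw [mem_erase]
    refine ⟨?_, mem_univ _⟩
    rw [Ne, ZMod.natCast_eq_zero_iff]
    intro hd
    have := Nat.le_of_dvd (by omega) hd
    omega
  · intro a ha b hb hab
    rw [mem_range] at ha hb
    rw [ZMod.natCast_eq_natCast_iff'] at hab
    rw [Nat.mod_eq_of_lt (by omega), Nat.mod_eq_of_lt (by omega)] at hab
    omega
  · intro b hb
    rw [mem_erase] at hb
    have h1 : b.val ≠ 0 := by rw [Ne, ZMod.val_eq_zero]; exact hb.1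
    have h2 := ZMod.val_lt b
    refine ⟨b.val - 1, ?_, ?_⟩
    · rw [mem_range]; omega
    · rw [show b.val - 1 + 1 = b.val by omega, ZMod.natCast_zmod_val]
  · intro k hk
    rw [Q.z_pow]

/-- `l` and `λ ^ (l - 1)` are associated -/
theorem assoc_lam_pow : Associated (Q.lam ^ (l - 1)) (l : R) := by
  rw [← Q.prod_one_sub]
  have : ∏ a ∈ univ.erase (0 : ZMod l), Q.lam = Q.lam ^ (l - 1) := by
    rw [prod_const, card_erase_of_mem (mem_univ _), card_univ, ZMod.card]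
  rw [← this]
  exact Associated.prod _ _ _ (fun a ha => Q.assoc_one_sub (mem_erase.mp ha).1)

theorem lam_pow_dvd_l : Q.lam ^ (l - 1) ∣ (l : R) := Q.assoc_lam_pow.dvd

theorem l_dvd_lam_pow : (l : R) ∣ Q.lam ^ (l - 1) := Q.assoc_lam_pow.symm.dvd

theorem lam_dvd_l : Q.lam ∣ (l : R) :=
  (dvd_pow_self Q.lam (by have := Q.five_le; omega)).trans Q.lam_pow_dvd_l

include Q in
theorem l_ne_zero : (l : R) ≠ 0 := by
  have := Q.five_le
  exact_mod_cast (show l ≠ 0 by omega)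

theorem l_dvd_iff {x : R} : (l : R) ∣ x ↔ Q.lam ^ (l - 1) ∣ x :=
  ⟨fun h => Q.lam_pow_dvd_l.trans h, fun h => Q.l_dvd_lam_pow.trans h⟩

theorem dvd_of_dvd_l_mul {n : ℕ} {x : R} (h : Q.lam ^ (n + (l - 1)) ∣ l * x) :
    Q.lam ^ n ∣ x := by
  obtain ⟨u, hu⟩ := Q.assoc_lam_pow.symm
  rw [pow_add, mul_comm, ← hu, mul_assoc] at h
  exact (Dvd.intro_left _ rfl).trans ((mul_dvd_mul_iff_left Q.l_ne_zero).mp h)

theorem dvd_l_mul {n : ℕ} {x : R} (h : Q.lam ^ n ∣ x) : Q.lam ^ (n + (l - 1)) ∣ l * x := by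
  rw [pow_add, mul_comm]
  exact mul_dvd_mul Q.lam_pow_dvd_l h

/-! ### Norms -/

include Q in
theorem norm_unit (u : Rˣ) : Algebra.norm ℤ (u : R) = 1 := by
  have h : Algebra.norm ℤ (u : R) * Algebra.norm ℤ ((u⁻¹ : Rˣ) : R) = 1 := by
    rw [← map_mul, Units.mul_inv, map_one]
  have h1 := Q.norm_pos (u : R) u.ne_zero
  exact Int.eq_one_or_neg_one_of_mul_eq_one h |>.resolve_right (by omega)

include Q in
theorem norm_isUnit {x : R} (h : IsUnit x) : Algebra.norm ℤ x = 1 := by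
  obtain ⟨u, rfl⟩ := h
  exact Q.norm_unit u

include Q in
theorem dvd_norm (x : R) : x ∣ ((Algebra.norm ℤ x : ℤ) : R) := by
  rw [Q.norm_eq]
  have h : Q.σ 1 x ∣ ∏ a ∈ univ.erase (0 : ZMod l), Q.σ a x :=
    dvd_prod_of_mem _ (mem_erase.mpr ⟨one_ne_zero, mem_univ _⟩)
  rwa [Q.σ_one, RingHom.id_apply] at h

include Q in
theorem isUnit_of_norm {x : R} (h : Algebra.norm ℤ x = 1) : IsUnit x := by
  have := Q.dvd_norm x
  rw [h, Int.cast_one] at this
  exact isUnit_of_dvd_one this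

include Q in
theorem norm_int (m : ℤ) : Algebra.norm ℤ (m : R) = m ^ (l - 1) := by
  have : ((Algebra.norm ℤ (m : R) : ℤ) : R) = ((m ^ (l - 1) : ℤ) : R) := by
    rw [Q.norm_eq]
    simp only [map_intCast]
    rw [prod_const, card_erase_of_mem (mem_univ _), card_univ, ZMod.card]
    push_cast
    ring
  exact_mod_cast this

theorem norm_lam : Algebra.norm ℤ Q.lam = l := by
  have : ((Algebra.norm ℤ Q.lam : ℤ) : R) = ((l : ℤ) : R) := by
    rw [Q.norm_eq, Int.cast_natCast, ← Q.prod_one_sub]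
    refine prod_congr rfl (fun a ha => ?_)
    rw [lam_def, map_sub, map_one, ← Q.e_one, Q.σ_e (mem_erase.mp ha).1, mul_one]
  exact_mod_cast this

/-- the norm is invariant under the automorphisms -/
theorem norm_σ {a : ZMod l} (ha : a ≠ 0) (x : R) :
    Algebra.norm ℤ (Q.σ a x) = Algebra.norm ℤ x := by
  have : ((Algebra.norm ℤ (Q.σ a x) : ℤ) : R) = ((Algebra.norm ℤ x : ℤ) : R) := by
    rw [Q.norm_eq, Q.norm_eq]
    refine Finset.prod_bij (fun b _ => b * a) ?_ ?_ ?_ ?_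
    · intro b hb
      exact mem_erase.mpr ⟨mul_ne_zero (mem_erase.mp hb).1 ha, mem_univ _⟩
    · intro b _ c _ h
      exact mul_right_cancel₀ ha h
    · intro b hb
      refine ⟨b * a⁻¹, mem_erase.mpr ⟨mul_ne_zero (mem_erase.mp hb).1 (inv_ne_zero ha),
        mem_univ _⟩, ?_⟩
      field_simp
    · intro b hb
      exact Q.σ_mul (mem_erase.mp hb).1 ha x
  exact_mod_cast this

theorem not_isUnit_lam : ¬ IsUnit Q.lam := by
  intro h
  have h1 := Q.norm_isUnit h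
  rw [Q.norm_lam] at h1
  have := Q.five_le
  omega

theorem l_dvd_of_lam_dvd {m : ℤ} (h : Q.lam ∣ (m : R)) : (l : ℤ) ∣ m := by
  obtain ⟨t, ht⟩ := h
  have h1 : Algebra.norm ℤ (m : R) = l * Algebra.norm ℤ t := by rw [ht, map_mul, norm_lam]
  rw [Q.norm_int] at h1
  exact Int.Prime.dvd_pow' hlp.out ⟨_, h1⟩

theorem lam_dvd_of_l_dvd {m : ℤ} (h : (l : ℤ) ∣ m) : Q.lam ∣ (m : R) := by
  obtain ⟨t, ht⟩ := h
  rw [ht]
  push_cast
  exact Q.lam_dvd_l.mul_right _

theorem lam_dvd_int_iff {m : ℤ} : Q.lam ∣ (m : R) ↔ (l : ℤ) ∣ m :=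
  ⟨Q.l_dvd_of_lam_dvd, Q.lam_dvd_of_l_dvd⟩

/-- an integer divisible by `λ ^ l` is divisible by `l ^ 2` -/
theorem lam_pow_l_int {m : ℤ} (h : Q.lam ^ l ∣ (m : R)) : (l : ℤ) ^ 2 ∣ m := by
  have h5 := Q.five_le
  have h1 : Q.lam ∣ (m : R) := (dvd_pow_self Q.lam (by omega)).trans h
  obtain ⟨k, hk⟩ := Q.l_dvd_of_lam_dvd h1
  rw [hk] at h
  push_cast at h
  have h2 := Q.dvd_of_dvd_l_mul (n := 1) (by rwa [show 1 + (l - 1) = l by omega])
  rw [pow_one] at h2
  obtain ⟨j, hj⟩ := Q.l_dvd_of_lam_dvd h2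
  exact ⟨j, by rw [hk, hj]; ring⟩

theorem lam_dvd_one_sub_e (a : ZMod l) : Q.lam ∣ 1 - Q.e a := by
  by_cases ha : a = 0
  · rw [ha, e_zero, sub_self]; exact dvd_zero _
  · exact (Q.assoc_one_sub ha).dvd

theorem lam_dvd_e_sub_one (a : ZMod l) : Q.lam ∣ Q.e a - 1 := by
  rw [← neg_sub, dvd_neg]; exact Q.lam_dvd_one_sub_e a

/-- `z ^ n ≡ 1 - n λ` modulo `λ ^ 2` -/
theorem lam_sq_dvd_zpow (n : ℕ) : Q.lam ^ 2 ∣ Q.z ^ n - (1 - n * Q.lam) := by
  induction n with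
  | zero => simp
  | succ n ih =>
    obtain ⟨t, ht⟩ := ih
    refine ⟨t * Q.z + n, ?_⟩
    have hzl : Q.z = 1 - Q.lam := by unfold lam; ring
    rw [pow_succ, sub_eq_iff_eq_add.mp ht]
    push_cast
    rw [hzl]
    ring

/-- every element is congruent to an integer modulo `λ` -/
theorem exists_int (x : R) : ∃ m : ℤ, Q.lam ∣ x - m := by
  obtain ⟨v, hx⟩ := Q.span' x
  refine ⟨∑ i, v i, ?_⟩
  have e : x - ((∑ i, v i : ℤ) : R) = ∑ i, (v i : R) * (Q.e i - 1) := by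
    rw [hx]; push_cast; rw [← sum_sub_distrib]
    exact sum_congr rfl (fun i _ => by ring)
  rw [e]
  exact dvd_sum (fun i _ => (Q.lam_dvd_e_sub_one i).mul_left _)

theorem prime_lam : Prime Q.lam := by
  refine ⟨Q.lam_ne_zero, Q.not_isUnit_lam, fun a b hab => ?_⟩
  obtain ⟨m, hm⟩ := Q.exists_int a
  obtain ⟨n, hn⟩ := Q.exists_int b
  have h : Q.lam ∣ ((m * n : ℤ) : R) := by
    have e : ((m * n : ℤ) : R) = a * b - (a - m) * b - m * (b - n) := by push_cast; ring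
    rw [e]
    exact dvd_sub (dvd_sub hab (hm.mul_right _)) (hn.mul_left _)
  have h7 := Q.l_dvd_of_lam_dvd h
  rcases (Int.Prime.dvd_mul' hlp.out h7) with h | h
  · left
    have e : a = (a - m) + m := by ring
    rw [e]
    exact dvd_add hm (Q.lam_dvd_of_l_dvd h)
  · right
    have e : b = (b - n) + n := by ring
    rw [e]
    exact dvd_add hn (Q.lam_dvd_of_l_dvd h)

/-- the automorphisms act trivially modulo `λ` -/
theorem σ_sub {a : ZMod l} (ha : a ≠ 0) (x : R) : Q.lam ∣ Q.σ a x - x := by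
  obtain ⟨v, hx⟩ := Q.span' x
  rw [hx, map_sum, ← sum_sub_distrib]
  refine dvd_sum (fun i _ => ?_)
  rw [map_mul, map_intCast, Q.σ_e ha, ← mul_sub]
  refine Dvd.dvd.mul_left ?_ _
  have : Q.e (a * i) - Q.e i = (Q.e (a * i) - 1) - (Q.e i - 1) := by ring
  rw [this]
  exact dvd_sub (Q.lam_dvd_e_sub_one _) (Q.lam_dvd_e_sub_one _)

theorem σ_lam {a : ZMod l} (ha : a ≠ 0) : Q.lam ∣ Q.σ a Q.lam := by
  rw [lam_def, map_sub, map_one, ← Q.e_one, Q.σ_e ha, mul_one, Q.e_one]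
  exact Q.lam_dvd_one_sub_e a

theorem σ_dvd {a : ZMod l} (ha : a ≠ 0) {n : ℕ} {x : R} (h : Q.lam ^ n ∣ x) :
    Q.lam ^ n ∣ Q.σ a x := by
  obtain ⟨t, rfl⟩ := h
  rw [map_mul, map_pow]
  exact (pow_dvd_pow_of_dvd (Q.σ_lam ha) n).mul_right _

theorem conj_sub (x : R) : Q.lam ∣ Q.conj x - x := Q.σ_sub neg_one_ne_zero' x

theorem conj_lam : Q.conj Q.lam = -(Q.e (-1) * Q.lam) := by
  rw [lam_def, map_sub, map_one, ← Q.e_one, conj_e]
  linear_combination -Q.e_neg_mul 1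

theorem not_lam_dvd_int {m : ℤ} (h : ¬ (l : ℤ) ∣ m) : ¬ Q.lam ∣ (m : R) :=
  fun h' => h (Q.l_dvd_of_lam_dvd h')

theorem not_lam_dvd_two : ¬ Q.lam ∣ 2 := by
  have h := Q.not_lam_dvd_int (m := 2) (by
    intro h
    have := Int.le_of_dvd (by norm_num) h
    have := Q.five_le
    omega)
  exact_mod_cast h

/-- valuation parity, common form: if `conj x = ± x` with sign opposite to `(-1) ^ n` and
`λ ^ n ∣ x` then `λ ^ (n + 1) ∣ x` -/
theorem parity {x t : R} {n : ℕ} (ht : x = Q.lam ^ n * t)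
    (h : Q.conj x = -(-1) ^ n * x) : Q.lam ^ (n + 1) ∣ x := by
  have e1 : Q.conj x = (-1) ^ n * Q.lam ^ n * (Q.e (-1) ^ n * Q.conj t) := by
    rw [ht, map_mul, map_pow, conj_lam, neg_pow]
    ring
  have hne : ((-1) ^ n * Q.lam ^ n : R) ≠ 0 :=
    mul_ne_zero (pow_ne_zero _ (by simp)) (pow_ne_zero _ Q.lam_ne_zero)
  have e2 : (-1) ^ n * Q.lam ^ n * (Q.e (-1) ^ n * Q.conj t) = (-1) ^ n * Q.lam ^ n * (-t) := by
    rw [← e1, h, ht]; ring
  have e3 := mul_left_cancel₀ hne e2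
  have h2 : Q.lam ∣ 2 * t := by
    have e4 : 2 * t = -((Q.e (-1) ^ n - 1) * Q.conj t) - (Q.conj t - t) := by
      linear_combination e3
    rw [e4]
    refine dvd_sub (dvd_neg.mpr (Dvd.dvd.mul_right ?_ _)) (Q.conj_sub t)
    rw [e_pow]
    exact Q.lam_dvd_e_sub_one _
  have h3 := (Q.prime_lam.dvd_or_dvd h2).resolve_left Q.not_lam_dvd_two
  rw [ht, pow_succ]
  exact mul_dvd_mul_left _ h3

/-- real elements have even valuation at `λ` -/
theorem real_val {x : R} (hx : Q.conj x = x) {n : ℕ} (hn : Odd n) (h : Q.lam ^ n ∣ x) :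
    Q.lam ^ (n + 1) ∣ x := by
  obtain ⟨t, ht⟩ := h
  exact Q.parity ht (by rw [hx, hn.neg_one_pow]; ring)

/-- imaginary elements have odd valuation at `λ` -/
theorem imag_val {x : R} (hx : Q.conj x = -x) {n : ℕ} (hn : Even n) (h : Q.lam ^ n ∣ x) :
    Q.lam ^ (n + 1) ∣ x := by
  obtain ⟨t, ht⟩ := h
  exact Q.parity ht (by rw [hx, hn.neg_one_pow]; ring)

/-- the norm of an element prime to `λ` is `1` modulo `l` -/
theorem norm_mod {x : R} (h : ¬ Q.lam ∣ x) : (l : ℤ) ∣ Algebra.norm ℤ x - 1 := by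
  obtain ⟨m, hm⟩ := Q.exists_int x
  have hml : ¬ (l : ℤ) ∣ m := fun h' => h (by
    have : x = (x - m) + m := by ring
    rw [this]
    exact dvd_add hm (Q.lam_dvd_of_l_dvd h'))
  have h1 : Q.lam ∣ ((Algebra.norm ℤ x - m ^ (l - 1) : ℤ) : R) := by
    push_cast
    rw [Q.norm_eq]
    have e : (m : R) ^ (l - 1) = ∏ a ∈ univ.erase (0 : ZMod l), (m : R) := by
      rw [prod_const, card_erase_of_mem (mem_univ _), card_univ, ZMod.card]
    rw [e]
    have key : ∀ s : Finset (ZMod l), (∀ a ∈ s, a ≠ 0) →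
        Q.lam ∣ ∏ a ∈ s, Q.σ a x - ∏ a ∈ s, (m : R) := by
      intro s
      induction s using Finset.induction_on with
      | empty => intro _; simp
      | insert a s ha ih =>
        intro hs
        have ih' := ih (fun b hb => hs b (mem_insert_of_mem hb))
        have ha0 := hs a (mem_insert_self a s)
        rw [prod_insert ha, prod_insert ha]
        have e : Q.σ a x * ∏ x_1 ∈ s, Q.σ x_1 x - (m : R) * ∏ x ∈ s, (m : R)
          = ((Q.σ a x - x) + (x - m)) * ∏ x_1 ∈ s, Q.σ x_1 x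
            + m * (∏ a ∈ s, Q.σ a x - ∏ a ∈ s, (m : R)) := by ring
        rw [e]
        exact dvd_add ((dvd_add (Q.σ_sub ha0 x) hm).mul_right _) (ih'.mul_left _)
    exact key _ (fun a ha => (mem_erase.mp ha).1)
  have h2 := Q.l_dvd_of_lam_dvd h1
  have h3 : (l : ℤ) ∣ m ^ (l - 1) - 1 := by
    have hc : IsCoprime m (l : ℤ) := by
      rw [isCoprime_comm]
      exact (Nat.prime_iff_prime_int.mp hlp.out).coprime_iff_not_dvd.mpr hml
    exact (Int.ModEq.pow_card_sub_one_eq_one hlp.out hc).symm.dvd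
  have : Algebra.norm ℤ x - 1 = (Algebra.norm ℤ x - m ^ (l - 1)) + (m ^ (l - 1) - 1) := by ring
  rw [this]
  exact dvd_add h2 h3

end Cyc

end AER
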