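import Mathlib

/-!
MP_aeefb1_nt: splitting products of pairwise coprime ideals of a Dedekind domain.
-/

open Finset

namespace AER

variable {R : Type} [CommRing R] [IsDedekindDomain R]

/-- If `I`, `J` are coprime, every nonzero ideal `c` is a product `c₁ c₂` with `c₁` prime to `J`
and `c₂` prime to `I`.  (Induction on the prime factorisation of `c`: a prime is prime to `I` or
to `J`.) -/
theorem coprime_decomp {I J : Ideal R} (h : IsCoprime I J) {c : Ideal R} (hc : c ≠ 0) :
    ∃ c₁ c₂ : Ideal R, c = c₁ * c₂ ∧ IsCoprime c₁ J ∧ IsCoprime c₂ I := by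
  induction c using UniqueFactorizationMonoid.induction_on_prime with
  | h₁ => exact absurd rfl hc
  | h₂ c hu =>
    rw [Ideal.isUnit_iff] at hu
    subst hu
    refine ⟨1, 1, ?_, isCoprime_one_left, isCoprime_one_left⟩
    rw [mul_one, Ideal.one_eq_top]
  | h₃ c p hc0 hp ih =>
    obtain ⟨c₁, c₂, hcc, h₁, h₂⟩ := ih hc0
    have hmax : p.IsMaximal := (Ideal.isPrime_of_prime hp).isMaximal hp.ne_zero
    by_cases hJ : J ≤ p
    · have hI : ¬ I ≤ p := by
        intro hI
        rw [Ideal.isCoprime_iff_sup_eq] at h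
        exact hmax.ne_top (top_le_iff.1 (h ▸ sup_le hI hJ))
      have hpI : IsCoprime p I := by
        rw [Ideal.isCoprime_iff_sup_eq]
        by_contra hne
        have h3 := hmax.eq_of_le hne le_sup_left
        exact hI (h3 ▸ le_sup_right)
      refine ⟨c₁, p * c₂, ?_, h₁, hpI.mul_left h₂⟩
      rw [hcc]
      ring
    · have hpJ : IsCoprime p J := by
        rw [Ideal.isCoprime_iff_sup_eq]
        by_contra hne
        have h3 := hmax.eq_of_le hne le_sup_left
        exact hJ (h3 ▸ le_sup_right)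
      refine ⟨p * c₁, c₂, ?_, hpJ.mul_left h₁, h₂⟩
      rw [hcc]
      ring

/-- If `I J = a ^ k b ^ n` with `I`, `J` coprime then `I = a₁ ^ k b₁ ^ n`, `J = a₂ ^ k b₂ ^ n` with
`a = a₁ a₂`, `b = b₁ b₂`. -/
theorem ideal_split_two {I J a b : Ideal R} (h : IsCoprime I J) (ha : a ≠ 0) (hb : b ≠ 0)
    {k n : ℕ} (hIJ : I * J = a ^ k * b ^ n) :
    ∃ a₁ a₂ b₁ b₂ : Ideal R, a = a₁ * a₂ ∧ b = b₁ * b₂ ∧ I = a₁ ^ k * b₁ ^ n ∧
      J = a₂ ^ k * b₂ ^ n := by
  obtain ⟨a₁, a₂, haa, ha₁, ha₂⟩ := coprime_decomp h ha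
  obtain ⟨b₁, b₂, hbb, hb₁, hb₂⟩ := coprime_decomp h hb
  have hprod : I * J = (a₁ ^ k * b₁ ^ n) * (a₂ ^ k * b₂ ^ n) := by
    rw [hIJ, haa, hbb]
    ring
  have hc1 : IsCoprime (a₁ ^ k * b₁ ^ n) J := (ha₁.pow_left).mul_left (hb₁.pow_left)
  have hc2 : IsCoprime (a₂ ^ k * b₂ ^ n) I := (ha₂.pow_left).mul_left (hb₂.pow_left)
  refine ⟨a₁, a₂, b₁, b₂, haa, hbb, ?_, ?_⟩
  · apply le_antisymm
    · rw [← Ideal.dvd_iff_le]
      exact hc1.dvd_of_dvd_mul_right (hprod ▸ Dvd.intro _ rfl)
    · rw [← Ideal.dvd_iff_le]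
      exact hc2.symm.dvd_of_dvd_mul_right (hprod ▸ Dvd.intro _ rfl)
  · apply le_antisymm
    · rw [← Ideal.dvd_iff_le]
      refine hc2.dvd_of_dvd_mul_left ?_
      rw [hprod]
      exact Dvd.intro_left _ rfl
    · rw [← Ideal.dvd_iff_le]
      refine hc1.symm.dvd_of_dvd_mul_left ?_
      rw [← hprod]
      exact Dvd.intro_left _ rfl

/-- The same for a finite nonempty family of pairwise coprime ideals. -/
theorem ideal_split {ι : Type} [DecidableEq ι] (s : Finset ι) (hs : s.Nonempty) (I : ι → Ideal R)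
    (hI : ∀ i ∈ s, ∀ j ∈ s, i ≠ j → IsCoprime (I i) (I j)) {a b : Ideal R} (ha : a ≠ 0)
    (hb : b ≠ 0) {k n : ℕ} (h : ∏ i ∈ s, I i = a ^ k * b ^ n) :
    ∃ A B : ι → Ideal R, (∀ i ∈ s, I i = A i ^ k * B i ^ n) ∧ ∏ i ∈ s, A i = a ∧
      ∏ i ∈ s, B i = b := by
  induction hs using Finset.Nonempty.cons_induction generalizing a b with
  | singleton i =>
    refine ⟨fun _ => a, fun _ => b, ?_, ?_, ?_⟩
    · intro j hj
      rw [Finset.mem_singleton] at hj
      subst hj
      rw [Finset.prod_singleton] at h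
      exact h
    · rw [Finset.prod_singleton]
    · rw [Finset.prod_singleton]
  | cons i s hi hs ih =>
    rw [Finset.prod_cons] at h
    have hcop : IsCoprime (I i) (∏ j ∈ s, I j) := by
      refine IsCoprime.prod_right fun j hj => ?_
      refine hI i (Finset.mem_cons_self _ _) j (Finset.mem_cons_of_mem hj) ?_
      rintro rfl
      exact hi hj
    obtain ⟨a₁, a₂, b₁, b₂, haa, hbb, hI1, hJ1⟩ := ideal_split_two hcop ha hb h
    have ha₂ : a₂ ≠ 0 := by
      rintro rfl
      exact ha (by rw [haa, mul_zero])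
    have hb₂ : b₂ ≠ 0 := by
      rintro rfl
      exact hb (by rw [hbb, mul_zero])
    obtain ⟨A, B, hAB, hA, hB⟩ := ih (fun j hj l hl => hI j (Finset.mem_cons_of_mem hj) l
      (Finset.mem_cons_of_mem hl)) ha₂ hb₂ hJ1
    have hne : ∀ j ∈ s, j ≠ i := by
      rintro j hj rfl
      exact hi hj
    refine ⟨Function.update A i a₁, Function.update B i b₁, ?_, ?_, ?_⟩
    · intro j hj
      rw [Finset.mem_cons] at hj
      rcases hj with rfl | hj
      · rw [Function.update_self, Function.update_self]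
        exact hI1
      · rw [Function.update_of_ne (hne j hj), Function.update_of_ne (hne j hj)]
        exact hAB j hj
    · rw [Finset.prod_cons, Function.update_self, haa, ← hA]
      congr 1
      exact Finset.prod_congr rfl fun j hj => Function.update_of_ne (hne j hj) _ _
    · rw [Finset.prod_cons, Function.update_self, hbb, ← hB]
      congr 1
      exact Finset.prod_congr rfl fun j hj => Function.update_of_ne (hne j hj) _ _

end AER
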