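import Pool.Agent.Lib_MP_aeefb1_reg.Splitting
import Pool.Agent.Lib_MP_aeefb1_reg.Split
import Pool.Agent.Lib_MP_aeefb1_reg.AbsNorm

/-!
MP_aeefb1_nt: existence of the factorisation of `(C ^ l + E ^ l) = (p) ^ s J ^ l`.
-/

open Finset

namespace AER

variable {l : ℕ} [hlp : Fact l.Prime] {R : Type} [CommRing R] [IsDedekindDomain R]
  [CharZero R] [Module.Free ℤ R] [Module.Finite ℤ R]

/-- an ideal not contained in `(λ)` is prime to `(λ)` -/
private theorem exSplit_coprime (Q : Cyc l R) {I : Ideal R} (h : ¬ Ideal.span {Q.lam} ∣ I) :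
    IsCoprime I (Ideal.span {Q.lam}) := by
  have hp : Prime (Ideal.span {Q.lam}) :=
    Ideal.prime_of_isPrime (by
      rw [Ne, Ideal.span_singleton_eq_bot]; exact Q.lam_ne_zero)
      ((Ideal.span_singleton_prime Q.lam_ne_zero).mpr Q.prime_lam)
  have hm : (Ideal.span {Q.lam}).IsMaximal := (Ideal.isPrime_of_prime hp).isMaximal hp.ne_zero
  rw [isCoprime_comm, Ideal.isCoprime_iff_sup_eq]
  by_contra hne
  have h1 := hm.eq_of_le hne le_sup_left
  apply h
  rw [Ideal.dvd_iff_le, h1]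
  exact le_sup_right

/-- Proof: `Q.prod_add`, `Q.coprime_pair` and `ideal_split` (over `univ`) give `a`, `b`;
`a_q ∣ (p)` gives `N a_q ∣ N (p) = p ^ (l - 1)` (`Q.norm_int`), so `N a_q = p ^ F_q`, and the
product is `p ^ (l - 1)`.  No `a_q`, `b_q` is contained in `(λ)` (`p ≠ l`; for `b_q`:
`Q.lam_dvd_pow_add`), so `Q.absNorm_mod` gives `p ^ F_q = 1` modulo `l`, and
`N (C + z^q E) = (N a_q) ^ s (N b_q) ^ l` (`Ideal.absNorm_span_singleton`, `Q.norm_pos`) with
`Q.absNorm_pow_mod` the last statement. (`λ` divides no `C + z^q E`.) -/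
theorem exists_splitting (Q : Cyc l R) {p : ℕ} (hp : p.Prime) (hpl : p ≠ l) (s : ℕ) {C E : R}
    (hCE : IsCoprime C E) (hlam : ¬ Q.lam ∣ C + E) {J : Ideal R}
    (h : Ideal.span {C ^ l + E ^ l} = Ideal.span {(p : R)} ^ s * J ^ l) :
    Nonempty (Splitting Q p s C E J) := by
  have hl := Q.l_pos
  have hlam' : ¬ Q.lam ∣ C ^ l + E ^ l := fun hh => hlam (Q.lam_dvd_pow_add.mp hh)
  have hne : C ^ l + E ^ l ≠ 0 := fun hh => hlam' (hh ▸ dvd_zero _)
  have hx : ∀ q : ZMod l, C + Q.e q * E ≠ 0 := by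
    intro q hq
    apply hne
    rw [← Q.prod_add]
    exact prod_eq_zero (mem_univ q) hq
  have hp0 : (p : R) ≠ 0 := by exact_mod_cast hp.ne_zero
  have hpI : Ideal.span {(p : R)} ≠ 0 := by
    rw [Ne, Ideal.zero_eq_bot, Ideal.span_singleton_eq_bot]; exact hp0
  have hJ : J ≠ 0 := by
    intro hJ
    rw [hJ, zero_pow hl.ne', mul_zero, Ideal.zero_eq_bot, Ideal.span_singleton_eq_bot] at h
    exact hne h
  obtain ⟨A, B, hAB, hA, hB⟩ := ideal_split (univ : Finset (ZMod l)) ⟨0, mem_univ _⟩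
    (fun q => Ideal.span {C + Q.e q * E}) (fun i _ j _ hij => by
      rw [Ideal.isCoprime_span_singleton_iff]
      exact Q.coprime_pair hCE hlam hij) hpI hJ (k := s) (n := l) (by
      rw [Ideal.prod_span_singleton, Q.prod_add, h])
  -- norm of `(p)`
  have hNp : Ideal.absNorm (Ideal.span {(p : R)}) = p ^ (l - 1) := by
    rw [Ideal.absNorm_span_singleton]
    have h1 := Q.norm_int (p : ℤ)
    rw [Int.cast_natCast] at h1
    rw [h1, Int.natAbs_pow, Int.natAbs_natCast]
  -- nothing is contained in `(λ)`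
  have hA1 : ∀ q, IsCoprime (A q) (Ideal.span {Q.lam}) := by
    intro q
    apply exSplit_coprime
    intro hd
    have h1 : Ideal.span {Q.lam} ∣ Ideal.span {(p : R)} := by
      rw [← hA]; exact hd.trans (dvd_prod_of_mem _ (mem_univ q))
    rw [Ideal.dvd_iff_le, Ideal.span_singleton_le_span_singleton] at h1
    have h2 : Q.lam ∣ ((p : ℤ) : R) := by rwa [Int.cast_natCast]
    have h3 := Q.l_dvd_of_lam_dvd h2
    rw [Int.natCast_dvd_natCast] at h3
    exact hpl ((Nat.prime_dvd_prime_iff_eq hlp.out hp).mp h3).symm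
  have hB1 : ∀ q, IsCoprime (B q) (Ideal.span {Q.lam}) := by
    intro q
    apply exSplit_coprime
    intro hd
    have h1 : Ideal.span {Q.lam} ∣ J := by
      rw [← hB]; exact hd.trans (dvd_prod_of_mem _ (mem_univ q))
    have h2 : Ideal.span {Q.lam} ∣ Ideal.span {C ^ l + E ^ l} := by
      rw [h]; exact (h1.trans (dvd_pow_self J hl.ne')).mul_left _
    rw [Ideal.dvd_iff_le, Ideal.span_singleton_le_span_singleton] at h2
    exact hlam' h2
  -- the exponents
  have hF : ∀ q, ∃ F, Ideal.absNorm (A q) = p ^ F := by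
    intro q
    have h1 : Ideal.absNorm (A q) ∣ p ^ (l - 1) := by
      rw [← hNp, ← hA]
      exact Ideal.absNorm_dvd_absNorm_of_le (Ideal.dvd_iff_le.mp (dvd_prod_of_mem _ (mem_univ q)))
    obtain ⟨F, _, hF⟩ := (Nat.dvd_prime_pow hp).mp h1
    exact ⟨F, hF⟩
  choose F hF using hF
  refine ⟨⟨A, B, F, fun q => hAB q (mem_univ q), hA, hB, hF, ?_, ?_, ?_⟩⟩
  · apply Nat.pow_right_injective hp.two_le
    show p ^ (∑ q, F q) = p ^ (l - 1)
    rw [← hNp, ← hA, map_prod, ← prod_pow_eq_pow_sum]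
    exact prod_congr rfl (fun q _ => (hF q).symm)
  · intro q
    apply orderOf_dvd_of_pow_eq_one
    have h1 := Q.absNorm_mod (hA1 q)
    rw [hF q] at h1
    exact_mod_cast h1
  · intro q
    have h1 : Algebra.norm ℤ (C + Q.e q * E) = ((p ^ F q) ^ s * Ideal.absNorm (B q) ^ l : ℕ) := by
      have h2 : ((Ideal.absNorm (Ideal.span {C + Q.e q * E}) : ℕ) : ℤ)
          = Algebra.norm ℤ (C + Q.e q * E) := by
        rw [Ideal.absNorm_span_singleton]
        exact Int.natAbs_of_nonneg (Q.norm_pos _ (hx q)).le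
      rw [← h2, hAB q (mem_univ q), map_mul, map_pow, map_pow, hF q]
    rw [h1, Int.cast_natCast, Nat.cast_mul, Q.absNorm_pow_mod (hB1 q), mul_one]
    push_cast
    rw [← pow_mul, mul_comm]

end AER
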