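import Pool.Agent.Lib_MP_aeefb1_reg.Splitting

/-!
MP_aeefb1_nt: if `C ≡ E ≡ conj C` modulo `l` then, in a splitting, all primes over `p` divide
`C + E` and, with one real unit `η`, `C + z ^ q E = (1 + z ^ q) η w_q ^ l` for `q ≠ 0` and
`C + E = p ^ s η w_0 ^ l`.
-/

open Finset

namespace AER

variable {l : ℕ} [hlp : Fact l.Prime] {R : Type} [CommRing R] [IsDedekindDomain R]
  [CharZero R] [Module.Free ℤ R] [Module.Finite ℤ R]

/-- integers prime to `l` can be cancelled modulo `l` -/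
private theorem gh_cancel_GH {x : R} {m : ℤ} (hm : ¬ (l : ℤ) ∣ m) (h : (l : R) ∣ x * m) :
    (l : R) ∣ x := by
  have hc : IsCoprime (l : ℤ) m :=
    (Nat.prime_iff_prime_int.mp hlp.out).coprime_iff_not_dvd.mpr hm
  obtain ⟨a, b, hab⟩ := hc
  have e : (a : R) * (l : R) + b * m = 1 := by exact_mod_cast congrArg (Int.cast : ℤ → R) hab
  have e2 : x = l * (x * a) + b * (x * m) := by linear_combination -x * e
  rw [e2]
  exact dvd_add (dvd_mul_right _ _) (h.mul_left _)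

/-- Kummer's lemma for a unit which is a quotient of integers modulo `l` -/
private theorem gh_kummer_GH (Q : Cyc l R) {v : Rˣ} {m n : ℤ} (hm : ¬ (l : ℤ) ∣ m)
    (h : (l : R) ∣ (v : R) * m - n) : ∃ ω : Rˣ, v = ω ^ l := by
  have hc : IsCoprime (l : ℤ) m :=
    (Nat.prime_iff_prime_int.mp hlp.out).coprime_iff_not_dvd.mpr hm
  obtain ⟨a, b, hab⟩ := hc
  have e : (a : R) * (l : R) + b * m = 1 := by exact_mod_cast congrArg (Int.cast : ℤ → R) hab
  refine Q.kummer v (b * n) ?_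
  have e2 : (v : R) - ((b * n : ℤ) : R) = l * (v * a) + b * ((v : R) * m - n) := by
    push_cast
    linear_combination -(v : R) * e
  rw [e2]
  exact dvd_add (dvd_mul_right _ _) (h.mul_left _)

/-- Proof.  By `Q.norm_add_e` the norms of `C + z^q E`, `q ≠ 0`, agree modulo `l ^ 2`
(`2 ^ (l - 1)` is invertible there); by `S.exists_good` and `S.norm` they are `1`, so
`S.F_eq_zero` gives `F_q = 0` for all `q ≠ 0`.  By `S.exists_gen`, `S.exists_gen_zero`:
`C + z^q E = u_q V_q ^ l`, `C + E = u_0 p^s V_0 ^ l`, and `V_q ^ l ≡ m_q` modulo `l`, `m_q`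
an integer prime to `l` (`Q.pow_l_int`).  Modulo `l`, `C + z^q E ≡ (1 + z^q) C`.  So with
`u := u_1 / (1 + z)`: `u m_1 ≡ C`, `u_q m_q ≡ (1 + z^q) u m_1` and `u_0 p^s m_0 ≡ 2 u m_1`; by
`Q.kummer`, `u_q = (1 + z^q) u ω_q ^ l` and `u_0 = u ω_0 ^ l`.  Finally `u m_1 ≡ C ≡ conj C ≡
conj u m_1`, so `conj u = u` by `Q.conj_unit`.  Take `η = u`, `w_q = ω_q V_q`. -/
theorem gh (Q : Cyc l R) {p s : ℕ} (hp : p.Prime) (hpl : p ≠ l) (hp1 : (p : ZMod l) ≠ 1)
    (hp2 : (p : ZMod (l ^ 2)) ^ (l - 1) ≠ 1) (hs : ¬ l ∣ s) {C E : R} {J : Ideal R}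
    (S : Splitting Q p s C E J) (hCE : (l : R) ∣ C - E) (hC : (l : R) ∣ C - Q.conj C)
    (hlam : ¬ Q.lam ∣ C) :
    ∃ (η : Rˣ) (w : ZMod l → R), Q.conj (η : R) = η ∧
      (∀ q, q ≠ 0 → C + Q.e q * E = (1 + Q.e q) * η * w q ^ l) ∧
      C + E = p ^ s * η * w 0 ^ l ∧ ∏ q, Ideal.span {w q} = J := by
  have h5 := Q.five_le
  -- step 1: all primes over `p` divide `C + E`
  have hF : ∀ q : ZMod l, q ≠ 0 → S.F q = 0 := by
    obtain ⟨q₁, hq₁, hF₁⟩ := S.exists_good hp hpl hp1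
    intro q hq
    refine S.F_eq_zero hp hpl hp2 hs ?_
    have n1 := S.norm q₁
    rw [hF₁, mul_zero, pow_zero] at n1
    have a1 := Q.norm_add_e hCE hq₁
    have a2 := Q.norm_add_e hCE hq
    rw [← a1] at a2
    push_cast at a2
    have h2u : IsUnit ((2 : ZMod (l ^ 2)) ^ (l - 1)) := by
      refine IsUnit.pow _ ?_
      have h2 : IsUnit ((2 : ℕ) : ZMod (l ^ 2)) := by
        rw [ZMod.isUnit_iff_coprime]
        refine Nat.Coprime.pow_right 2 ?_
        rw [Nat.coprime_primes Nat.prime_two hlp.out]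
        omega
      exact_mod_cast h2
    have a3 := h2u.mul_left_cancel a2
    rw [← S.norm q, a3]
    exact n1
  -- `λ` does not divide the factors
  have hlCE : Q.lam ∣ C - E := Q.lam_dvd_l.trans hCE
  have hnd : ∀ q : ZMod l, ¬ Q.lam ∣ C + Q.e q * E := by
    intro q h
    have e1 : (1 + Q.e q) * C = (C + Q.e q * E) + Q.e q * (C - E) := by ring
    have h1 : Q.lam ∣ (1 + Q.e q) * C := by
      rw [e1]
      exact dvd_add h (hlCE.mul_left _)
    by_cases hq : q = 0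
    · rw [hq, Q.e_zero] at h1
      have h2 : (1 + 1 : R) = 2 := by norm_num
      rw [h2] at h1
      rcases Q.prime_lam.dvd_or_dvd h1 with h3 | h3
      · exact Q.not_lam_dvd_two h3
      · exact hlam h3
    · rw [(Q.isUnit_one_add hq).dvd_mul_left] at h1
      exact hlam h1
  -- the integers `m_q`
  have hint : ∀ (q : ZMod l) (a V : R), C + Q.e q * E = a * V ^ l →
      ∃ m : ℤ, (l : R) ∣ V ^ l - m ∧ ¬ (l : ℤ) ∣ m := by
    intro q a V hV
    obtain ⟨m, hm, hm2⟩ := Q.pow_l_int V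
    refine ⟨m, hm, fun hlm => ?_⟩
    have h1 : Q.lam ∣ V := by
      have e1 : V = (V - m) + m := by ring
      rw [e1]
      exact dvd_add hm2 (Q.lam_dvd_of_l_dvd hlm)
    apply hnd q
    rw [hV]
    exact (h1.trans (dvd_pow_self V (by omega))).mul_left _
  -- the unit `η`
  obtain ⟨u₁, V₁, hV₁, hb₁⟩ := S.exists_gen (hF 1 one_ne_zero)
  obtain ⟨m₁, hm₁, hm₁l⟩ := hint 1 _ _ hV₁
  obtain ⟨U₁, hU₁⟩ := Q.isUnit_one_add (a := 1) one_ne_zero
  obtain ⟨η, hη⟩ : ∃ η : Rˣ, (η : R) * (1 + Q.e 1) = u₁ :=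
    ⟨u₁ * U₁⁻¹, by rw [← hU₁, Units.val_mul, mul_assoc, Units.inv_mul, mul_one]⟩
  have hηC : (l : R) ∣ (η : R) * m₁ - C := by
    rw [← (Q.isUnit_one_add (a := 1) one_ne_zero).dvd_mul_left]
    have e1 : (1 + Q.e 1) * ((η : R) * m₁ - C) =
        -(Q.e 1 * (C - E)) - u₁ * (V₁ ^ l - m₁) := by
      linear_combination (m₁ : R) * hη - hV₁
    rw [e1]
    exact dvd_sub (dvd_neg.mpr (hCE.mul_left _)) (hm₁.mul_left _)
  have hηr : Q.conj (η : R) = η := by
    apply Q.conj_unit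
    refine gh_cancel_GH hm₁l ?_
    have h1 : (l : R) ∣ Q.conj (η : R) * m₁ - Q.conj C := by
      obtain ⟨t, ht⟩ := hηC
      refine ⟨Q.conj t, ?_⟩
      have h2 := congrArg Q.conj ht
      rw [map_sub, map_mul, map_mul, map_intCast, map_natCast] at h2
      exact h2
    have e1 : ((η : R) - Q.conj η) * m₁ =
        ((η : R) * m₁ - C) - (Q.conj (η : R) * m₁ - Q.conj C) + (C - Q.conj C) := by ring
    rw [e1]
    exact dvd_add (dvd_sub hηC h1) hC
  -- the factors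
  have key : ∀ q : ZMod l, ∃ w : R, S.b q = Ideal.span {w} ∧
      (q ≠ 0 → C + Q.e q * E = (1 + Q.e q) * η * w ^ l) ∧
      (q = 0 → C + E = p ^ s * η * w ^ l) := by
    intro q
    by_cases hq : q = 0
    · subst hq
      obtain ⟨u₀, V₀, hV₀, hb₀⟩ := S.exists_gen_zero hp hF
      have hV₀' : C + Q.e 0 * E = (u₀ * p ^ s) * V₀ ^ l := by
        rw [Q.e_zero, one_mul]
        exact hV₀
      obtain ⟨m₀, hm₀, hm₀l⟩ := hint 0 _ _ hV₀'
      have hpm : ¬ (l : ℤ) ∣ (p : ℤ) ^ s * m₀ := by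
        intro h
        rcases Int.Prime.dvd_mul' hlp.out h with h1 | h1
        · have h2 := Int.Prime.dvd_pow' hlp.out h1
          have h3 : l ∣ p := by exact_mod_cast h2
          exact hpl ((Nat.prime_dvd_prime_iff_eq hlp.out hp).1 h3).symm
        · exact hm₀l h1
      obtain ⟨v, hv⟩ : ∃ v : Rˣ, (η : R) * v = u₀ :=
        ⟨η⁻¹ * u₀, by rw [Units.val_mul, ← mul_assoc, Units.mul_inv, one_mul]⟩
      have hk : (l : R) ∣ (v : R) * (((p : ℤ) ^ s * m₀ : ℤ) : R) - ((2 * m₁ : ℤ) : R) := by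
        rw [← η.isUnit.dvd_mul_left]
        have e1 : (η : R) * ((v : R) * (((p : ℤ) ^ s * m₀ : ℤ) : R) - ((2 * m₁ : ℤ) : R)) =
            -(C - E) - u₀ * p ^ s * (V₀ ^ l - m₀) - 2 * ((η : R) * m₁ - C) := by
          push_cast
          linear_combination ((p : R) ^ s * m₀) * hv - hV₀
        rw [e1]
        exact dvd_sub (dvd_sub (dvd_neg.mpr hCE) (hm₀.mul_left _)) (hηC.mul_left _)
      obtain ⟨ω, hω⟩ := gh_kummer_GH Q hpm hk
      refine ⟨ω * V₀, ?_, fun h => absurd rfl h, fun _ => ?_⟩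
      · rw [hb₀, Ideal.span_singleton_mul_left_unit ω.isUnit]
      · rw [hV₀, ← hv, hω, Units.val_pow_eq_pow_val, mul_pow]
        ring
    · obtain ⟨u, V, hV, hb⟩ := S.exists_gen (hF q hq)
      obtain ⟨m, hm, hml⟩ := hint q _ _ hV
      obtain ⟨U, hU⟩ := Q.isUnit_one_add hq
      obtain ⟨v, hv⟩ : ∃ v : Rˣ, (1 + Q.e q) * η * v = u :=
        ⟨(U * η)⁻¹ * u, by
          rw [← hU, ← Units.val_mul, ← Units.val_mul, mul_inv_cancel_left]⟩
      have hk : (l : R) ∣ (v : R) * (m : R) - (m₁ : R) := by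
        have hu : IsUnit ((1 + Q.e q) * (η : R)) := (Q.isUnit_one_add hq).mul η.isUnit
        rw [← hu.dvd_mul_left]
        have e1 : (1 + Q.e q) * (η : R) * ((v : R) * (m : R) - (m₁ : R)) =
            -(Q.e q * (C - E)) - u * (V ^ l - m) - (1 + Q.e q) * ((η : R) * m₁ - C) := by
          linear_combination (m : R) * hv - hV
        rw [e1]
        exact dvd_sub (dvd_sub (dvd_neg.mpr (hCE.mul_left _)) (hm.mul_left _)) (hηC.mul_left _)
      obtain ⟨ω, hω⟩ := gh_kummer_GH Q hml hk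
      refine ⟨ω * V, ?_, fun _ => ?_, fun h => absurd h hq⟩
      · rw [hb, Ideal.span_singleton_mul_left_unit ω.isUnit]
      · rw [hV, ← hv, hω, Units.val_pow_eq_pow_val, mul_pow]
        ring
  choose w hw using key
  refine ⟨η, w, hηr, fun q hq => (hw q).2.1 hq, (hw 0).2.2 rfl, ?_⟩
  rw [← S.prod_b]
  exact Finset.prod_congr rfl fun q _ => (hw q).1.symm

end AER
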