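import Pool.Agent.Lib_MP_aeefb1_reg.Splitting

/-!
MP_aeefb1_nt: the first step for a real pair, and the classical first case argument.
-/

open Finset

namespace AER

variable {l : ℕ} [hlp : Fact l.Prime] {R : Type} [CommRing R] [IsDedekindDomain R]
  [CharZero R] [Module.Free ℤ R] [Module.Finite ℤ R]

/-- the conjugate of a unit is a power of `z` times the unit -/
private theorem conj_unit_eq (Q : Cyc l R) (u : Rˣ) :
    ∃ a : ZMod l, Q.conj (u : R) = Q.e (2 * a) * u := by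
  obtain ⟨i, hi⟩ := Q.unit_real u
  refine ⟨(i : ZMod l), ?_⟩
  have h1 : Q.conj (Q.e (i : ZMod l) * u) = Q.e (i : ZMod l) * u := by
    rw [← Q.z_pow]; exact hi
  rw [map_mul, Q.conj_e] at h1
  have h2 : Q.e (i : ZMod l) * (Q.e (-(i : ZMod l)) * Q.conj (u : R))
      = Q.e (i : ZMod l) * (Q.e (i : ZMod l) * u) := by rw [h1]
  rw [← mul_assoc, ← mul_assoc, mul_comm (Q.e (i : ZMod l)) (Q.e (-(i : ZMod l))), Q.e_neg_mul,
    one_mul, ← Q.e_add] at h2
  rw [h2]
  congr 2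
  ring

/-- divisibility by `l` and conjugation -/
private theorem conj_l_dvd (Q : Cyc l R) {x : R} (h : (l : R) ∣ x) : (l : R) ∣ Q.conj x := by
  obtain ⟨t, rfl⟩ := h
  rw [map_mul, map_natCast]
  exact Dvd.intro _ rfl

/-- the common first part: `X + z^j Y = u w^l` with `X`, `Y` real -/
private theorem twist_congr (Q : Cyc l R) {X Y w : R} {u : Rˣ} {j : ZMod l}
    (hX : Q.conj X = X) (hY : Q.conj Y = Y) (h : X + Q.e j * Y = u * w ^ l) :
    ∃ a : ZMod l, (l : R) ∣ X + Q.e (-j) * Y - Q.e (2 * a) * (X + Q.e j * Y) := by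
  obtain ⟨a, ha⟩ := conj_unit_eq Q u
  obtain ⟨m, hm, -⟩ := Q.pow_l_int w
  refine ⟨a, ?_⟩
  have h1 : (l : R) ∣ (X + Q.e j * Y) - u * m := by
    rw [h, ← mul_sub]
    exact hm.mul_left _
  have h2 := conj_l_dvd Q h1
  rw [map_sub, map_add, map_mul, map_mul, map_intCast, Q.conj_e, hX, hY, ha] at h2
  have e : X + Q.e (-j) * Y - Q.e (2 * a) * (X + Q.e j * Y)
      = (X + Q.e (-j) * Y - Q.e (2 * a) * u * m) - Q.e (2 * a) * ((X + Q.e j * Y) - u * m) := by
    ring
  rw [e]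
  exact dvd_sub h2 (h1.mul_left _)

/-- `e b ≡ 1 - b λ` modulo `λ ^ 2` -/
private theorem lam_sq_e (Q : Cyc l R) (b : ZMod l) :
    Q.lam ^ 2 ∣ Q.e b - (1 - (b.val : R) * Q.lam) := Q.lam_sq_dvd_zpow b.val

include hlp in
private theorem odd_l (h5 : 5 ≤ l) : Odd l := hlp.out.odd_of_ne_two (by omega)

/-- cancel a difference of roots of unity: an element divisible by `l` after multiplication with
it is divisible by `λ ^ (l - 2)` -/
private theorem lam_dvd_of_mul (Q : Cyc l R) {x c : R} (hc : Associated Q.lam c)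
    (h : (l : R) ∣ x * c) : Q.lam ^ (l - 2) ∣ x := by
  obtain ⟨v, hv⟩ := hc
  have h1 : Q.lam ^ (l - 1) ∣ x * c := Q.l_dvd_iff.1 h
  rw [← hv] at h1
  have h2 : Q.lam * Q.lam ^ (l - 2) ∣ Q.lam * (x * v) := by
    have h5 := Q.five_le
    rw [← pow_succ', show l - 2 + 1 = l - 1 by omega]
    have : Q.lam * (x * v) = x * (Q.lam * v) := by ring
    rw [this]
    exact h1
  have h3 := (mul_dvd_mul_iff_left Q.lam_ne_zero).1 h2
  exact (Units.dvd_mul_right).1 h3

/-- The first step for a real pair: `X ≡ Y` modulo `λ` implies `X ≡ Y` modulo `l`.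
Proof.  Take `j ≠ 0` with `F_j = 0` (`S.exists_good`), `X + z^j Y = u V^l` (`S.exists_gen`),
`V^l ≡ m` modulo `l` (`Q.pow_l_int`) and `z^i u` real (`Q.unit_real`).  So
`z^(2i) (X + z^j Y) ≡ X + z^(-j) Y` modulo `l`.  Let `x₀` be an integer with `X ≡ x₀` modulo `λ`;
`X - x₀`, `Y - x₀` are real, so divisible by `λ^2` (`Q.real_val`).  With `z^n ≡ 1 - n λ` modulo
`λ^2` (`Q.lam_sq_dvd_zpow`) compare the coefficients of `λ`: `4 i + 2 j = 0` modulo `l`,
`2 i = -j`.  Then `(X - Y) (1 - z^(-j)) ≡ 0` modulo `l`, `λ^(l-2) ∣ X - Y`, and `X - Y` is real,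
`l - 2` odd: `λ^(l-1) ∣ X - Y` by `Q.real_val`. -/
theorem real_congr (Q : Cyc l R) {p s : ℕ} (hp : p.Prime) (hpl : p ≠ l) (hp1 : (p : ZMod l) ≠ 1)
    {X Y : R} {J : Ideal R} (S : Splitting Q p s X Y J) (hX : Q.conj X = X) (hY : Q.conj Y = Y)
    (hXY : Q.lam ∣ X - Y) (hlam : ¬ Q.lam ∣ X) : (l : R) ∣ X - Y := by
  have h5 := Q.five_le
  obtain ⟨j, hj, hFj⟩ := S.exists_good hp hpl hp1
  obtain ⟨u, w, huw, -⟩ := S.exists_gen hFj
  obtain ⟨a, ha⟩ := twist_congr Q hX hY huw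
  obtain ⟨m, hm⟩ := Q.exists_int X
  have hmY : Q.lam ∣ Y - m := by
    have e : Y - m = (X - m) - (X - Y) := by ring
    rw [e]
    exact dvd_sub hm hXY
  have hmX2 : Q.lam ^ 2 ∣ X - m :=
    Q.real_val (n := 1) (by rw [map_sub, map_intCast, hX]) odd_one (by rwa [pow_one])
  have hmY2 : Q.lam ^ 2 ∣ Y - m :=
    Q.real_val (n := 1) (by rw [map_sub, map_intCast, hY]) odd_one (by rwa [pow_one])
  have hl2 : Q.lam ^ 2 ∣ (l : R) := (pow_dvd_pow _ (by omega)).trans Q.lam_pow_dvd_l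
  have hm0 : ¬ Q.lam ∣ (m : R) := fun h => hlam (by
    have e : X = (X - m) + m := by ring
    rw [e]
    exact dvd_add hm h)
  -- the coefficient of `λ`
  have h1 : Q.lam ^ 2 ∣ (m : R) * (Q.lam *
      ((((2 * a).val + (2 * a + j).val : ℕ) : ℤ) - (((-j).val : ℕ) : ℤ) : ℤ)) := by
    have e : (m : R) * (Q.lam *
        ((((2 * a).val + (2 * a + j).val : ℕ) : ℤ) - (((-j).val : ℕ) : ℤ) : ℤ))
        = (X + Q.e (-j) * Y - Q.e (2 * a) * (X + Q.e j * Y))
          - (1 - Q.e (2 * a)) * (X - m) - (Q.e (-j) - Q.e (2 * a + j)) * (Y - m)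
          - m * (Q.e (-j) - (1 - ((-j).val : R) * Q.lam))
          + m * (Q.e (2 * a) - (1 - ((2 * a).val : R) * Q.lam))
          + m * (Q.e (2 * a + j) - (1 - ((2 * a + j).val : R) * Q.lam)) := by
      rw [Q.e_add (2 * a) j]
      push_cast
      ring
    rw [e]
    exact dvd_add (dvd_add (dvd_sub (dvd_sub (dvd_sub (hl2.trans ha) (hmX2.mul_left _))
      (hmY2.mul_left _)) ((lam_sq_e Q _).mul_left _)) ((lam_sq_e Q _).mul_left _))
      ((lam_sq_e Q _).mul_left _)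
  have h2 : Q.lam ∣ (m : R) *
      ((((2 * a).val + (2 * a + j).val : ℕ) : ℤ) - (((-j).val : ℕ) : ℤ) : ℤ) := by
    have e : (m : R) * (Q.lam *
        ((((2 * a).val + (2 * a + j).val : ℕ) : ℤ) - (((-j).val : ℕ) : ℤ) : ℤ))
        = Q.lam * ((m : R) *
          ((((2 * a).val + (2 * a + j).val : ℕ) : ℤ) - (((-j).val : ℕ) : ℤ) : ℤ)) := by ring
    rw [e, pow_two] at h1
    exact (mul_dvd_mul_iff_left Q.lam_ne_zero).1 h1
  have h3 := Q.l_dvd_of_lam_dvd ((Q.prime_lam.dvd_or_dvd h2).resolve_left hm0)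
  rw [← ZMod.intCast_zmod_eq_zero_iff_dvd] at h3
  push_cast at h3
  rw [ZMod.natCast_zmod_val, ZMod.natCast_zmod_val, ZMod.natCast_zmod_val] at h3
  have h4 : (2 : ZMod l) * (2 * a + j) = 0 := by linear_combination h3
  have h20 : (2 : ZMod l) ≠ 0 := by
    intro h
    have h' : ((2 : ℕ) : ZMod l) = 0 := by exact_mod_cast h
    rw [ZMod.natCast_eq_zero_iff] at h'
    have := Nat.le_of_dvd (by norm_num) h'
    omega
  have h6 : 2 * a = -j := by
    have := (mul_eq_zero.1 h4).resolve_left h20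
    linear_combination this
  rw [h6] at ha
  have h7 : X + Q.e (-j) * Y - Q.e (-j) * (X + Q.e j * Y) = (X - Y) * (1 - Q.e (-j)) := by
    linear_combination (-Y) * Q.e_neg_mul j
  rw [h7] at ha
  have h8 := lam_dvd_of_mul Q (Q.assoc_one_sub (neg_ne_zero.2 hj)) ha
  have hodd : Odd (l - 2) := by
    obtain ⟨k, hk⟩ := odd_l h5
    exact ⟨k - 1, by omega⟩
  have h9 := Q.real_val (by rw [map_sub, hX, hY]) hodd h8
  rw [show l - 2 + 1 = l - 1 by omega] at h9
  exact Q.l_dvd_iff.2 h9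

/-- The classical argument for integers.
Proof.  `w ^ l ≡ m` modulo `l` (`Q.pow_l_int`) and `z^i u` real (`Q.unit_real`) give
`x + z y - z^b x - z^(b-1) y ≡ 0` modulo `l` for some `b : ZMod l` (`b = - 2 i`).  `b = 0`:
`y (z - z^(-1)) ≡ 0`; `b = 2`: `x (1 - z^2) ≡ 0`; both impossible.  `b ≠ 0, 1, 2`: the four
exponents `0, 1, b, b - 1` are different and, as `l ≥ 5`, not all exponents: `Q.indep_mod` gives
`l ∣ x`.  `b = 1`: `(x - y)(1 - z) ≡ 0`, so `l ∣ x - y`. -/
theorem first_classical (Q : Cyc l R) {x y : ℤ} (hx : ¬ (l : ℤ) ∣ x) (hy : ¬ (l : ℤ) ∣ y)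
    {u : Rˣ} {w : R} (h : (x : R) + Q.z * y = u * w ^ l) : (l : ℤ) ∣ x - y := by
  have h5 := Q.five_le
  have hi : ∀ {n : ℤ} {c : R}, Associated Q.lam c → (l : R) ∣ (n : R) * c → (l : ℤ) ∣ n := by
    intro n c hc h
    have h1 := lam_dvd_of_mul Q hc h
    exact Q.l_dvd_of_lam_dvd ((dvd_pow_self _ (by omega)).trans h1)
  rw [← Q.e_one] at h
  obtain ⟨a, ha⟩ := twist_congr Q (map_intCast Q.conj x) (map_intCast Q.conj y) h
  generalize 2 * a = b at ha
  by_cases hb0 : b = 0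
  · exfalso
    subst hb0
    apply hy
    refine hi (c := Q.e (-1) - Q.e 1) (Q.assoc_sub ?_) ?_
    · intro h'
      have : (2 : ZMod l) = 0 := by linear_combination -h'
      have h' : ((2 : ℕ) : ZMod l) = 0 := by exact_mod_cast this
      rw [ZMod.natCast_eq_zero_iff] at h'
      have := Nat.le_of_dvd (by norm_num) h'
      omega
    · rw [Q.e_zero] at ha
      have e : (x : R) + Q.e (-1) * y - 1 * (x + Q.e 1 * y) = y * (Q.e (-1) - Q.e 1) := by ring
      rwa [e] at ha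
  by_cases hb1 : b = -1
  · subst hb1
    have e : (x : R) + Q.e (-1) * y - Q.e (-1) * (x + Q.e 1 * y)
        = ((x - y : ℤ) : R) * (1 - Q.e (-1)) := by
      push_cast
      linear_combination (-(y : R)) * Q.e_neg_mul 1
    rw [e] at ha
    exact hi (Q.assoc_one_sub Cyc.neg_one_ne_zero') ha
  by_cases hb2 : b = -2
  · exfalso
    subst hb2
    apply hx
    refine hi (c := 1 - Q.e (-2)) (Q.assoc_one_sub ?_) ?_
    · intro h'
      have h2 : (2 : ZMod l) = 0 := by linear_combination -h'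
      have h' : ((2 : ℕ) : ZMod l) = 0 := by exact_mod_cast h2
      rw [ZMod.natCast_eq_zero_iff] at h'
      have := Nat.le_of_dvd (by norm_num) h'
      omega
    · have e1 : Q.e (-2) * Q.e 1 = Q.e (-1) := by
        rw [← Q.e_add]; congr 1; ring
      have e : (x : R) + Q.e (-1) * y - Q.e (-2) * (x + Q.e 1 * y) = x * (1 - Q.e (-2)) := by
        linear_combination (-(y : R)) * e1
      rwa [e] at ha
  exfalso
  apply hx
  set v : ZMod l → ℤ := fun i => (if i = 0 then x else 0) + (if i = -1 then y else 0)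
    - (if i = b then x else 0) - (if i = b + 1 then y else 0) with hv
  have hsum : ∑ i, (v i : R) * Q.e i = x + Q.e (-1) * y - Q.e b * (x + Q.e 1 * y) := by
    rw [hv]
    push_cast
    simp only [sub_mul, add_mul, sum_sub_distrib, sum_add_distrib, ite_mul, zero_mul,
      sum_ite_eq', mem_univ, if_true]
    rw [Q.e_zero, Q.e_add b 1]
    ring
  rw [← hsum] at ha
  obtain ⟨j, hj⟩ : ∃ j : ZMod l, j ∉ ({0, -1, b, b + 1} : Finset (ZMod l)) := by
    by_contra hcon
    push Not at hcon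
    have h1 : (univ : Finset (ZMod l)) ⊆ {0, -1, b, b + 1} := fun j _ => hcon j
    have h2 := card_le_card h1
    rw [card_univ, ZMod.card] at h2
    have h3 := card_le_four (a := (0 : ZMod l)) (b := -1) (c := b) (d := b + 1)
    omega
  simp only [mem_insert, mem_singleton, not_or] at hj
  have h1 := Q.indep_mod ha 0 j
  have hv0 : v 0 = x := by
    simp only [hv]
    have e1 : ¬ (0 : ZMod l) = -1 := fun h' => Cyc.neg_one_ne_zero' h'.symm
    have e2 : ¬ (0 : ZMod l) = b + 1 := fun h' => hb1 (by linear_combination -h')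
    rw [if_pos trivial, if_neg e1, if_neg (fun h => hb0 h.symm), if_neg e2]
    ring
  have hvj : v j = 0 := by
    simp only [hv]
    rw [if_neg hj.1, if_neg hj.2.1, if_neg hj.2.2.1, if_neg hj.2.2.2]
    ring
  rwa [hv0, hvj, sub_zero] at h1

end AER
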