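import Pool.Agent.Lib_MP_aeefb1_reg.CoreNT
import Pool.Agent.Lib_MP_aeefb1_reg.GH
import Pool.Agent.Lib_MP_aeefb1_reg.RealCongr
import Pool.Agent.Lib_MP_aeefb1_reg.ExSplit

/-!
MP_aeefb1_nt: the infinite descent on real pairs.
-/

open Finset

namespace AER

variable {l : ℕ} [hlp : Fact l.Prime] {R : Type} [CommRing R] [IsDedekindDomain R]
  [CharZero R] [Module.Free ℤ R] [Module.Finite ℤ R]

private theorem conj_eq (Q : Cyc l R) {X Y C : R} {η : Rˣ} (hX : Q.conj X = X)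
    (hY : Q.conj Y = Y) (hη : Q.conj (η : R) = η) {j : ZMod l}
    (hC : X + Q.e j * Y = (1 + Q.e j) * η * C ^ l) :
    Q.e j * X + Y = (1 + Q.e j) * η * Q.conj C ^ l := by
  have h1 : X + Q.e (-j) * Y = (1 + Q.e (-j)) * η * Q.conj C ^ l := by
    have := congrArg Q.conj hC
    simpa [hX, hY, hη, Q.conj_e] using this
  have h2 := Q.e_neg_mul j
  linear_combination Q.e j * h1 + (-Y + η * Q.conj C ^ l) * h2

private theorem descent_sum (Q : Cyc l R) {X Y C : R} {η : Rˣ} (hX : Q.conj X = X)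
    (hY : Q.conj Y = Y) (hη : Q.conj (η : R) = η) {j : ZMod l} (hj : j ≠ 0)
    (hC : X + Q.e j * Y = (1 + Q.e j) * η * C ^ l) :
    X + Y = η * (C ^ l + Q.conj C ^ l) := by
  have h1 := conj_eq Q hX hY hη hC
  have hu := (Q.isUnit_one_add hj).ne_zero
  apply mul_left_cancel₀ hu
  linear_combination hC + h1

private theorem not_dvd_add (Q : Cyc l R) {X Y : R} (h1 : Q.lam ∣ X - Y) (h2 : ¬ Q.lam ∣ X) :
    ¬ Q.lam ∣ X + Y := by
  intro h
  have : Q.lam ∣ 2 * X := by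
    have e : 2 * X = (X + Y) + (X - Y) := by ring
    rw [e]; exact dvd_add h h1
  exact (Q.prime_lam.dvd_or_dvd this).elim Q.not_lam_dvd_two h2

private theorem not_dvd_add_e (Q : Cyc l R) {X Y : R} (h : ¬ Q.lam ∣ X + Y) (j : ZMod l) :
    ¬ Q.lam ∣ X + Q.e j * Y := by
  intro h'
  apply h
  have e : X + Y = (X + Q.e j * Y) - (Q.e j - 1) * Y := by ring
  rw [e]
  exact dvd_sub h' ((Q.lam_dvd_e_sub_one j).mul_right _)

private theorem neg_ne (Q : Cyc l R) {j : ZMod l} (hj : j ≠ 0) : j ≠ -j := by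
  intro h
  have h2 : (2 : ZMod l) * j = 0 := by linear_combination h
  rcases mul_eq_zero.mp h2 with h3 | h3
  · have h' : ((2 : ℕ) : ZMod l) = 0 := by exact_mod_cast h3
    rw [ZMod.natCast_eq_zero_iff] at h'
    have := Nat.le_of_dvd (by norm_num) h'
    have := Q.five_le
    omega
  · exact hj h3

/-- the first half of a step: the elements `C_j` -/
private theorem half_step (Q : Cyc l R) {p s : ℕ} {X Y : R} {η : Rˣ} {w0 w : R}
    (hX : Q.conj X = X) (hY : Q.conj Y = Y) (hη : Q.conj (η : R) = η) (hXY : IsCoprime X Y)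
    (hlam : ¬ Q.lam ∣ X + Y) {j : ZMod l} (hj : j ≠ 0)
    (hw : X + Q.e j * Y = (1 + Q.e j) * η * w ^ l) (hw0 : X + Y = p ^ s * η * w0 ^ l) :
    ∃ C : R, X + Q.e j * Y = (1 + Q.e j) * η * C ^ l ∧ Q.lam ^ 2 ∣ C - Q.conj C ∧
      Ideal.span {C} = Ideal.span {w} ∧ IsCoprime C (Q.conj C) ∧ ¬ Q.lam ∣ C ∧
      ¬ Q.lam ∣ C + Q.conj C ∧
      Ideal.span {C ^ l + Q.conj C ^ l} = Ideal.span {(p : R)} ^ s * Ideal.span {w0} ^ l := by
  have hl0 : l ≠ 0 := hlp.out.ne_zero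
  have hwl : ¬ Q.lam ∣ w := by
    intro h
    apply not_dvd_add_e Q hlam j
    rw [hw]
    exact (dvd_pow h hl0).mul_left _
  obtain ⟨a, ha⟩ := Q.exists_normal hwl
  have hCl : (Q.e a * w) ^ l = w ^ l := by
    rw [mul_pow, Q.e_pow]
    simp [Q.e_zero]
  have hC : X + Q.e j * Y = (1 + Q.e j) * η * (Q.e a * w) ^ l := by rw [hCl]; exact hw
  have hlamC : ¬ Q.lam ∣ Q.e a * w := by
    intro h
    exact (Q.prime_lam.dvd_or_dvd h).elim
      (fun h' => Q.not_isUnit_lam (isUnit_of_dvd_unit h' (Q.isUnit_e a))) hwl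
  refine ⟨Q.e a * w, hC, ha, ?_, ?_, hlamC, ?_, ?_⟩
  · rw [Ideal.span_singleton_eq_span_singleton]
    exact (associated_unit_mul_left w _ (Q.isUnit_e a))
  · have h1 := Q.coprime_pair hXY hlam (neg_ne Q hj)
    have h2 : X + Q.e (-j) * Y = (1 + Q.e (-j)) * η * Q.conj (Q.e a * w) ^ l := by
      have := congrArg Q.conj hC
      simpa [hX, hY, hη, Q.conj_e] using this
    rw [hC, h2] at h1
    have h3 := h1.of_isCoprime_of_dvd_left (Dvd.intro_left _ rfl)
    have h4 := h3.of_isCoprime_of_dvd_right (Dvd.intro_left _ rfl)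
    exact (IsCoprime.pow_iff hlp.out.pos hlp.out.pos).mp h4
  · apply not_dvd_add Q _ hlamC
    have := Q.conj_sub (Q.e a * w)
    rw [← dvd_neg, neg_sub] at this
    exact this
  · have h1 := descent_sum Q hX hY hη hj hC
    have h2 : (Q.e a * w) ^ l + Q.conj (Q.e a * w) ^ l = p ^ s * w0 ^ l := by
      have hu : (η : R) ≠ 0 := η.ne_zero
      apply mul_left_cancel₀ hu
      rw [← h1, hw0]; ring
    rw [h2, Ideal.span_singleton_pow, Ideal.span_singleton_pow,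
      Ideal.span_singleton_mul_span_singleton]

/-- the second half of a step: the new real pair -/
private theorem half_step2 (Q : Cyc l R) {p s : ℕ} {C : R} {η : Rˣ} {w : ZMod l → R}
    (hη : Q.conj (η : R) = η) (hCC : IsCoprime C (Q.conj C)) (hlam : ¬ Q.lam ∣ C + Q.conj C)
    (hw : ∀ q, q ≠ 0 → C + Q.e q * Q.conj C = (1 + Q.e q) * η * w q ^ l)
    (hw0 : C + Q.conj C = p ^ s * η * w 0 ^ l) :
    ∃ X Y : R, Q.conj X = X ∧ Q.conj Y = Y ∧ IsCoprime X Y ∧ Q.lam ∣ X - Y ∧ ¬ Q.lam ∣ X ∧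
      Ideal.span {X ^ l + Y ^ l} = Ideal.span {(p : R)} ^ s * Ideal.span {w 0} ^ l := by
  have hl0 : l ≠ 0 := hlp.out.ne_zero
  have hreal : ∀ q : ZMod l, q ≠ 0 → Q.conj (w q) ^ l = w q ^ l := by
    intro q hq
    have h1 := hw q hq
    have h2 : Q.conj C + Q.e (-q) * C = (1 + Q.e (-q)) * η * Q.conj (w q) ^ l := by
      have := congrArg Q.conj h1
      simpa [hη, Q.conj_e, Q.conj_conj] using this
    have h3 := Q.e_neg_mul q
    have hu : (1 + Q.e q) * (η : R) ≠ 0 :=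
      mul_ne_zero (Q.isUnit_one_add hq).ne_zero η.ne_zero
    apply mul_left_cancel₀ hu
    rw [← h1]
    linear_combination (-Q.e q) * h2 + (C - η * Q.conj (w q) ^ l) * h3
  have hm1 : (-1 : ZMod l) ≠ 0 := by simp
  obtain ⟨a, ha⟩ := Q.exists_real (hreal 1 one_ne_zero)
  obtain ⟨b, hb⟩ := Q.exists_real (hreal (-1) hm1)
  have hXl : (Q.e a * w 1) ^ l = w 1 ^ l := by
    rw [mul_pow, Q.e_pow]
    simp [Q.e_zero]
  have hYl : (Q.e b * w (-1)) ^ l = w (-1) ^ l := by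
    rw [mul_pow, Q.e_pow]
    simp [Q.e_zero]
  have h1 := hw 1 one_ne_zero
  have h2 := hw (-1) hm1
  rw [← hXl] at h1
  rw [← hYl] at h2
  have h3 := Q.e_neg_mul 1
  have h4 : Q.e 1 * C + Q.conj C = (1 + Q.e 1) * η * (Q.e b * w (-1)) ^ l := by
    linear_combination Q.e 1 * h2 + (-Q.conj C + η * (Q.e b * w (-1)) ^ l) * h3
  refine ⟨Q.e a * w 1, Q.e b * w (-1), ha, hb, ?_, ?_, ?_, ?_⟩
  · have h5 := Q.coprime_pair hCC hlam (neg_ne Q (one_ne_zero (α := ZMod l)))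
    rw [h1, h2] at h5
    have h6 := h5.of_isCoprime_of_dvd_left (Dvd.intro_left _ rfl)
    have h7 := h6.of_isCoprime_of_dvd_right (Dvd.intro_left _ rfl)
    exact (IsCoprime.pow_iff hlp.out.pos hlp.out.pos).mp h7
  · have key : ∀ x : R, Q.lam ∣ x ^ l - x := by
      intro x
      obtain ⟨m, hm1, hm2⟩ := Q.pow_l_int x
      have e : x ^ l - x = (x ^ l - m) - (x - m) := by ring
      rw [e]
      exact dvd_sub (Q.lam_dvd_l.trans hm1) hm2
    have h5 : Q.lam ∣ (1 + Q.e 1) * (η : R) * ((Q.e a * w 1) ^ l - (Q.e b * w (-1)) ^ l) := by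
      have e : (1 + Q.e 1) * (η : R) * ((Q.e a * w 1) ^ l - (Q.e b * w (-1)) ^ l)
        = (C - Q.conj C) * (1 - Q.e 1) := by
        rw [mul_sub, ← h1, ← h4]; ring
      rw [e]
      exact (Q.lam_dvd_one_sub_e 1).mul_left _
    have hu : IsUnit ((1 + Q.e 1) * (η : R)) :=
      (Q.isUnit_one_add one_ne_zero).mul η.isUnit
    have h6 : Q.lam ∣ (Q.e a * w 1) ^ l - (Q.e b * w (-1)) ^ l :=
      (hu.dvd_mul_left).mp h5
    have e : Q.e a * w 1 - Q.e b * w (-1) = ((Q.e a * w 1) ^ l - (Q.e b * w (-1)) ^ l)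
      - ((Q.e a * w 1) ^ l - Q.e a * w 1) + ((Q.e b * w (-1)) ^ l - Q.e b * w (-1)) := by ring
    rw [e]
    exact dvd_add (dvd_sub h6 (key _)) (key _)
  · intro h
    apply not_dvd_add_e Q hlam 1
    rw [h1]
    exact (dvd_pow h hl0).mul_left _
  · have h5 : (Q.e a * w 1) ^ l + (Q.e b * w (-1)) ^ l = p ^ s * w 0 ^ l := by
      have hu : (1 + Q.e 1) * (η : R) ≠ 0 :=
        mul_ne_zero (Q.isUnit_one_add one_ne_zero).ne_zero η.ne_zero
      apply mul_left_cancel₀ hu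
      linear_combination -h1 - h4 + (1 + Q.e 1) * hw0
    rw [h5, Ideal.span_singleton_pow, Ideal.span_singleton_pow,
      Ideal.span_singleton_mul_span_singleton]

/-- the case that `C` is a unit -/
private theorem unit_case (Q : Cyc l R) {p s : ℕ} (hp : p.Prime) (hp2' : p ≠ 2) (hs : s ≠ 0)
    {X Y C : R} {J : Ideal R} {η : Rˣ} (hX : Q.conj X = X) (hY : Q.conj Y = Y)
    (hη : Q.conj (η : R) = η) (hXY : IsCoprime X Y)
    (h : Ideal.span {X ^ l + Y ^ l} = Ideal.span {(p : R)} ^ s * J ^ l)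
    (hC : X + Q.e 1 * Y = (1 + Q.e 1) * η * C ^ l) (hlC : (l : R) ∣ C - Q.conj C)
    (hu : IsUnit C) : False := by
  obtain ⟨u, rfl⟩ := hu
  have h1 := Q.conj_unit hlC
  have h2 := conj_eq Q hX hY hη hC
  rw [h1] at h2
  have h3 : (X - Y) * (1 - Q.e 1) = 0 := by linear_combination hC - h2
  have h4 : (1 : R) - Q.e 1 ≠ 0 := fun h' => by
    have := Q.assoc_one_sub (one_ne_zero (α := ZMod l))
    rw [h', associated_zero_iff_eq_zero] at this
    exact Q.lam_ne_zero this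
  have h5 : X = Y := sub_eq_zero.mp ((mul_eq_zero.mp h3).resolve_right h4)
  subst h5
  have h6 : IsUnit X := isCoprime_self.mp hXY
  have h7 : (p : R) ∣ X ^ l + X ^ l := by
    rw [← Ideal.span_singleton_le_span_singleton, h]
    exact (Ideal.mul_le_left).trans (Ideal.pow_le_self hs)
  have h8 : (p : R) ∣ 2 := by
    rw [← two_mul] at h7
    exact (h6.pow l).dvd_mul_right.mp h7
  obtain ⟨t, ht⟩ := h8
  have h9 : Algebra.norm ℤ ((2 : ℤ) : R) = Algebra.norm ℤ ((p : ℤ) : R) * Algebra.norm ℤ t := by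
    rw [← map_mul]; congr 1; push_cast; exact ht
  rw [Q.norm_int, Q.norm_int] at h9
  have hl0 : l - 1 ≠ 0 := by have := Q.five_le; omega
  have h10 : (p : ℤ) ∣ 2 := Int.Prime.dvd_pow' hp
    ((dvd_pow_self (p : ℤ) hl0).trans (Dvd.intro _ h9.symm))
  have h11 : p ∣ 2 := by exact_mod_cast h10
  exact hp2' ((Nat.prime_dvd_prime_iff_eq hp Nat.prime_two).mp h11)

theorem descent (Q : Cyc l R)
    (hB : ∀ k : ℕ, 1 ≤ k → 2 * k ≤ l - 3 → ¬ (l : ℤ) ∣ (bernoulli (2 * k)).num)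
    {p s : ℕ} (hp : p.Prime) (hp2' : p ≠ 2) (hpl : p ≠ l) (hp1 : (p : ZMod l) ≠ 1)
    (hp2 : (p : ZMod (l ^ 2)) ^ (l - 1) ≠ 1) (hs : ¬ l ∣ s) (n : ℕ) :
    ∀ {X Y : R} {J : Ideal R}, Q.conj X = X → Q.conj Y = Y → IsCoprime X Y → Q.lam ∣ X - Y →
      ¬ Q.lam ∣ X → Ideal.span {X ^ l + Y ^ l} = Ideal.span {(p : R)} ^ s * J ^ l →
      Ideal.absNorm J = n → False := by
  have hs0 : s ≠ 0 := fun h => hs (h ▸ dvd_zero l)
  induction n using Nat.strong_induction_on with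
  | _ n ih =>
    intro X Y J hX hY hXY h1 h2 h hn
    have h3 := not_dvd_add Q h1 h2
    obtain ⟨S⟩ := exists_splitting Q hp hpl s hXY h3 h
    have h4 : (l : R) ∣ X - Y := real_congr Q hp hpl hp1 S hX hY h1 h2
    obtain ⟨η, w, hη, hw, hw0, hwJ⟩ := gh Q hp hpl hp1 hp2 hs S h4 (by rw [hX, sub_self]; simp) h2
    -- the elements `C_j`
    have hC0 : ∀ j : ZMod l, ∃ C : R, j ≠ 0 → (X + Q.e j * Y = (1 + Q.e j) * η * C ^ l ∧
        Q.lam ^ 2 ∣ C - Q.conj C ∧ Ideal.span {C} = Ideal.span {w j} ∧ IsCoprime C (Q.conj C) ∧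
        ¬ Q.lam ∣ C ∧ ¬ Q.lam ∣ C + Q.conj C ∧ Ideal.span {C ^ l + Q.conj C ^ l}
          = Ideal.span {(p : R)} ^ s * Ideal.span {w 0} ^ l) := by
      intro j
      by_cases hj : j = 0
      · exact ⟨0, fun h => absurd hj h⟩
      · obtain ⟨C, hC⟩ := half_step Q hX hY hη hXY h3 hj (hw j hj) hw0
        exact ⟨C, fun _ => hC⟩
    choose C hC using hC0
    have hS : ∀ j : ZMod l, j ≠ 0 →
        Nonempty (Splitting Q p s (C j) (Q.conj (C j)) (Ideal.span {w 0})) := by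
      intro j hj
      obtain ⟨-, -, -, c4, -, c6, c7⟩ := hC j hj
      exact exists_splitting Q hp hpl s c4 c6 c7
    have hcore := core_nt Q hB hp hpl hp1 hp2 hs hX hY hη h2 h4 C (Ideal.span {w 0})
      (fun j hj => (hC j hj).1) (fun j hj => (hC j hj).2.1) (fun j hj => (hS j hj).some)
    have hl1 := hcore 1 one_ne_zero
    obtain ⟨c1, c2, c3, c4, c5, c6, c7⟩ := hC 1 one_ne_zero
    obtain ⟨S1⟩ := hS 1 one_ne_zero
    -- the second half
    obtain ⟨η', w', hη', hw', hw0', hwJ'⟩ := gh Q hp hpl hp1 hp2 hs S1 hl1 hl1 c5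
    obtain ⟨X', Y', d1, d2, d3, d4, d5, d6⟩ := half_step2 Q hη' c4 c6 hw' hw0'
    have hnu : ¬ IsUnit (C 1) := fun hu =>
      unit_case Q hp hp2' hs0 hX hY hη hXY h c1 hl1 hu
    refine ih (Ideal.absNorm (Ideal.span {w' 0})) ?_ d1 d2 d3 d4 d5 d6 rfl
    -- the norm decreases
    have hJ0 : J ≠ 0 := by
      rintro rfl
      apply h3
      rw [← Q.lam_dvd_pow_add]
      rw [zero_pow hlp.out.ne_zero, mul_zero, Ideal.zero_eq_bot,
        Ideal.span_singleton_eq_bot] at h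
      rw [h]; exact dvd_zero _
    have hpos : ∀ q, 0 < Ideal.absNorm (Ideal.span {w q}) := by
      intro q
      rw [Nat.pos_iff_ne_zero, Ne, Ideal.absNorm_eq_zero_iff]
      intro h0
      apply hJ0
      rw [← hwJ]
      exact prod_eq_zero (mem_univ q) h0
    have hw00 : Ideal.span {w 0} ≠ 0 := by
      intro h0
      have := hpos 0
      rw [h0] at this
      simp at this
    have hpos' : ∀ q, 0 < Ideal.absNorm (Ideal.span {w' q}) := by
      intro q
      rw [Nat.pos_iff_ne_zero, Ne, Ideal.absNorm_eq_zero_iff]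
      intro h0
      apply hw00
      rw [← hwJ']
      exact prod_eq_zero (mem_univ q) h0
    have hA : Ideal.absNorm (Ideal.span {w' 0}) ≤ Ideal.absNorm (Ideal.span {w 0}) := by
      rw [← hwJ', map_prod]
      exact Nat.le_of_dvd (prod_pos (fun q _ => hpos' q)) (dvd_prod_of_mem _ (mem_univ 0))
    have hB' : Ideal.absNorm (Ideal.span {w 0}) * Ideal.absNorm (Ideal.span {w 1}) ≤ n := by
      rw [← hn, ← hwJ, map_prod]
      refine Nat.le_of_dvd (prod_pos (fun q _ => hpos q)) ?_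
      rw [← prod_pair (f := fun q => Ideal.absNorm (Ideal.span {w q}))
        (zero_ne_one (α := ZMod l))]
      exact prod_dvd_prod_of_subset _ _ _ (subset_univ _)
    have hC1 : 2 ≤ Ideal.absNorm (Ideal.span {w 1}) := by
      by_contra hlt
      have h1' : Ideal.absNorm (Ideal.span {w 1}) = 1 := by have := hpos 1; omega
      rw [Ideal.absNorm_eq_one_iff, ← c3, Ideal.span_singleton_eq_top] at h1'
      exact hnu h1'
    have := hpos 0
    nlinarith

end AER
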