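import Mathlib

/-!
MP_aeefb1_nt: the exponent `11` is regular.
-/

open NumberField

namespace AER

private theorem eleven_prime_pow {p f : ℕ} (hp : p.Prime) (hf : f ≠ 0) (h : p ^ f % 11 = 1)
    (hle : p ^ f ≤ 59) : p = 23 := by
  have h1 : 1 < p ^ f := Nat.one_lt_pow hf hp.one_lt
  have key : ∀ q : ℕ, q.Prime → q ∣ p ^ f → q = p := fun q hq hd =>
    (Nat.prime_dvd_prime_iff_eq hq hp).1 (hq.dvd_of_dvd_pow hd)
  have hcases : p ^ f = 12 ∨ p ^ f = 23 ∨ p ^ f = 34 ∨ p ^ f = 45 ∨ p ^ f = 56 := by omega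
  rcases hcases with h2 | h2 | h2 | h2 | h2
  · have a := key 2 (by norm_num) (by rw [h2]; norm_num)
    have b := key 3 (by norm_num) (by rw [h2]; norm_num)
    omega
  · exact (key 23 (by norm_num) (by rw [h2])).symm
  · have a := key 2 (by norm_num) (by rw [h2]; norm_num)
    have b := key 17 (by norm_num) (by rw [h2]; norm_num)
    omega
  · have a := key 3 (by norm_num) (by rw [h2]; norm_num)
    have b := key 5 (by norm_num) (by rw [h2]; norm_num)
    omega
  · have a := key 2 (by norm_num) (by rw [h2]; norm_num)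
    have b := key 7 (by norm_num) (by rw [h2]; norm_num)
    omega

open InfinitePlace Real Nat in
private theorem eleven_minkowski (K : Type) [Field K] [NumberField K]
    [IsCyclotomicExtension {11} ℚ K] :
    ⌊(4 / π) ^ nrComplexPlaces K *
      ((Module.finrank ℚ K)! / (Module.finrank ℚ K) ^ (Module.finrank ℚ K) * √|discr K|)⌋₊ ≤ 59 := by
  have : Fact (Nat.Prime 11) := ⟨by norm_num⟩
  rw [← Nat.lt_succ_iff, Nat.floor_lt (by positivity), IsCyclotomicExtension.Rat.discr_prime 11 K,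
    IsCyclotomicExtension.finrank (n := 11) K (Polynomial.cyclotomic.irreducible_rat (by simp)),
    IsCyclotomicExtension.Rat.nrComplexPlaces_eq_totient_div_two 11,
    totient_prime (by norm_num : Nat.Prime 11)]
  have h1 : √(|(((-1) ^ ((11 - 1) / 2) * (11 : ℕ) ^ (11 - 2) : ℤ) : ℝ)|) ≤ 48560 := by
    rw [Real.sqrt_le_left (by norm_num)]
    norm_num
  have h2 : (4 / π) ^ ((11 - 1) / 2) ≤ (4 / 3.14 : ℝ) ^ 5 := by
    have h3 : (4 / π) ≤ 4 / 3.14 := by
      apply div_le_div_of_nonneg_left (by norm_num) (by norm_num) pi_gt_d2.le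
    exact pow_le_pow_left₀ (by positivity) h3 5
  have h3 : ((11 - 1)! : ℝ) / ((11 - 1 : ℕ) : ℝ) ^ (11 - 1) = 3628800 / 10000000000 := by
    norm_num [Nat.factorial]
  rw [h3]
  have h5 : (4 / π) ^ ((11 - 1) / 2) *
      (3628800 / 10000000000 * √(|(((-1) ^ ((11 - 1) / 2) * (11 : ℕ) ^ (11 - 2) : ℤ) : ℝ)|))
      ≤ (4 / 3.14 : ℝ) ^ 5 * (3628800 / 10000000000 * 48560) := by gcongr
  refine lt_of_le_of_lt h5 ?_
  norm_num

private theorem eleven_root : ∀ r : ZMod 23, r ^ 11 = 1 → r ≠ 1 →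
    ∃ a : Fin 11, (a : ℕ) ≠ 0 ∧ r ^ (a : ℕ) = 13 := by
  decide

private theorem eleven_ord23 : orderOf ((23 : ℕ) : ZMod 11) = 1 := by
  rw [orderOf_eq_one_iff]
  decide

/-- the primes over `23` are principal -/
private theorem eleven_over_23 (K : Type) [Field K] [NumberField K]
    [IsCyclotomicExtension {11} ℚ K] (P : Ideal (𝓞 K)) [hP : P.IsPrime]
    [hP2 : P.LiesOver (Ideal.span {((23 : ℕ) : ℤ)})] : Submodule.IsPrincipal P := by
  have f11 : Fact (Nat.Prime 11) := ⟨by norm_num⟩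
  have f23 : Fact (Nat.Prime 23) := ⟨by norm_num⟩
  have hζ := IsCyclotomicExtension.zeta_spec 11 ℚ K
  -- integers in `P`
  have hint : ∀ n : ℤ, (n : 𝓞 K) ∈ P ↔ (23 : ℤ) ∣ n := by
    intro n
    have h1 := hP2.over
    rw [← Ideal.mem_span_singleton, show (23 : ℤ) = ((23 : ℕ) : ℤ) from rfl, h1]
    exact Iff.rfl
  -- the residue field has 23 elements
  have hcard : Nat.card (𝓞 K ⧸ P) = 23 := by
    have h1 : P.inertiaDeg ℤ = orderOf ((23 : ℕ) : ZMod 11) :=
      IsCyclotomicExtension.Rat.inertiaDeg_eq_of_not_dvd 23 K P (by norm_num)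
    have h3 := Ideal.pow_inertiaDeg 23 P
    rw [h1, eleven_ord23, pow_one] at h3
    rw [h3, Ideal.absNorm_apply, Submodule.cardQuot_apply]
  have hres : ∀ x : 𝓞 K, ∃ r : ℤ, x - r ∈ P := by
    intro x
    have h1 : (Ideal.Quotient.mk P x) ∈ AddSubgroup.zmultiples (1 : 𝓞 K ⧸ P) :=
      mem_zmultiples_of_prime_card hcard one_ne_zero
    obtain ⟨r, hr⟩ := h1
    refine ⟨r, ?_⟩
    rw [← Ideal.Quotient.eq_zero_iff_mem, map_sub, ← hr, map_intCast]
    simp
  obtain ⟨r, hr⟩ := hres hζ.toInteger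
  have hprim : IsPrimitiveRoot hζ.toInteger 11 := hζ.toInteger_isPrimitiveRoot
  set ζ : 𝓞 K := hζ.toInteger with hζdef
  have hpowP : ∀ n : ℕ, ζ ^ n - (r : 𝓞 K) ^ n ∈ P := fun n =>
    P.mem_of_dvd (sub_dvd_pow_sub_pow ζ (r : 𝓞 K) n) hr
  have hr11 : (r : ZMod 23) ^ 11 = 1 := by
    have h1 : ((1 - r ^ 11 : ℤ) : 𝓞 K) ∈ P := by
      have h2 := hpowP 11
      rw [hprim.pow_eq_one] at h2
      push_cast
      exact h2
    have h3 := (ZMod.intCast_zmod_eq_zero_iff_dvd _ 23).2 ((hint _).1 h1)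
    push_cast at h3
    linear_combination -h3
  have hr1 : (r : ZMod 23) ≠ 1 := by
    intro h
    have h1 : (23 : ℤ) ∣ r - 1 := by
      have h2 : ((r - 1 : ℤ) : ZMod 23) = 0 := by
        push_cast
        rw [h, sub_self]
      exact (ZMod.intCast_zmod_eq_zero_iff_dvd _ 23).1 h2
    have h2 := (hint _).2 h1
    have h3 : ζ - 1 ∈ P := by
      have e : ζ - 1 = (ζ - r) + ((r - 1 : ℤ) : 𝓞 K) := by push_cast; ring
      rw [e]
      exact P.add_mem hr h2
    have h4 : ∑ i ∈ Finset.range 11, ζ ^ i = 0 := hprim.geom_sum_eq_zero (by norm_num)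
    have h5 : ((11 : ℤ) : 𝓞 K) ∈ P := by
      have e : ((11 : ℤ) : 𝓞 K) = -(∑ i ∈ Finset.range 11, (ζ ^ i - 1)) := by
        rw [Finset.sum_sub_distrib, h4]
        simp
      rw [e]
      refine P.neg_mem (P.sum_mem fun i _ => P.mem_of_dvd ?_ h3)
      have := sub_dvd_pow_sub_pow ζ 1 i
      rwa [one_pow] at this
    have h6 := (hint _).1 h5
    norm_num at h6
  obtain ⟨a, ha0, ha⟩ := eleven_root _ hr11 hr1
  have hcop : Nat.Coprime (a : ℕ) 11 := by
    rw [Nat.coprime_comm, Nat.Prime.coprime_iff_not_dvd (by norm_num)]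
    intro h
    have := Nat.le_of_dvd (Nat.pos_of_ne_zero ha0) h
    have := a.isLt
    omega
  have hz : IsPrimitiveRoot ((IsCyclotomicExtension.zeta 11 ℚ K) ^ (a : ℕ)) 11 :=
    hζ.pow_of_coprime _ hcop
  have hzz : hz.toInteger = ζ ^ (a : ℕ) := by
    apply RingOfIntegers.ext
    rw [hζdef]
    simp
  have hΦ : ∑ i ∈ Finset.range 11, hz.toInteger ^ i = 0 :=
    hz.toInteger_isPrimitiveRoot.geom_sum_eq_zero (by norm_num)
  have hzP : hz.toInteger - 13 ∈ P := by
    have h1 : (23 : ℤ) ∣ r ^ (a : ℕ) - 13 := by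
      have h2 : ((r ^ (a : ℕ) - 13 : ℤ) : ZMod 23) = 0 := by
        push_cast
        rw [ha, sub_self]
      exact (ZMod.intCast_zmod_eq_zero_iff_dvd _ 23).1 h2
    have h2 := (hint _).2 h1
    have e : hz.toInteger - 13 = (ζ ^ (a : ℕ) - (r : 𝓞 K) ^ (a : ℕ)) +
        ((r ^ (a : ℕ) - 13 : ℤ) : 𝓞 K) := by
      rw [hzz]
      push_cast
      ring
    rw [e]
    exact P.add_mem (hpowP _) h2
  have htop := IsCyclotomicExtension.Rat.adjoin_singleton_eq_top hz
  set z : 𝓞 K := hz.toInteger with hzdef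
  simp only [Finset.sum_range_succ, Finset.sum_range_zero] at hΦ
  set α : 𝓞 K := 1 - z + z ^ 3 with hα
  have h23P : ((23 : ℤ) : 𝓞 K) ∈ P := (hint _).2 dvd_rfl
  have hαP : α ∈ P := by
    have e : α = (z - 13) * (z ^ 2 + 13 * z + 168) + ((23 : ℤ) : 𝓞 K) * 95 := by
      rw [hα]; push_cast; ring
    rw [e]
    exact P.add_mem (P.mul_mem_right _ hzP) (P.mul_mem_right _ h23P)
  have h23 : α ∣ ((23 : ℤ) : 𝓞 K) := by
    refine ⟨8 - 2 * z - z ^ 2 - 8 * z ^ 3 - 5 * z ^ 4 - 3 * z ^ 5 + 6 * z ^ 6 + 12 * z ^ 7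
      + 16 * z ^ 8 + 11 * z ^ 9, ?_⟩
    rw [hα]
    push_cast
    linear_combination (15 - 5 * z - 11 * z ^ 2) * hΦ
  have hz13 : α ∣ z - 13 := by
    refine ⟨-5 + z + 4 * z ^ 3 + 2 * z ^ 4 + z ^ 5 - 4 * z ^ 6 - 7 * z ^ 7 - 9 * z ^ 8
      - 6 * z ^ 9, ?_⟩
    rw [hα]
    linear_combination (-8 + 3 * z + 6 * z ^ 2) * hΦ
  refine ⟨⟨α, le_antisymm ?_ ?_⟩⟩
  · intro x hx
    rw [Ideal.submodule_span_eq, Ideal.mem_span_singleton]
    have hx2 : x ∈ Algebra.adjoin ℤ {z} := by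
      rw [htop]
      trivial
    rw [Algebra.adjoin_singleton_eq_range_aeval] at hx2
    obtain ⟨f, rfl⟩ := hx2
    have h1 := Polynomial.sub_dvd_eval_sub z (((13 : ℤ) : 𝓞 K)) (f.map (Int.castRingHom (𝓞 K)))
    rw [Polynomial.eval_intCast_map, Polynomial.eval_map, Int.cast_ofNat] at h1
    have h2 : α ∣ (Polynomial.eval₂ (Int.castRingHom (𝓞 K)) z f) - ((f.eval 13 : ℤ) : 𝓞 K) :=
      hz13.trans h1
    have h3 : (Polynomial.eval₂ (Int.castRingHom (𝓞 K)) z f) = Polynomial.aeval z f := rfl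
    rw [h3] at h2
    have h4 : ((f.eval 13 : ℤ) : 𝓞 K) ∈ P := by
      have e : ((f.eval 13 : ℤ) : 𝓞 K) = Polynomial.aeval z f -
          (Polynomial.aeval z f - ((f.eval 13 : ℤ) : 𝓞 K)) := by ring
      rw [e]
      exact P.sub_mem hx (P.mem_of_dvd h2 hαP)
    obtain ⟨m, hm⟩ := (hint _).1 h4
    have e : Polynomial.aeval z f = (Polynomial.aeval z f - ((f.eval 13 : ℤ) : 𝓞 K)) +
        ((23 : ℤ) : 𝓞 K) * (m : 𝓞 K) := by
      rw [hm]
      push_cast
      ring
    change α ∣ Polynomial.aeval z f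
    rw [e]
    exact dvd_add h2 (h23.mul_right _)
  · rw [Ideal.submodule_span_eq, Ideal.span_singleton_le_iff_mem]
    exact hαP

/-- `ℤ[ζ₁₁]` is a principal ideal domain. -/
theorem eleven_pid (K : Type) [Field K] [NumberField K] [IsCyclotomicExtension {11} ℚ K] :
    IsPrincipalIdealRing (𝓞 K) := by
  apply RingOfIntegers.isPrincipalIdealRing_of_isPrincipal_of_pow_le_of_mem_primesOver_of_mem_Icc
  intro p hp hpp P hP hle
  have hM := eleven_minkowski K
  have hle2 := hle.trans hM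
  obtain ⟨hP1, hP2⟩ := hP
  have f11 : Fact (Nat.Prime 11) := ⟨by norm_num⟩
  have fp : Fact p.Prime := ⟨hpp⟩
  by_cases h11 : p = 11
  · subst h11
    have h1 := IsCyclotomicExtension.Rat.eq_span_zeta_sub_one_of_liesOver' 11 K
      (IsCyclotomicExtension.zeta_spec 11 ℚ K) P
    rw [h1]
    exact ⟨⟨_, rfl⟩⟩
  have hnd : ¬ p ∣ 11 := fun h => h11 ((Nat.prime_dvd_prime_iff_eq hpp (by norm_num)).1 h)
  have hdeg : P.inertiaDeg ℤ = orderOf (p : ZMod 11) :=
    IsCyclotomicExtension.Rat.inertiaDeg_eq_of_not_dvd p K P hnd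
  rw [hdeg] at hle2
  have hp0 : (p : ZMod 11) ≠ 0 := by
    rw [Ne, ZMod.natCast_eq_zero_iff]
    intro h
    exact h11 ((Nat.prime_dvd_prime_iff_eq (by norm_num) hpp).1 h).symm
  have hord : orderOf (p : ZMod 11) ≠ 0 := by
    rw [← Nat.pos_iff_ne_zero, orderOf_pos_iff, isOfFinOrder_iff_pow_eq_one]
    exact ⟨10, by norm_num, ZMod.pow_card_sub_one_eq_one hp0⟩
  have hmod : p ^ orderOf (p : ZMod 11) % 11 = 1 := by
    have h1 : ((p ^ orderOf (p : ZMod 11) : ℕ) : ZMod 11) = ((1 : ℕ) : ZMod 11) := by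
      push_cast
      exact pow_orderOf_eq_one _
    rw [ZMod.natCast_eq_natCast_iff'] at h1
    exact h1
  have h23 := eleven_prime_pow hpp hord hmod hle2
  subst h23
  exact eleven_over_23 K P

theorem eleven_classNumber : ¬ 11 ∣ classNumber (CyclotomicField 11 ℚ) := by
  have : IsCyclotomicExtension {11} ℚ (CyclotomicField 11 ℚ) :=
    CyclotomicField.isCyclotomicExtension 11 ℚ
  have h := eleven_pid (CyclotomicField 11 ℚ)
  rw [(classNumber_eq_one_iff (K := CyclotomicField 11 ℚ)).mpr h]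
  norm_num

private theorem eleven_b5 : bernoulli' 5 = 0 := bernoulli'_eq_zero_of_odd (by decide) (by norm_num)

private theorem eleven_b7 : bernoulli' 7 = 0 := bernoulli'_eq_zero_of_odd (by decide) (by norm_num)

private theorem eleven_b6 : bernoulli' 6 = 1 / 42 := by
  rw [bernoulli'_def]
  norm_num [Finset.sum_range_succ, eleven_b5, Nat.choose]

private theorem eleven_b8 : bernoulli' 8 = -1 / 30 := by
  rw [bernoulli'_def]
  norm_num [Finset.sum_range_succ, eleven_b5, eleven_b6, eleven_b7, Nat.choose]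

theorem eleven_bernoulli (k : ℕ) (h1 : 1 ≤ k) (h2 : 2 * k ≤ 11 - 3) :
    ¬ ((11 : ℕ) : ℤ) ∣ (bernoulli (2 * k)).num := by
  have hk : k = 1 ∨ k = 2 ∨ k = 3 ∨ k = 4 := by omega
  rcases hk with rfl | rfl | rfl | rfl
  · have h : bernoulli (2 * 1) = 1 / 6 := by
      rw [bernoulli_eq_bernoulli'_of_ne_one (by norm_num), mul_one, bernoulli'_two]
    rw [h]
    norm_num
  · have h : bernoulli (2 * 2) = -1 / 30 := by
      rw [bernoulli_eq_bernoulli'_of_ne_one (by norm_num)]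
      exact bernoulli'_four
    rw [h]
    norm_num
  · have h : bernoulli (2 * 3) = 1 / 42 := by
      rw [bernoulli_eq_bernoulli'_of_ne_one (by norm_num)]
      exact eleven_b6
    rw [h]
    norm_num
  · have h : bernoulli (2 * 4) = -1 / 30 := by
      rw [bernoulli_eq_bernoulli'_of_ne_one (by norm_num)]
      exact eleven_b8
    rw [h]
    norm_num

end AER
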