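import Mathlib

/-!
MP_aeefb1_nt: from `A + B = C`, `A B C = D ^ l`, `gcd = p ^ k` to a Fermat type equation.
-/

namespace AER

private theorem Elim_unique {p i j x y : ℕ} (hp : p.Prime) (hx : ¬ p ∣ x) (hy : ¬ p ∣ y)
    (h : p ^ i * x = p ^ j * y) : i = j ∧ x = y := by
  have hp0 : 0 < p := hp.pos
  have key : ∀ i j x y : ℕ, ¬ p ∣ x → p ^ i * x = p ^ j * y → j ≤ i := by
    intro i j x y hx h
    by_contra hlt
    push Not at hlt
    obtain ⟨t, rfl⟩ := Nat.exists_eq_add_of_lt hlt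
    have h1 : p ^ (i + t + 1) * y = p ^ i * (p * (p ^ t * y)) := by ring
    rw [h1] at h
    have h2 := Nat.eq_of_mul_eq_mul_left (pow_pos hp0 i) h
    exact hx ⟨_, h2⟩
  have hij : i = j := le_antisymm (key j i y x hy h.symm) (key i j x y hx h)
  subst hij
  exact ⟨rfl, Nat.eq_of_mul_eq_mul_left (pow_pos hp0 i) h⟩

private theorem Elim_three {l a b c E : ℕ} (hab : Nat.Coprime a b) (hac : Nat.Coprime a c)
    (hbc : Nat.Coprime b c) (h : a * b * c = E ^ l) :
    ∃ x y z : ℕ, a = x ^ l ∧ b = y ^ l ∧ c = z ^ l := by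
  have h1 : Nat.Coprime (a * b) c := Nat.Coprime.mul_left hac hbc
  have u1 : IsUnit (gcd (a * b) c) := by
    rw [Nat.isUnit_iff]
    exact h1
  have u1' : IsUnit (gcd c (a * b)) := by
    rw [Nat.isUnit_iff]
    exact h1.symm
  have u2 : IsUnit (gcd a b) := by
    rw [Nat.isUnit_iff]
    exact hab
  have u2' : IsUnit (gcd b a) := by
    rw [Nat.isUnit_iff]
    exact hab.symm
  obtain ⟨w, hw⟩ := exists_eq_pow_of_mul_eq_pow u1 h
  obtain ⟨z, hz⟩ := exists_eq_pow_of_mul_eq_pow u1' (by rw [mul_comm]; exact h)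
  obtain ⟨x, hx⟩ := exists_eq_pow_of_mul_eq_pow u2 hw
  obtain ⟨y, hy⟩ := exists_eq_pow_of_mul_eq_pow u2' (by rw [mul_comm]; exact hw)
  exact ⟨x, y, z, hx, hy, hz⟩

private theorem Elim_core {l p v a b c m E : ℕ} (hp : p.Prime) (hc0 : c ≠ 0) (hab : Nat.Coprime a b)
    (hac : Nat.Coprime a c) (hbc : Nat.Coprime b c) (hpc : p ∣ c) (hm : ¬ p ∣ m)
    (h : a * b * c = p ^ v * m) (hE : m = E ^ l) :
    ∃ x y z : ℕ, a = x ^ l ∧ b = y ^ l ∧ c = p ^ v * z ^ l := by
  obtain ⟨n, c', hc', hcc⟩ := Nat.exists_eq_pow_mul_and_not_dvd hc0 p hp.ne_one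
  have hpa : ¬ p ∣ a := fun h => by
    have := Nat.dvd_gcd h hpc
    rw [hac] at this
    exact hp.one_lt.ne' (Nat.dvd_one.1 this)
  have hpb : ¬ p ∣ b := fun h => by
    have := Nat.dvd_gcd h hpc
    rw [hbc] at this
    exact hp.one_lt.ne' (Nat.dvd_one.1 this)
  have hd : ¬ p ∣ a * b * c' := by
    intro h
    rcases (hp.dvd_mul).1 h with h | h
    · rcases (hp.dvd_mul).1 h with h | h
      · exact hpa h
      · exact hpb h
    · exact hc' h
  have he : p ^ n * (a * b * c') = p ^ v * m := by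
    rw [← h, hcc]
    ring
  obtain ⟨rfl, h2⟩ := Elim_unique hp hd hm he
  rw [hE] at h2
  have hdvd : c' ∣ c := ⟨p ^ n, by rw [hcc]; ring⟩
  obtain ⟨x, y, z, hx, hy, hz⟩ := Elim_three hab (hac.coprime_dvd_right hdvd)
    (hbc.coprime_dvd_right hdvd) h2
  exact ⟨x, y, z, hx, hy, by rw [hcc, hz]⟩

private theorem Elim_cop {l x y : ℕ} (hl : l ≠ 0) (h : Nat.Coprime (x ^ l) (y ^ l)) :
    IsCoprime (x : ℤ) (y : ℤ) := by
  rw [Nat.isCoprime_iff_coprime]
  exact (h.coprime_dvd_left (dvd_pow_self x hl)).coprime_dvd_right (dvd_pow_self y hl)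

/-- Proof.  `A = p^k a`, `B = p^k b`, `C = p^k c`, `a + b = c`, `a`, `b`, `c` pairwise coprime and
`p ^ (3 k) a b c = D ^ l`.  Let `e = ⌈3 k / l⌉`, `s = l e - 3 k < l`; `p ^ e ∣ D` (valuation at
`p`), `D = p^e D'` and `a b c = p ^ s D' ^ l`.  As `a`, `b`, `c` are pairwise coprime at most one
of them is divisible by `p`, and by unique factorisation two of them are `l`-th powers and the
third one is `p ^ s` times an `l`-th power.  If the third one is `c`: `x^l + y^l = p^s z^l`; if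
it is `a`: `c + (- b) = a`, `x^l + (-y)^l = p^s z^l` (`l` odd).  If `l ∣ s` (then `s = 0`) it is
the first alternative. -/
theorem elim_main {l : ℕ} (hl : l.Prime) (hl5 : 5 ≤ l) {p k A B C D : ℕ} (hp : p.Prime)
    (hA : 0 < A) (hB : 0 < B) (h1 : A + B = C) (h2 : A * B * C = D ^ l)
    (h3 : Nat.gcd A (Nat.gcd B C) = p ^ k) :
    (∃ x y z : ℤ, IsCoprime x y ∧ x ≠ 0 ∧ y ≠ 0 ∧ z ≠ 0 ∧ x ^ l + y ^ l = z ^ l) ∨
    (∃ (x y z : ℤ) (s : ℕ), ¬ l ∣ s ∧ IsCoprime x y ∧ z ≠ 0 ∧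
      x ^ l + y ^ l = (p : ℤ) ^ s * z ^ l) := by
  have hl0 : l ≠ 0 := hl.ne_zero
  have hlodd : Odd l := hl.odd_of_ne_two (by omega)
  have hpk : 0 < p ^ k := pow_pos hp.pos k
  obtain ⟨a, ha⟩ : p ^ k ∣ A := by
    rw [← h3]
    exact Nat.gcd_dvd_left _ _
  obtain ⟨b, hb⟩ : p ^ k ∣ B := by
    rw [← h3]
    exact (Nat.gcd_dvd_right _ _).trans (Nat.gcd_dvd_left _ _)
  obtain ⟨c, hc⟩ : p ^ k ∣ C := by
    rw [← h3]
    exact (Nat.gcd_dvd_right _ _).trans (Nat.gcd_dvd_right _ _)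
  have habc : a + b = c := by
    rw [ha, hb, hc, ← mul_add] at h1
    exact Nat.eq_of_mul_eq_mul_left hpk h1
  have hg : Nat.gcd a (Nat.gcd b c) = 1 := by
    rw [ha, hb, hc, Nat.gcd_mul_left, Nat.gcd_mul_left] at h3
    exact Nat.eq_of_mul_eq_mul_left hpk (by rw [h3, mul_one])
  have ha0 : a ≠ 0 := by
    rintro rfl
    omega
  have hb0 : b ≠ 0 := by
    rintro rfl
    omega
  have hc0 : c ≠ 0 := by omega
  have hab : Nat.Coprime a b := by
    have h4 : Nat.gcd a b ∣ Nat.gcd a (Nat.gcd b c) := by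
      refine Nat.dvd_gcd (Nat.gcd_dvd_left _ _) (Nat.dvd_gcd (Nat.gcd_dvd_right _ _) ?_)
      rw [← habc]
      exact dvd_add (Nat.gcd_dvd_left _ _) (Nat.gcd_dvd_right _ _)
    rw [hg] at h4
    exact Nat.dvd_one.1 h4
  have hac : Nat.Coprime a c := by
    rw [← habc]
    simpa using hab
  have hbc : Nat.Coprime b c := by
    rw [← habc]
    simpa using hab.symm
  have habc0 : a * b * c ≠ 0 := mul_ne_zero (mul_ne_zero ha0 hb0) hc0
  have hD : p ^ (3 * k) * (a * b * c) = D ^ l := by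
    rw [← h2, ha, hb, hc]
    ring
  have hD0 : D ≠ 0 := by
    rintro rfl
    rw [zero_pow hl0] at hD
    exact mul_ne_zero (pow_pos hp.pos _).ne' habc0 hD
  obtain ⟨v, m, hm, hvm⟩ := Nat.exists_eq_pow_mul_and_not_dvd habc0 p hp.ne_one
  obtain ⟨w, E, hE, hwE⟩ := Nat.exists_eq_pow_mul_and_not_dvd hD0 p hp.ne_one
  have hEl : ¬ p ∣ E ^ l := fun h => hE (hp.dvd_of_dvd_pow h)
  have heq : p ^ (3 * k + v) * m = p ^ (w * l) * E ^ l := by
    rw [pow_add, mul_assoc, ← hvm, hD, hwE, mul_pow, pow_mul]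
  obtain ⟨-, hmE⟩ := Elim_unique hp hm hEl heq
  by_cases hlv : l ∣ v
  · left
    obtain ⟨t, rfl⟩ := hlv
    have h5 : a * b * c = (p ^ t * E) ^ l := by
      rw [hvm, hmE, mul_pow, ← pow_mul, mul_comm l t]
    obtain ⟨x, y, z, hx, hy, hz⟩ := Elim_three hab hac hbc h5
    refine ⟨x, y, z, ?_, ?_, ?_, ?_, ?_⟩
    · rw [hx, hy] at hab
      exact Elim_cop hl0 hab
    · rintro h
      apply ha0
      have : x = 0 := by exact_mod_cast h
      rw [hx, this, zero_pow hl0]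
    · rintro h
      apply hb0
      have : y = 0 := by exact_mod_cast h
      rw [hy, this, zero_pow hl0]
    · rintro h
      apply hc0
      have : z = 0 := by exact_mod_cast h
      rw [hz, this, zero_pow hl0]
    · rw [hx, hy, hz] at habc
      exact_mod_cast habc
  · right
    have hv0 : v ≠ 0 := by
      rintro rfl
      exact hlv (dvd_zero l)
    have hpd : p ∣ a * b * c := by
      rw [hvm]
      exact (dvd_pow_self p hv0).mul_right m
    have hneg : ∀ x : ℤ, (-x) ^ l = -(x ^ l) := fun x => hlodd.neg_pow x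
    have hz0 : ∀ n z : ℕ, n ≠ 0 → n = p ^ v * z ^ l → (z : ℤ) ≠ 0 := by
      intro n z hn h h'
      apply hn
      have : z = 0 := by exact_mod_cast h'
      rw [h, this, zero_pow hl0, mul_zero]
    rcases (hp.dvd_mul).1 hpd with hpd | hpd
    · rcases (hp.dvd_mul).1 hpd with hpd | hpd
      · obtain ⟨x, y, z, hx, hy, hz⟩ := Elim_core (a := b) (b := c) (c := a) hp ha0 hbc hab.symm
          hac.symm hpd hm (by rw [← hvm]; ring) hmE
        refine ⟨y, -x, z, v, hlv, ?_, hz0 a z ha0 hz, ?_⟩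
        · rw [hx, hy] at hbc
          exact (Elim_cop hl0 hbc).symm.neg_right
        · rw [hneg]
          have h6 : (x : ℤ) ^ l + (p : ℤ) ^ v * (z : ℤ) ^ l = (y : ℤ) ^ l := by
            rw [hx, hy, hz] at habc
            have : x ^ l + p ^ v * z ^ l = y ^ l := by rw [← habc]; ring
            exact_mod_cast this
          linarith
      · obtain ⟨x, y, z, hx, hy, hz⟩ := Elim_core (a := a) (b := c) (c := b) hp hb0 hac hab
          hbc.symm hpd hm (by rw [← hvm]; ring) hmE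
        refine ⟨y, -x, z, v, hlv, ?_, hz0 b z hb0 hz, ?_⟩
        · rw [hx, hy] at hac
          exact (Elim_cop hl0 hac).symm.neg_right
        · rw [hneg]
          have h6 : (x : ℤ) ^ l + (p : ℤ) ^ v * (z : ℤ) ^ l = (y : ℤ) ^ l := by
            rw [hx, hy, hz] at habc
            exact_mod_cast habc
          linarith
    · obtain ⟨x, y, z, hx, hy, hz⟩ := Elim_core hp hc0 hab hac hbc hpd hm hvm hmE
      refine ⟨x, y, z, v, hlv, ?_, hz0 c z hc0 hz, ?_⟩
      · rw [hx, hy] at hab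
        exact Elim_cop hl0 hab
      · rw [hx, hy, hz] at habc
        exact_mod_cast habc

end AER
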