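import Mathlib

/-!
MP_aeefb1_nt: the automorphisms, the norm and an integral basis of the cyclotomic field.
-/

open Finset NumberField

namespace AER

variable {l : ℕ} [hlp : Fact l.Prime] {K : Type} [Field K] [NumberField K]
  [IsCyclotomicExtension {l} ℚ K] {ζ : K} (hζ : IsPrimitiveRoot ζ l)

include hζ in
/-- The automorphisms.  (`IsCyclotomicExtension.autEquivPow`, `galEquivZMod`, restricted to
`𝓞 K` by `RingOfIntegers.mapRingHom` or similar, and `Algebra.norm_eq_prod_automorphisms`,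
`Algebra.coe_norm_int`.) -/
theorem inst_sigma : ∃ σ : ZMod l → 𝓞 K →+* 𝓞 K,
    (∀ a, a ≠ 0 → σ a hζ.toInteger = hζ.toInteger ^ a.val) ∧
    ∀ x, ((Algebra.norm ℤ x : ℤ) : 𝓞 K) = ∏ a ∈ univ.erase (0 : ZMod l), σ a x := by
  classical
  set g : (ZMod l)ˣ ≃* Gal(K/ℚ) := (IsCyclotomicExtension.Rat.galEquivZMod l K).symm with hg
  refine ⟨fun a => if h : a = 0 then RingHom.id _ else
    MulSemiringAction.toRingHom Gal(K/ℚ) (𝓞 K) (g (Units.mk0 a h)), ?_, ?_⟩
  · intro a ha
    simp only [dif_neg ha]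
    change g (Units.mk0 a ha) • hζ.toInteger = _
    rw [IsCyclotomicExtension.Rat.galEquivZMod_smul_of_pow_eq l K _
      hζ.toInteger_isPrimitiveRoot.pow_eq_one]
    have h1 : IsCyclotomicExtension.Rat.galEquivZMod l K (g (Units.mk0 a ha)) = Units.mk0 a ha := by
      rw [hg, MulEquiv.apply_symm_apply]
    rw [h1, Units.val_mk0]
  · intro x
    have : IsGalois ℚ K := IsCyclotomicExtension.isGalois {l} ℚ K
    apply FaithfulSMul.algebraMap_injective (𝓞 K) K
    rw [map_prod]
    have h1 : algebraMap (𝓞 K) K ((Algebra.norm ℤ x : ℤ) : 𝓞 K) =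
        algebraMap ℚ K (Algebra.norm ℚ (x : K)) := by
      rw [← Algebra.coe_norm_int]
      simp
    rw [h1, Algebra.norm_eq_prod_automorphisms]
    rw [← Equiv.prod_comp g.toEquiv]
    refine Finset.prod_bij (fun u _ => (u : ZMod l)) ?_ ?_ ?_ ?_
    · intro u _
      exact mem_erase.2 ⟨u.ne_zero, mem_univ _⟩
    · intro u _ v _ h
      exact Units.ext h
    · intro a ha
      exact ⟨Units.mk0 a (mem_erase.1 ha).1, mem_univ _, rfl⟩
    · intro u _
      beta_reduce
      rw [dif_neg u.ne_zero]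
      have h2 : Units.mk0 (u : ZMod l) u.ne_zero = u := Units.mk0_val u _
      rw [h2]
      rfl

include hζ in
/-- The powers of `ζ` span the ring of integers. -/
theorem inst_span (x : 𝓞 K) :
    ∃ v : ZMod l → ℤ, x = ∑ i, (v i : 𝓞 K) * hζ.toInteger ^ i.val := by
  obtain ⟨f, hf⟩ := hζ.integralPowerBasis.exists_eq_aeval' x
  have hmem : x ∈ Submodule.span ℤ (Set.range fun i : ZMod l => hζ.toInteger ^ i.val) := by
    rw [hf, IsPrimitiveRoot.integralPowerBasis_gen, Polynomial.aeval_eq_sum_range]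
    refine Submodule.sum_mem _ fun n _ => Submodule.smul_mem _ _
      (Submodule.subset_span ⟨(n : ZMod l), ?_⟩)
    simp only [ZMod.val_natCast]
    conv_rhs => rw [← Nat.div_add_mod n l, pow_add, pow_mul,
      hζ.toInteger_isPrimitiveRoot.pow_eq_one, one_pow, one_mul]
  obtain ⟨v, hv⟩ := (Submodule.mem_span_range_iff_exists_fun ℤ).1 hmem
  refine ⟨v, ?_⟩
  rw [← hv]
  exact Finset.sum_congr rfl fun i _ => zsmul_eq_mul _ _

end AER
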