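import Mathlib

/-!
MP_aeefb1_nt: positivity of the norm; a unit is a root of unity times a real unit.
-/

open Finset NumberField

namespace AER

variable {l : ℕ} [hlp : Fact l.Prime] {K : Type} [Field K] [NumberField K]
  [IsCyclotomicExtension {l} ℚ K] {ζ : K} (hζ : IsPrimitiveRoot ζ l)

include hlp hζ in
/-- No embedding is real. -/
private theorem inst2_conj_ne (h5 : 5 ≤ l) (φ : K →+* ℂ)
    (h : starRingEnd ℂ (φ ζ) = φ ζ) : False := by
  have h1 : (φ ζ) ^ l = 1 := by rw [← map_pow, hζ.pow_eq_one, map_one]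
  have h2 : ‖φ ζ‖ = 1 :=
    (isOfFinOrder_iff_pow_eq_one.2 ⟨l, hlp.out.pos, h1⟩).norm_eq_one
  have h3 : (φ ζ)⁻¹ = φ ζ := by rw [Complex.inv_eq_conj h2, h]
  have h0 : φ ζ ≠ 0 := by
    intro h0
    rw [h0, norm_zero] at h2
    exact zero_ne_one h2
  have h4 : φ ζ * φ ζ = 1 := by
    nth_rewrite 1 [← h3]
    exact inv_mul_cancel₀ h0
  have h5' : φ (ζ ^ 2) = φ 1 := by rw [map_pow, map_one, pow_two, h4]
  have h6 : ζ ^ 2 = 1 := φ.injective h5'
  have h7 := (hζ.pow_eq_one_iff_dvd 2).1 h6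
  have h8 := Nat.le_of_dvd (by norm_num) h7
  omega

/-- The complex conjugate of an embedding. -/
private noncomputable def inst2_tau (σ : K →ₐ[ℚ] ℂ) : K →ₐ[ℚ] ℂ :=
  ((Complex.conjAe.restrictScalars ℚ : ℂ ≃ₐ[ℚ] ℂ) : ℂ →ₐ[ℚ] ℂ).comp σ

private theorem inst2_tau_apply (σ : K →ₐ[ℚ] ℂ) (x : K) :
    inst2_tau σ x = starRingEnd ℂ (σ x) := rfl

include hlp hζ in
/-- The field has no real embedding, so norms are positive. -/
theorem inst_norm_pos (h5 : 5 ≤ l) (x : 𝓞 K) (hx : x ≠ 0) : 0 < Algebra.norm ℤ x := by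
  have hxK : (x : K) ≠ 0 := fun h => hx (RingOfIntegers.ext h)
  have hσ : ∀ σ : K →ₐ[ℚ] ℂ, σ (x : K) ≠ 0 := fun σ h =>
    hxK ((map_eq_zero σ).1 h)
  have h1 : ((Algebra.norm ℤ x : ℤ) : ℂ) = ∏ σ : K →ₐ[ℚ] ℂ, σ (x : K) := by
    rw [← Algebra.norm_eq_prod_embeddings ℚ ℂ (x : K), ← Algebra.coe_norm_int]
    simp
  have h2 : ∏ σ : K →ₐ[ℚ] ℂ, (σ (x : K) / ((‖σ (x : K)‖ : ℝ) : ℂ)) = 1 := by
    refine Finset.prod_involution (fun σ _ => inst2_tau σ) ?_ ?_ ?_ ?_
    · intro σ _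
      rw [inst2_tau_apply]
      have h3 : ((‖σ (x : K)‖ : ℝ) : ℂ) ≠ 0 := by
        rw [Complex.ofReal_ne_zero]
        exact norm_ne_zero_iff.2 (hσ σ)
      rw [RCLike.norm_conj, div_mul_div_comm, Complex.mul_conj, Complex.normSq_eq_norm_sq]
      push_cast
      rw [← pow_two]
      exact div_self (pow_ne_zero 2 h3)
    · intro σ _ _ h3
      apply inst2_conj_ne hζ h5 (σ : K →+* ℂ)
      have h4 := DFunLike.congr_fun h3 ζ
      rw [inst2_tau_apply] at h4
      exact h4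
    · intro σ _
      exact mem_univ _
    · intro σ _
      ext y
      rw [inst2_tau_apply, inst2_tau_apply, Complex.conj_conj]
  have h3 : ∏ σ : K →ₐ[ℚ] ℂ, σ (x : K) = ((∏ σ : K →ₐ[ℚ] ℂ, ‖σ (x : K)‖ : ℝ) : ℂ) := by
    rw [Finset.prod_div_distrib] at h2
    have h4 : (∏ σ : K →ₐ[ℚ] ℂ, ((‖σ (x : K)‖ : ℝ) : ℂ)) ≠ 0 := by
      rw [Finset.prod_ne_zero_iff]
      intro σ _
      rw [Complex.ofReal_ne_zero]
      exact norm_ne_zero_iff.2 (hσ σ)
    rw [div_eq_one_iff_eq h4] at h2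
    rw [h2]
    push_cast
    rfl
  have h4 : 0 < ∏ σ : K →ₐ[ℚ] ℂ, ‖σ (x : K)‖ :=
    Finset.prod_pos fun σ _ => norm_pos_iff.2 (hσ σ)
  rw [h3] at h1
  have h5' : ((Algebra.norm ℤ x : ℤ) : ℝ) = ∏ σ : K →ₐ[ℚ] ℂ, ‖σ (x : K)‖ := by
    exact_mod_cast h1
  rw [← h5'] at h4
  exact_mod_cast h4

include hlp in
/-- Two homomorphisms from the integers which agree on `z` agree. -/
private theorem inst2_ext {R : Type} [CommRing R] (f g : 𝓞 K →+* R)
    (h : f hζ.toInteger = g hζ.toInteger) : f = g := by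
  have h1 : f.toIntAlgHom = g.toIntAlgHom := by
    refine hζ.integralPowerBasis.algHom_ext ?_
    rw [hζ.integralPowerBasis_gen]
    exact h
  ext x
  exact DFunLike.congr_fun h1 x

include hlp in
private theorem inst2_not_dvd_two (h5 : 5 ≤ l) : ¬ (hζ.toInteger - 1) ∣ (2 : 𝓞 K) := by
  intro h
  have h1 := map_dvd (Algebra.norm ℤ) h
  rw [hζ.norm_toInteger_sub_one_of_prime_ne_two' (by omega)] at h1
  have h2 : Algebra.norm ℤ (2 : 𝓞 K) = 2 ^ Module.finrank ℤ (𝓞 K) := by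
    have := Algebra.norm_algebraMap (S := 𝓞 K) (2 : ℤ)
    simpa using this
  rw [h2] at h1
  have h3 : (l : ℤ) ∣ 2 := (Nat.prime_iff_prime_int.1 hlp.out).dvd_of_dvd_pow h1
  have h4 := Int.le_of_dvd (by norm_num) h3
  omega

include hlp in
/-- For a unit `u`, `u / conj u` is a root of unity (absolute value `1` everywhere:
`NumberField.Embeddings.pow_eq_one_of_norm_eq_one`, or the CM field file of Mathlib:
`NumberField.IsCMField.unitsMulComplexConjInv`), hence `± z ^ i`; the sign is `+` because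
`conj u ≡ u` modulo `1 - z`.  Here `c` is any ring endomorphism with `c z = z⁻¹`. -/
theorem inst_unit_real (h5 : 5 ≤ l) (c : 𝓞 K →+* 𝓞 K)
    (hc : c hζ.toInteger = hζ.toInteger ^ (-1 : ZMod l).val) (u : (𝓞 K)ˣ) :
    ∃ i : ℕ, c (hζ.toInteger ^ i * u) = hζ.toInteger ^ i * u := by
  have hzl : hζ.toInteger ^ l = 1 := hζ.toInteger_isPrimitiveRoot.pow_eq_one
  have hcz : hζ.toInteger * c hζ.toInteger = 1 := by
    rw [hc, ← pow_succ']
    have h1 : l ∣ (-1 : ZMod l).val + 1 := by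
      rw [← ZMod.natCast_eq_zero_iff]
      push_cast
      rw [ZMod.natCast_zmod_val]
      ring
    obtain ⟨t, ht⟩ := h1
    rw [ht, pow_mul, hzl, one_pow]
  -- `c` is the complex conjugation
  have hconj : ∀ (φ : K →+* ℂ) (y : 𝓞 K), φ (c y : K) = starRingEnd ℂ (φ (y : K)) := by
    intro φ y
    have h1 : (φ.comp (algebraMap (𝓞 K) K)).comp c =
        (starRingEnd ℂ).comp (φ.comp (algebraMap (𝓞 K) K)) := by
      apply inst2_ext hζ
      show φ (c hζ.toInteger : K) = starRingEnd ℂ (φ (hζ.toInteger : K))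
      have h2 : (φ ζ) ^ l = 1 := by rw [← map_pow, hζ.pow_eq_one, map_one]
      have h3 : ‖φ ζ‖ = 1 :=
        (isOfFinOrder_iff_pow_eq_one.2 ⟨l, hlp.out.pos, h2⟩).norm_eq_one
      have h4 : φ (algebraMap (𝓞 K) K (hζ.toInteger * c hζ.toInteger)) = 1 := by
        rw [hcz]; simp
      rw [← Complex.inv_eq_conj (show ‖φ (hζ.toInteger : K)‖ = 1 from h3)]
      rw [map_mul, map_mul] at h4
      exact eq_inv_of_mul_eq_one_right h4
    exact DFunLike.congr_fun h1 y
  -- `c` is trivial modulo `z - 1`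
  have hmod : ∀ y : 𝓞 K, (hζ.toInteger - 1) ∣ c y - y := by
    intro y
    have h1 : (Ideal.Quotient.mk (Ideal.span {hζ.toInteger - 1})).comp c =
        Ideal.Quotient.mk (Ideal.span {hζ.toInteger - 1}) := by
      apply inst2_ext hζ
      have h2 : Ideal.Quotient.mk (Ideal.span {hζ.toInteger - 1}) hζ.toInteger = 1 := by
        rw [← map_one (Ideal.Quotient.mk (Ideal.span {hζ.toInteger - 1})), Ideal.Quotient.eq]
        exact Ideal.mem_span_singleton_self _
      rw [RingHom.comp_apply, hc, map_pow, h2, one_pow]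
    have h2 := DFunLike.congr_fun h1 y
    rw [RingHom.comp_apply, Ideal.Quotient.eq] at h2
    exact Ideal.mem_span_singleton.1 h2
  -- the quotient
  set v : (𝓞 K)ˣ := u * (Units.map (c : 𝓞 K →* 𝓞 K) u)⁻¹ with hv
  have hvu : (v : 𝓞 K) * c u = u := by
    have h1 : v * Units.map (c : 𝓞 K →* 𝓞 K) u = u := by rw [hv]; group
    have h2 := congrArg (Units.val) h1
    simpa using h2
  have hcu : ∀ φ : K →+* ℂ, φ (c u : K) ≠ 0 := by
    intro φ h1
    have h2 : ((c u : 𝓞 K) : K) = 0 := (map_eq_zero φ).1 h1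
    have h3 : (c u : 𝓞 K) = 0 := RingOfIntegers.ext h2
    rw [h3, mul_zero] at hvu
    exact u.ne_zero hvu.symm
  have hnorm : ∀ φ : K →+* ℂ, ‖φ ((v : 𝓞 K) : K)‖ = 1 := by
    intro φ
    have h1 : φ ((v : 𝓞 K) : K) * φ (c u : K) = φ (u : K) := by
      rw [← map_mul, ← map_mul, hvu]
    have h2 : ‖φ (c u : K)‖ = ‖φ (u : K)‖ := by rw [hconj, RCLike.norm_conj]
    have h3 := congrArg norm h1
    rw [norm_mul, ← h2] at h3
    have h4 : ‖φ (c u : K)‖ ≠ 0 := norm_ne_zero_iff.2 (hcu φ)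
    exact (mul_eq_right₀ h4).1 h3
  obtain ⟨n, hn, hvn⟩ := NumberField.Embeddings.pow_eq_one_of_norm_eq_one K ℂ
    (RingOfIntegers.isIntegral_coe (v : 𝓞 K)) hnorm
  have hodd : Odd l := hlp.out.odd_of_ne_two (by omega)
  obtain ⟨r, -, hr⟩ := hζ.exists_pow_or_neg_mul_pow_of_isOfFinOrder hodd
    (isOfFinOrder_iff_pow_eq_one.2 ⟨n, hn, hvn⟩)
  have hr' : (v : 𝓞 K) = hζ.toInteger ^ r ∨ (v : 𝓞 K) = -hζ.toInteger ^ r := by
    rcases hr with h | h
    · left
      apply RingOfIntegers.coe_injective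
      rw [h, map_pow]
      rfl
    · right
      apply RingOfIntegers.coe_injective
      rw [h, map_neg, map_pow]
      rfl
  rcases hr' with h | h
  · -- the sign is `+`
    rw [h] at hvu
    obtain ⟨k, hk⟩ := hodd
    refine ⟨k * r, ?_⟩
    have hz0 : hζ.toInteger ^ (k * r) ≠ 0 := by
      intro h0
      have h1 : hζ.toInteger ^ (k * r) * c hζ.toInteger ^ (k * r) = 1 := by
        rw [← mul_pow, hcz, one_pow]
      rw [h0, zero_mul] at h1
      exact zero_ne_one h1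
    apply mul_left_cancel₀ hz0
    have h1 : hζ.toInteger ^ (k * r) * c (hζ.toInteger ^ (k * r) * u) = c u := by
      rw [map_mul, map_pow, ← mul_assoc, ← mul_pow, hcz, one_pow, one_mul]
    have h2 : hζ.toInteger ^ (k * r) * (hζ.toInteger ^ (k * r) * u) = c u := by
      calc hζ.toInteger ^ (k * r) * (hζ.toInteger ^ (k * r) * u)
          = hζ.toInteger ^ (k * r) * (hζ.toInteger ^ (k * r) * (hζ.toInteger ^ r * c u)) := by
            rw [hvu]
        _ = hζ.toInteger ^ (k * r + k * r + r) * c u := by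
            rw [pow_add, pow_add]; ring
        _ = c u := by
            rw [show k * r + k * r + r = l * r by rw [hk]; ring, pow_mul, hzl, one_pow, one_mul]
    rw [h1, h2]
  · -- the sign `-` is impossible
    exfalso
    apply inst2_not_dvd_two hζ h5
    rw [h] at hvu
    have h1 : (hζ.toInteger - 1) ∣ hζ.toInteger ^ r - 1 := by
      simpa using sub_dvd_pow_sub_pow hζ.toInteger 1 r
    have h2 := hmod u
    have h3 : (hζ.toInteger - 1) ∣ 2 * (u : 𝓞 K) := by
      have e : 2 * (u : 𝓞 K) = -((hζ.toInteger ^ r - 1) * c u) - (c u - u) := by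
        linear_combination (-1 : 𝓞 K) * hvu
      rw [e]
      exact dvd_sub ((h1.mul_right _).neg_right) h2
    exact (Units.dvd_mul_right).1 h3

end AER
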