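import Mathlib

/-!
MP_aeefb1_nt: class number prime to `l`.
-/

open NumberField

namespace AER

/-- If the class number is prime to `l` and `I ^ l` is principal then `I` is principal. -/
theorem inst_princ {K : Type} [Field K] [NumberField K] {l : ℕ} (hl : l.Prime)
    (h : ¬ l ∣ classNumber K) (I : Ideal (𝓞 K)) (hI : (I ^ l).IsPrincipal) : I.IsPrincipal := by
  by_cases hI0 : I = ⊥
  · rw [hI0]
    exact bot_isPrincipal
  have hmem : I ∈ nonZeroDivisors (Ideal (𝓞 K)) := mem_nonZeroDivisors_of_ne_zero hI0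
  rw [← ClassGroup.mk0_eq_one_iff hmem]
  have h1 : ClassGroup.mk0 ⟨I, hmem⟩ ^ l = 1 := by
    rw [← map_pow]
    exact (ClassGroup.mk0_eq_one_iff (pow_mem hmem l)).mpr hI
  have h2 := orderOf_dvd_of_pow_eq_one h1
  have h3 : orderOf (ClassGroup.mk0 ⟨I, hmem⟩) ∣ classNumber K := orderOf_dvd_card
  rcases (Nat.dvd_prime hl).mp h2 with h4 | h4
  · exact orderOf_eq_one_iff.mp h4
  · rw [h4] at h3
    exact absurd h3 h

end AER
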