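import Pool.Agent.Lib_MP_aeefb1_reg.Cyc
import Pool.Agent.Lib_MP_aeefb1_reg.Inst1
import Pool.Agent.Lib_MP_aeefb1_reg.Inst2
import Pool.Agent.Lib_MP_aeefb1_reg.Inst3

/-!
MP_aeefb1_nt: the structure `Cyc l (𝓞 K)`, given Kummer's lemma.
-/

open Finset NumberField

namespace AER

theorem exists_cyc {l : ℕ} [hlp : Fact l.Prime] (h5 : 5 ≤ l) {K : Type} [Field K] [NumberField K]
    [IsCyclotomicExtension {l} ℚ K] {ζ : K} (hζ : IsPrimitiveRoot ζ l)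
    (hcl : ¬ l ∣ classNumber K)
    (hK : ∀ (u : (𝓞 K)ˣ) (m : ℤ), (l : 𝓞 K) ∣ (u : 𝓞 K) - m → ∃ v : (𝓞 K)ˣ, u = v ^ l) :
    Nonempty (Cyc l (𝓞 K)) := by
  obtain ⟨σ, hσ, hN⟩ := inst_sigma hζ
  exact ⟨{
    five_le := h5
    z := hζ.toInteger
    prim := hζ.toInteger_isPrimitiveRoot
    σ := σ
    σz := hσ
    span := inst_span hζ
    norm_eq := hN
    norm_pos := inst_norm_pos hζ h5
    unit_real := fun u => inst_unit_real hζ h5 (σ (-1)) (hσ _ (by simp)) u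
    kummer := hK
    princ := fun I hI => inst_princ hlp.out hcl I hI }⟩

end AER
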