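import Pool.Agent.Lib_MP_aeefb1_reg.NoInt
import Pool.Agent.Lib_MP_aeefb1_reg.Elim
import Pool.Agent.Lib_MP_aeefb1_reg.Inst

/-!
MP_aeefb1_nt: the final theorem, from Kummer's lemma.
-/

open NumberField

namespace AER

theorem final_of_kummer {n : ℕ} (hn : n.Prime) (h5 : 5 ≤ n)
    (hcl : ¬ n ∣ classNumber (CyclotomicField n ℚ))
    (hB : ∀ k : ℕ, 1 ≤ k → 2 * k ≤ n - 3 → ¬ (n : ℤ) ∣ (bernoulli (2 * k)).num)
    (hK : ∀ (u : (𝓞 (CyclotomicField n ℚ))ˣ) (m : ℤ),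
      (n : 𝓞 (CyclotomicField n ℚ)) ∣ (u : 𝓞 (CyclotomicField n ℚ)) - m →
        ∃ v : (𝓞 (CyclotomicField n ℚ))ˣ, u = v ^ n)
    {p : ℕ} (hp : p.Prime) (hp2 : p ≠ 2) (hpn : p ≠ n) (hp1 : ¬ p ≡ 1 [MOD n])
    (hw : ¬ p ^ (n - 1) ≡ 1 [MOD n ^ 2]) {k A B C D : ℕ}
    (hA : 0 < A) (hB' : 0 < B) (h1 : A + B = C) (h2 : A * B * C = D ^ n)
    (h3 : Nat.gcd A (Nat.gcd B C) = p ^ k) : False := by
  haveI : Fact n.Prime := ⟨hn⟩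
  haveI : NeZero ((n : ℕ) : ℚ) := ⟨by exact_mod_cast hn.ne_zero⟩
  haveI : NeZero n := ⟨hn.ne_zero⟩
  haveI : IsCyclotomicExtension {n} ℚ (CyclotomicField n ℚ) :=
    CyclotomicField.isCyclotomicExtension n ℚ
  obtain ⟨Q⟩ := exists_cyc (l := n) h5
    (IsCyclotomicExtension.zeta_spec n ℚ (CyclotomicField n ℚ)) hcl hK
  have hp1' : (p : ZMod n) ≠ 1 := by
    intro h
    apply hp1
    have h' : ((p : ℕ) : ZMod n) = ((1 : ℕ) : ZMod n) := by rw [h]; simp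
    exact (ZMod.natCast_eq_natCast_iff _ _ _).mp h'
  have hw' : (p : ZMod (n ^ 2)) ^ (n - 1) ≠ 1 := by
    intro h
    apply hw
    have h' : ((p ^ (n - 1) : ℕ) : ZMod (n ^ 2)) = ((1 : ℕ) : ZMod (n ^ 2)) := by
      push_cast; exact h
    exact (ZMod.natCast_eq_natCast_iff _ _ _).mp h'
  rcases elim_main hn h5 hp hA hB' h1 h2 h3 with ⟨x, y, z, c1, c2, c3, c4, c5⟩ |
    ⟨x, y, z, s, c1, c2, c3, c4⟩
  · exact flt_regular Q c1 c2 c3 c4 c5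
  · exact no_int_sol Q hB hp hp2 hpn hp1' hw' c1 c2 c3 c4

end AER
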