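import Pool.Agent.Lib_MP_aeefb1_reg.ExSplit
import Pool.Agent.Lib_MP_aeefb1_reg.RealCongr

/-!
MP_aeefb1_nt: integers `x`, `y`; the case `l ∣ y`.
-/

open Finset

namespace AER

variable {l : ℕ} [hlp : Fact l.Prime] {R : Type} [CommRing R] [IsDedekindDomain R]
  [CharZero R] [Module.Free ℤ R] [Module.Finite ℤ R]

omit [CommRing R] [IsDedekindDomain R] [CharZero R] [Module.Free ℤ R] [Module.Finite ℤ R] in
/-- If `p ∣ x ^ l + y ^ l`, `x`, `y` coprime and `p ≢ 1` modulo `l` then `p ∣ x + y`.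
(In `ZMod p` the order of `- x / y` divides `l` and `p - 1`; `p = 2`, `p = l` allowed?  For
`p = l` use `x ^ l = x`; so only `l ≠ 2` is needed.) -/
theorem dvd_add_of_dvd_pow_add (hl2 : l ≠ 2) {p : ℕ} (hp : p.Prime) (hp1 : (p : ZMod l) ≠ 1)
    {x y : ℤ} (hxy : IsCoprime x y) (h : (p : ℤ) ∣ x ^ l + y ^ l) : (p : ℤ) ∣ x + y := by
  have : Fact p.Prime := ⟨hp⟩
  have hodd : Odd l := hlp.out.odd_of_ne_two hl2
  have h0 : (x : ZMod p) ^ l + (y : ZMod p) ^ l = 0 := by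
    have h1 := (ZMod.intCast_zmod_eq_zero_iff_dvd (x ^ l + y ^ l) p).mpr h
    push_cast at h1
    exact h1
  have hy : (y : ZMod p) ≠ 0 := by
    intro hy
    rw [hy, zero_pow hlp.out.ne_zero, add_zero] at h0
    have hx : (x : ZMod p) = 0 := eq_zero_of_pow_eq_zero h0
    have h1 := (ZMod.intCast_zmod_eq_zero_iff_dvd x p).mp hx
    have h2 := (ZMod.intCast_zmod_eq_zero_iff_dvd y p).mp hy
    have h3 : IsUnit (p : ℤ) := hxy.isUnit_of_dvd' h1 h2
    exact (Nat.prime_iff_prime_int.mp hp).not_isUnit h3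
  have ht : ((x : ZMod p) / -(y : ZMod p)) ^ l = 1 := by
    rw [div_pow, hodd.neg_pow, div_eq_one_iff_eq (neg_ne_zero.mpr (pow_ne_zero _ hy))]
    linear_combination h0
  have ht0 : (x : ZMod p) / -(y : ZMod p) ≠ 0 := by
    intro h1
    rw [h1, zero_pow hlp.out.ne_zero] at ht
    exact zero_ne_one ht
  rcases (Nat.dvd_prime hlp.out).mp (orderOf_dvd_of_pow_eq_one ht) with h1 | h1
  · rw [orderOf_eq_one_iff, div_eq_one_iff_eq (neg_ne_zero.mpr hy)] at h1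
    refine (ZMod.intCast_zmod_eq_zero_iff_dvd (x + y) p).mp ?_
    push_cast
    linear_combination h1
  · exfalso
    have h2 := ZMod.orderOf_dvd_card_sub_one ht0
    rw [h1] at h2
    obtain ⟨k, hk⟩ := h2
    refine hp1 ?_
    have h3 : p = l * k + 1 := by
      have := hp.two_le
      omega
    rw [h3]
    push_cast
    rw [ZMod.natCast_self, zero_mul, zero_add]

/-- If `p ∣ C + E` all the `a_q`, `q ≠ 0`, are trivial.  (`a_q ∣ (p)`, so `a_q ∣ (C + E)`, and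
`a_q ∣ (C + z^q E)` if `s ≠ 0`; `Q.coprime_pair`.  Then `N a_q = 1 = p ^ F_q`.) -/
theorem F_zero_of_dvd {Q : Cyc l R} {p s : ℕ} (hp : p.Prime) (hs : s ≠ 0) {C E : R} {J : Ideal R}
    (S : Splitting Q p s C E J) (hCE : IsCoprime C E) (hlam : ¬ Q.lam ∣ C + E)
    (h : (p : R) ∣ C + E) (q : ZMod l) (hq : q ≠ 0) : S.F q = 0 := by
  have h1 : Ideal.span {(p : R)} ≤ S.a q := by
    rw [← Ideal.dvd_iff_le, ← S.prod_a]
    exact dvd_prod_of_mem S.a (mem_univ q)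
  have h2 : C + Q.e 0 * E ∈ S.a q := by
    rw [Q.e_zero, one_mul]
    exact h1 (Ideal.mem_span_singleton.mpr h)
  have h3 : C + Q.e q * E ∈ S.a q := by
    have h4 : C + Q.e q * E ∈ S.a q ^ s * S.b q ^ l := by
      rw [← S.eq q]
      exact Ideal.mem_span_singleton_self _
    have h5 : S.a q ^ s * S.b q ^ l ≤ S.a q := Ideal.mul_le_left.trans (Ideal.pow_le_self hs)
    exact h5 h4
  have h5 : S.a q = ⊤ := by
    obtain ⟨u, v, huv⟩ := Q.coprime_pair hCE hlam hq.symm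
    rw [Ideal.eq_top_iff_one, ← huv]
    exact Ideal.add_mem _ (Ideal.mul_mem_left _ _ h2) (Ideal.mul_mem_left _ _ h3)
  have h6 := S.norm_a q
  rw [h5, Ideal.absNorm_top] at h6
  by_contra hF
  have h7 := Nat.one_lt_pow hF hp.one_lt
  omega

/-- `β ≡ γ` modulo `λ ^ 2` implies `β ^ l ≡ γ ^ l` modulo `λ ^ (l + 1)` -/
theorem pow_l_congr (Q : Cyc l R) {β γ : R} (h : Q.lam ^ 2 ∣ β - γ) :
    Q.lam ^ (l + 1) ∣ β ^ l - γ ^ l := by
  have h5 := Q.five_le
  obtain ⟨r, hr⟩ := exists_add_pow_prime_eq hlp.out γ (β - γ)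
  rw [add_sub_cancel] at hr
  have e : β ^ l - γ ^ l = (β - γ) ^ l + l * (β - γ) * (γ * r) := by
    rw [hr]
    ring
  rw [e]
  refine dvd_add ?_ (Dvd.dvd.mul_right ?_ _)
  · refine (pow_dvd_pow Q.lam (by omega : l + 1 ≤ 2 * l)).trans ?_
    rw [pow_mul]
    exact pow_dvd_pow_of_dvd h l
  · have h1 := mul_dvd_mul Q.lam_pow_dvd_l h
    rwa [← pow_add, show l - 1 + 2 = l + 1 by omega] at h1

omit [CommRing R] [IsDedekindDomain R] [CharZero R] [Module.Free ℤ R] [Module.Finite ℤ R] in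
private theorem FirstZ_pow {a : ℤ} (h : (l : ℤ) ∣ a - 1) : ((a ^ l : ℤ) : ZMod (l ^ 2)) = 1 := by
  obtain ⟨r, hr⟩ := exists_add_pow_prime_eq hlp.out (1 : ℤ) (a - 1)
  rw [add_sub_cancel, one_pow] at hr
  have h1 : ((l ^ 2 : ℕ) : ℤ) ∣ a ^ l - 1 := by
    have e : a ^ l - 1 = (a - 1) ^ l + l * (a - 1) * r := by
      rw [hr]
      ring
    rw [e]
    push_cast
    refine dvd_add ?_ (Dvd.dvd.mul_right ?_ _)
    · exact (pow_dvd_pow_of_dvd h 2).trans (pow_dvd_pow _ hlp.out.two_le)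
    · rw [pow_two]
      exact mul_dvd_mul_left _ h
  have h2 := (ZMod.intCast_zmod_eq_zero_iff_dvd (a ^ l - 1) (l ^ 2)).mpr h1
  rw [Int.cast_sub, Int.cast_one, sub_eq_zero] at h2
  exact h2

/-- The case `l ∣ y`.
Proof.  `exists_splitting` for `x`, `y`, `J = (z)`; `p ∣ x + y` by `dvd_add_of_dvd_pow_add`
(`s ≠ 0`), so `F_q = 0` for `q ≠ 0` and `F_0 = l - 1`.  `S.exists_gen` with `q = 1`:
`x + z y = u w ^ l`; modulo `l` this is `x`, `w ^ l ≡ m` (`Q.pow_l_int`), so `u` is an integer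
modulo `l` and `u = v ^ l` (`Q.kummer`); `x + z y = α ^ l`.  Twist `α` by `Q.exists_normal`:
`β ^ l = x + z y`, `β ≡ conj β` modulo `λ ^ 2`, so by `pow_l_congr`
`λ ^ (l + 1) ∣ β ^ l - conj β ^ l = (z - z⁻¹) y`, `λ ^ l ∣ y`, `l ^ 2 ∣ y`
(`Q.lam_pow_l_int`).  `N (x + z y) = x ^ (l - 1)` modulo `l ^ 2` (`Q.norm_congr`,
`Q.norm_int`), and it is `N(β) ^ l = 1` (`Q.norm_mod`).  `S.norm 0`: `(x + y) ^ (l - 1) =
p ^ (s (l - 1))` modulo `l ^ 2`, and `x + y ≡ x`.  So `S.F_eq_zero` gives `F_0 = 0`,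
a contradiction. -/
theorem second_b (Q : Cyc l R) {p s : ℕ} (hp : p.Prime) (hpl : p ≠ l) (hp1 : (p : ZMod l) ≠ 1)
    (hp2 : (p : ZMod (l ^ 2)) ^ (l - 1) ≠ 1) (hs : ¬ l ∣ s) {x y z : ℤ} (hxy : IsCoprime x y)
    (hy : (l : ℤ) ∣ y) (h : x ^ l + y ^ l = p ^ s * z ^ l) : False := by
  have h5 := Q.five_le
  have hlp' : Prime (l : ℤ) := Nat.prime_iff_prime_int.mp hlp.out
  have hs0 : s ≠ 0 := fun h0 => hs (h0 ▸ dvd_zero l)
  have hlx : ¬ (l : ℤ) ∣ x := fun h0 => hlp'.not_isUnit (hxy.isUnit_of_dvd' h0 hy)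
  have hCE : IsCoprime (x : R) (y : R) := by
    have h0 := hxy.map (Int.castRingHom R)
    exact h0
  have hlyR : (l : R) ∣ (y : R) := by
    obtain ⟨t, ht⟩ := hy
    exact ⟨(t : R), by rw [ht]; push_cast; ring⟩
  have hly : Q.lam ∣ (y : R) := Q.lam_dvd_of_l_dvd hy
  have hlamx : ¬ Q.lam ∣ (x : R) := Q.not_lam_dvd_int hlx
  have hlam : ¬ Q.lam ∣ (x : R) + y := fun h0 => hlamx ((dvd_add_left hly).mp h0)
  have hspan : Ideal.span {(x : R) ^ l + (y : R) ^ l} =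
      Ideal.span {(p : R)} ^ s * Ideal.span {(z : R)} ^ l := by
    rw [Ideal.span_singleton_pow, Ideal.span_singleton_pow, Ideal.span_singleton_mul_span_singleton]
    congr 2
    exact_mod_cast congrArg (Int.cast : ℤ → R) h
  obtain ⟨S⟩ := exists_splitting Q hp hpl s hCE hlam hspan
  -- `p` divides `x + y`
  have hpxy : (p : ℤ) ∣ x + y := by
    refine dvd_add_of_dvd_pow_add (by omega) hp hp1 hxy ?_
    rw [h]
    exact (dvd_pow_self _ hs0).mul_right _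
  have hpR : (p : R) ∣ (x : R) + y := by
    obtain ⟨t, ht⟩ := hpxy
    refine ⟨(t : R), ?_⟩
    exact_mod_cast congrArg (Int.cast : ℤ → R) ht
  have hF : ∀ q : ZMod l, q ≠ 0 → S.F q = 0 := fun q hq => F_zero_of_dvd hp hs0 S hCE hlam hpR q hq
  have hF0 : S.F 0 = l - 1 := by
    rw [← S.sum_F]
    symm
    exact Finset.sum_eq_single 0 (fun q _ hq => hF q hq) (fun h0 => absurd (mem_univ _) h0)
  -- the factor for `q = 1`
  obtain ⟨u, w, huw, -⟩ := S.exists_gen (hF 1 one_ne_zero)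
  obtain ⟨m, hm1, hm2⟩ := Q.pow_l_int w
  have hlamf : ¬ Q.lam ∣ (x : R) + Q.e 1 * y := fun h0 =>
    hlamx ((dvd_add_left (hly.mul_left _)).mp h0)
  have hlamw : ¬ Q.lam ∣ w := by
    intro h0
    apply hlamf
    rw [huw]
    exact (dvd_pow h0 (by omega)).mul_left _
  have hlm : ¬ (l : ℤ) ∣ m := by
    intro h0
    apply hlamw
    have h1 := dvd_add hm2 (Q.lam_dvd_of_l_dvd h0)
    rwa [sub_add_cancel] at h1
  obtain ⟨n, k, hnk⟩ : IsCoprime m (l : ℤ) := by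
    rw [isCoprime_comm]
    exact hlp'.coprime_iff_not_dvd.mpr hlm
  have hnkR : (n : R) * m + k * l = 1 := by exact_mod_cast congrArg (Int.cast : ℤ → R) hnk
  have hu : (l : R) ∣ (u : R) - ((x * n : ℤ) : R) := by
    obtain ⟨t1, ht1⟩ := hm1
    obtain ⟨t2, ht2⟩ := hlyR
    refine ⟨u * k - u * n * t1 + n * Q.e 1 * t2, ?_⟩
    push_cast
    linear_combination (-(u : R)) * hnkR - u * n * ht1 - n * huw + n * Q.e 1 * ht2
  obtain ⟨v, hv⟩ := Q.kummer u _ hu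
  set α : R := v * w with hα
  have hαl : α ^ l = (x : R) + Q.e 1 * y := by
    rw [huw, hv, hα, mul_pow]
    push_cast
    ring
  have hlamα : ¬ Q.lam ∣ α := by
    intro h0
    apply hlamf
    rw [← hαl]
    exact dvd_pow h0 (by omega)
  obtain ⟨a, ha⟩ := Q.exists_normal hlamα
  set β : R := Q.e a * α with hβ
  have hβl : β ^ l = (x : R) + Q.e 1 * y := by
    rw [hβ, mul_pow, hαl, Q.e_pow, ZMod.natCast_self, zero_mul, Q.e_zero, one_mul]
  have hlamβ : ¬ Q.lam ∣ β := by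
    intro h0
    apply hlamf
    rw [← hβl]
    exact dvd_pow h0 (by omega)
  have h6 := pow_l_congr Q ha
  have h7 : β ^ l - Q.conj β ^ l = (Q.e 1 - Q.e (-1)) * y := by
    rw [← map_pow, hβl, map_add, map_mul, map_intCast, map_intCast, Q.conj_e]
    ring
  rw [h7] at h6
  have hne : (1 : ZMod l) ≠ -1 := by
    intro h0
    have h1 : ((2 : ℕ) : ZMod l) = 0 := by
      push_cast
      linear_combination h0
    rw [ZMod.natCast_eq_zero_iff] at h1
    have := Nat.le_of_dvd (by norm_num) h1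
    omega
  obtain ⟨ε, hε⟩ := Q.assoc_sub hne
  have h8 : Q.lam ^ l ∣ (y : R) := by
    rw [← hε, pow_succ', mul_assoc] at h6
    have h9 := (mul_dvd_mul_iff_left Q.lam_ne_zero).mp h6
    exact (Units.dvd_mul_left).mp h9
  have h10 : (l : ℤ) ^ 2 ∣ y := Q.lam_pow_l_int h8
  -- norms
  have h11 : ((Algebra.norm ℤ ((x : R) + Q.e 1 * y) : ℤ) : ZMod (l ^ 2)) = ((x ^ (l - 1) : ℤ) : ZMod (l ^ 2)) := by
    rw [← Q.norm_int]
    apply Q.norm_congr
    rw [add_sub_cancel_left]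
    exact h8.mul_left _
  have h12 : ((x ^ (l - 1) : ℤ) : ZMod (l ^ 2)) = 1 := by
    rw [← h11, ← hβl, map_pow]
    exact FirstZ_pow (Q.norm_mod hlamβ)
  have h13 : (p : ZMod (l ^ 2)) ^ (s * S.F 0) = 1 := by
    rw [← S.norm 0, Q.e_zero, one_mul, ← Int.cast_add, Q.norm_int, ← h12, Int.cast_pow, Int.cast_pow, Int.cast_add]
    have h14 : (y : ZMod (l ^ 2)) = 0 := by
      rw [ZMod.intCast_zmod_eq_zero_iff_dvd]
      exact_mod_cast h10
    rw [h14, add_zero]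
  have h15 := S.F_eq_zero hp hpl hp2 hs h13
  omega

end AER
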