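import Pool.Agent.Lib_MP_aeefb1_reg.KumRep
import Pool.Agent.Lib_MP_aeefb1_reg.BerMod

/-!
# Kummer's logarithmic derivatives of units

`φ m u = [X^(m-1)] f' / f`, `f = rho P`, `u = P(z)` (so `φ m u = m [X^m] log f`).

## Proofs

* `ld_mul`: product rule and `(f g)⁻¹ = f⁻¹ g⁻¹`.
* `ld_congr`: `X^(n+1) ∣ f - g` gives `X^n ∣ f' - g'` (`coeff_derivative`), and `cg_inv`.
* `ld_Ex`: `coeff n (Ex') = (n+1) / (n+1)! = 1 / n! ` for `n + 1 < l`.
* `ld_geom`: `f = ∑_{i<a} Ex^i`, `f * (Ex - 1) = Ex^a - 1`, `Ex^a = Ex(aX)` modulo `X^l`.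
  Write `Ex - 1 = X E1`, `Ex(aX) - 1 = a X E1(aX)`: so `f E1 = a E1(aX)` modulo `X^(l-1)` and
  `ld f = ld (E1(aX)) - ld E1` modulo `X^(l-2)`.  And `X E1' = (Ex - 1)' - E1 = Ex - E1` modulo
  `X^(l-1)`, so `X ld E1 = Ex / E1 - 1 = (1 + X E1) Bs - 1 = Bs + X - 1` modulo `X^(l-1)`, and
  `X ld (E1(aX)) = (X ld E1)(aX)` = `Bs(aX) + a X - 1` (derivative of a rescaled series).
  Coefficient of `X^n`, `2 ≤ n ≤ l - 2`: `(a^n - 1) coeff n Bs`.
* `unit_rho`: if `P(z) Q(z) = 1` then `X^(l-1) ∣ rho P rho Q - 1` (`rho_of_aeval_zero`), so the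
  constant coefficient of `rho P` is not `0`.
* `exists_phi`: choose `P_u` with `P_u(z) = u` and put `φ m u = coeff (m-1) (ld (rho P_u))`.
  By `rho_of_aeval_zero` and `ld_congr` it can be computed with any `P` with `P(z) = u`, for
  `1 ≤ m ≤ l - 2`.  Additivity: `P_u P_w`.  If `u = n + l x`: `P = n + l P_x`, `rho P = n`,
  derivative `0`.  `u = z`: `P = T`, `rho P = Ex`, `ld Ex = 1`.  Last item: let `g : ℕ` be a
  primitive root modulo `l` (`1 < g < l`, `ZMod.exists_...`, `IsCyclic (ZMod l)ˣ`), `ε` the unit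
  `∑_{i<g} z^i` (`z^g - 1` and `z - 1` are associated), so
  `φ (2k) ε = (g^(2k) - 1) coeff (2k) Bs =: γ_k ≠ 0` for `1 ≤ k`, `2k ≤ l - 3`
  (`coeff_Bs_ne_zero`; `g^(2k) ≠ 1`).  For `a ≠ 0` the conjugate `σ_a ε = P(z^a)`,
  `P = ∑_{i<g} T^i`, has `rho (P(T^a)) = (rho P)(aX)` modulo `X^l` (`rho_comp`), hence
  `φ m (σ_a ε) = a^m φ m ε`.  Put `w = ∏_{a ≠ 0} (σ_a ε)^(n_a)` with natural numbers
  `n_a = - ∑_{k'} a^(-2k') c_k' / γ_k'` in `ZMod l` (sum over `1 ≤ k'`, `2k' ≤ l - 3`):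
  `φ (2k) w = γ_k ∑_a n_a a^(2k) = - γ_k ∑_k' (c_k'/γ_k') ∑_a a^(2k - 2k') = c_k`, since
  `∑_{a ≠ 0} a^t = -1` if `l - 1 ∣ t` and `0` otherwise, and `|2k - 2k'| < l - 1`.
-/

namespace AER

open PowerSeries

variable {l : ℕ} [hl : Fact l.Prime]

/-- logarithmic derivative of a power series -/
noncomputable def ld (f : PowerSeries (ZMod l)) : PowerSeries (ZMod l) :=
  PowerSeries.derivative (ZMod l) f * f⁻¹

private theorem KumPhi_d_mul (f g : PowerSeries (ZMod l)) :
    PowerSeries.derivative (ZMod l) (f * g) =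
      f * PowerSeries.derivative (ZMod l) g + g * PowerSeries.derivative (ZMod l) f := by
  rw [Derivation.leibniz, smul_eq_mul, smul_eq_mul]

theorem ld_mul {f g : PowerSeries (ZMod l)} (hf : constantCoeff f ≠ 0)
    (hg : constantCoeff g ≠ 0) : ld (f * g) = ld f + ld g := by
  have h1 := PowerSeries.mul_inv_cancel f hf
  have h2 := PowerSeries.mul_inv_cancel g hg
  unfold ld
  rw [KumPhi_d_mul, PowerSeries.mul_inv_rev]
  calc (f * PowerSeries.derivative (ZMod l) g + g * PowerSeries.derivative (ZMod l) f) *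
        (g⁻¹ * f⁻¹) = (f * f⁻¹) * (PowerSeries.derivative (ZMod l) g * g⁻¹) +
          (g * g⁻¹) * (PowerSeries.derivative (ZMod l) f * f⁻¹) := by ring
    _ = _ := by
      rw [h1, h2]
      ring

private theorem KumPhi_d_congr {n : ℕ} {f g : PowerSeries (ZMod l)}
    (h : (X : PowerSeries (ZMod l)) ^ (n + 1) ∣ f - g) :
    (X : PowerSeries (ZMod l)) ^ n ∣
      PowerSeries.derivative (ZMod l) f - PowerSeries.derivative (ZMod l) g := by
  rw [cg_iff] at h ⊢
  intro m hm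
  rw [coeff_derivative, coeff_derivative, h (m + 1) (by omega)]

theorem ld_congr {n : ℕ} {f g : PowerSeries (ZMod l)} (hf : constantCoeff f ≠ 0)
    (hg : constantCoeff g ≠ 0) (h : (X : PowerSeries (ZMod l)) ^ (n + 1) ∣ f - g) :
    (X : PowerSeries (ZMod l)) ^ n ∣ ld f - ld g := by
  unfold ld
  exact cg_mul (KumPhi_d_congr h) (cg_inv hf hg (cg_of_le (Nat.le_succ n) h))

private theorem KumPhi_cc_Ex : constantCoeff (Ex l) ≠ 0 := by
  rw [constantCoeff_Ex]
  exact one_ne_zero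

private theorem KumPhi_d_Ex : (X : PowerSeries (ZMod l)) ^ (l - 1) ∣
    PowerSeries.derivative (ZMod l) (Ex l) - Ex l := by
  rw [cg_iff]
  intro m hm
  rw [coeff_derivative, coeff_Ex, coeff_Ex]
  have h1 : ((m + 1 : ℕ) : ZMod l) ≠ 0 := natCast_ne_zero' l (Nat.succ_ne_zero m) (by omega)
  have h2 := factorial_ne_zero l (n := m) (by omega)
  rw [Nat.factorial_succ]
  push_cast at h1 ⊢
  field_simp

theorem ld_Ex : (X : PowerSeries (ZMod l)) ^ (l - 1) ∣ ld (Ex l) - 1 := by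
  have h1 := cg_mul (KumPhi_d_Ex (l := l)) (cg_refl ((Ex l)⁻¹))
  rw [PowerSeries.mul_inv_cancel _ KumPhi_cc_Ex] at h1
  exact h1

private theorem KumPhi_cc_E1 : constantCoeff (E1 l) = 1 := by
  rw [← coeff_zero_eq_constantCoeff_apply]
  simp [E1]

private theorem KumPhi_inv_E1 : (E1 l)⁻¹ = Bs l := rfl

private theorem KumPhi_X_ld_E1 : (X : PowerSeries (ZMod l)) ^ (l - 1) ∣
    X * ld (E1 l) - (Bs l + X - 1) := by
  have h1 : PowerSeries.derivative (ZMod l) (X * E1 l) =
      PowerSeries.derivative (ZMod l) (Ex l) := by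
    rw [X_mul_E1, map_sub, ← map_one C, derivative_C, sub_zero]
  rw [KumPhi_d_mul, derivative_X, mul_one] at h1
  have h2 : X * ld (E1 l) = (PowerSeries.derivative (ZMod l) (Ex l) - E1 l) * Bs l := by
    unfold ld
    rw [KumPhi_inv_E1, ← h1]
    ring
  have h3 : Bs l + X - 1 = (Ex l - E1 l) * Bs l := by
    have h4 := X_mul_E1 l
    have h5 := Bs_mul_E1 l
    linear_combination (Bs l) * h4 + (1 - X) * h5
  rw [h2, h3]
  exact cg_mul (cg_sub KumPhi_d_Ex (cg_refl _)) (cg_refl _)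

private theorem KumPhi_coeff_ld_E1 {n : ℕ} (h2 : 2 ≤ n) (hn : n + 2 ≤ l) :
    coeff (n - 1) (ld (E1 l)) = coeff n (Bs l) := by
  obtain ⟨m, rfl⟩ : ∃ m, n = m + 2 := ⟨n - 2, by omega⟩
  have h1 := coeff_eq_of_cg (show m + 2 < l - 1 by omega) (KumPhi_X_ld_E1 (l := l))
  rw [coeff_succ_X_mul, map_sub, map_add, coeff_X, coeff_one, if_neg (by omega),
    if_neg (by omega), add_zero, sub_zero] at h1
  exact h1

private theorem KumPhi_d_rescale (a : ZMod l) (f : PowerSeries (ZMod l)) :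
    PowerSeries.derivative (ZMod l) (rescale a f) =
      C a * rescale a (PowerSeries.derivative (ZMod l) f) := by
  ext m
  rw [coeff_derivative, coeff_rescale, coeff_C_mul, coeff_rescale, coeff_derivative]
  ring

private theorem KumPhi_ld_rescale (a : ZMod l) {f : PowerSeries (ZMod l)}
    (hf : constantCoeff f ≠ 0) : ld (rescale a f) = C a * rescale a (ld f) := by
  have h1 : rescale a f * rescale a f⁻¹ = 1 := by
    rw [← map_mul, PowerSeries.mul_inv_cancel f hf, map_one]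
  have h2 : constantCoeff (rescale a f) ≠ 0 := by
    rw [constantCoeff_rescale']
    exact hf
  have h3 : (rescale a f)⁻¹ = rescale a f⁻¹ := by
    calc (rescale a f)⁻¹ = (rescale a f)⁻¹ * (rescale a f * rescale a f⁻¹) := by
          rw [h1, mul_one]
      _ = ((rescale a f)⁻¹ * rescale a f) * rescale a f⁻¹ := by ring
      _ = _ := by rw [PowerSeries.inv_mul_cancel _ h2, one_mul]
  unfold ld
  rw [KumPhi_d_rescale, h3, map_mul]
  ring

private theorem KumPhi_coeff_ld_rescale (a : ZMod l) {f : PowerSeries (ZMod l)}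
    (hf : constantCoeff f ≠ 0) {m : ℕ} (hm : 1 ≤ m) :
    coeff (m - 1) (ld (rescale a f)) = a ^ m * coeff (m - 1) (ld f) := by
  obtain ⟨k, rfl⟩ : ∃ k, m = k + 1 := ⟨m - 1, by omega⟩
  rw [KumPhi_ld_rescale a hf, coeff_C_mul, coeff_rescale, Nat.add_sub_cancel]
  ring

private theorem KumPhi_geom_cc (a : ℕ) :
    constantCoeff (∑ i ∈ Finset.range a, (Ex l) ^ i) = (a : ZMod l) := by
  rw [map_sum]
  simp only [map_pow, constantCoeff_Ex, one_pow, Finset.sum_const, Finset.card_range,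
    nsmul_eq_mul, mul_one]

theorem ld_geom {a : ℕ} (ha : 1 ≤ a) (hal : a < l) {n : ℕ} (h2 : 2 ≤ n) (hn : n + 2 ≤ l) :
    coeff (n - 1) (ld (∑ i ∈ Finset.range a, (Ex l) ^ i))
      = ((a : ZMod l) ^ n - 1) * coeff n (Bs l) := by
  set f := ∑ i ∈ Finset.range a, (Ex l) ^ i with hf
  have ha0 : ((a : ℕ) : ZMod l) ≠ 0 := natCast_ne_zero' l (by omega) hal
  have hfc : constantCoeff f ≠ 0 := by
    rw [hf, KumPhi_geom_cc]
    exact ha0
  have hE : constantCoeff (E1 l) ≠ 0 := by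
    rw [KumPhi_cc_E1]
    exact one_ne_zero
  have hEa : constantCoeff (rescale (a : ZMod l) (E1 l)) ≠ 0 := by
    rw [constantCoeff_rescale']
    exact hE
  have hCa : constantCoeff (C (a : ZMod l) : PowerSeries (ZMod l)) ≠ 0 := by
    rw [constantCoeff_C]
    exact ha0
  have h3 : f * (Ex l - 1) = Ex l ^ a - 1 := by
    rw [hf]
    exact geom_sum_mul _ _
  rw [← X_mul_E1] at h3
  have h4 : rescale (a : ZMod l) (Ex l) - 1 = X * (C (a : ZMod l) * rescale (a : ZMod l) (E1 l)) := by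
    have h5 := congrArg (rescale (a : ZMod l)) (X_mul_E1 l)
    rw [map_mul, map_sub, map_one, rescale_X] at h5
    rw [← h5]
    ring
  have h5 : X * (X : PowerSeries (ZMod l)) ^ (l - 1) ∣
      X * (f * E1 l - C (a : ZMod l) * rescale (a : ZMod l) (E1 l)) := by
    have e : X * (f * E1 l - C (a : ZMod l) * rescale (a : ZMod l) (E1 l)) =
        Ex l ^ a - rescale (a : ZMod l) (Ex l) := by
      linear_combination h3 + h4
    rw [e, ← pow_succ', show l - 1 + 1 = l by omega]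
    exact Ex_pow l a
  have h6 : (X : PowerSeries (ZMod l)) ^ (l - 1) ∣
      f * E1 l - C (a : ZMod l) * rescale (a : ZMod l) (E1 l) :=
    (mul_dvd_mul_iff_left X_ne_zero).1 h5
  have h7 := ld_congr (n := l - 2) (f := f * E1 l)
    (g := C (a : ZMod l) * rescale (a : ZMod l) (E1 l))
    (by rw [map_mul]; exact mul_ne_zero hfc hE)
    (by rw [map_mul]; exact mul_ne_zero hCa hEa)
    (by rw [show l - 2 + 1 = l - 1 by omega]; exact h6)
  rw [ld_mul hfc hE, ld_mul hCa hEa] at h7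
  have h8 := coeff_eq_of_cg (show n - 1 < l - 2 by omega) h7
  have h9 : ld (C (a : ZMod l) : PowerSeries (ZMod l)) = 0 := by
    unfold ld
    rw [derivative_C, zero_mul]
  rw [h9, zero_add, map_add, KumPhi_coeff_ld_rescale _ hE (by omega),
    KumPhi_coeff_ld_E1 h2 hn] at h8
  linear_combination h8

variable {R : Type*} [CommRing R] [IsDomain R] [CharZero R] {z : R}

theorem unit_rho (hz : IsPrimitiveRoot z l)
    (hsurj : ∀ x : R, ∃ P : Polynomial ℤ, Polynomial.aeval z P = x) {P : Polynomial ℤ}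
    (hP : IsUnit (Polynomial.aeval z P)) : constantCoeff (rho l P) ≠ 0 := by
  obtain ⟨y, hy⟩ := hP.exists_right_inv
  obtain ⟨Q, rfl⟩ := hsurj y
  have h2 : 2 ≤ l := hl.out.two_le
  have h1 := rho_of_aeval_zero (l := l) hz (P := P * Q - 1) (by
    rw [map_sub, map_mul, map_one, hy, sub_self])
  have h3 : (X : PowerSeries (ZMod l)) ∣ rho l (P * Q - 1) := by
    refine Dvd.dvd.trans ?_ h1
    exact dvd_pow_self _ (by omega)
  rw [X_dvd_iff, map_sub, map_mul, map_one, map_sub, map_mul, map_one, sub_eq_zero] at h3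
  intro h0
  rw [h0, zero_mul] at h3
  exact zero_ne_one h3

/-- the logarithmic derivative can be computed with any representative -/
private theorem KumPhi_indep (hz : IsPrimitiveRoot z l)
    (hsurj : ∀ x : R, ∃ P : Polynomial ℤ, Polynomial.aeval z P = x) {P P' : Polynomial ℤ}
    {u : Rˣ} (hP : Polynomial.aeval z P = u) (hP' : Polynomial.aeval z P' = u) {m : ℕ}
    (hm1 : 1 ≤ m) (hm : m + 2 ≤ l) :
    coeff (m - 1) (ld (rho l P)) = coeff (m - 1) (ld (rho l P')) := by
  have h1 := rho_of_aeval_zero (l := l) hz (P := P - P') (by rw [map_sub, hP, hP', sub_self])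
  rw [map_sub] at h1
  have h2 := unit_rho (l := l) hz hsurj (P := P) (by rw [hP]; exact u.isUnit)
  have h3 := unit_rho (l := l) hz hsurj (P := P') (by rw [hP']; exact u.isUnit)
  have h4 := ld_congr (n := l - 2) h2 h3 (by rw [show l - 2 + 1 = l - 1 by omega]; exact h1)
  exact coeff_eq_of_cg (by omega) h4

private theorem KumPhi_sum (h5 : 5 ≤ l) {k k' : ℕ} (hk : 1 ≤ k) (hk3 : 2 * k + 3 ≤ l)
    (hk' : 1 ≤ k') (hk3' : 2 * k' + 3 ≤ l) :
    ∑ a : (ZMod l)ˣ, (a : ZMod l) ^ (l - 1 - 2 * k') * (a : ZMod l) ^ (2 * k) =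
      if k = k' then -1 else 0 := by
  have h1 : ∀ a : (ZMod l)ˣ, (a : ZMod l) ^ (l - 1 - 2 * k') * (a : ZMod l) ^ (2 * k) =
      (a : ZMod l) ^ (l - 1 - 2 * k' + 2 * k) := fun a => (pow_add _ _ _).symm
  rw [Finset.sum_congr rfl fun a _ => h1 a]
  have h2 := FiniteField.sum_pow_units (K := ZMod l) (l - 1 - 2 * k' + 2 * k)
  rw [ZMod.card] at h2
  rw [h2]
  by_cases h : k = k'
  · subst h
    rw [if_pos (by rw [show l - 1 - 2 * k + 2 * k = l - 1 by omega]), if_pos rfl]
  · rw [if_neg h, if_neg]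
    rintro ⟨c, hc⟩
    rcases Nat.lt_or_ge c 2 with hc2 | hc2
    · interval_cases c
      · omega
      · omega
    · have : (l - 1) * 2 ≤ (l - 1) * c := Nat.mul_le_mul_left _ hc2
      omega

/-- the logarithmic derivatives of units and their properties -/
theorem exists_phi (h5 : 5 ≤ l) (hz : IsPrimitiveRoot z l)
    (hsurj : ∀ x : R, ∃ P : Polynomial ℤ, Polynomial.aeval z P = x)
    (hσ : ∀ a : ZMod l, a ≠ 0 → ∃ σ : R →+* R, σ z = z ^ a.val)
    (hB : ∀ k : ℕ, 1 ≤ k → 2 * k ≤ l - 3 → ¬ (l : ℤ) ∣ (bernoulli (2 * k)).num) :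
    ∃ φ : ℕ → Rˣ → ZMod l,
      (∀ (m : ℕ) (u w : Rˣ), 1 ≤ m → m + 2 ≤ l → φ m (u * w) = φ m u + φ m w) ∧
      (∀ (m : ℕ) (u : Rˣ) (n : ℤ), 1 ≤ m → m + 2 ≤ l → (l : R) ∣ (u : R) - n → φ m u = 0) ∧
      (∀ u : Rˣ, (u : R) = z → φ 1 u = 1) ∧
      (∀ (m : ℕ) (u : Rˣ), (u : R) = z → 2 ≤ m → m + 2 ≤ l → φ m u = 0) ∧
      (∀ c : ℕ → ZMod l, ∃ w : Rˣ, ∀ k : ℕ, 1 ≤ k → 2 * k + 3 ≤ l → φ (2 * k) w = c k) := by
  classical
  choose Pr hPr using hsurj
  have hsurj : ∀ x : R, ∃ P : Polynomial ℤ, Polynomial.aeval z P = x := fun x => ⟨Pr x, hPr x⟩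
  set φ : ℕ → Rˣ → ZMod l := fun m u => coeff (m - 1) (ld (rho l (Pr u))) with hφ
  have key : ∀ (m : ℕ) (u : Rˣ) (P : Polynomial ℤ), 1 ≤ m → m + 2 ≤ l →
      Polynomial.aeval z P = u → φ m u = coeff (m - 1) (ld (rho l P)) := by
    intro m u P hm1 hm hP
    exact KumPhi_indep hz hsurj (hPr u) hP hm1 hm
  have hadd : ∀ (m : ℕ) (u w : Rˣ), 1 ≤ m → m + 2 ≤ l → φ m (u * w) = φ m u + φ m w := by
    intro m u w hm1 hm
    rw [key m (u * w) (Pr u * Pr w) hm1 hm (by rw [map_mul, hPr, hPr, Units.val_mul]), map_mul,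
      ld_mul (unit_rho hz hsurj (by rw [hPr]; exact u.isUnit))
        (unit_rho hz hsurj (by rw [hPr]; exact w.isUnit)), map_add]
  have hone : ∀ m : ℕ, 1 ≤ m → m + 2 ≤ l → φ m 1 = 0 := by
    intro m hm1 hm
    have h := hadd m 1 1 hm1 hm
    rw [mul_one] at h
    linear_combination -h
  have hpow : ∀ (m : ℕ) (u : Rˣ) (n : ℕ), 1 ≤ m → m + 2 ≤ l → φ m (u ^ n) = n * φ m u := by
    intro m u n hm1 hm
    induction n with
    | zero => simp [hone m hm1 hm]
    | succ n ih =>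
      rw [pow_succ, hadd m _ _ hm1 hm, ih]
      push_cast
      ring
  have hprod : ∀ (m : ℕ) (s : Finset (ZMod l)ˣ) (v : (ZMod l)ˣ → Rˣ), 1 ≤ m → m + 2 ≤ l →
      φ m (∏ a ∈ s, v a) = ∑ a ∈ s, φ m (v a) := by
    intro m s v hm1 hm
    induction s using Finset.induction_on with
    | empty => simp [hone m hm1 hm]
    | insert a s ha ih =>
      rw [Finset.prod_insert ha, Finset.sum_insert ha, hadd m _ _ hm1 hm, ih]
  refine ⟨φ, hadd, ?_, ?_, ?_, ?_⟩
  · intro m u n hm1 hm hdvd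
    obtain ⟨x, hx⟩ := hdvd
    rw [key m u (Polynomial.C n + Polynomial.C (l : ℤ) * Pr x) hm1 hm (by
      rw [map_add, map_mul, Polynomial.aeval_C, Polynomial.aeval_C, hPr]
      simp only [algebraMap_int_eq, eq_intCast, Int.cast_natCast]
      linear_combination -hx)]
    have h1 : (((l : ℤ)) : PowerSeries (ZMod l)) = 0 := by
      have h2 : (((l : ℤ)) : PowerSeries (ZMod l)) = C ((l : ℤ) : ZMod l) := by
        rw [map_intCast]
      rw [h2, Int.cast_natCast, ZMod.natCast_self, map_zero]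
    have h3 : (n : PowerSeries (ZMod l)) = C ((n : ℤ) : ZMod l) := by
      rw [map_intCast]
    rw [map_add, map_mul, rho_C, rho_C, h1, zero_mul, add_zero, h3]
    unfold ld
    rw [derivative_C, zero_mul, map_zero]
  · intro u hu
    rw [key 1 u Polynomial.X (le_refl _) (by omega) (by rw [Polynomial.aeval_X, hu]), rho_X]
    have h1 := coeff_eq_of_cg (show 0 < l - 1 by omega) (ld_Ex (l := l))
    rw [coeff_one, if_pos rfl] at h1
    exact h1
  · intro m u hu hm2 hm
    rw [key m u Polynomial.X (by omega) hm (by rw [Polynomial.aeval_X, hu]), rho_X]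
    have h1 := coeff_eq_of_cg (show m - 1 < l - 1 by omega) (ld_Ex (l := l))
    rw [coeff_one, if_neg (by omega)] at h1
    exact h1
  · intro c
    -- the primitive root
    obtain ⟨gen, hgen⟩ := IsCyclic.exists_generator (α := (ZMod l)ˣ)
    set g : ℕ := (gen : ZMod l).val with hg
    have hgcast : ((g : ℕ) : ZMod l) = gen := ZMod.natCast_zmod_val _
    have hgl : g < l := ZMod.val_lt _
    have hg1 : 1 ≤ g := by
      rcases Nat.eq_zero_or_pos g with h | h
      · exfalso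
        rw [h, Nat.cast_zero] at hgcast
        exact gen.ne_zero hgcast.symm
      · exact h
    have hord : orderOf gen = l - 1 := by
      rw [orderOf_eq_card_of_forall_mem_zpowers hgen, Nat.card_eq_fintype_card,
        ZMod.card_units_eq_totient, Nat.totient_prime hl.out]
    have hgk : ∀ k : ℕ, 1 ≤ k → 2 * k + 3 ≤ l → ((g : ℕ) : ZMod l) ^ (2 * k) - 1 ≠ 0 := by
      intro k hk hk3 h0
      rw [hgcast, sub_eq_zero] at h0
      have h1 : gen ^ (2 * k) = 1 := by
        ext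
        rw [Units.val_pow_eq_pow_val, h0, Units.val_one]
      have h2 := orderOf_dvd_of_pow_eq_one h1
      rw [hord] at h2
      have := Nat.le_of_dvd (by omega) h2
      omega
    -- the cyclotomic unit
    have hcop : g.Coprime l := by
      rw [Nat.coprime_comm, hl.out.coprime_iff_not_dvd]
      intro hd
      have := Nat.le_of_dvd (by omega) hd
      omega
    obtain ⟨ε, hε⟩ := hz.associated_sub_one_pow_sub_one_of_coprime hcop
    have hz1 : z - 1 ≠ 0 := by
      intro h0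
      have h1 := hz.ne_one hl.out.one_lt
      exact h1 (sub_eq_zero.mp h0)
    have hεs : ((ε : Rˣ) : R) = ∑ i ∈ Finset.range g, z ^ i := by
      have h1 := mul_geom_sum z g
      rw [← hε] at h1
      exact (mul_left_cancel₀ hz1 h1).symm
    set P0 : Polynomial ℤ := ∑ i ∈ Finset.range g, Polynomial.X ^ i with hP0
    have hP0z : ∀ y : R, Polynomial.aeval y P0 = ∑ i ∈ Finset.range g, y ^ i := by
      intro y
      rw [hP0, map_sum]
      simp
    have hrho0 : rho l P0 = ∑ i ∈ Finset.range g, (Ex l) ^ i := by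
      rw [hP0, map_sum]
      simp only [map_pow, rho_X]
    have hcc0 : constantCoeff (rho l P0) ≠ 0 := by
      rw [hrho0, KumPhi_geom_cc, hgcast]
      exact gen.ne_zero
    -- conjugates
    choose σ hσz using fun a : (ZMod l)ˣ => hσ (a : ZMod l) a.ne_zero
    have hconj : ∀ (a : (ZMod l)ˣ) (m : ℕ), 1 ≤ m → m + 2 ≤ l →
        φ m (Units.map (σ a : R →* R) ε) = (a : ZMod l) ^ m * coeff (m - 1) (ld (rho l P0)) := by
      intro a m hm1 hm
      rw [key m _ (P0.comp (Polynomial.X ^ (a : ZMod l).val)) hm1 hm (by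
        rw [Polynomial.aeval_comp, map_pow, Polynomial.aeval_X, hP0z, Units.coe_map,
          MonoidHom.coe_coe, hεs, map_sum]
        refine Finset.sum_congr rfl fun i _ => ?_
        rw [map_pow, hσz])]
      have h1 := rho_comp l (a : ZMod l).val P0
      rw [ZMod.natCast_zmod_val] at h1
      have h2 : constantCoeff (rescale (a : ZMod l) (rho l P0)) ≠ 0 := by
        rw [constantCoeff_rescale']
        exact hcc0
      have h3 : constantCoeff (rho l (P0.comp (Polynomial.X ^ (a : ZMod l).val))) ≠ 0 := by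
        have h4 := coeff_eq_of_cg (show 0 < l by omega) h1
        rw [coeff_zero_eq_constantCoeff_apply, coeff_zero_eq_constantCoeff_apply] at h4
        rw [h4]
        exact h2
      have h4 := ld_congr (n := l - 1) h3 h2 (by rw [show l - 1 + 1 = l by omega]; exact h1)
      rw [coeff_eq_of_cg (show m - 1 < l - 1 by omega) h4, KumPhi_coeff_ld_rescale _ hcc0 hm1]
    -- the coefficients
    set γ : ℕ → ZMod l := fun k => coeff (2 * k - 1) (ld (rho l P0)) with hγ
    have hγ0 : ∀ k : ℕ, 1 ≤ k → 2 * k + 3 ≤ l → γ k ≠ 0 := by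
      intro k hk hk3
      have h1 : γ k = (((g : ℕ) : ZMod l) ^ (2 * k) - 1) * coeff (2 * k) (Bs l) := by
        simp only [hγ]
        rw [hrho0]
        exact ld_geom hg1 hgl (by omega) (by omega)
      rw [h1]
      exact mul_ne_zero (hgk k hk hk3) (coeff_Bs_ne_zero l (by omega) (hB k hk (by omega)))
    set K : Finset ℕ := (Finset.range l).filter fun k => 1 ≤ k ∧ 2 * k + 3 ≤ l with hK
    have hmK : ∀ k, k ∈ K ↔ 1 ≤ k ∧ 2 * k + 3 ≤ l := by
      intro k
      rw [hK, Finset.mem_filter, Finset.mem_range]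
      constructor
      · exact fun h => h.2
      · exact fun h => ⟨by omega, h⟩
    set N : (ZMod l)ˣ → ZMod l := fun a =>
      -∑ k' ∈ K, (a : ZMod l) ^ (l - 1 - 2 * k') * (c k' / γ k') with hN
    refine ⟨∏ a : (ZMod l)ˣ, (Units.map (σ a : R →* R) ε) ^ (N a).val, fun k hk hk3 => ?_⟩
    rw [hprod _ _ _ (by omega) (by omega)]
    have h1 : ∀ a : (ZMod l)ˣ, φ (2 * k) ((Units.map (σ a : R →* R) ε) ^ (N a).val) =
        N a * ((a : ZMod l) ^ (2 * k) * γ k) := by
      intro a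
      rw [hpow _ _ _ (by omega) (by omega), hconj a _ (by omega) (by omega),
        ZMod.natCast_zmod_val]
    rw [Finset.sum_congr rfl fun a _ => h1 a]
    have h2 : ∑ a : (ZMod l)ˣ, N a * ((a : ZMod l) ^ (2 * k) * γ k) =
        -∑ k' ∈ K, (∑ a : (ZMod l)ˣ, (a : ZMod l) ^ (l - 1 - 2 * k') * (a : ZMod l) ^ (2 * k)) *
          (c k' / γ k') * γ k := by
      simp only [hN, neg_mul, Finset.sum_mul, Finset.sum_neg_distrib]
      rw [Finset.sum_comm]
      congr 1
      refine Finset.sum_congr rfl fun k' _ => Finset.sum_congr rfl fun a _ => ?_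
      ring
    rw [h2]
    have h3 : ∀ k' ∈ K, (∑ a : (ZMod l)ˣ, (a : ZMod l) ^ (l - 1 - 2 * k') *
        (a : ZMod l) ^ (2 * k)) * (c k' / γ k') * γ k = if k = k' then -c k' else 0 := by
      intro k' hk'
      rw [hmK] at hk'
      rw [KumPhi_sum h5 hk hk3 hk'.1 hk'.2]
      split_ifs with h
      · subst h
        have := hγ0 k hk hk3
        field_simp
      · ring
    rw [Finset.sum_congr rfl h3, Finset.sum_ite_eq, if_pos ((hmK k).mpr ⟨hk, hk3⟩), neg_neg]

end AER
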