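import Pool.Agent.Lib_MP_aeefb1_reg.KumPhi
import Pool.Agent.Lib_MP_aeefb1_reg.Inst1

/-!
# Kummer's lemma from Dirichlet's unit theorem and the Bernoulli numbers

## Proof

Let `φ` be as in `exists_phi` for `R = 𝓞 K`, `z = hζ.toInteger` (`inst_span` gives the polynomials,
`inst_sigma` the automorphisms).  Let `r = NumberField.Units.rank K = (l - 3) / 2`
(`rank = card InfinitePlace - 1`; `K` is totally complex of degree `l - 1`, so there are
`(l - 1)/2` infinite places: Mathlib `IsCyclotomicExtension.Rat...nrComplexPlaces`,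
`nrRealPlaces`), and `u_i = NumberField.Units.fundSystem K i`, `i < r`.  Every unit is
`t * ∏ u_i ^ e_i`, `t` a root of unity (`NumberField.Units.exist_unique_eq_mul_prod`), and the
roots of unity are `± z^a` (`IsCyclotomicExtension.Rat.torsionOrder_eq`, or
`IsPrimitiveRoot.exists_pow_or_neg_mul_pow_of_isOfFinOrder`-like lemmas of
`Mathlib.NumberTheory.NumberField.Cyclotomic`).

(1) For `m ≥ 2` even, `m ≤ l - 3`: `φ m (± z^a) = 0`, so `φ m (t ∏ u_i^e_i) = ∑ e_i φ m u_i`.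
(2) The linear map `A : (Fin r → ZMod l) → (Fin ((l-3)/2) → ZMod l)`,
`(A e) k = ∑_i e_i φ (2(k+1)) u_i` is surjective by the last item of `exists_phi` and (1); both
sides have dimension `(l - 3)/2`, so it is injective
(`LinearMap.injective_iff_surjective_of_finrank_eq_finrank`).
(3) If `u = m` modulo `l`, `u = t ∏ u_i^e_i`: `φ (2k) u = 0`, so `A e = 0`, so `l ∣ e_i`,
`u = t v^l`, `t = ± z^a`; `0 = φ 1 u = φ 1 t + l φ 1 v = a` so `l ∣ a`, `t = ± 1 = (± 1)^l`.
-/

open NumberField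

namespace AER

theorem rank_eq {l : ℕ} [hlp : Fact l.Prime] (h5 : 5 ≤ l) {K : Type} [Field K] [NumberField K]
    [IsCyclotomicExtension {l} ℚ K] : NumberField.Units.rank K = (l - 3) / 2 := by
  unfold NumberField.Units.rank
  rw [InfinitePlace.card_eq_nrRealPlaces_add_nrComplexPlaces,
    IsCyclotomicExtension.Rat.nrRealPlaces_eq_zero (n := l) K (by omega), zero_add,
    IsCyclotomicExtension.Rat.nrComplexPlaces_eq_totient_div_two (n := l),
    Nat.totient_prime hlp.out]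
  omega

private theorem Kummer_odd {l : ℕ} [hlp : Fact l.Prime] (h5 : 5 ≤ l) : Odd l :=
  hlp.out.odd_of_ne_two (by omega)

theorem torsion_eq {l : ℕ} [hlp : Fact l.Prime] (h5 : 5 ≤ l) {K : Type} [Field K]
    [NumberField K] [IsCyclotomicExtension {l} ℚ K] {ζ : K} (hζ : IsPrimitiveRoot ζ l)
    (t : (𝓞 K)ˣ) (ht : t ∈ NumberField.Units.torsion K) :
    ∃ a : ℕ, (t : 𝓞 K) = hζ.toInteger ^ a ∨ (t : 𝓞 K) = - hζ.toInteger ^ a := by
  obtain ⟨n, hnpos, hn⟩ := isOfFinOrder_iff_pow_eq_one.1 ((CommGroup.mem_torsion _).1 ht)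
  have hn' : (((t : 𝓞 K) : K)) ^ n = 1 := by
    have h1 : (((t ^ n : (𝓞 K)ˣ) : 𝓞 K) : K) = 1 := by
      rw [hn]
      simp
    rw [← h1]
    simp
  obtain ⟨r, _, hr⟩ := hζ.exists_pow_or_neg_mul_pow_of_isOfFinOrder (Kummer_odd h5)
    (isOfFinOrder_iff_pow_eq_one.2 ⟨n, hnpos, hn'⟩)
  refine ⟨r, ?_⟩
  rcases hr with h | h
  · left
    ext
    rw [h]
    simp only [map_pow]
    rfl
  · right
    ext
    rw [h]
    simp only [map_pow, map_neg]
    rfl

/-- `φ m` as a homomorphism -/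
private noncomputable def Kummer_hom {G : Type*} [CommGroup G] {l : ℕ} (f : G → ZMod l)
    (h : ∀ u w : G, f (u * w) = f u + f w) : Additive G →+ ZMod l :=
  AddMonoidHom.mk' (fun u : Additive G => f u.toMul) (fun u w => h u.toMul w.toMul)

private theorem Kummer_pow {G : Type*} [CommGroup G] {l : ℕ} (f : G → ZMod l)
    (h : ∀ u w : G, f (u * w) = f u + f w) (u : G) (n : ℕ) : f (u ^ n) = n * f u := by
  have h1 := map_nsmul (Kummer_hom f h) n (Additive.ofMul u)
  rw [nsmul_eq_mul] at h1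
  exact h1

private theorem Kummer_prod {G : Type*} [CommGroup G] {l : ℕ} (f : G → ZMod l)
    (h : ∀ u w : G, f (u * w) = f u + f w) {r : ℕ} (u : Fin r → G) (e : Fin r → ℤ) :
    f (∏ i, u i ^ e i) = ∑ i, (e i : ZMod l) * f (u i) := by
  have h1 := map_sum (Kummer_hom f h) (fun i => e i • Additive.ofMul (u i)) Finset.univ
  have h2 : (∑ i, e i • Additive.ofMul (u i) : Additive G) = Additive.ofMul (∏ i, u i ^ e i) := by
    rw [ofMul_prod]
    rfl
  rw [h2] at h1
  refine Eq.trans h1 (Finset.sum_congr rfl fun i _ => ?_)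
  rw [map_zsmul, zsmul_eq_mul]
  rfl

/-- **Kummer's lemma** -/
theorem kummer_lemma {l : ℕ} [hlp : Fact l.Prime] (h5 : 5 ≤ l) {K : Type} [Field K]
    [NumberField K] [IsCyclotomicExtension {l} ℚ K] {ζ : K} (hζ : IsPrimitiveRoot ζ l)
    (hB : ∀ k : ℕ, 1 ≤ k → 2 * k ≤ l - 3 → ¬ (l : ℤ) ∣ (bernoulli (2 * k)).num)
    (u : (𝓞 K)ˣ) (m : ℤ) (hu : (l : 𝓞 K) ∣ (u : 𝓞 K) - m) : ∃ v : (𝓞 K)ˣ, u = v ^ l := by
  classical
  have hodd := Kummer_odd (l := l) h5
  have hz : IsPrimitiveRoot hζ.toInteger l := hζ.toInteger_isPrimitiveRoot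
  have hsurj : ∀ x : 𝓞 K, ∃ P : Polynomial ℤ, Polynomial.aeval hζ.toInteger P = x := by
    intro x
    obtain ⟨v, hv⟩ := inst_span hζ x
    refine ⟨∑ i, Polynomial.C (v i) * Polynomial.X ^ i.val, ?_⟩
    rw [map_sum, hv]
    refine Finset.sum_congr rfl fun i _ => ?_
    rw [map_mul, map_pow, Polynomial.aeval_X, Polynomial.aeval_C]
    simp
  have hσ : ∀ a : ZMod l, a ≠ 0 → ∃ σ : 𝓞 K →+* 𝓞 K, σ hζ.toInteger = hζ.toInteger ^ a.val := by
    intro a ha
    obtain ⟨σ, hσ, _⟩ := inst_sigma hζ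
    exact ⟨σ a, hσ a ha⟩
  obtain ⟨φ, h1, h2, h3, h4, h6⟩ := exists_phi (l := l) h5 hz hsurj hσ hB
  -- the unit `z`
  have hzu : IsUnit hζ.toInteger := hz.isUnit (by omega)
  obtain ⟨zu, hzu'⟩ := hzu
  have hneg : ∀ k : ℕ, 1 ≤ k → k + 2 ≤ l → φ k (-1) = 0 := by
    intro k hk hk'
    refine h2 k (-1) (-1) hk hk' ?_
    simp
  have htor : ∀ t : (𝓞 K)ˣ, t ∈ NumberField.Units.torsion K → ∃ a : ℕ,
      (t = zu ^ a ∨ t = -1 * zu ^ a) ∧
      ∀ k : ℕ, 1 ≤ k → k + 2 ≤ l → φ k t = a * φ k zu := by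
    intro t ht
    obtain ⟨a, ha⟩ := torsion_eq h5 hζ t ht
    have ha' : t = zu ^ a ∨ t = -1 * zu ^ a := by
      rcases ha with ha | ha
      · left
        apply Units.ext
        rw [ha, ← hzu']
        simp
      · right
        apply Units.ext
        rw [ha, ← hzu']
        simp
    refine ⟨a, ha', fun k hk hk' => ?_⟩
    have hp := Kummer_pow (φ k) (fun u w => h1 k u w hk hk') zu a
    rcases ha' with ha' | ha'
    · rw [ha', hp]
    · rw [ha', h1 k _ _ hk hk', hneg k hk hk', zero_add, hp]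
  -- values of a unit
  have hval : ∀ w : (𝓞 K)ˣ, ∃ (t : (𝓞 K)ˣ) (_ : t ∈ NumberField.Units.torsion K)
      (e : Fin (NumberField.Units.rank K) → ℤ),
      w = t * ∏ i, (NumberField.Units.fundSystem K i) ^ (e i) := by
    intro w
    obtain ⟨⟨t, e⟩, h, _⟩ := NumberField.Units.exist_unique_eq_mul_prod K w
    exact ⟨t, t.2, e, h⟩
  -- the matrix
  set M : Matrix (Fin ((l - 3) / 2)) (Fin (NumberField.Units.rank K)) (ZMod l) :=
    fun k i => φ (2 * (k.val + 1)) (NumberField.Units.fundSystem K i) with hM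
  have hMval : ∀ (t : (𝓞 K)ˣ) (_ : t ∈ NumberField.Units.torsion K)
      (e : Fin (NumberField.Units.rank K) → ℤ) (k : Fin ((l - 3) / 2)),
      φ (2 * (k.val + 1)) (t * ∏ i, (NumberField.Units.fundSystem K i) ^ (e i)) =
        M.mulVec (fun i => (e i : ZMod l)) k := by
    intro t ht e k
    have hk := k.isLt
    have hk1 : 1 ≤ 2 * (k.val + 1) := by omega
    have hk2 : 2 * (k.val + 1) + 2 ≤ l := by omega
    obtain ⟨a, _, ha⟩ := htor t ht
    rw [h1 _ _ _ hk1 hk2, ha _ hk1 hk2, h4 _ zu hzu' (by omega) hk2, mul_zero, zero_add,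
      Kummer_prod (φ (2 * (k.val + 1))) (fun u w => h1 _ u w hk1 hk2)]
    unfold Matrix.mulVec dotProduct
    exact Finset.sum_congr rfl fun i _ => mul_comm _ _
  have hsur : Function.Surjective M.mulVecLin := by
    intro c
    obtain ⟨w, hw⟩ := h6 (fun k => if h : k - 1 < (l - 3) / 2 then c ⟨k - 1, h⟩ else 0)
    obtain ⟨t, ht, e, he⟩ := hval w
    refine ⟨fun i => (e i : ZMod l), ?_⟩
    funext k
    have hk := k.isLt
    rw [Matrix.mulVecLin_apply, ← hMval t ht e k, ← he, hw (k.val + 1) (by omega) (by omega)]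
    have hk3 : k.val + 1 - 1 < (l - 3) / 2 := by omega
    rw [dif_pos hk3]
    rfl
  have hinj : Function.Injective M.mulVecLin := by
    refine (LinearMap.injective_iff_surjective_of_finrank_eq_finrank ?_).2 hsur
    rw [Module.finrank_fin_fun, Module.finrank_fin_fun, rank_eq h5]
  -- the unit `u`
  obtain ⟨t, ht, e, he⟩ := hval u
  have hAe : M.mulVecLin (fun i => (e i : ZMod l)) = 0 := by
    funext k
    have hk := k.isLt
    rw [Matrix.mulVecLin_apply, ← hMval t ht e k, ← he]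
    exact h2 _ u m (by omega) (by omega) hu
  have he0 : (fun i => (e i : ZMod l)) = 0 := hinj (by rw [hAe, map_zero])
  have hed : ∀ i, ∃ f : ℤ, e i = f * l := by
    intro i
    have h := congrFun he0 i
    have h' : ((e i : ℤ) : ZMod l) = 0 := h
    rw [ZMod.intCast_zmod_eq_zero_iff_dvd] at h'
    obtain ⟨f, hf⟩ := h'
    exact ⟨f, by rw [hf, mul_comm]⟩
  choose f hf using hed
  set v : (𝓞 K)ˣ := ∏ i, (NumberField.Units.fundSystem K i) ^ (f i) with hv
  have hvl : ∏ i, (NumberField.Units.fundSystem K i) ^ (e i) = v ^ l := by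
    rw [hv, ← Finset.prod_pow]
    refine Finset.prod_congr rfl fun i _ => ?_
    rw [hf i, zpow_mul, zpow_natCast]
  rw [hvl] at he
  obtain ⟨a, ha', ha⟩ := htor t ht
  have hφ1 : φ 1 u = a := by
    rw [he, h1 1 _ _ le_rfl (by omega), ha 1 le_rfl (by omega), h3 zu hzu',
      Kummer_pow (φ 1) (fun u w => h1 1 u w le_rfl (by omega)), mul_one,
      CharP.cast_eq_zero (ZMod l) l, zero_mul, add_zero]
  have hφ0 : φ 1 u = 0 := h2 1 u m le_rfl (by omega) hu
  have hla : l ∣ a := by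
    rw [← ZMod.natCast_eq_zero_iff, ← hφ1, hφ0]
  have hza : zu ^ a = 1 := by
    apply Units.ext
    rw [Units.val_pow_eq_pow_val, hzu', Units.val_one]
    exact (hz.pow_eq_one_iff_dvd a).2 hla
  rw [hza] at ha'
  rcases ha' with h | h
  · exact ⟨v, by rw [he, h, one_mul]⟩
  · refine ⟨-1 * v, ?_⟩
    rw [mul_pow, hodd.neg_one_pow, he, h, mul_one]

end AER
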