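import Pool.Agent.Lib_MP_aeefb1_reg.SecondZ
import Pool.Agent.Lib_MP_aeefb1_reg.Descent

/-!
MP_aeefb1_nt: `x ^ l + y ^ l = p ^ s z ^ l` has no solutions in coprime integers `x`, `y`,
`z ≠ 0`, `l ∤ s`.
-/

open Finset

namespace AER

variable {l : ℕ} [hlp : Fact l.Prime] {R : Type} [CommRing R] [IsDedekindDomain R]
  [CharZero R] [Module.Free ℤ R] [Module.Finite ℤ R]

theorem no_int_sol (Q : Cyc l R)
    (hB : ∀ k : ℕ, 1 ≤ k → 2 * k ≤ l - 3 → ¬ (l : ℤ) ∣ (bernoulli (2 * k)).num)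
    {p s : ℕ} (hp : p.Prime) (hp2' : p ≠ 2) (hpl : p ≠ l) (hp1 : (p : ZMod l) ≠ 1)
    (hp2 : (p : ZMod (l ^ 2)) ^ (l - 1) ≠ 1) (hs : ¬ l ∣ s) {x y z : ℤ} (hxy : IsCoprime x y)
    (hz : z ≠ 0) (h : x ^ l + y ^ l = (p : ℤ) ^ s * z ^ l) : False := by
  have h5 := Q.five_le
  have hs0 : s ≠ 0 := fun h => hs (h ▸ dvd_zero l)
  by_cases hlz : (l : ℤ) ∣ z
  · exact second_int Q hp hpl hp1 s hxy hz hlz h
  by_cases hly : (l : ℤ) ∣ y
  · exact second_b Q hp hpl hp1 hp2 hs hxy hly h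
  by_cases hlx : (l : ℤ) ∣ x
  · exact second_b Q hp hpl hp1 hp2 hs hxy.symm hlx (by rw [add_comm]; exact h)
  -- the first case
  have hpz : Prime (l : ℤ) := Nat.prime_iff_prime_int.mp hlp.out
  have hlam : ¬ Q.lam ∣ (x : R) + y := by
    rw [← Q.lam_dvd_pow_add]
    have e : (x : R) ^ l + (y : R) ^ l = (((p : ℤ) ^ s * z ^ l : ℤ) : R) := by
      rw [← h]; push_cast; ring
    rw [e]
    apply Q.not_lam_dvd_int
    intro hd
    rcases hpz.dvd_or_dvd hd with h1 | h1
    · have h2 := hpz.dvd_of_dvd_pow h1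
      have h3 : l ∣ p := by exact_mod_cast h2
      exact hpl ((Nat.prime_dvd_prime_iff_eq hlp.out hp).mp h3).symm
    · exact hlz (hpz.dvd_of_dvd_pow h1)
  have hcop : IsCoprime (x : R) (y : R) := by
    have := hxy.map (Int.castRingHom R)
    simpa using this
  have hspan : Ideal.span {(x : R) ^ l + (y : R) ^ l}
      = Ideal.span {(p : R)} ^ s * Ideal.span {(z : R)} ^ l := by
    rw [Ideal.span_singleton_pow, Ideal.span_singleton_pow,
      Ideal.span_singleton_mul_span_singleton]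
    congr 2
    have := congrArg (Int.cast (R := R)) h
    push_cast at this
    exact this
  obtain ⟨S⟩ := exists_splitting Q hp hpl s hcop hlam hspan
  have hpxy : (p : ℤ) ∣ x + y := by
    apply dvd_add_of_dvd_pow_add (l := l) (by omega) hp hp1 hxy
    rw [h]
    exact (dvd_pow_self _ hs0).mul_right _
  have hpR : (p : R) ∣ (x : R) + y := by
    obtain ⟨t, ht⟩ := hpxy
    exact ⟨(t : R), by have := congrArg (Int.cast (R := R)) ht; push_cast at this; exact this⟩
  have hF := F_zero_of_dvd hp hs0 S hcop hlam hpR 1 one_ne_zero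
  obtain ⟨u, w, hu, -⟩ := S.exists_gen hF
  rw [Q.e_one] at hu
  have hxy' := first_classical Q hlx hly hu
  refine descent Q hB hp hp2' hpl hp1 hp2 hs _ (X := (x : R)) (Y := (y : R))
    (by simp) (by simp) hcop ?_ (Q.not_lam_dvd_int hlx) hspan rfl
  have := Q.lam_dvd_of_l_dvd hxy'
  push_cast at this
  exact this

end AER
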