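import Pool.Agent.Lib_MP_aeefb1_reg.Second1
import Pool.Agent.Lib_MP_aeefb1_reg.AbsNorm

/-!
MP_aeefb1_nt: the second case, `l ∣ z`: `(X ^ l + Y ^ l) = (λ) ^ (l M) P ^ s J ^ l` is impossible
for `M ≥ 1`, where `P ∣ (p)`.
-/

open Finset

namespace AER

variable {l : ℕ} [hlp : Fact l.Prime] {R : Type} [CommRing R] [IsDedekindDomain R]
  [CharZero R] [Module.Free ℤ R] [Module.Finite ℤ R]

/-- a divisor of `(p)` is coprime to `(λ)` -/
private theorem coprime_of_dvd_p (Q : Cyc l R) {p : ℕ} (hp : p.Prime) (hpl : p ≠ l)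
    {P : Ideal R} (hP : P ∣ Ideal.span {(p : R)}) : IsCoprime P (Ideal.span {Q.lam}) := by
  have h1 : ¬ Q.lam ∣ (p : R) := by
    have h2 : ¬ (l : ℤ) ∣ (p : ℤ) := by
      intro h
      have h3 : l ∣ p := by exact_mod_cast h
      exact hpl ((Nat.prime_dvd_prime_iff_eq hlp.out hp).1 h3).symm
    have h3 := Q.not_lam_dvd_int h2
    exact_mod_cast h3
  have h2 : IsCoprime (Ideal.span {(p : R)}) (Ideal.span {Q.lam}) := by
    rw [Ideal.isCoprime_span_singleton_iff]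
    exact second1_coprime_lam Q h1
  exact h2.of_isCoprime_of_dvd_left hP

/-- Two of the ideals `A_q`, `q ≠ 0`, are trivial.
Proof.  `A_q ∣ P ∣ (p)`, so `N A_q = p ^ F_q` with `∑ F_q ≤ l - 1` (`Q.norm_int`), and
`p ^ F_q = 1` modulo `l` (`Q.absNorm_mod`, `p ≠ l`), so `F_q ≠ 1`.  At most `(l - 1) / 2` of the
`F_q` are not `0`, and `l - 1 - (l - 1) / 2 ≥ 2`. -/
theorem second_good (Q : Cyc l R) {p : ℕ} (hp : p.Prime) (hpl : p ≠ l) (hp1 : (p : ZMod l) ≠ 1)
    {P : Ideal R} (hP : P ∣ Ideal.span {(p : R)}) {A : ZMod l → Ideal R} (hA : ∏ q, A q = P) :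
    ∃ i j : ZMod l, i ≠ 0 ∧ j ≠ 0 ∧ i ≠ j ∧ A i = 1 ∧ A j = 1 := by
  have h5 := Q.five_le
  have hN : Ideal.absNorm (Ideal.span {(p : R)}) = p ^ (l - 1) := by
    rw [Ideal.absNorm_span_singleton]
    have h1 := Q.norm_int (p : ℤ)
    rw [Int.cast_natCast] at h1
    rw [h1, Int.natAbs_pow, Int.natAbs_natCast]
  have hPN : Ideal.absNorm P ∣ p ^ (l - 1) := by
    rw [← hN]
    exact map_dvd Ideal.absNorm hP
  have hAP : ∀ q, A q ∣ P := fun q => by rw [← hA]; exact dvd_prod_of_mem _ (mem_univ q)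
  have hF : ∀ q, ∃ F, Ideal.absNorm (A q) = p ^ F := by
    intro q
    obtain ⟨F, -, hF⟩ := (Nat.dvd_prime_pow hp).1 ((map_dvd Ideal.absNorm (hAP q)).trans hPN)
    exact ⟨F, hF⟩
  choose F hF using hF
  have hsum : ∑ q, F q ≤ l - 1 := by
    rw [← hA, map_prod] at hPN
    simp_rw [hF] at hPN
    rw [prod_pow_eq_pow_sum] at hPN
    exact (Nat.pow_dvd_pow_iff_le_right hp.one_lt).1 hPN
  have hF1 : ∀ q, F q ≠ 1 := by
    intro q h1
    have h2 := Q.absNorm_mod (coprime_of_dvd_p Q hp hpl ((hAP q).trans hP))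
    rw [hF, h1, pow_one] at h2
    exact hp1 h2
  have hF0 : ∀ q, F q = 0 → A q = 1 := by
    intro q h0
    have h1 := hF q
    rw [h0, pow_zero, Ideal.absNorm_eq_one_iff] at h1
    rw [h1, Ideal.one_eq_top]
  set T := (univ.erase (0 : ZMod l)).filter (fun q => F q = 0) with hT
  have hcard : 1 < T.card := by
    by_contra hcon
    push Not at hcon
    set T' := (univ.erase (0 : ZMod l)).filter (fun q => ¬ F q = 0) with hT'
    have h1 : T.card + T'.card = l - 1 := by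
      rw [hT, hT', card_filter_add_card_filter_not, card_erase_of_mem (mem_univ _), card_univ,
        ZMod.card]
    have h2 : T'.card * 2 ≤ ∑ q ∈ T', F q := by
      have h3 := card_nsmul_le_sum T' F 2 (fun q hq => by
        rw [hT', mem_filter] at hq
        have := hF1 q
        omega)
      simpa using h3
    have h3 : ∑ q ∈ T', F q ≤ ∑ q, F q := sum_le_sum_of_subset (subset_univ _)
    omega
  obtain ⟨i, hi, j, hj, hij⟩ := one_lt_card.1 hcard
  rw [hT, mem_filter, mem_erase] at hi hj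
  exact ⟨i, j, hi.1.1, hj.1.1, hij, hF0 i hi.2, hF0 j hj.2⟩

/-- a generator of `b`, where `(x) = (λ) b ^ l` -/
private theorem gen_of_ideal (Q : Cyc l R) {x : R} {b : Ideal R}
    (h : Ideal.span {x} = Ideal.span {Q.lam} * b ^ l) :
    ∃ (u : Rˣ) (V : R), x = Q.lam * (u * V ^ l) ∧ b = Ideal.span {V} := by
  have hlam0 : (Ideal.span {Q.lam} : Ideal R) ≠ 0 := by
    rw [Ne, Ideal.zero_eq_bot, Ideal.span_singleton_eq_bot]
    exact Q.lam_ne_zero
  have h1 : Q.lam ∣ x := by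
    apply Ideal.span_singleton_le_span_singleton.1
    rw [h]
    exact Ideal.mul_le_left
  obtain ⟨c, rfl⟩ := h1
  rw [← Ideal.span_singleton_mul_span_singleton] at h
  have h2 := mul_left_cancel₀ hlam0 h
  obtain ⟨V, hV⟩ := Q.princ b (by rw [← h2]; exact ⟨⟨c, rfl⟩⟩)
  have hV' : b = Ideal.span {V} := hV
  rw [hV', Ideal.span_singleton_pow, Ideal.span_singleton_eq_span_singleton] at h2
  obtain ⟨u, hu⟩ := h2.symm
  exact ⟨u, V, by rw [← hu]; ring, hV'⟩

/-- One step of the descent.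
Proof.  Twist `Y` by `second_twist` (`(z^i Y)^l = Y^l`), apply `second_ideals` and `second_good`.
`X + z^i Y = λ u_i V_i ^ l`, `X + z^j Y = λ u_j V_j ^ l` by `Q.princ` (the quotient by `λ`
generates `B_i ^ l`).  The relation
`(1 - z^j) (X + z^i Y) - (1 - z^i) (X + z^j Y) = (z^i - z^j) (X + Y)` divided by `λ ^ 2` and a
unit gives `V_i ^ l + ε V_j ^ l = t` with `(t) = (λ) ^ (l (M - 1)) A_0 ^ s B_0 ^ l`; as
`l (M - 1) ≥ l - 1`, modulo `l` the unit `ε` is an integer (`Q.pow_l_int`), so an `l`-th power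
`ω ^ l` by `Q.kummer`; take `X' = V_i`, `Y' = ω V_j`, `P' = A_0`, `J' = B_0`. -/
theorem second_step (Q : Cyc l R) {p : ℕ} (hp : p.Prime) (hpl : p ≠ l) (hp1 : (p : ZMod l) ≠ 1)
    (s M : ℕ) (hM : 1 ≤ M) {X Y : R} {P J : Ideal R} (hXY : IsCoprime X Y)
    (hX : ¬ Q.lam ∣ X) (hY : ¬ Q.lam ∣ Y) (hP : P ∣ Ideal.span {(p : R)})
    (hJ : IsCoprime J (Ideal.span {Q.lam}))
    (h : Ideal.span {X ^ l + Y ^ l} = Ideal.span {Q.lam} ^ (l * M) * P ^ s * J ^ l) :
    2 ≤ M ∧ ∃ (X' Y' : R) (P' J' : Ideal R), IsCoprime X' Y' ∧ ¬ Q.lam ∣ X' ∧ ¬ Q.lam ∣ Y' ∧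
      P' ∣ Ideal.span {(p : R)} ∧ IsCoprime J' (Ideal.span {Q.lam}) ∧
      Ideal.span {X' ^ l + Y' ^ l} = Ideal.span {Q.lam} ^ (l * (M - 1)) * P' ^ s * J' ^ l := by
  have h5 := Q.five_le
  have hlam0 : (Ideal.span {Q.lam} : Ideal R) ≠ 0 := by
    rw [Ne, Ideal.zero_eq_bot, Ideal.span_singleton_eq_bot]
    exact Q.lam_ne_zero
  have hlamdvd : Q.lam ∣ X ^ l + Y ^ l := by
    apply Ideal.span_singleton_le_span_singleton.1
    rw [h, mul_assoc]
    have h1 : l * M = l * M - 1 + 1 := by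
      have : 0 < l * M := Nat.mul_pos (by omega) (by omega)
      omega
    rw [h1, pow_succ', mul_assoc]
    exact Ideal.mul_le_left
  obtain ⟨k, hk⟩ := second_twist Q hY hlamdvd
  -- replace `Y` by `z^k Y`
  set Y₁ := Q.e k * Y with hY₁
  have hXY₁ : IsCoprime X Y₁ := (isCoprime_mul_unit_left_right (Q.isUnit_e k) X Y).2 hXY
  have hlY₁ : ¬ Q.lam ∣ Y₁ := fun h' => hY ((Q.isUnit_e k).dvd_mul_left.1 h')
  have hYl : Y₁ ^ l = Y ^ l := by
    rw [hY₁, mul_pow, Q.e_pow, CharP.cast_eq_zero, zero_mul, Q.e_zero, one_mul]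
  rw [← hYl] at h
  obtain ⟨hM2, A, B, hq, h0, hA, hB⟩ :=
    second_ideals Q hM hXY₁ hlY₁ hk (coprime_of_dvd_p Q hp hpl hP) hJ h
  refine ⟨hM2, ?_⟩
  obtain ⟨i, j, hi, hj, hij, hAi, hAj⟩ := second_good Q hp hpl hp1 hP hA
  have hqi := hq i hi
  have hqj := hq j hj
  rw [hAi, one_pow, one_mul] at hqi
  rw [hAj, one_pow, one_mul] at hqj
  obtain ⟨u, V, huV, hBV⟩ := gen_of_ideal Q hqi
  obtain ⟨t, W, htW, hBW⟩ := gen_of_ideal Q hqj
  obtain ⟨a, ha⟩ := Q.assoc_one_sub hi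
  obtain ⟨b, hb⟩ := Q.assoc_one_sub hj
  obtain ⟨d, hd⟩ := Q.assoc_sub hij
  -- the relation
  have hrel : Q.lam * (b * u * V ^ l - a * t * W ^ l) = d * (X + Y₁) := by
    apply mul_left_cancel₀ Q.lam_ne_zero
    linear_combination (X + Q.e i * Y₁) * hb - (X + Q.e j * Y₁) * ha - (X + Y₁) * hd
      - (Q.lam * b) * huV + (Q.lam * a) * htW
  -- `V`, `W` are prime to `λ` and coprime
  have hnot : ∀ (q : ZMod l) (V : R), B q = Ideal.span {V} → ¬ Q.lam ∣ V := by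
    intro q V hBV h'
    have h1 : Ideal.span {Q.lam} ∣ J := by
      rw [← hB]
      refine dvd_trans ?_ (dvd_prod_of_mem _ (mem_univ q))
      rw [hBV]
      exact Ideal.dvd_iff_le.2 (Ideal.span_singleton_le_span_singleton.2 h')
    exact second1_not_dvd Q hJ h1
  have hV := hnot i V hBV
  have hW := hnot j W hBW
  have hVW : IsCoprime V W := by
    have h1 : (u : R) * V ^ l - t * W ^ l = d * Y₁ := by
      apply mul_left_cancel₀ Q.lam_ne_zero
      linear_combination -huV + htW - Y₁ * hd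
    have h2 : Q.e i * (t * W ^ l) - Q.e j * (u * V ^ l) = d * X := by
      apply mul_left_cancel₀ Q.lam_ne_zero
      linear_combination -Q.e i * htW + Q.e j * huV - X * hd
    obtain ⟨α, β, hαβ⟩ := hXY₁
    have hl : l = l - 1 + 1 := by omega
    have hdd : (↑d⁻¹ : R) * d = 1 := d.inv_mul
    have e1 : V ^ l = V ^ (l - 1) * V := by rw [← pow_succ, ← hl]
    have e2 : W ^ l = W ^ (l - 1) * W := by rw [← pow_succ, ← hl]
    rw [e1, e2] at h1 h2
    refine ⟨(↑d⁻¹ : R) * (-α * Q.e j * u * V ^ (l - 1) + β * u * V ^ (l - 1)),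
      (↑d⁻¹ : R) * (α * Q.e i * t * W ^ (l - 1) - β * t * W ^ (l - 1)), ?_⟩
    linear_combination hαβ + (↑d⁻¹ : R) * α * h2 + (↑d⁻¹ : R) * β * h1
      + (α * X + β * Y₁) * hdd
  -- divide by a unit
  set ε : Rˣ := -(a * t * (b * u)⁻¹) with hε
  have hεeq : ((b * u : Rˣ) : R) * (V ^ l + ε * W ^ l) = b * u * V ^ l - a * t * W ^ l := by
    have h1 : ((b * u : Rˣ) : R) * (ε : R) = -(a * t : R) := by
      rw [hε, ← Units.val_mul]
      have : b * u * -(a * t * (b * u)⁻¹) = -(a * t) := by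
        rw [mul_neg, mul_comm (b * u), mul_assoc, inv_mul_cancel, mul_one]
      rw [this]
      simp
    rw [mul_add, ← mul_assoc, h1]
    push_cast
    ring
  have hspan : Ideal.span {V ^ l + ε * W ^ l} =
      Ideal.span {Q.lam} ^ (l * (M - 1)) * A 0 ^ s * B 0 ^ l := by
    apply mul_left_cancel₀ hlam0
    have h1 : Ideal.span {Q.lam} * Ideal.span {V ^ l + ε * W ^ l} = Ideal.span {X + Y₁} := by
      rw [Ideal.span_singleton_mul_span_singleton, Ideal.span_singleton_eq_span_singleton]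
      refine ⟨b * u * d⁻¹, ?_⟩
      have h2 : Q.lam * (V ^ l + ε * W ^ l) * ((b * u * d⁻¹ : Rˣ) : R)
          = (Q.lam * (((b * u : Rˣ) : R) * (V ^ l + ε * W ^ l))) * ((d⁻¹ : Rˣ) : R) := by
        push_cast; ring
      rw [h2, hεeq, hrel]
      have : (d : R) * (X + Y₁) * ((d⁻¹ : Rˣ) : R) = (X + Y₁) * (((d⁻¹ : Rˣ) : R) * d) := by ring
      rw [this, d.inv_mul, mul_one]
    rw [h1, h0, pow_succ]
    ring
  -- the unit `ε` is an integer modulo `l`
  have hldvd : (l : R) ∣ V ^ l + ε * W ^ l := by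
    rw [Q.l_dvd_iff]
    have h1 : Q.lam ^ (l * (M - 1)) ∣ V ^ l + ε * W ^ l := by
      apply Ideal.span_singleton_le_span_singleton.1
      rw [hspan, ← Ideal.span_singleton_pow, mul_assoc]
      exact Ideal.mul_le_left
    refine (pow_dvd_pow _ ?_).trans h1
    have : l * 1 ≤ l * (M - 1) := Nat.mul_le_mul_left _ (by omega)
    omega
  obtain ⟨m, hm, hmV⟩ := Q.pow_l_int V
  obtain ⟨n, hn, hnW⟩ := Q.pow_l_int W
  have hnl : ¬ (l : ℤ) ∣ n := fun h' => hW (by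
    have e : W = (W - n) + n := by ring
    rw [e]
    exact dvd_add hnW (Q.lam_dvd_of_l_dvd h'))
  have hcopn : IsCoprime n (l : ℤ) := by
    rw [isCoprime_comm]
    exact (Nat.prime_iff_prime_int.mp hlp.out).coprime_iff_not_dvd.mpr hnl
  obtain ⟨x, y, hxy⟩ := hcopn
  have hkum : (l : R) ∣ (ε : R) - ((-(x * m) : ℤ) : R) := by
    have hxy' : (x : R) * n + y * l = 1 := by exact_mod_cast congrArg (fun t : ℤ => (t : R)) hxy
    have e : (ε : R) - ((-(x * m) : ℤ) : R) = x * (V ^ l + ε * W ^ l) - x * (V ^ l - m)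
        - (x * ε) * (W ^ l - n) + (y * ε) * l := by
      push_cast
      linear_combination (-(ε : R)) * hxy'
    rw [e]
    exact dvd_add (dvd_sub (dvd_sub (hldvd.mul_left _) (hm.mul_left _)) (hn.mul_left _))
      (Dvd.intro_left _ rfl)
  obtain ⟨ω, hω⟩ := Q.kummer ε _ hkum
  refine ⟨V, ω * W, A 0, B 0, (isCoprime_mul_unit_left_right ω.isUnit V W).2 hVW, hV,
    fun h' => hW ((Units.dvd_mul_left).1 h'), ?_, ?_, ?_⟩
  · rw [← hA] at hP
    exact (dvd_prod_of_mem _ (mem_univ (0 : ZMod l))).trans hP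
  · rw [← hB] at hJ
    exact hJ.of_isCoprime_of_dvd_left (dvd_prod_of_mem _ (mem_univ (0 : ZMod l)))
  · rw [← hspan, mul_pow, hω]
    push_cast
    rfl

theorem second_case (Q : Cyc l R) {p : ℕ} (hp : p.Prime) (hpl : p ≠ l) (hp1 : (p : ZMod l) ≠ 1)
    (s M : ℕ) (hM : 1 ≤ M) {X Y : R} {P J : Ideal R} (hXY : IsCoprime X Y)
    (hX : ¬ Q.lam ∣ X) (hY : ¬ Q.lam ∣ Y) (hP : P ∣ Ideal.span {(p : R)})
    (hJ : IsCoprime J (Ideal.span {Q.lam}))
    (h : Ideal.span {X ^ l + Y ^ l} = Ideal.span {Q.lam} ^ (l * M) * P ^ s * J ^ l) :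
    False := by
  induction M generalizing X Y P J with
  | zero => omega
  | succ M ih =>
    obtain ⟨h2, X', Y', P', J', h3, h4, h5, h6, h7, h8⟩ :=
      second_step Q hp hpl hp1 s (M + 1) hM hXY hX hY hP hJ h
    exact ih (by omega) h3 h4 h5 h6 h7 (by simpa using h8)

end AER
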