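import Pool.Agent.Lib_MP_aeefb1_reg.Elem2
import Pool.Agent.Lib_MP_aeefb1_reg.Split

/-!
MP_aeefb1_nt: the second case, the factorisation into ideals.
-/

open Finset

namespace AER

variable {l : ℕ} [hlp : Fact l.Prime] {R : Type} [CommRing R] [IsDedekindDomain R]
  [CharZero R] [Module.Free ℤ R] [Module.Finite ℤ R]

/-- If `λ ∣ X ^ l + Y ^ l` and `λ` does not divide `Y` then, for some `i`, `λ ^ 2` divides
`X + z ^ i Y`. (`λ ∣ X + Y` by `Q.lam_dvd_pow_add`; `X + Y = λ t`; `z^i ≡ 1 - i λ` modulo `λ^2`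
by `Q.lam_sq_dvd_zpow`; `t ≡ m`, `Y ≡ n` modulo `λ`, solve `m = i n` modulo `l`.) -/
theorem second_twist (Q : Cyc l R) {X Y : R} (hY : ¬ Q.lam ∣ Y) (h : Q.lam ∣ X ^ l + Y ^ l) :
    ∃ i : ZMod l, Q.lam ^ 2 ∣ X + Q.e i * Y := by
  obtain ⟨t, ht⟩ := Q.lam_dvd_pow_add.1 h
  obtain ⟨m, hm⟩ := Q.exists_int t
  obtain ⟨n, hn⟩ := Q.exists_int Y
  have hn0 : (n : ZMod l) ≠ 0 := by
    rw [Ne, ZMod.intCast_zmod_eq_zero_iff_dvd]
    intro h'
    apply hY
    have e : Y = (Y - n) + n := by ring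
    rw [e]
    exact dvd_add hn (Q.lam_dvd_of_l_dvd h')
  refine ⟨(m : ZMod l) / (n : ZMod l), ?_⟩
  set i : ZMod l := (m : ZMod l) / (n : ZMod l) with hi
  have h1 : (l : ℤ) ∣ m - (i.val : ℤ) * n := by
    rw [← ZMod.intCast_zmod_eq_zero_iff_dvd]
    push_cast
    rw [ZMod.natCast_zmod_val, hi]
    field_simp
    ring
  have h2 : Q.lam ∣ t - (i.val : R) * Y := by
    have e : t - (i.val : R) * Y = (t - m) - (i.val : R) * (Y - n)
        + ((m - (i.val : ℤ) * n : ℤ) : R) := by push_cast; ring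
    rw [e]
    exact dvd_add (dvd_sub hm (hn.mul_left _)) (Q.lam_dvd_of_l_dvd h1)
  have e : X + Q.e i * Y = Q.lam * (t - (i.val : R) * Y)
      + (Q.e i - (1 - (i.val : R) * Q.lam)) * Y := by
    linear_combination ht
  rw [e]
  refine dvd_add ?_ ((Q.lam_sq_dvd_zpow i.val).mul_right _)
  rw [pow_two]
  exact mul_dvd_mul_left _ h2

/-- elements prime to `λ` are coprime to `λ` -/
theorem second1_coprime_lam (Q : Cyc l R) {x : R} (h : ¬ Q.lam ∣ x) : IsCoprime x Q.lam := by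
  obtain ⟨m, hm⟩ := Q.exists_int x
  have hml : ¬ (l : ℤ) ∣ m := fun h' => h (by
    have e : x = (x - m) + m := by ring
    rw [e]
    exact dvd_add hm (Q.lam_dvd_of_l_dvd h'))
  have h1 : IsCoprime m (l : ℤ) := by
    rw [isCoprime_comm]
    exact (Nat.prime_iff_prime_int.mp hlp.out).coprime_iff_not_dvd.mpr hml
  have h2 : IsCoprime (m : R) (l : R) := by
    obtain ⟨a, b, hab⟩ := h1
    refine ⟨(a : R), (b : R), ?_⟩
    exact_mod_cast congrArg (fun t : ℤ => (t : R)) hab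
  have h3 : IsCoprime (m : R) Q.lam := h2.of_isCoprime_of_dvd_right Q.lam_dvd_l
  obtain ⟨t, ht⟩ := hm
  have e : x = m + t * Q.lam := by linear_combination ht
  rw [e]
  exact (IsCoprime.add_mul_right_left_iff).2 h3

/-- an ideal coprime to `(λ)` is not zero -/
theorem second1_ne_zero (Q : Cyc l R) {P : Ideal R} (hP : IsCoprime P (Ideal.span {Q.lam})) :
    P ≠ 0 := by
  rintro rfl
  rw [isCoprime_zero_left, Ideal.isUnit_iff, Ideal.span_singleton_eq_top] at hP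
  exact Q.not_isUnit_lam hP

theorem second1_not_dvd (Q : Cyc l R) {P : Ideal R} (hP : IsCoprime P (Ideal.span {Q.lam})) :
    ¬ Ideal.span {Q.lam} ∣ P := by
  intro h
  have h1 := (hP.symm).isUnit_of_dvd' dvd_rfl h
  rw [Ideal.isUnit_iff, Ideal.span_singleton_eq_top] at h1
  exact Q.not_isUnit_lam h1

/-- Proof.  `X + z^q Y = (X + Y) - (1 - z^q) Y` is divisible by `λ` exactly once for `q ≠ 0`.
Write `X + z^q Y = λ c_q` for all `q`.  The `c_q` are pairwise coprime: a maximal ideal `𝔪` with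
`c_q, c_r ∈ 𝔪` contains `(z^q - z^r)/λ Y` and `(z^r - z^q)/λ X`, units times `Y`, `X`.
`∏ c_q = (X^l + Y^l)/λ^l`, so (ideals) `∏ (c_q) = (λ)^(l (M - 1)) P^s J^l`.  `λ` divides only
`c_0`, at least once, so `M ≥ 2`, and `c_0` is divisible by exactly `λ ^ (l (M - 1))`
(`P^s J^l` is prime to `(λ)`; multiplicities of the prime ideal `(λ)`, or
`Associated`/cancellation: the `c_q`, `q ≠ 0`, are prime to `λ` so `(λ)^(l (M-1)) ∣ (c_0)`).
Cancel it and apply `ideal_split` on `univ`. -/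
theorem second_ideals (Q : Cyc l R) {s M : ℕ} (hM : 1 ≤ M) {X Y : R} {P J : Ideal R}
    (hXY : IsCoprime X Y) (hY : ¬ Q.lam ∣ Y) (h2 : Q.lam ^ 2 ∣ X + Y)
    (hP : IsCoprime P (Ideal.span {Q.lam})) (hJ : IsCoprime J (Ideal.span {Q.lam}))
    (h : Ideal.span {X ^ l + Y ^ l} = Ideal.span {Q.lam} ^ (l * M) * P ^ s * J ^ l) :
    2 ≤ M ∧ ∃ A B : ZMod l → Ideal R,
      (∀ q, q ≠ 0 → Ideal.span {X + Q.e q * Y} = Ideal.span {Q.lam} * (A q ^ s * B q ^ l)) ∧
      Ideal.span {X + Y} = Ideal.span {Q.lam} ^ (l * (M - 1) + 1) * (A 0 ^ s * B 0 ^ l) ∧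
      ∏ q, A q = P ∧ ∏ q, B q = J := by
  classical
  have h5 := Q.five_le
  have hlam0 : (Ideal.span {Q.lam} : Ideal R) ≠ 0 := by
    rw [Ne, Ideal.zero_eq_bot, Ideal.span_singleton_eq_bot]
    exact Q.lam_ne_zero
  -- the factors
  have hdvd : ∀ q : ZMod l, Q.lam ∣ X + Q.e q * Y := by
    intro q
    have e : X + Q.e q * Y = (X + Y) - (1 - Q.e q) * Y := by ring
    rw [e]
    exact dvd_sub ((dvd_pow_self _ two_ne_zero).trans h2) ((Q.lam_dvd_one_sub_e q).mul_right _)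
  choose c hc using hdvd
  have hc0 : Q.lam ∣ c 0 := by
    have h3 := hc 0
    rw [Q.e_zero, one_mul] at h3
    rw [h3, pow_two] at h2
    exact (mul_dvd_mul_iff_left Q.lam_ne_zero).1 h2
  -- differences
  have hdiff : ∀ q r : ZMod l, q ≠ r → ∃ v : Rˣ, c q - c r = v * Y ∧
      Q.e q * c r - Q.e r * c q = v * X := by
    intro q r hqr
    obtain ⟨v, hv⟩ := Q.assoc_sub hqr
    refine ⟨v, ?_, ?_⟩
    · apply mul_left_cancel₀ Q.lam_ne_zero
      linear_combination -hc q + hc r - Y * hv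
    · apply mul_left_cancel₀ Q.lam_ne_zero
      linear_combination -Q.e q * hc r + Q.e r * hc q - X * hv
  have hcq : ∀ q : ZMod l, q ≠ 0 → ¬ Q.lam ∣ c q := by
    intro q hq h3
    obtain ⟨v, hv, -⟩ := hdiff q 0 hq
    have h4 : Q.lam ∣ v * Y := by rw [← hv]; exact dvd_sub h3 hc0
    exact hY ((Units.dvd_mul_left).1 h4)
  have hcop : ∀ q r : ZMod l, q ≠ r → IsCoprime (c q) (c r) := by
    intro q r hqr
    obtain ⟨v, hv1, hv2⟩ := hdiff q r hqr
    obtain ⟨a, b, hab⟩ := hXY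
    refine ⟨(↑v⁻¹ : R) * (-a * Q.e r + b), (↑v⁻¹ : R) * (a * Q.e q - b), ?_⟩
    have hvv : (↑v⁻¹ : R) * v = 1 := v.inv_mul
    linear_combination hab + (↑v⁻¹ : R) * a * hv2 + (↑v⁻¹ : R) * b * hv1
      + (a * X + b * Y) * hvv
  -- ideals
  have hprod : ∏ q, Ideal.span {c q} = Ideal.span {Q.lam} ^ (l * (M - 1)) * P ^ s * J ^ l := by
    have h3 : ∏ q : ZMod l, (X + Q.e q * Y) = Q.lam ^ l * ∏ q, c q := by
      rw [prod_congr rfl (fun q _ => hc q), prod_mul_distrib, prod_const, card_univ, ZMod.card]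
    rw [Q.prod_add] at h3
    rw [h3, ← Ideal.span_singleton_mul_span_singleton, ← Ideal.span_singleton_pow,
      ← Ideal.prod_span_singleton] at h
    have h4 : l * M = l + l * (M - 1) := by
      obtain ⟨k, rfl⟩ : ∃ k, M = k + 1 := ⟨M - 1, by omega⟩
      rw [Nat.add_sub_cancel]; ring
    rw [h4, pow_add, mul_assoc, mul_assoc] at h
    have h6 := mul_left_cancel₀ (pow_ne_zero l hlam0) h
    rw [h6, mul_assoc]
  have hcopJ : IsCoprime (P ^ s * J ^ l) (Ideal.span {Q.lam}) :=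
    IsCoprime.mul_left (hP.pow_left) (hJ.pow_left)
  have hM2 : 2 ≤ M := by
    by_contra hM2
    have hM1 : M = 1 := by omega
    rw [hM1, Nat.sub_self, mul_zero, pow_zero, one_mul] at hprod
    apply second1_not_dvd Q hcopJ
    rw [← hprod]
    exact (Ideal.dvd_iff_le.2 (Ideal.span_singleton_le_span_singleton.2 hc0)).trans
      (dvd_prod_of_mem _ (mem_univ (0 : ZMod l)))
  refine ⟨hM2, ?_⟩
  have hsplit : ∏ q, Ideal.span {c q} = Ideal.span {c 0} * ∏ q ∈ univ.erase (0 : ZMod l),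
      Ideal.span {c q} := (mul_prod_erase univ _ (mem_univ (0 : ZMod l))).symm
  have hcoprest : IsCoprime (∏ q ∈ univ.erase (0 : ZMod l), Ideal.span {c q})
      (Ideal.span {Q.lam}) := by
    apply IsCoprime.prod_left
    intro q hq
    rw [Ideal.isCoprime_span_singleton_iff]
    exact second1_coprime_lam Q (hcq q (mem_erase.1 hq).1)
  have hdvd0 : Ideal.span {Q.lam} ^ (l * (M - 1)) ∣ Ideal.span {c 0} := by
    have h3 : Ideal.span {Q.lam} ^ (l * (M - 1)) ∣ Ideal.span {c 0} *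
        ∏ q ∈ univ.erase (0 : ZMod l), Ideal.span {c q} := by
      rw [← hsplit, hprod, mul_assoc]
      exact Dvd.intro _ rfl
    exact (hcoprest.symm.pow_left).dvd_of_dvd_mul_right h3
  obtain ⟨C0, hC0⟩ := hdvd0
  set I : ZMod l → Ideal R := fun q => if q = 0 then C0 else Ideal.span {c q} with hI
  have hI0 : I 0 = C0 := by rw [hI]; exact if_pos rfl
  have hIq : ∀ q : ZMod l, q ≠ 0 → I q = Ideal.span {c q} := fun q hq => by
    rw [hI]; exact if_neg hq
  have hIdvd : ∀ q : ZMod l, I q ∣ Ideal.span {c q} := by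
    intro q
    by_cases hq : q = 0
    · rw [hq, hI0, hC0]; exact Dvd.intro_left _ rfl
    · rw [hIq q hq]
  have hIcop : ∀ q ∈ (univ : Finset (ZMod l)), ∀ r ∈ (univ : Finset (ZMod l)), q ≠ r →
      IsCoprime (I q) (I r) := by
    intro q _ r _ hqr
    have h3 : IsCoprime (Ideal.span {c q}) (Ideal.span {c r}) := by
      rw [Ideal.isCoprime_span_singleton_iff]
      exact hcop q r hqr
    exact (h3.of_isCoprime_of_dvd_left (hIdvd q)).of_isCoprime_of_dvd_right (hIdvd r)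
  have hIprod : ∏ q, I q = P ^ s * J ^ l := by
    have h3 : ∏ q, I q = C0 * ∏ q ∈ univ.erase (0 : ZMod l), Ideal.span {c q} := by
      rw [← mul_prod_erase univ _ (mem_univ (0 : ZMod l)), hI0]
      congr 1
      exact prod_congr rfl (fun q hq => hIq q (mem_erase.1 hq).1)
    rw [h3]
    apply mul_left_cancel₀ (pow_ne_zero (l * (M - 1)) hlam0)
    rw [← mul_assoc, ← hC0, ← hsplit, hprod, mul_assoc]
  obtain ⟨A, B, hAB, hA, hB⟩ := ideal_split univ ⟨0, mem_univ _⟩ I hIcop (second1_ne_zero Q hP)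
    (second1_ne_zero Q hJ) hIprod
  refine ⟨A, B, ?_, ?_, hA, hB⟩
  · intro q hq
    rw [hc q, ← Ideal.span_singleton_mul_span_singleton, ← hAB q (mem_univ _), hIq q hq]
  · have h3 := hc 0
    rw [Q.e_zero, one_mul] at h3
    rw [h3, ← Ideal.span_singleton_mul_span_singleton, hC0, ← hAB 0 (mem_univ _), hI0, pow_succ,
      ← mul_assoc, mul_comm (Ideal.span {Q.lam}) (Ideal.span {Q.lam} ^ (l * (M - 1)))]

end AER
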