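import Pool.Agent.Lib_MP_aeefb1_reg.Second
import Pool.Agent.Lib_MP_aeefb1_reg.FirstZ

/-!
MP_aeefb1_nt: the second case for integers, and Fermat's equation.
-/

open Finset

namespace AER

variable {l : ℕ} [hlp : Fact l.Prime] {R : Type} [CommRing R] [IsDedekindDomain R]
  [CharZero R] [Module.Free ℤ R] [Module.Finite ℤ R]

private theorem SecondZ_cop (Q : Cyc l R) {x y : ℤ} (h : IsCoprime x y) : IsCoprime (x : R) (y : R) := by
  have _ := Q
  exact h.map (Int.castRingHom R)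

/-- The case `l ∣ z`: write `z = l ^ m z'` with `l ∤ z'`; `(l) = (λ) ^ (l - 1)`
(`Q.assoc_lam_pow`); apply `second_case` with `M = (l - 1) m`, `P = (p)`, `J = (z')`.
(`l` divides neither `x` nor `y`: coprime, and `l ∣ x ^ l + y ^ l`.) -/
theorem second_int (Q : Cyc l R) {p : ℕ} (hp : p.Prime) (hpl : p ≠ l) (hp1 : (p : ZMod l) ≠ 1)
    (s : ℕ) {x y z : ℤ} (hxy : IsCoprime x y) (hz : z ≠ 0) (hlz : (l : ℤ) ∣ z)
    (h : x ^ l + y ^ l = p ^ s * z ^ l) : False := by
  have h5 := Q.five_le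
  have hlI : Prime (l : ℤ) := Nat.prime_iff_prime_int.mp hlp.out
  have hl0 : l ≠ 0 := by omega
  -- `l` divides neither `x` nor `y`
  have hsum : (l : ℤ) ∣ x ^ l + y ^ l := by
    rw [h]
    exact (dvd_pow hlz hl0).mul_left _
  have hx : ¬ (l : ℤ) ∣ x := by
    intro hx
    have h1 : (l : ℤ) ∣ y ^ l := (dvd_add_right (dvd_pow hx hl0)).mp hsum
    exact hlI.not_isUnit (hxy.isUnit_of_dvd' hx (hlI.dvd_of_dvd_pow h1))
  have hy : ¬ (l : ℤ) ∣ y := by
    intro hy
    have h1 : (l : ℤ) ∣ x ^ l := (dvd_add_left (dvd_pow hy hl0)).mp hsum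
    exact hlI.not_isUnit (hxy.isUnit_of_dvd' (hlI.dvd_of_dvd_pow h1) hy)
  -- the decomposition of `z`
  have hfin : FiniteMultiplicity (l : ℤ) z := Int.finiteMultiplicity_iff.mpr ⟨by
    rw [Int.natAbs_natCast]
    omega, hz⟩
  obtain ⟨z', hz', hlz'⟩ := hfin.exists_eq_pow_mul_and_not_dvd
  set m := multiplicity (l : ℤ) z with hm
  have hm1 : 1 ≤ m := by
    rw [Nat.one_le_iff_ne_zero]
    intro h0
    rw [h0, pow_zero, one_mul] at hz'
    exact hlz' (hz' ▸ hlz)
  have hcop : IsCoprime (z' : R) Q.lam := by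
    have h1 : IsCoprime z' (l : ℤ) := ((Prime.coprime_iff_not_dvd hlI).mpr hlz').symm
    have h2 : IsCoprime (z' : R) ((l : ℤ) : R) := SecondZ_cop Q h1
    refine h2.of_isCoprime_of_dvd_right ?_
    exact_mod_cast Q.lam_dvd_l
  have hlam : Ideal.span {(l : R)} = Ideal.span {Q.lam} ^ (l - 1) := by
    rw [Ideal.span_singleton_pow]
    exact Ideal.span_singleton_eq_span_singleton.mpr Q.assoc_lam_pow.symm
  refine second_case Q hp hpl hp1 s ((l - 1) * m) (Nat.mul_pos (by omega) hm1)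
    (SecondZ_cop Q hxy) (Q.not_lam_dvd_int hx) (Q.not_lam_dvd_int hy) (dvd_refl (Ideal.span {(p : R)}))
    (J := Ideal.span {(z' : R)}) ((Ideal.isCoprime_span_singleton_iff _ _).mpr hcop) ?_
  have e1 : (x : R) ^ l + (y : R) ^ l = ((l : R) ^ m) ^ l * (p : R) ^ s * (z' : R) ^ l := by
    have h1 : ((x ^ l + y ^ l : ℤ) : R) = ((p ^ s * z ^ l : ℤ) : R) := by rw [h]
    rw [hz'] at h1
    push_cast at h1
    rw [h1]
    ring
  rw [e1, ← Ideal.span_singleton_mul_span_singleton, ← Ideal.span_singleton_mul_span_singleton,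
    ← Ideal.span_singleton_pow, ← Ideal.span_singleton_pow, ← Ideal.span_singleton_pow,
    ← Ideal.span_singleton_pow, hlam]
  congr 2
  rw [← pow_mul, ← pow_mul]
  congr 1
  ring

private theorem SecondZ_zero {m : ℤ} : ((m : ℤ) : ZMod l) = 0 ↔ (l : ℤ) ∣ m :=
  ZMod.intCast_zmod_eq_zero_iff_dvd m l

/-- the first case for one pair -/
private theorem SecondZ_first (Q : Cyc l R) {x y z : ℤ} (hxy : IsCoprime x y) (hx : ¬ (l : ℤ) ∣ x)
    (hy : ¬ (l : ℤ) ∣ y) (hz : ¬ (l : ℤ) ∣ z) (h : x ^ l + y ^ l = z ^ l) : (l : ℤ) ∣ x - y := by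
  have h5 := Q.five_le
  have hmod : ((x + y : ℤ) : ZMod l) = (z : ZMod l) := by
    have h1 : ((x ^ l + y ^ l : ℤ) : ZMod l) = ((z ^ l : ℤ) : ZMod l) := by rw [h]
    push_cast at h1 ⊢
    rwa [ZMod.pow_card, ZMod.pow_card, ZMod.pow_card] at h1
  have hlam : ¬ Q.lam ∣ (x : R) + (y : R) := by
    have h1 : ¬ (l : ℤ) ∣ x + y := by
      rw [← SecondZ_zero, hmod, SecondZ_zero]
      exact hz
    have h2 := Q.not_lam_dvd_int h1
    push_cast at h2
    exact h2
  have hJ : Ideal.span {(x : R) ^ l + (y : R) ^ l}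
      = Ideal.span {((2 : ℕ) : R)} ^ 0 * Ideal.span {(z : R)} ^ l := by
    rw [pow_zero, one_mul, Ideal.span_singleton_pow]
    have h1 : ((x ^ l + y ^ l : ℤ) : R) = ((z ^ l : ℤ) : R) := by rw [h]
    push_cast at h1
    rw [h1]
  obtain ⟨S⟩ := exists_splitting Q Nat.prime_two (by omega) 0 (SecondZ_cop Q hxy) hlam hJ
  have hS := S.eq 1
  rw [pow_zero, one_mul, Q.e_one] at hS
  have hpr : (S.b 1).IsPrincipal := Q.princ _ (by rw [← hS]; exact ⟨⟨_, rfl⟩⟩)
  obtain ⟨w, hw⟩ := hpr.principal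
  have hw' : S.b 1 = Ideal.span {w} := hw
  rw [hw', Ideal.span_singleton_pow, Ideal.span_singleton_eq_span_singleton] at hS
  obtain ⟨u, hu⟩ := hS.symm
  exact first_classical Q hx hy (u := u) (w := w) (by rw [← hu]; ring)

/-- Fermat's last theorem for the regular prime `l`.
Proof.  If `l ∣ z` (or `l ∣ x`, or `l ∣ y`, by symmetry: `x ^ l + (- z) ^ l = (- y) ^ l`) use
`second_int` with `p = 2`, `s = 0`.  If `l` divides none of them: `exists_splitting` with
`p = 2`, `s = 0`, `J = (z)` gives `(x + z y) = b ^ l`, so `x + z y = u w ^ l` by `Q.princ`, and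
`l ∣ x - y` by `first_classical`; the same for `(x, - z)`: `l ∣ x + z`.  Modulo `l`,
`z ≡ x + y ≡ 2 x` and `z ≡ - x`: `l ∣ 3 x`, a contradiction. -/
theorem flt_regular (Q : Cyc l R) {x y z : ℤ} (hxy : IsCoprime x y) (hx : x ≠ 0) (hy : y ≠ 0)
    (hz : z ≠ 0) (h : x ^ l + y ^ l = z ^ l) : False := by
  have h5 := Q.five_le
  have hl0 : 0 < l := by omega
  have hodd : Odd l := hlp.out.odd_of_ne_two (by omega)
  have hlI : Prime (l : ℤ) := Nat.prime_iff_prime_int.mp hlp.out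
  have h21 : ((2 : ℕ) : ZMod l) ≠ 1 := by
    intro h1
    have h2 : ((1 : ℕ) : ZMod l) = 0 := by
      have h3 : ((2 : ℕ) : ZMod l) = ((1 : ℕ) : ZMod l) + 1 := by push_cast; norm_num
      rw [h3] at h1
      simp at h1
    rw [ZMod.natCast_eq_zero_iff] at h2
    have := Nat.le_of_dvd one_pos h2
    omega
  have hny : (-y) ^ l = - y ^ l := hodd.neg_pow y
  have hnx : (-x) ^ l = - x ^ l := hodd.neg_pow x
  have hnz : (-z) ^ l = - z ^ l := hodd.neg_pow z
  have hzy : IsCoprime z y := by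
    have h1 : IsCoprime (x ^ l + y ^ l) y := by
      have h2 : IsCoprime (x ^ l) y := hxy.pow_left
      have h3 : x ^ l + y ^ l = x ^ l + y ^ (l - 1) * y := by
        rw [← pow_succ, Nat.sub_add_cancel hl0]
      rw [h3]
      exact h2.add_mul_right_left _
    rw [h] at h1
    exact (IsCoprime.pow_left_iff hl0).mp h1
  have hzx : IsCoprime z x := by
    have h1 : IsCoprime (y ^ l + x ^ l) x := by
      have h2 : IsCoprime (y ^ l) x := hxy.symm.pow_left
      have h3 : y ^ l + x ^ l = y ^ l + x ^ (l - 1) * x := by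
        rw [← pow_succ, Nat.sub_add_cancel hl0]
      rw [h3]
      exact h2.add_mul_right_left _
    rw [add_comm, h] at h1
    exact (IsCoprime.pow_left_iff hl0).mp h1
  by_cases hlz : (l : ℤ) ∣ z
  · exact second_int Q Nat.prime_two (by omega) h21 0 hxy hz hlz (by rw [pow_zero, one_mul]; exact h)
  by_cases hlx : (l : ℤ) ∣ x
  · refine second_int Q Nat.prime_two (by omega) h21 0 (x := z) (y := -y) hzy.neg_right hx hlx ?_
    rw [pow_zero, one_mul, hny]
    linarith
  by_cases hly : (l : ℤ) ∣ y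
  · refine second_int Q Nat.prime_two (by omega) h21 0 (x := z) (y := -x) hzx.neg_right hy hly ?_
    rw [pow_zero, one_mul, hnx]
    linarith
  have h1 := SecondZ_first Q hxy hlx hly hlz h
  have h2 := SecondZ_first Q (x := x) (y := -z) (z := -y) hzx.symm.neg_right hlx
    (fun h' => hlz ((dvd_neg).mp h')) (fun h' => hly ((dvd_neg).mp h')) (by
      rw [hny, hnz]
      linarith)
  have hmod : (l : ℤ) ∣ x + y - z := by
    rw [← SecondZ_zero]
    have h3 : ((x ^ l + y ^ l : ℤ) : ZMod l) = ((z ^ l : ℤ) : ZMod l) := by rw [h]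
    push_cast at h3 ⊢
    rw [ZMod.pow_card, ZMod.pow_card, ZMod.pow_card] at h3
    rw [h3, sub_self]
  have h3 : (l : ℤ) ∣ 3 * x := by
    have e : 3 * x = (x + y - z) + (x - y) + (x - -z) := by ring
    rw [e]
    exact dvd_add (dvd_add hmod h1) h2
  rcases hlI.dvd_or_dvd h3 with h4 | h4
  · have := Int.le_of_dvd (by norm_num) h4
    omega
  · exact hlx h4

end AER
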