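import Mathlib

/-!
MP_aeefb1_nt: the exponent `7` is regular.
-/

open NumberField

namespace AER

private theorem seven_orderOf_two : orderOf (2 : ZMod 7) = 3 := by
  rw [orderOf_eq_iff (by norm_num)]
  decide

private theorem seven_orderOf_three : orderOf (3 : ZMod 7) = 6 := by
  rw [orderOf_eq_iff (by norm_num)]
  decide

open InfinitePlace Real Nat in
private theorem seven_minkowski (K : Type) [Field K] [NumberField K]
    [IsCyclotomicExtension {7} ℚ K] :
    ⌊(4 / π) ^ nrComplexPlaces K *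
      ((Module.finrank ℚ K)! / (Module.finrank ℚ K) ^ (Module.finrank ℚ K) * √|discr K|)⌋₊ ≤ 4 := by
  have : Fact (Nat.Prime 7) := ⟨by norm_num⟩
  rw [← Nat.lt_succ_iff, Nat.floor_lt (by positivity), IsCyclotomicExtension.Rat.discr_prime 7 K,
    IsCyclotomicExtension.finrank (n := 7) K (Polynomial.cyclotomic.irreducible_rat (by simp)),
    IsCyclotomicExtension.Rat.nrComplexPlaces_eq_totient_div_two 7,
    totient_prime (by norm_num : Nat.Prime 7)]
  have h1 : √(|(((-1) ^ ((7 - 1) / 2) * (7 : ℕ) ^ (7 - 2) : ℤ) : ℝ)|) ≤ 130 := by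
    rw [Real.sqrt_le_left (by norm_num)]
    norm_num
  have h2 : (4 / π) ^ ((7 - 1) / 2) ≤ (4 / 3 : ℝ) ^ 3 := by
    have h3 : (4 / π) ≤ 4 / 3 := by
      apply div_le_div_of_nonneg_left (by norm_num) (by norm_num) pi_gt_three.le
    exact pow_le_pow_left₀ (by positivity) h3 3
  have h3 : ((7 - 1)! : ℝ) / ((7 - 1 : ℕ) : ℝ) ^ (7 - 1) = 720 / 46656 := by
    norm_num [Nat.factorial]
  rw [h3]
  have h5 : (4 / π) ^ ((7 - 1) / 2) *
      (720 / 46656 * √(|(((-1) ^ ((7 - 1) / 2) * (7 : ℕ) ^ (7 - 2) : ℤ) : ℝ)|))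
      ≤ (4 / 3 : ℝ) ^ 3 * (720 / 46656 * 130) := by gcongr
  refine lt_of_le_of_lt h5 ?_
  norm_num

/-- `ℤ[ζ₇]` is a principal ideal domain.
Proof.  `RingOfIntegers.isPrincipalIdealRing_of_isPrincipal_of_lt_or_isPrincipal_of_mem_primesOver_of_mem_Icc`;
the Minkowski bound is `(4/π)^3 6!/6^6 √16807 = 4.13…` (`IsCyclotomicExtension.Rat.discr_prime`,
`nrComplexPlaces_eq_totient_div_two`, as in Mathlib's `five_pid`; `π > 3.1`), and the primes
`2`, `3` have inertia degree `3`, `6` (`IsCyclotomicExtension.Rat.inertiaDeg_eq_of_not_dvd`,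
orders of `2`, `3` modulo `7`). -/
theorem seven_pid (K : Type) [Field K] [NumberField K] [IsCyclotomicExtension {7} ℚ K] :
    IsPrincipalIdealRing (𝓞 K) := by
  apply RingOfIntegers.isPrincipalIdealRing_of_isPrincipal_of_pow_le_of_mem_primesOver_of_mem_Icc
  intro p hp hpp P hP hle
  exfalso
  have hM := seven_minkowski K
  have hp4 : p ≤ 4 := (Finset.mem_Icc.1 hp).2.trans hM
  have hle4 := hle.trans hM
  obtain ⟨hP1, hP2⟩ := hP
  have : Fact p.Prime := ⟨hpp⟩
  have h2 := hpp.two_le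
  have hcases : p = 2 ∨ p = 3 := by
    interval_cases p
    · exact Or.inl rfl
    · exact Or.inr rfl
    · exact absurd hpp (by norm_num)
  have hdeg : P.inertiaDeg ℤ = orderOf (p : ZMod 7) := by
    apply IsCyclotomicExtension.Rat.inertiaDeg_eq_of_not_dvd p K P
    rcases hcases with rfl | rfl <;> norm_num
  rw [hdeg] at hle4
  rcases hcases with rfl | rfl
  · have : orderOf ((2 : ℕ) : ZMod 7) = 3 := seven_orderOf_two
    rw [this] at hle4
    norm_num at hle4
  · have : orderOf ((3 : ℕ) : ZMod 7) = 6 := seven_orderOf_three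
    rw [this] at hle4
    norm_num at hle4

theorem seven_classNumber : ¬ 7 ∣ classNumber (CyclotomicField 7 ℚ) := by
  haveI : IsCyclotomicExtension {7} ℚ (CyclotomicField 7 ℚ) :=
    CyclotomicField.isCyclotomicExtension 7 ℚ
  have h := seven_pid (CyclotomicField 7 ℚ)
  rw [(classNumber_eq_one_iff (K := CyclotomicField 7 ℚ)).mpr h]
  norm_num

theorem seven_bernoulli (k : ℕ) (h1 : 1 ≤ k) (h2 : 2 * k ≤ 7 - 3) :
    ¬ ((7 : ℕ) : ℤ) ∣ (bernoulli (2 * k)).num := by
  have hk : k = 1 ∨ k = 2 := by omega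
  rcases hk with rfl | rfl
  · have h : bernoulli (2 * 1) = 1 / 6 := by
      rw [bernoulli_eq_bernoulli'_of_ne_one (by norm_num), mul_one, bernoulli'_two]
    rw [h]
    norm_num
  · have h : bernoulli (2 * 2) = -1 / 30 := by
      rw [bernoulli_eq_bernoulli'_of_ne_one (by norm_num)]
      exact bernoulli'_four
    rw [h]
    norm_num

end AER
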