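import Pool.Agent.Lib_MP_aeefb1_reg.Elem2

/-!
MP_aeefb1_nt: the factorisation of `(C ^ l + E ^ l) = (p) ^ s J ^ l` into the ideals
`(C + z ^ q E) = a_q ^ s b_q ^ l`.  Definition and first consequences.
-/

open Finset

namespace AER

variable {l : ℕ} [hlp : Fact l.Prime] {R : Type} [CommRing R] [IsDedekindDomain R]
  [CharZero R] [Module.Free ℤ R] [Module.Finite ℤ R]

/-- The factorisation of `(C ^ l + E ^ l) = (p) ^ s J ^ l`, with the norms:
`N a_q = p ^ F_q`, `∑ F_q = l - 1`, all `F_q` multiples of the order of `p` modulo `l`. -/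
structure Splitting (Q : Cyc l R) (p s : ℕ) (C E : R) (J : Ideal R) where
  a : ZMod l → Ideal R
  b : ZMod l → Ideal R
  F : ZMod l → ℕ
  eq : ∀ q, Ideal.span {C + Q.e q * E} = a q ^ s * b q ^ l
  prod_a : ∏ q, a q = Ideal.span {(p : R)}
  prod_b : ∏ q, b q = J
  norm_a : ∀ q, Ideal.absNorm (a q) = p ^ F q
  sum_F : ∑ q, F q = l - 1
  ord_F : ∀ q, orderOf (p : ZMod l) ∣ F q
  norm : ∀ q, ((Algebra.norm ℤ (C + Q.e q * E) : ℤ) : ZMod (l ^ 2)) = (p : ZMod (l ^ 2)) ^ (s * F q)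

namespace Splitting

variable {Q : Cyc l R} {p s : ℕ} {C E : R} {J : Ideal R} (S : Splitting Q p s C E J)

include S in
theorem F_le (q : ZMod l) : S.F q ≤ l - 1 := by
  rw [← S.sum_F]
  exact single_le_sum (f := S.F) (fun _ _ => Nat.zero_le _) (mem_univ q)

/-- `F_q = 0` means that `a_q` is trivial -/
theorem a_eq_one {q : ZMod l} (h : S.F q = 0) : S.a q = 1 := by
  have h1 := S.norm_a q
  rw [h, pow_zero, Ideal.absNorm_eq_one_iff] at h1
  rw [h1, Ideal.one_eq_top]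

/-- some `q ≠ 0` has `F_q = 0`, if the order of `p` modulo `l` is at least `2` -/
theorem exists_good (hp : p.Prime) (hpl : p ≠ l) (hp1 : (p : ZMod l) ≠ 1) :
    ∃ q : ZMod l, q ≠ 0 ∧ S.F q = 0 := by
  by_contra hcon
  push Not at hcon
  have h5 := Q.five_le
  have hp0 : (p : ZMod l) ≠ 0 := by
    intro h0
    rw [ZMod.natCast_eq_zero_iff] at h0
    exact hpl ((Nat.prime_dvd_prime_iff_eq hlp.out hp).mp h0).symm
  have hpos : 0 < orderOf (p : ZMod l) := by
    rw [orderOf_pos_iff, isOfFinOrder_iff_pow_eq_one]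
    exact ⟨l - 1, by omega, ZMod.pow_card_sub_one_eq_one hp0⟩
  have hord : 2 ≤ orderOf (p : ZMod l) := by
    have hne : orderOf (p : ZMod l) ≠ 1 := fun h1 => hp1 (orderOf_eq_one_iff.mp h1)
    omega
  have h2 : ∀ q ∈ univ.erase (0 : ZMod l), 2 ≤ S.F q := by
    intro q hq
    exact hord.trans (Nat.le_of_dvd (Nat.pos_of_ne_zero (hcon q (mem_erase.mp hq).1)) (S.ord_F q))
  have h3 : (univ.erase (0 : ZMod l)).card • 2 ≤ ∑ q ∈ univ.erase (0 : ZMod l), S.F q :=
    card_nsmul_le_sum _ _ _ h2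
  rw [card_erase_of_mem (mem_univ _), card_univ, ZMod.card, smul_eq_mul] at h3
  have h4 : ∑ q ∈ univ.erase (0 : ZMod l), S.F q ≤ ∑ q, S.F q :=
    sum_le_sum_of_subset (erase_subset _ _)
  rw [S.sum_F] at h4
  omega

/-- `p ^ (s F) = 1` modulo `l ^ 2` with `F ≤ l - 1` forces `F = 0`
(`p ^ (l (l - 1)) = 1` modulo `l ^ 2`, so `p ^ gcd (s F, l (l-1)) = 1`, and if `F ≠ 0` the gcd
divides `l - 1`) -/
theorem F_eq_zero (hp : p.Prime) (hpl : p ≠ l) (hp2 : (p : ZMod (l ^ 2)) ^ (l - 1) ≠ 1)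
    (hs : ¬ l ∣ s) {q : ZMod l} (h : (p : ZMod (l ^ 2)) ^ (s * S.F q) = 1) : S.F q = 0 := by
  by_contra hF
  apply hp2
  have h5 := Q.five_le
  have hle := S.F_le q
  have hlF : ¬ l ∣ S.F q := fun hd => by
    have := Nat.le_of_dvd (Nat.pos_of_ne_zero hF) hd
    omega
  have hco : Nat.Coprime p (l ^ 2) :=
    Nat.Coprime.pow_right 2 ((Nat.coprime_primes hp hlp.out).mpr hpl)
  have hE : (p : ZMod (l ^ 2)) ^ (l * (l - 1)) = 1 := by
    have h1 := Nat.ModEq.pow_totient hco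
    rw [Nat.totient_prime_pow hlp.out (by norm_num : 0 < 2)] at h1
    have h2 := (ZMod.natCast_eq_natCast_iff _ _ _).mpr h1
    push_cast at h2
    simpa using h2
  have hd1 : orderOf (p : ZMod (l ^ 2)) ∣ s * S.F q := orderOf_dvd_of_pow_eq_one h
  have hd2 : orderOf (p : ZMod (l ^ 2)) ∣ l * (l - 1) := orderOf_dvd_of_pow_eq_one hE
  have hcop : Nat.Coprime (orderOf (p : ZMod (l ^ 2))) l := by
    rw [Nat.coprime_comm, Nat.Prime.coprime_iff_not_dvd hlp.out]
    intro hd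
    rcases (Nat.Prime.dvd_mul hlp.out).mp (hd.trans hd1) with h1 | h1
    · exact hs h1
    · exact hlF h1
  exact orderOf_dvd_iff_pow_eq_one.mp (hcop.dvd_of_dvd_mul_left hd2)

/-- if all the `a_q`, `q ≠ 0`, are trivial then `a_0 = (p)` -/
theorem a_zero (h : ∀ q : ZMod l, q ≠ 0 → S.F q = 0) : S.a 0 = Ideal.span {(p : R)} := by
  rw [← S.prod_a]
  symm
  exact Fintype.prod_eq_single 0 (fun q hq => S.a_eq_one (h q hq))

/-- a nonzero principal ideal may be cancelled from a principal ideal -/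
private theorem splitting_cancel {x y : R} (hx : x ≠ 0) {K : Ideal R}
    (h : Ideal.span {y} = Ideal.span {x} * K) : ∃ t : R, y = x * t ∧ Ideal.span {t} = K := by
  have h2 : y ∈ Ideal.span {x} * K := by
    rw [← h]
    exact Ideal.mem_span_singleton_self _
  have h4 : Ideal.span {x} * K ≤ Ideal.span {x} := Ideal.mul_le_left
  obtain ⟨t, ht⟩ := Ideal.mem_span_singleton.mp (h4 h2)
  refine ⟨t, ht, ?_⟩
  rw [ht, ← Ideal.span_singleton_mul_span_singleton] at h
  exact (Ideal.span_singleton_mul_right_inj hx).mp h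

include Q in
/-- if an ideal equation `(x) = I ^ l` holds then `x` is a unit times an `l`-th power of a
generator of `I` -/
private theorem splitting_gen {x : R} {I : Ideal R} (h : Ideal.span {x} = I ^ l) :
    ∃ (u : Rˣ) (w : R), x = u * w ^ l ∧ I = Ideal.span {w} := by
  have hpr : (I ^ l).IsPrincipal := ⟨x, h.symm⟩
  obtain ⟨w, hw⟩ := Q.princ I hpr
  have hw' : I = Ideal.span {w} := hw
  rw [hw', Ideal.span_singleton_pow, Ideal.span_singleton_eq_span_singleton] at h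
  obtain ⟨u, hu⟩ := h.symm
  exact ⟨u, w, by rw [← hu]; ring, hw'⟩

/-- if `F_q = 0` then `C + z ^ q E` is a unit times an `l`-th power of a generator of `b_q`
(`Q.princ`) -/
theorem exists_gen {q : ZMod l} (h : S.F q = 0) :
    ∃ (u : Rˣ) (w : R), C + Q.e q * E = u * w ^ l ∧ S.b q = Ideal.span {w} := by
  have h1 := S.eq q
  rw [S.a_eq_one h, one_pow, one_mul] at h1
  exact splitting_gen (Q := Q) h1

/-- if all primes over `p` divide `C + E` then `C + E` is a unit times `p ^ s` times an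
`l`-th power of a generator of `b_0` -/
theorem exists_gen_zero (hp : p.Prime) (h : ∀ q : ZMod l, q ≠ 0 → S.F q = 0) :
    ∃ (u : Rˣ) (w : R), C + E = u * p ^ s * w ^ l ∧ S.b 0 = Ideal.span {w} := by
  have h1 := S.eq 0
  rw [S.a_zero h, Q.e_zero, one_mul, Ideal.span_singleton_pow] at h1
  have hp0 : ((p : R) ^ s) ≠ 0 := pow_ne_zero _ (by exact_mod_cast hp.ne_zero)
  obtain ⟨t, ht, h3⟩ := splitting_cancel hp0 h1
  obtain ⟨u, w, hu, hw⟩ := splitting_gen (Q := Q) h3
  exact ⟨u, w, by rw [ht, hu]; ring, hw⟩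

end Splitting

end AER
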